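import Pool.Agent.Lib.MP_01b126_co.Basic

/-!
# Every edge of a unimodular triangulation has an apex on each side (inside the rectangle)
-/

namespace Pool.Agent.MP01b126

theorem cramer (w D x : Pt) : det w D • x = det x D • w - det x w • D := by
  ext
  · simp only [Prod.fst_sub, Prod.smul_fst, smul_eq_mul, det]; ring
  · simp only [Prod.snd_sub, Prod.smul_snd, smul_eq_mul, det]; ring

/-- the algebraic heart of the apex lemma -/
theorem apex_core {a w p q p' q' : Pt} (h1 : Prim (q - p)) (h2 : Prim (q' - p'))
    (hs : det w (p + q - a - a) = 1) (hs' : p' + q' = p + q + w)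
    (hC : 0 < det w (q - p)) (hC' : 0 < det w (q' - p'))
    (hL : det (q - p) (a - p) ≤ 0) (hR : 0 ≤ det (q' - p') (a + w - p'))
    (hn : ¬ Cross p q p' q') : p = a ∧ p' = a + w ∧ q = q' := by
  set D := q - p with hD
  set D' := q' - p' with hD'
  set C := det w D with hCd
  set C' := det w D' with hCd'
  set al := det D (a - p) with hal
  set be := det D' (a + w - p') with hbe
  have e1 : 2 * det w (p - a) = 1 - C := by
    have : det w (p + q - a - a) = det w (p - a) + det w (p - a) + C := by
      rw [hCd, hD]
      simp only [det, Prod.fst_sub, Prod.snd_sub, Prod.fst_add, Prod.snd_add]; ring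
    linarith
  have e2 : 2 * det w (p' - a) = 1 - C' := by
    have : det w (p + q - a - a) = det w (p' + q' - a - a) := by
      rw [hs']
      simp only [det, Prod.fst_sub, Prod.snd_sub, Prod.fst_add, Prod.snd_add]; ring
    have h3 : det w (p' + q' - a - a) = det w (p' - a) + det w (p' - a) + C' := by
      rw [hCd', hD']
      simp only [det, Prod.fst_sub, Prod.snd_sub, Prod.fst_add, Prod.snd_add]; ring
    linarith
  have hq' : q' = p + q + w - p' := by rw [← hs']; abel
  have V : (C * C') • w = (2 * al * C' - 2 * be * C) • w + C' • D - C • D' := by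
    ext
    · have x1 := congrArg Prod.fst (cramer w D (a - p))
      have x2 := congrArg Prod.fst (cramer w D' (a + w - p'))
      have x3 : D'.1 = p.1 + q.1 + w.1 - p'.1 - p'.1 := by
        rw [hD', hq']; simp
      have x4 : D.1 = q.1 - p.1 := by rw [hD]; simp
      have x5 : det (a - p) D = - al := by rw [hal, det_swap]
      have x6 : det (a + w - p') D' = - be := by rw [hbe, det_swap]
      have x7 : det (a - p) w = det w (p - a) := by
        simp only [det, Prod.fst_sub, Prod.snd_sub]; ring
      have x8 : det (a + w - p') w = det w (p' - a) := by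
        simp only [det, Prod.fst_sub, Prod.snd_sub, Prod.fst_add, Prod.snd_add]; ring
      rw [x5, x7] at x1
      rw [x6, x8] at x2
      simp only [Prod.fst_sub, Prod.smul_fst, smul_eq_mul, Prod.fst_add] at x1 x2 ⊢
      rw [← hCd] at x1
      rw [← hCd'] at x2
      linear_combination (2 * C) * x2 - (2 * C') * x1 + (C' * D.1) * e1 - (C * D'.1) * e2
        + C * C' * x3 - C * C' * x4
    · have x1 := congrArg Prod.snd (cramer w D (a - p))
      have x2 := congrArg Prod.snd (cramer w D' (a + w - p'))
      have x3 : D'.2 = p.2 + q.2 + w.2 - p'.2 - p'.2 := by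
        rw [hD', hq']; simp
      have x4 : D.2 = q.2 - p.2 := by rw [hD]; simp
      have x5 : det (a - p) D = - al := by rw [hal, det_swap]
      have x6 : det (a + w - p') D' = - be := by rw [hbe, det_swap]
      have x7 : det (a - p) w = det w (p - a) := by
        simp only [det, Prod.fst_sub, Prod.snd_sub]; ring
      have x8 : det (a + w - p') w = det w (p' - a) := by
        simp only [det, Prod.fst_sub, Prod.snd_sub, Prod.fst_add, Prod.snd_add]; ring
      rw [x5, x7] at x1
      rw [x6, x8] at x2
      simp only [Prod.snd_sub, Prod.smul_snd, smul_eq_mul, Prod.snd_add] at x1 x2 ⊢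
      rw [← hCd] at x1
      rw [← hCd'] at x2
      linear_combination (2 * C) * x2 - (2 * C') * x1 + (C' * D.2) * e1 - (C * D'.2) * e2
        + C * C' * x3 - C * C' * x4
  have hdel : det D D' = C * C' - 2 * al * C' + 2 * be * C := by
    have h3 := congrArg (det D) V
    simp only [det_add_right, det_sub_right, det_smul_right, det_self] at h3
    have h4 : det D w = - C := by rw [hCd, det_swap]
    rw [h4] at h3
    have : C * (det D D' - (C * C' - 2 * al * C' + 2 * be * C)) = 0 := by
      linear_combination h3
    rcases mul_eq_zero.mp this with h5 | h5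
    · exact absurd h5 (ne_of_gt hC)
    · linarith
  -- crossing determinants
  have c1 : 2 * det D (p' - p) = - C - det D D' := by
    have : det D D' = det D (p + q + w - p' - p') := by rw [hD', hq']
    rw [this, hCd]
    have hq : q = p + D := by rw [hD]; abel
    rw [hq]
    simp only [det, Prod.fst_sub, Prod.snd_sub, Prod.fst_add, Prod.snd_add]; ring
  have c2 : 2 * det D (q' - p) = - C + det D D' := by
    have : det D (q' - p) = det D (p' - p) + det D D' := by
      rw [hD']; simp only [det, Prod.fst_sub, Prod.snd_sub]; ring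
    linarith
  have c3 : 2 * det D' (p - p') = C' + det D D' := by
    have h5 : q = p' + q' - w - p := by rw [hs']; abel
    have : det D D' = det (p' + q' - w - p - p) D' := by rw [hD, h5]
    rw [this, hCd']
    have hq : q' = p' + D' := by rw [hD']; abel
    rw [hq]
    simp only [det, Prod.fst_sub, Prod.snd_sub, Prod.fst_add, Prod.snd_add]; ring
  have c4 : 2 * det D' (q - p') = C' - det D D' := by
    have : det D' (q - p') = det D' (p - p') - det D D' := by
      rw [hD]; simp only [det, Prod.fst_sub, Prod.snd_sub]; ring
    linarith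
  have hpos : C * C' ≤ det D D' := by
    rw [hdel]
    have := mul_nonneg (neg_nonneg.mpr hL) hC'.le
    have := mul_nonneg hR hC.le
    nlinarith
  have hzero : al = 0 ∧ be = 0 := by
    have hor : det D D' ≤ C ∨ det D D' ≤ C' := by
      by_contra hc
      push Not at hc
      obtain ⟨hc1, hc2⟩ := hc
      apply hn
      constructor
      · change det D (p' - p) * det D (q' - p) < 0
        have : 4 * (det D (p' - p) * det D (q' - p)) < 0 := by
          have : 4 * (det D (p' - p) * det D (q' - p)) =
            (2 * det D (p' - p)) * (2 * det D (q' - p)) := by ring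
          rw [this, c1, c2]
          exact mul_neg_of_neg_of_pos (by linarith) (by linarith)
        linarith
      · change det D' (p - p') * det D' (q - p') < 0
        have : 4 * (det D' (p - p') * det D' (q - p')) < 0 := by
          have : 4 * (det D' (p - p') * det D' (q - p')) =
            (2 * det D' (p - p')) * (2 * det D' (q - p')) := by ring
          rw [this, c3, c4]
          exact mul_neg_of_pos_of_neg (by linarith) (by linarith)
        linarith
    have k1 := mul_nonneg (neg_nonneg.mpr hL) hC'.le
    have k2 := mul_nonneg hR hC.le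
    rw [hdel] at hor
    rcases hor with h5 | h5
    · have k3 : 0 ≤ C * (C' - 1) := mul_nonneg hC.le (by linarith)
      have k4 : al * C' = 0 := by nlinarith
      have k5 : be * C = 0 := by nlinarith
      exact ⟨(mul_eq_zero.mp k4).resolve_right (ne_of_gt hC'),
        (mul_eq_zero.mp k5).resolve_right (ne_of_gt hC)⟩
    · have k3 : 0 ≤ C' * (C - 1) := mul_nonneg hC'.le (by linarith)
      have k4 : al * C' = 0 := by nlinarith
      have k5 : be * C = 0 := by nlinarith
      exact ⟨(mul_eq_zero.mp k4).resolve_right (ne_of_gt hC'),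
        (mul_eq_zero.mp k5).resolve_right (ne_of_gt hC)⟩
  have aux : ∀ (D x : Pt) (C : ℤ), Prim D → 0 < C → det w D = C → det D x = 0 →
      2 * det w x = C - 1 → x = 0 := by
    intro D x C hp hC hw h0 h2
    obtain ⟨t, rfl⟩ := hp.eq_smul h0
    rw [det_smul_right, hw] at h2
    have : C * (1 - 2 * t) = 1 := by linear_combination - h2
    have hu : IsUnit (1 - 2 * t) := isUnit_of_dvd_one ⟨C, by linarith⟩
    rcases Int.isUnit_iff.mp hu with h3 | h3
    · have : t = 0 := by omega
      rw [this, zero_smul]
    · rw [h3] at this; exfalso; linarith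
  have f1 : a - p = 0 := by
    refine aux D (a - p) C h1 hC rfl hzero.1 ?_
    have : det w (a - p) = - det w (p - a) := by rw [← det_neg_right]; congr 1; abel
    rw [this]; linarith
  have f2 : a + w - p' = 0 := by
    refine aux D' (a + w - p') C' h2 hC' rfl hzero.2 ?_
    have : det w (a + w - p') = - det w (p' - a) := by
      simp only [det, Prod.fst_sub, Prod.snd_sub, Prod.fst_add, Prod.snd_add]; ring
    rw [this]; linarith
  have g1 : p = a := (sub_eq_zero.mp f1).symm
  have g2 : p' = a + w := (sub_eq_zero.mp f2).symm
  refine ⟨g1, g2, ?_⟩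
  rw [hq', g1, g2]; abel

theorem half_height {a w p q : Pt} (hs : det w (p + q - a - a) = 1) :
    2 * det w (p - a) = 1 - det w (q - p) := by
  have : det w (p + q - a - a) = det w (p - a) + det w (p - a) + det w (q - p) := by
    simp only [det, Prod.fst_sub, Prod.snd_sub, Prod.fst_add, Prod.snd_add]; ring
  linarith

theorem ext_left {m n : ℕ} {a w p q : Pt} (hs : det w (p + q - a - a) = 1)
    (hC : 0 < det w (q - p)) (hR : 0 ≤ det (q - p) (a + w - p))
    (ha : InR m n a) (hp : InR m n p) (hq : InR m n q) : InR2 m n (p + q - w) := by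
  have e1 := half_height hs
  have e2 : det (q - p) (a - p) = det (q - p) (a + w - p) + det w (q - p) := by
    simp only [det, Prod.fst_sub, Prod.snd_sub, Prod.fst_add, Prod.snd_add]; ring
  have e3 := cramer w (q - p) (a - p)
  have e4 : det (a - p) (q - p) = - det (q - p) (a - p) := det_swap _ _
  have e5 : det (a - p) w = det w (p - a) := by
    simp only [det, Prod.fst_sub, Prod.snd_sub]; ring
  rw [e4, e5] at e3
  set al := det (q - p) (a - p)
  set C := det w (q - p)
  set t := det w (p - a)
  refine comb (x := a) (y := p) (z := q) (al := al) (l1 := C) (l2 := al - (1 - t))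
    (l3 := al - (1 - t) + 1) (by linarith) hC.le (by linarith) (by linarith) (by linarith)
    ?_ ha hp hq
  ext
  · have := congrArg Prod.fst e3
    simp only [Prod.fst_sub, Prod.smul_fst, smul_eq_mul, Prod.fst_add] at this ⊢
    linear_combination - this - p.1 * e1
  · have := congrArg Prod.snd e3
    simp only [Prod.snd_sub, Prod.smul_snd, smul_eq_mul, Prod.snd_add] at this ⊢
    linear_combination - this - p.2 * e1

theorem ext_right {m n : ℕ} {a w p q : Pt} (hs : det w (p + q - a - a) = 1)
    (hC : 0 < det w (q - p)) (hL : det (q - p) (a - p) ≤ 0)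
    (hb : InR m n (a + w)) (hp : InR m n p) (hq : InR m n q) : InR2 m n (p + q + w) := by
  have e1 := half_height hs
  have e2 : det (q - p) (a + w - p) = det (q - p) (a - p) - det w (q - p) := by
    simp only [det, Prod.fst_sub, Prod.snd_sub, Prod.fst_add, Prod.snd_add]; ring
  have e3 := cramer w (q - p) (a + w - p)
  have e4 : det (a + w - p) (q - p) = - det (q - p) (a + w - p) := det_swap _ _
  have e5 : det (a + w - p) w = det w (p - a) := by
    simp only [det, Prod.fst_sub, Prod.snd_sub, Prod.fst_add, Prod.snd_add]; ring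
  rw [e4, e5] at e3
  set be := det (q - p) (a + w - p)
  set C := det w (q - p)
  set t := det w (p - a)
  refine comb (x := a + w) (y := p) (z := q) (al := - be) (l1 := C) (l2 := - be - (1 - t))
    (l3 := - be - (1 - t) + 1) (by linarith) hC.le (by linarith) (by linarith) (by linarith)
    ?_ hb hp hq
  ext
  · have := congrArg Prod.fst e3
    simp only [Prod.fst_sub, Prod.smul_fst, smul_eq_mul, Prod.fst_add] at this ⊢
    linear_combination - this - p.1 * e1
  · have := congrArg Prod.snd e3
    simp only [Prod.snd_sub, Prod.smul_snd, smul_eq_mul, Prod.snd_add] at this ⊢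
    linear_combination - this - p.2 * e1

namespace IsTri

variable {m n : ℕ} {E : Pt → Pt → Prop}

/-- the edge with a given midpoint at height one half over `w`, oriented upwards -/
theorem oriented (h : IsTri m n E) {a w s : Pt} (hs : det w (s - a - a) = 1) (hin : InR2 m n s) :
    ∃ p q, E p q ∧ p + q = s ∧ 0 < det w (q - p) := by
  have ho : ¬ (Even s.1 ∧ Even s.2) := by
    rintro ⟨⟨x, hx⟩, ⟨y, hy⟩⟩
    simp only [det, Prod.fst_sub, Prod.snd_sub] at hs
    rw [hx, hy] at hs
    have : 2 * (w.1 * (y - a.2) - w.2 * (x - a.1)) = 1 := by linarith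
    omega
  obtain ⟨p, q, hpq, hsum⟩ := h.full' hin ho
  have e1 : 2 * det w (p - a) = 1 - det w (q - p) := half_height (by rw [hsum]; exact hs)
  rcases lt_trichotomy (det w (q - p)) 0 with h1 | h1 | h1
  · refine ⟨q, p, h.symm _ _ hpq, by rw [add_comm]; exact hsum, ?_⟩
    have : det w (p - q) = - det w (q - p) := by
      simp only [det, Prod.fst_sub, Prod.snd_sub]; ring
    rw [this]; linarith
  · rw [h1] at e1; omega
  · exact ⟨p, q, hpq, hsum, h1⟩

theorem left_or_right (h : IsTri m n E) {a b p q : Pt} (hab : E a b) (hpq : E p q)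
    (hs : det (b - a) (p + q - a - a) = 1) (_hC : 0 < det (b - a) (q - p)) :
    det (q - p) (a - p) ≤ 0 ∨ 0 ≤ det (q - p) (b - p) := by
  have e1 := half_height hs
  have e2 : det (q - p) (b - p) = det (q - p) (a - p) - det (b - a) (q - p) := by
    simp only [det, Prod.fst_sub, Prod.snd_sub]; ring
  by_contra hc
  push Not at hc
  obtain ⟨c1, c2⟩ := hc
  rcases eq_or_ne (det (b - a) (p - a)) 0 with h0 | h0
  · obtain ⟨j, hj⟩ := (h.prim _ _ hab).eq_smul h0
    have e3 : det (q - p) (a - p) = j * det (b - a) (q - p) := by
      have : a - p = - (j • (b - a)) := by rw [← hj]; abel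
      rw [this, det_neg_right, det_smul_right, det_swap (q - p)]; ring
    rw [h0] at e1
    have e4 : det (b - a) (q - p) = 1 := by linarith
    rw [e4] at e2 e3
    rw [e2, e3] at c2
    rw [e3] at c1
    omega
  · refine h.ncr _ _ _ _ hab hpq ⟨?_, ?_⟩
    · have e5 : det (b - a) (q - a) = det (b - a) (p - a) + det (b - a) (q - p) := by
        simp only [det, Prod.fst_sub, Prod.snd_sub]; ring
      have : det (b - a) (p - a) < 0 := by
        rcases lt_or_gt_of_ne h0 with h1 | h1
        · exact h1
        · exfalso; linarith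
      exact mul_neg_of_neg_of_pos this (by linarith)
    · exact mul_neg_of_pos_of_neg c1 c2

/-- every edge with a point of the rectangle on its left has a left apex -/
theorem apex_exists (h : IsTri m n E) {a b z : Pt} (hab : E a b) (hz : InR m n z)
    (hpos : 0 < det (b - a) (z - a)) : ∃ c, Tr E a b c := by
  set w := b - a with hw
  have hb : b = a + w := by rw [hw]; abel
  have hwp : Prim w := h.prim _ _ hab
  have haR := h.inR _ _ hab
  have hbR := h.inR' hab
  obtain ⟨e, he⟩ := hwp.exists_det
  -- the sums at height one
  set S : ℤ → Pt := fun k => a + a + e + k • w with hS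
  have hS1 : ∀ k, det w (S k - a - a) = 1 := by
    intro k
    have : S k - a - a = e + k • w := by rw [hS]; simp only; abel
    rw [this, det_add_right, det_smul_right, det_self, he]; ring
  have hSs : ∀ k, S (k + 1) = S k + w := by
    intro k; rw [hS]; simp only [add_smul, one_smul]; abel
  -- a starting midpoint
  have hstart : ∃ k, InR2 m n (S k) := by
    set H := det w (z - a) with hH
    set Z := det (z - a) e with hZ
    have hz2 : z - a = Z • w + H • e := expand he (z - a)
    set k := (Z + H - 1) / H with hk
    have hk1 : H * k ≤ Z + H - 1 := Int.mul_ediv_self_le (ne_of_gt hpos)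
    have hk2 : Z + H - 1 < H * k + H := by
      have := Int.lt_mul_ediv_self_add (x := Z + H - 1) hpos
      linarith
    refine ⟨k, comb (x := a) (y := b) (z := z) (al := H) (l1 := 2 * H - 1 - (H * k - Z))
      (l2 := H * k - Z) (l3 := 1) hpos (by linarith) (by linarith) (by norm_num) (by ring)
      ?_ haR hbR hz⟩
    have hzz : z = a + (Z • w + H • e) := by rw [← hz2]; abel
    rw [hb, hzz, hS]
    ext
    · simp only [Prod.smul_fst, smul_eq_mul, Prod.fst_add]; ring
    · simp only [Prod.smul_snd, smul_eq_mul, Prod.snd_add]; ring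
  -- bounded
  have hbd : ∀ k, ∃ N : ℕ, ∀ j : ℕ, N ≤ j → ¬ InR2 m n (S (k + j)) ∧ ¬ InR2 m n (S (k - j)) := by
    intro k
    have hw0 := hwp.ne_zero
    have hcases : w.1 ≠ 0 ∨ w.2 ≠ 0 := by
      by_contra hc
      push Not at hc
      exact hw0 (Prod.ext hc.1 hc.2)
    rcases hcases with h1 | h1
    · refine ⟨(2 * m + 1 + |(S k).1|).toNat, ?_⟩
      intro j hj
      have hj' : (2 * m + 1 + |(S k).1| : ℤ) ≤ j := by
        have := Int.toNat_le.mp hj; exact this
      have e1 : (S (k + j)).1 = (S k).1 + j * w.1 := by
        rw [hS]; simp only [Prod.fst_add, Prod.smul_fst, smul_eq_mul]; ring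
      have e2 : (S (k - j)).1 = (S k).1 - j * w.1 := by
        rw [hS]; simp only [Prod.fst_add, Prod.smul_fst, smul_eq_mul]; ring
      have habs := abs_le.mp (le_refl |(S k).1|)
      have hw1 : 1 ≤ |w.1| := Int.one_le_abs h1
      rcases le_or_gt 0 w.1 with h2 | h2
      · rw [abs_of_nonneg h2] at hw1
        constructor
        · rintro ⟨q1, q2, -, -⟩
          rw [e1] at q2; nlinarith
        · rintro ⟨q1, q2, -, -⟩
          rw [e2] at q1; nlinarith
      · rw [abs_of_neg h2] at hw1
        constructor
        · rintro ⟨q1, q2, -, -⟩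
          rw [e1] at q1; nlinarith
        · rintro ⟨q1, q2, -, -⟩
          rw [e2] at q2; nlinarith
    · refine ⟨(2 * n + 1 + |(S k).2|).toNat, ?_⟩
      intro j hj
      have hj' : (2 * n + 1 + |(S k).2| : ℤ) ≤ j := by
        have := Int.toNat_le.mp hj; exact this
      have e1 : (S (k + j)).2 = (S k).2 + j * w.2 := by
        rw [hS]; simp only [Prod.snd_add, Prod.smul_snd, smul_eq_mul]; ring
      have e2 : (S (k - j)).2 = (S k).2 - j * w.2 := by
        rw [hS]; simp only [Prod.snd_add, Prod.smul_snd, smul_eq_mul]; ring
      have habs := abs_le.mp (le_refl |(S k).2|)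
      have hw1 : 1 ≤ |w.2| := Int.one_le_abs h1
      rcases le_or_gt 0 w.2 with h2 | h2
      · rw [abs_of_nonneg h2] at hw1
        constructor
        · rintro ⟨-, -, q1, q2⟩
          rw [e1] at q2; nlinarith
        · rintro ⟨-, -, q1, q2⟩
          rw [e2] at q1; nlinarith
      · rw [abs_of_neg h2] at hw1
        constructor
        · rintro ⟨-, -, q1, q2⟩
          rw [e1] at q1; nlinarith
        · rintro ⟨-, -, q1, q2⟩
          rw [e2] at q2; nlinarith
  -- left and right types
  let L : ℤ → Prop := fun k => ∃ p q, E p q ∧ p + q = S k ∧ 0 < det w (q - p) ∧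
    det (q - p) (a - p) ≤ 0
  let R : ℤ → Prop := fun k => ∃ p q, E p q ∧ p + q = S k ∧ 0 < det w (q - p) ∧
    0 ≤ det (q - p) (b - p)
  have hLR : ∀ k, InR2 m n (S k) → L k ∨ R k := by
    intro k hk
    obtain ⟨p, q, h1, h2, h3⟩ := h.oriented (hS1 k) hk
    rcases h.left_or_right hab h1 (by rw [h2]; exact hS1 k) h3 with h4 | h4
    · exact Or.inl ⟨p, q, h1, h2, h3, h4⟩
    · exact Or.inr ⟨p, q, h1, h2, h3, h4⟩
  have hLn : ∀ k, L k → InR2 m n (S (k + 1)) := by
    rintro k ⟨p, q, h1, h2, h3, h4⟩
    rw [hSs, ← h2]
    exact ext_right (by rw [h2]; exact hS1 k) h3 h4 (hb ▸ hbR) (h.inR _ _ h1) (h.inR' h1)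
  have hRn : ∀ k, R k → InR2 m n (S (k - 1)) := by
    rintro k ⟨p, q, h1, h2, h3, h4⟩
    have : S (k - 1) = S k - w := by
      have := hSs (k - 1)
      rw [sub_add_cancel] at this
      rw [this]; abel
    rw [this, ← h2]
    exact ext_left (a := a) (by rw [h2]; exact hS1 k) h3 (by rw [← hb]; exact h4) haR
      (h.inR _ _ h1) (h.inR' h1)
  have hfin : ∃ k, L k ∧ R (k + 1) := by
    obtain ⟨k, hk⟩ := hstart
    by_contra hc
    push Not at hc
    obtain ⟨N, hN⟩ := hbd k
    rcases hLR k hk with h1 | h1
    · have : ∀ j : ℕ, L (k + j) := by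
        intro j
        induction j with
        | zero => simpa using h1
        | succ j ih =>
          have h2 := hLR _ (hLn _ ih)
          rcases h2 with h3 | h3
          · push_cast; rw [← add_assoc]; exact h3
          · exact absurd h3 (hc _ ih)
      have h2 := hLn _ (this N)
      have := (hN (N + 1) (by omega)).1
      push_cast at this
      rw [← add_assoc] at this
      exact this h2
    · have : ∀ j : ℕ, R (k - j) := by
        intro j
        induction j with
        | zero => simpa using h1
        | succ j ih =>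
          have h2 := hLR _ (hRn _ ih)
          rcases h2 with h3 | h3
          · exfalso
            refine hc _ h3 ?_
            rw [sub_add_cancel]; exact ih
          · push_cast; rw [← sub_sub]; exact h3
      have h2 := hRn _ (this N)
      have := (hN (N + 1) (by omega)).2
      push_cast at this
      rw [← sub_sub] at this
      exact this h2
  obtain ⟨k, ⟨p, q, h1, h2, h3, h4⟩, ⟨p', q', g1, g2, g3, g4⟩⟩ := hfin
  have key := apex_core (a := a) (w := w) (h.prim _ _ h1) (h.prim _ _ g1)
    (by rw [h2]; exact hS1 k) (by rw [g2, h2, hSs]) h3 g3 h4 (by rw [← hb]; exact g4)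
    (h.ncr _ _ _ _ h1 g1)
  obtain ⟨k1, k2, k3⟩ := key
  refine ⟨q, hab, ?_, ?_, ?_⟩
  · rw [hb, ← k2, k3]; exact g1
  · rw [← k1]; exact h.symm _ _ h1
  · have h5 := hS1 k
    rw [← h2, k1] at h5
    have : a + q - a - a = q - a := by abel
    rw [this] at h5
    exact h5

end IsTri

end Pool.Agent.MP01b126
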