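import Pool.Agent.Lib.MP_01b126_co.Defs

/-!
# MP_01b126_co: area of a unimodular lattice triangle
-/

open MeasureTheory

namespace MP01b126

lemma emb_injective : Function.Injective emb := by
  rintro ⟨a, b⟩ ⟨c, d⟩ h
  simp only [emb, Prod.mk.injEq, Int.cast_inj] at h
  exact Prod.ext h.1 h.2

/-- the standard triangle -/
def stdT : Set (ℝ × ℝ) := {p | 0 ≤ p.1 ∧ 0 ≤ p.2 ∧ p.1 + p.2 ≤ 1}

lemma volume_stdT : volume stdT = ENNReal.ofReal (1 / 2) := by
  have hm : MeasurableSet stdT := by
    apply IsClosed.measurableSet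
    apply IsClosed.inter (isClosed_le continuous_const continuous_fst)
    exact IsClosed.inter (isClosed_le continuous_const continuous_snd)
      (isClosed_le (continuous_fst.add continuous_snd) continuous_const)
  rw [Measure.volume_eq_prod, Measure.prod_apply hm]
  have hslice : ∀ x : ℝ, volume (Prod.mk x ⁻¹' stdT) =
      (Set.Icc (0 : ℝ) 1).indicator (fun x => ENNReal.ofReal (1 - x)) x := by
    intro x
    by_cases hx : x ∈ Set.Icc (0 : ℝ) 1
    · rw [Set.indicator_of_mem hx]
      have : Prod.mk x ⁻¹' stdT = Set.Icc 0 (1 - x) := by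
        ext y
        simp only [stdT, Set.mem_preimage, Set.mem_ofPred_eq, Set.mem_Icc]
        constructor
        · rintro ⟨_, h2, h3⟩; exact ⟨h2, by linarith⟩
        · rintro ⟨h2, h3⟩; exact ⟨hx.1, h2, by linarith⟩
      rw [this, Real.volume_Icc]; simp
    · rw [Set.indicator_of_notMem hx]
      have : Prod.mk x ⁻¹' stdT = ∅ := by
        ext y
        simp only [stdT, Set.mem_preimage, Set.mem_ofPred_eq, Set.mem_empty_iff_false, iff_false]
        rintro ⟨h1, h2, h3⟩
        exact hx ⟨h1, by linarith⟩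
      rw [this]; simp
  simp_rw [hslice]
  rw [lintegral_indicator measurableSet_Icc,
    ← ofReal_integral_eq_lintegral_ofReal]
  · congr 1
    rw [integral_Icc_eq_integral_Ioc, ← intervalIntegral.integral_of_le (by norm_num)]
    rw [intervalIntegral.integral_sub (by simp) (by simp)]
    simp
    norm_num
  · exact (continuous_const.sub continuous_id).integrableOn_Icc
  · filter_upwards [ae_restrict_mem measurableSet_Icc] with x hx
    simp only [Pi.zero_apply]
    linarith [hx.2]

lemma stdT_eq : stdT = convexHull ℝ {((0 : ℝ), (0 : ℝ)), (1, 0), (0, 1)} := by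
  ext ⟨x, y⟩
  simp only [stdT, Set.mem_ofPred_eq]
  rw [convexHull_insert (by simp)]
  simp only [convexHull_pair, mem_convexJoin, Set.mem_singleton_iff, exists_eq_left]
  constructor
  · rintro ⟨h1, h2, h3⟩
    by_cases h : x + y = 0
    · have hx : x = 0 := by linarith
      have hy : y = 0 := by linarith
      refine ⟨(1, 0), left_mem_segment ℝ _ _, ?_⟩
      rw [hx, hy]
      exact left_mem_segment ℝ _ _
    · have hp : 0 < x + y := lt_of_le_of_ne (by linarith) (Ne.symm h)
      refine ⟨(x / (x + y), y / (x + y)), ?_, ?_⟩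
      · rw [segment_eq_image]
        refine ⟨y / (x + y), ⟨by positivity, ?_⟩, ?_⟩
        · rw [div_le_one hp]; linarith
        · simp
          field_simp
          ring
      · rw [segment_eq_image]
        refine ⟨x + y, ⟨by linarith, h3⟩, ?_⟩
        simp
        constructor <;> field_simp
  · rintro ⟨q, hq, hx⟩
    rw [segment_eq_image] at hq hx
    obtain ⟨θ, ⟨h1, h2⟩, rfl⟩ := hq
    obtain ⟨η, ⟨h3, h4⟩, h5⟩ := hx
    simp at h5
    obtain ⟨h6, h7⟩ := h5
    refine ⟨?_, ?_, ?_⟩
    · rw [← h6]; apply mul_nonneg h3; linarith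
    · rw [← h7]; exact mul_nonneg h3 h1
    · rw [← h6, ← h7]; nlinarith

/-- the affine map sending the standard triangle to the triangle `a b c` -/
def triMap (a b c : Pt) : (ℝ × ℝ) →ₗ[ℝ] (ℝ × ℝ) where
  toFun p := (p.1 * ((b.1 - a.1 : ℤ) : ℝ) + p.2 * ((c.1 - a.1 : ℤ) : ℝ),
    p.1 * ((b.2 - a.2 : ℤ) : ℝ) + p.2 * ((c.2 - a.2 : ℤ) : ℝ))
  map_add' p q := by ext <;> simp <;> ring
  map_smul' r p := by ext <;> simp <;> ring

lemma det_triMap (a b c : Pt) : LinearMap.det (triMap a b c) = det3 a b c := by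
  rw [← LinearMap.det_toMatrix (Module.Basis.finTwoProd ℝ), Matrix.det_fin_two]
  simp [LinearMap.toMatrix_apply, triMap, det3]
  ring

lemma hull_eq_image (a b c : Pt) :
    hull {a, b, c} = (fun q => emb a + q) '' (triMap a b c '' stdT) := by
  classical
  have h1 : triMap a b c '' stdT = convexHull ℝ (triMap a b c '' {((0 : ℝ), (0 : ℝ)), (1, 0), (0, 1)}) := by
    rw [stdT_eq, LinearMap.image_convexHull]
  rw [h1]
  have h2 : (fun q => emb a + q) '' convexHull ℝ (triMap a b c '' {((0 : ℝ), (0 : ℝ)), (1, 0), (0, 1)})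
      = convexHull ℝ ((fun q => emb a + q) '' (triMap a b c '' {((0 : ℝ), (0 : ℝ)), (1, 0), (0, 1)})) := by
    have := (AffineMap.const ℝ (ℝ × ℝ) (emb a) + AffineMap.id ℝ (ℝ × ℝ)).image_convexHull
      (triMap a b c '' {((0 : ℝ), (0 : ℝ)), (1, 0), (0, 1)})
    exact this
  rw [h2, hull]
  congr 1
  simp only [Finset.coe_insert, Finset.coe_singleton, Set.image_insert_eq, Set.image_singleton]
  congr 1
  · simp [triMap, emb]
  · congr 1
    · simp [triMap, emb]
    · simp [triMap, emb]

lemma volume_hull (a b c : Pt) (h : |det3 a b c| = 1) :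
    volume (hull {a, b, c}) = ENNReal.ofReal (1 / 2) := by
  rw [hull_eq_image, Set.image_add_left, measure_preimage_add, Measure.addHaar_image_linearMap,
    det_triMap, volume_stdT]
  have : |((det3 a b c : ℤ) : ℝ)| = 1 := by exact_mod_cast h
  rw [this]; simp

end MP01b126
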