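import Pool.Agent.Lib.MP_01b126_co.Cone

/-!
# Assembly: STRUCTURE + COUNTING + SURGERY + LOWER BOUND imply the goal
-/

namespace Pool.Agent.MP01b126

theorem TT_finite' (m n : ℕ) : (TT m n).Finite := by
  have hR : {p : Pt | InR m n p}.Finite := by
    refine ((Set.finite_Icc (0 : ℤ) m).prod (Set.finite_Icc (0 : ℤ) n)).subset ?_
    rintro ⟨p1, p2⟩ ⟨h1, h2, h3, h4⟩
    exact ⟨⟨h1, h2⟩, ⟨h3, h4⟩⟩
  have hinj : Set.InjOn (fun E : Pt → Pt → Prop => {e : Pt × Pt | E e.1 e.2}) (TT m n) := by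
    intro E _ E' _ hEE
    funext a b
    have := congrArg (fun s : Set (Pt × Pt) => (a, b) ∈ s) hEE
    simpa using this
  refine Set.Finite.of_finite_image ?_ hinj
  refine (hR.prod hR).finite_subsets.subset ?_
  rintro s ⟨E, hE, rfl⟩
  rintro ⟨a, b⟩ hab
  exact ⟨hE.inR _ _ hab, hE.inR' hab⟩

theorem InR_finite (m n : ℕ) : {p : Pt | InR m n p}.Finite := by
  refine ((Set.finite_Icc (0 : ℤ) m).prod (Set.finite_Icc (0 : ℤ) n)).subset ?_
  rintro ⟨p1, p2⟩ ⟨h1, h2, h3, h4⟩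
  exact ⟨⟨h1, h2⟩, ⟨h3, h4⟩⟩

/-- double counting over a finite set of triangulations -/
theorem double_count {α β : Type*} (A : Set α) (hA : A.Finite) (P : α → β → Prop)
    (hP : ∀ a ∈ A, {b | P a b}.Finite) (c : ℝ) (hc : ∀ a ∈ A, c ≤ ({b | P a b}.ncard : ℝ)) :
    c * A.ncard ≤ ({x : α × β | x.1 ∈ A ∧ P x.1 x.2}.ncard : ℝ) := by
  classical
  have hfin : {x : α × β | x.1 ∈ A ∧ P x.1 x.2}.Finite := by
    have : {x : α × β | x.1 ∈ A ∧ P x.1 x.2} = ⋃ a ∈ A, (fun b => (a, b)) '' {b | P a b} := by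
      ext ⟨a, b⟩
      simp only [Set.mem_ofPred_eq, Set.mem_iUnion, Set.mem_image, Prod.mk.injEq, exists_prop]
      constructor
      · rintro ⟨h1, h2⟩
        exact ⟨a, h1, b, h2, rfl, rfl⟩
      · rintro ⟨a', h1, b', h2, rfl, rfl⟩
        exact ⟨h1, h2⟩
    rw [this]
    exact hA.biUnion (fun a ha => (hP a ha).image _)
  lift A to Finset α using hA
  have hcard : {x : α × β | x.1 ∈ (A : Set α) ∧ P x.1 x.2}.ncard =
      ∑ a ∈ A, {b | P a b}.ncard := by
    rw [Set.ncard_eq_toFinset_card _ hfin]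
    rw [Finset.card_eq_sum_card_fiberwise (f := Prod.fst) (t := A)]
    · refine Finset.sum_congr rfl (fun a ha => ?_)
      rw [Set.ncard_eq_toFinset_card _ (hP a ha)]
      refine Finset.card_bij (fun x _ => x.2) ?_ ?_ ?_
      · rintro ⟨x1, x2⟩ hx
        simp only [Finset.mem_filter, Set.Finite.mem_toFinset, Set.mem_ofPred_eq] at hx ⊢
        rw [← hx.2]; exact hx.1.2
      · rintro ⟨x1, x2⟩ hx ⟨y1, y2⟩ hy hxy
        simp only [Finset.mem_filter, Set.Finite.mem_toFinset, Set.mem_ofPred_eq] at hx hy hxy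
        rw [hx.2, hy.2, hxy]
      · intro b hb
        refine ⟨(a, b), ?_, rfl⟩
        simp only [Finset.mem_filter, Set.Finite.mem_toFinset, Set.mem_ofPred_eq] at hb ⊢
        exact ⟨⟨ha, hb⟩, trivial⟩
    · rintro ⟨x1, x2⟩ hx
      simp only [Set.Finite.coe_toFinset, Set.mem_ofPred_eq] at hx
      exact hx.1
  rw [hcard, Set.ncard_coe_finset]
  push_cast
  calc c * (A.card : ℝ) = ∑ _a ∈ A, c := by rw [Finset.sum_const, nsmul_eq_mul]; ring
    _ ≤ _ := Finset.sum_le_sum (fun a ha => hc a (by simpa using ha))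

/-- the proportion of regular triangulations tends to zero -/
theorem goal_eps (hS : StructureThm) (hC : CodingThm) (hSur : SurgeryThm) (hL : LowerThm)
    {η : ℝ} (hη : 0 < η) : ∃ N : ℕ, ∀ m n : ℕ, N ≤ m → N ≤ n →
      (({E | IsTri m n E ∧ Reg m n E} : Set (Pt → Pt → Prop)).ncard : ℝ) <
        η * ((TT m n).ncard : ℝ) := by
  obtain ⟨D, L, B, W, δ, hδ, N1, hN1⟩ := hC
  obtain ⟨R, N2, hN2⟩ := hS D L B W (δ / 2) (by linarith)
  obtain ⟨C, hCC⟩ := hSur R
  obtain ⟨N3, hN3⟩ := hL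
  -- the exponential gap
  obtain ⟨N4, hN4⟩ : ∃ N4 : ℕ, ∀ k, N4 ≤ k → (4 / η) * (4.17 : ℝ) ^ k ≤ (4.175 : ℝ) ^ k := by
    have h1 : Filter.Tendsto (fun k : ℕ => (4.175 / 4.17 : ℝ) ^ k) Filter.atTop Filter.atTop :=
      tendsto_pow_atTop_atTop_of_one_lt (by norm_num)
    obtain ⟨N4, h4⟩ := Filter.eventually_atTop.mp (h1.eventually_ge_atTop (4 / η))
    refine ⟨N4, fun k hk => ?_⟩
    have := h4 k hk
    rw [div_pow, le_div_iff₀ (by positivity)] at this
    exact this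
  obtain ⟨N5, hN5⟩ := exists_nat_gt (8 * (C : ℝ) / (δ * η))
  refine ⟨max (max (max N1 N2) (max N3 N4)) (max N5 1), fun m n hm hn => ?_⟩
  simp only [max_le_iff] at hm hn
  obtain ⟨⟨⟨m1, m2⟩, m3, m4⟩, m5, m6⟩ := hm
  obtain ⟨⟨⟨n1, n2⟩, n3, n4⟩, n5, n6⟩ := hn
  have hmn4 : N4 ≤ m * n := le_trans m4 (Nat.le_mul_of_pos_right _ (by omega))
  have hmn5 : (N5 : ℝ) ≤ m * n := by
    have : N5 ≤ m * n := le_trans m5 (Nat.le_mul_of_pos_right _ (by omega))
    exact_mod_cast this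
  have hfin := TT_finite' m n
  set f : ℝ := ((TT m n).ncard : ℝ) with hf
  have hfpos : 0 < f := lt_of_lt_of_le (by positivity) (hN3 m n m3 n3)
  set A : Set (Pt → Pt → Prop) := {E | IsTri m n E ∧ Reg m n E ∧
    δ / 2 * m * n ≤ ({v | Site m n E R v}.ncard : ℝ)} with hA
  set Bs : Set (Pt → Pt → Prop) := {E | IsTri m n E ∧
      (({v | InR m n v ∧ Tame E D L v ∧ ¬ ∃ d u, Good E B W v d u} : Set Pt).ncard : ℝ)
        ≤ δ * m * n} with hB
  have hAfin : A.Finite := hfin.subset (fun E hE => hE.1)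
  have hBfin : Bs.Finite := hfin.subset (fun E hE => hE.1)
  have hsub : {E | IsTri m n E ∧ Reg m n E} ⊆ A ∪ Bs := by
    rintro E ⟨h1, h2⟩
    by_cases hc : δ / 2 * m * n ≤ ({v | Site m n E R v}.ncard : ℝ)
    · exact Or.inl ⟨h1, h2, hc⟩
    · right
      push Not at hc
      refine ⟨h1, ?_⟩
      have h3 := hN2 m n m2 n2 E h1
      have hsfin : {v | Site m n E R v}.Finite := by
        refine (InR_finite m n).subset ?_
        rintro v ⟨q, hq, -⟩
        exact h1.inR _ _ hq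
      have h4 : ({v | InR m n v ∧ Tame E D L v ∧ ¬ ∃ d u, Good E B W v d u} : Set Pt) ⊆
          {v | InR m n v ∧ Tame E D L v ∧ (¬ ∃ d u, Good E B W v d u) ∧ ¬ Site m n E R v} ∪
            {v | Site m n E R v} := by
        rintro v ⟨g1, g2, g3⟩
        by_cases hs : Site m n E R v
        · exact Or.inr hs
        · exact Or.inl ⟨g1, g2, g3, hs⟩
      have h5 := Set.ncard_le_ncard h4 (((InR_finite m n).subset (fun v hv => hv.1)).union hsfin)
      have h6 := Set.ncard_union_le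
        {v | InR m n v ∧ Tame E D L v ∧ (¬ ∃ d u, Good E B W v d u) ∧ ¬ Site m n E R v}
        {v | Site m n E R v}
      have h7 : (({v | InR m n v ∧ Tame E D L v ∧ ¬ ∃ d u, Good E B W v d u} :
          Set Pt).ncard : ℝ) ≤ ({v | InR m n v ∧ Tame E D L v ∧ (¬ ∃ d u, Good E B W v d u) ∧
            ¬ Site m n E R v}.ncard : ℝ) + ({v | Site m n E R v}.ncard : ℝ) := by
        exact_mod_cast le_trans h5 h6
      linarith
  have hcard : (({E | IsTri m n E ∧ Reg m n E} : Set (Pt → Pt → Prop)).ncard : ℝ) ≤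
      (A.ncard : ℝ) + (Bs.ncard : ℝ) := by
    have h1 := Set.ncard_le_ncard hsub (hAfin.union hBfin)
    have h2 := Set.ncard_union_le A Bs
    exact_mod_cast le_trans h1 h2
  have hBcard : (Bs.ncard : ℝ) ≤ η / 4 * f := by
    have h1 := hN1 m n m1 n1
    have h2 := hN4 _ hmn4
    have h3 := hN3 m n m3 n3
    have h4 : (4 / η) * (Bs.ncard : ℝ) ≤ f := by
      refine le_trans (mul_le_mul_of_nonneg_left h1 (by positivity)) (le_trans h2 h3)
    have h5 : (Bs.ncard : ℝ) = η / 4 * ((4 / η) * (Bs.ncard : ℝ)) := by field_simp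
    rw [h5]
    exact mul_le_mul_of_nonneg_left h4 (by positivity)
  have hAcard : (A.ncard : ℝ) ≤ η / 4 * f := by
    have h1 := double_count A hAfin (fun E v => Site m n E R v)
      (fun E hE => (InR_finite m n).subset (by
        rintro v ⟨q, hq, -⟩
        exact hE.1.inR _ _ hq)) (δ / 2 * m * n) (fun E hE => hE.2.2)
    have h2 : ({x : (Pt → Pt → Prop) × Pt | x.1 ∈ A ∧ Site m n x.1 R x.2}.ncard : ℝ) ≤
        C * f := by
      have h3 := hCC m n
      have h4 : {x : (Pt → Pt → Prop) × Pt | x.1 ∈ A ∧ Site m n x.1 R x.2} ⊆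
          {x | IsTri m n x.1 ∧ Reg m n x.1 ∧ Site m n x.1 R x.2} := by
        rintro ⟨E, v⟩ ⟨g1, g2⟩
        exact ⟨g1.1, g1.2.1, g2⟩
      have h5 : ({x | IsTri m n x.1 ∧ Reg m n x.1 ∧ Site m n x.1 R x.2} :
          Set ((Pt → Pt → Prop) × Pt)).Finite := by
        refine (hfin.prod (InR_finite m n)).subset ?_
        rintro ⟨E, v⟩ ⟨g1, -, q, hq, -⟩
        exact ⟨g1, g1.inR _ _ hq⟩
      have h6 := Set.ncard_le_ncard h4 h5
      have h7 : ({x : (Pt → Pt → Prop) × Pt | x.1 ∈ A ∧ Site m n x.1 R x.2}.ncard : ℝ) ≤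
          ((C * (TT m n).ncard : ℕ) : ℝ) := by exact_mod_cast le_trans h6 h3
      push_cast at h7
      exact h7
    have h3 : δ / 2 * m * n * (A.ncard : ℝ) ≤ C * f := le_trans h1 h2
    have h4 : 8 * (C : ℝ) ≤ δ * η * (m * n) := by
      have := lt_of_lt_of_le hN5 hmn5
      rw [div_lt_iff₀ (by positivity)] at this
      linarith
    have hmn : (0 : ℝ) < m * n := by
      have h8 : (0 : ℝ) < m := by exact_mod_cast (by omega : 0 < m)
      have h9 : (0 : ℝ) < n := by exact_mod_cast (by omega : 0 < n)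
      positivity
    have h5 : δ / 2 * (m * n) * (A.ncard : ℝ) ≤ δ * η * (m * n) / 8 * f := by
      calc δ / 2 * (m * n) * (A.ncard : ℝ) = δ / 2 * m * n * (A.ncard : ℝ) := by ring
        _ ≤ C * f := h3
        _ ≤ _ := mul_le_mul_of_nonneg_right (by linarith) hfpos.le
    have h6 : 0 < δ / 2 * (m * n) := by positivity
    have h7 : δ * η * (m * n) / 8 * f = δ / 2 * (m * n) * (η / 4 * f) := by ring
    rw [h7] at h5
    exact le_of_mul_le_mul_left h5 h6
  have h9 : 0 < η / 4 * f := by positivity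
  linarith

theorem goalE (hS : StructureThm) (hC : CodingThm) (hSur : SurgeryThm) (hL : LowerThm) :
    GoalE := by
  obtain ⟨N, hN⟩ := goal_eps hS hC hSur hL (η := 1 / 2) (by norm_num)
  refine ⟨N, fun m n hm hn => ?_⟩
  have h1 := hN m n hm hn
  have h2 : 2 * (({E | IsTri m n E ∧ Reg m n E} : Set (Pt → Pt → Prop)).ncard : ℝ) <
      ((TT m n).ncard : ℝ) := by linarith
  exact_mod_cast h2

end Pool.Agent.MP01b126
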