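import Mathlib

/-!
# Unimodular triangulations of the lattice rectangle as edge relations

A unimodular triangulation of `{0..m} × {0..n}` is encoded by its edge relation `E`.
The characteristic property: pairwise non-crossing primitive segments, one for every half-lattice
point (every sum `s` which is not even) of the rectangle.
-/

namespace Pool.Agent.MP01b126

/-- lattice points -/
abbrev Pt := ℤ × ℤ

/-- determinant of two lattice vectors -/
def det (u v : Pt) : ℤ := u.1 * v.2 - u.2 * v.1

/-- primitive vectors -/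
def Prim (u : Pt) : Prop := IsCoprime u.1 u.2

/-- the open segments `ab` and `cd` cross transversally -/
def Cross (a b c d : Pt) : Prop :=
  det (b - a) (c - a) * det (b - a) (d - a) < 0 ∧ det (d - c) (a - c) * det (d - c) (b - c) < 0

/-- the lattice rectangle -/
def InR (m n : ℕ) (p : Pt) : Prop := 0 ≤ p.1 ∧ p.1 ≤ m ∧ 0 ≤ p.2 ∧ p.2 ≤ n

/-- edge relations of unimodular triangulations of the lattice rectangle -/
structure IsTri (m n : ℕ) (E : Pt → Pt → Prop) : Prop where
  symm : ∀ a b, E a b → E b a
  inR : ∀ a b, E a b → InR m n a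
  prim : ∀ a b, E a b → Prim (b - a)
  ncr : ∀ a b c d, E a b → E c d → ¬ Cross a b c d
  full : ∀ s : Pt, 0 ≤ s.1 → s.1 ≤ 2 * m → 0 ≤ s.2 → s.2 ≤ 2 * n →
    ¬ (Even s.1 ∧ Even s.2) → ∃ a b, E a b ∧ a + b = s

/-- `(a,b,c)` is a counterclockwise face -/
def Tr (E : Pt → Pt → Prop) (a b c : Pt) : Prop :=
  E a b ∧ E b c ∧ E c a ∧ det (b - a) (c - a) = 1

section vec

@[simp] theorem det_self (u : Pt) : det u u = 0 := by unfold det; ring

theorem det_add_left (u v w : Pt) : det (u + v) w = det u w + det v w := by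
  simp only [det, Prod.fst_add, Prod.snd_add]; ring

theorem det_add_right (u v w : Pt) : det u (v + w) = det u v + det u w := by
  simp only [det, Prod.fst_add, Prod.snd_add]; ring

theorem det_sub_left (u v w : Pt) : det (u - v) w = det u w - det v w := by
  simp only [det, Prod.fst_sub, Prod.snd_sub]; ring

theorem det_sub_right (u v w : Pt) : det u (v - w) = det u v - det u w := by
  simp only [det, Prod.fst_sub, Prod.snd_sub]; ring

theorem det_neg_left (u v : Pt) : det (-u) v = - det u v := by
  simp only [det, Prod.fst_neg, Prod.snd_neg]; ring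

theorem det_neg_right (u v : Pt) : det u (-v) = - det u v := by
  simp only [det, Prod.fst_neg, Prod.snd_neg]; ring

theorem det_smul_left (k : ℤ) (u v : Pt) : det (k • u) v = k * det u v := by
  simp only [det, Prod.smul_fst, Prod.smul_snd, smul_eq_mul]; ring

theorem det_smul_right (k : ℤ) (u v : Pt) : det u (k • v) = k * det u v := by
  simp only [det, Prod.smul_fst, Prod.smul_snd, smul_eq_mul]; ring

theorem det_swap (u v : Pt) : det u v = - det v u := by unfold det; ring

@[simp] theorem det_zero_left (v : Pt) : det 0 v = 0 := by simp [det]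

@[simp] theorem det_zero_right (v : Pt) : det v 0 = 0 := by simp [det]

/-- expansion of a vector in a unimodular basis -/
theorem expand {u v : Pt} (h : det u v = 1) (z : Pt) : z = det z v • u + det u z • v := by
  unfold det at *
  ext
  · simp only [Prod.fst_add, Prod.smul_fst, smul_eq_mul]
    linear_combination (- z.1) * h
  · simp only [Prod.snd_add, Prod.smul_snd, smul_eq_mul]
    linear_combination (- z.2) * h

theorem Prim.ne_zero {u : Pt} (h : Prim u) : u ≠ 0 := by
  rintro rfl
  obtain ⟨x, y, hxy⟩ := h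
  simp at hxy

theorem Prim.neg {u : Pt} (h : Prim u) : Prim (-u) := by
  unfold Prim at *
  exact h.neg_neg

theorem prim_of_det {u v : Pt} (h : det u v = 1) : Prim u :=
  ⟨v.2, - v.1, by unfold det at h; linarith⟩

theorem prim_of_det' {u v : Pt} (h : det u v = 1) : Prim v :=
  ⟨- u.2, u.1, by unfold det at h; linarith⟩

theorem Prim.exists_det {u : Pt} (h : Prim u) : ∃ v, det u v = 1 := by
  obtain ⟨a, b, hab⟩ := h
  exact ⟨(-b, a), by unfold det; linarith⟩

/-- a lattice vector parallel to a primitive one is a multiple -/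
theorem Prim.eq_smul {u v : Pt} (h : Prim u) (hd : det u v = 0) : ∃ k : ℤ, v = k • u := by
  obtain ⟨e, he⟩ := h.exists_det
  refine ⟨det v e, ?_⟩
  have := expand he v
  rw [hd, zero_smul, add_zero] at this
  exact this

theorem Prim.eq_or_neg {u v : Pt} (h : Prim u) (h' : Prim v) (hd : det u v = 0) :
    v = u ∨ v = - u := by
  obtain ⟨k, rfl⟩ := h.eq_smul hd
  have hk : IsUnit k := by
    unfold Prim at h'
    simp only [Prod.smul_fst, Prod.smul_snd, smul_eq_mul] at h'
    obtain ⟨a, b, hab⟩ := h'
    exact isUnit_of_dvd_one ⟨a * u.1 + b * u.2, by linear_combination - hab⟩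
  rcases Int.isUnit_iff.mp hk with rfl | rfl
  · left; simp
  · right; simp

theorem Prim.not_even {u : Pt} (h : Prim u) : ¬ (Even u.1 ∧ Even u.2) := by
  rintro ⟨⟨a, ha⟩, ⟨b, hb⟩⟩
  obtain ⟨x, y, hxy⟩ := h
  rw [ha, hb] at hxy
  have : 2 * (x * a + y * b) = 1 := by linarith
  omega

end vec

section cross

theorem Cross.symm {a b c d : Pt} (h : Cross a b c d) : Cross c d a b := ⟨h.2, h.1⟩

theorem Cross.swap {a b c d : Pt} (h : Cross a b c d) : Cross b a c d := by
  obtain ⟨h1, h2⟩ := h
  unfold Cross
  simp only [det, Prod.fst_sub, Prod.snd_sub] at *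
  constructor <;> nlinarith

theorem Cross.swap' {a b c d : Pt} (h : Cross a b c d) : Cross a b d c :=
  h.symm.swap.symm

/-- two primitive segments with the same midpoint are equal or cross -/
theorem same_mid {a b c d : Pt} (h1 : Prim (b - a)) (h2 : Prim (d - c)) (h : a + b = c + d) :
    (c = a ∧ d = b) ∨ (c = b ∧ d = a) ∨ Cross a b c d := by
  by_cases hd : det (b - a) (c - a) = 0
  · have hc : c + d = a + b := h.symm
    have e : d - c = (b - a) + (2 : ℤ) • (a - c) := by
      have : d = a + b - c := by rw [← hc]; abel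
      rw [this, two_smul]; abel
    have : det (b - a) (d - c) = 0 := by
      rw [e, det_add_right, det_self, det_smul_right]
      have : det (b - a) (a - c) = - det (b - a) (c - a) := by
        rw [← det_neg_right]; congr 1; abel
      rw [this, hd]; ring
    rcases h1.eq_or_neg h2 this with h3 | h3
    · left
      have h4 : (2 : ℤ) • (a - c) = 0 := by
        have := e; rw [h3] at this
        simpa using this.symm
      have h5 : a - c = 0 := by
        have := h4; rw [smul_eq_zero] at this
        simpa using this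
      have h6 : c = a := (sub_eq_zero.mp h5).symm
      refine ⟨h6, ?_⟩
      rw [h6] at hc
      exact add_left_cancel hc
    · right; left
      have h4 : (2 : ℤ) • (b - c) = 0 := by
        have h7 := e; rw [h3] at h7
        have : (2 : ℤ) • (b - c) = ((b - a) + (2 : ℤ) • (a - c)) + (b - a) := by
          simp only [two_smul]; abel
        rw [this, ← h7]; abel
      have h5 : b - c = 0 := by
        have := h4; rw [smul_eq_zero] at this
        simpa using this
      have h6 : c = b := (sub_eq_zero.mp h5).symm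
      refine ⟨h6, ?_⟩
      rw [h6, add_comm b d] at hc
      exact add_right_cancel hc
  · right; right
    have e1 : d - a = (b - a) - (c - a) := by
      have : d = a + b - c := by rw [h]; abel
      rw [this]; abel
    have e2 : b - c = (d - c) - (a - c) := by
      have : d = a + b - c := by rw [h]; abel
      rw [this]; abel
    have e3 : det (d - c) (a - c) = det (b - a) (c - a) * (-1) := by
      have : d = a + b - c := by rw [h]; abel
      rw [this]; simp only [det, Prod.fst_sub, Prod.snd_sub, Prod.fst_add, Prod.snd_add]; ring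
    have h4 : det (b - a) (d - a) = - det (b - a) (c - a) := by
      rw [e1, det_sub_right (b - a) (b - a) (c - a), det_self]; ring
    have h5 : det (d - c) (b - c) = - det (d - c) (a - c) := by
      rw [e2, det_sub_right (d - c) (d - c) (a - c), det_self]; ring
    have h6 : 0 < det (b - a) (c - a) * det (b - a) (c - a) := mul_self_pos.mpr hd
    constructor
    · rw [h4]; linarith
    · rw [h5, e3]; linarith

end cross

/-- a point of the doubled rectangle -/
def InR2 (m n : ℕ) (s : Pt) : Prop := 0 ≤ s.1 ∧ s.1 ≤ 2 * m ∧ 0 ≤ s.2 ∧ s.2 ≤ 2 * n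

theorem comb_aux {M x y z s al l1 l2 l3 : ℤ} (hal : 0 < al) (h1 : 0 ≤ l1) (h2 : 0 ≤ l2)
    (h3 : 0 ≤ l3) (hs : l1 + l2 + l3 = 2 * al) (e : al * s = l1 * x + l2 * y + l3 * z)
    (hx : 0 ≤ x ∧ x ≤ M) (hy : 0 ≤ y ∧ y ≤ M) (hz : 0 ≤ z ∧ z ≤ M) : 0 ≤ s ∧ s ≤ 2 * M := by
  constructor
  · by_contra hc
    push Not at hc
    have : al * s < 0 := mul_neg_of_pos_of_neg hal hc
    have := mul_nonneg h1 hx.1
    have := mul_nonneg h2 hy.1
    have := mul_nonneg h3 hz.1
    linarith
  · by_contra hc
    push Not at hc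
    have : al * (2 * M) < al * s := mul_lt_mul_of_pos_left hc hal
    have := mul_le_mul_of_nonneg_left hx.2 h1
    have := mul_le_mul_of_nonneg_left hy.2 h2
    have := mul_le_mul_of_nonneg_left hz.2 h3
    have : al * (2 * M) = l1 * M + l2 * M + l3 * M := by
      rw [← add_mul, ← add_mul, hs]; ring
    linarith

/-- convex combinations (of total weight two) of points of the rectangle -/
theorem comb {m n : ℕ} {x y z s : Pt} {al l1 l2 l3 : ℤ} (hal : 0 < al) (h1 : 0 ≤ l1)
    (h2 : 0 ≤ l2) (h3 : 0 ≤ l3) (hs : l1 + l2 + l3 = 2 * al)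
    (e : al • s = l1 • x + l2 • y + l3 • z)
    (hx : InR m n x) (hy : InR m n y) (hz : InR m n z) : InR2 m n s := by
  obtain ⟨a1, a2, a3, a4⟩ := hx
  obtain ⟨b1, b2, b3, b4⟩ := hy
  obtain ⟨c1, c2, c3, c4⟩ := hz
  have e1 := congrArg Prod.fst e
  have e2 := congrArg Prod.snd e
  simp only [Prod.fst_add, Prod.snd_add, Prod.smul_fst, Prod.smul_snd, smul_eq_mul] at e1 e2
  obtain ⟨p1, p2⟩ := comb_aux hal h1 h2 h3 hs e1 ⟨a1, a2⟩ ⟨b1, b2⟩ ⟨c1, c2⟩
  obtain ⟨p3, p4⟩ := comb_aux hal h1 h2 h3 hs e2 ⟨a3, a4⟩ ⟨b3, b4⟩ ⟨c3, c4⟩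
  exact ⟨p1, p2, p3, p4⟩

namespace IsTri

variable {m n : ℕ} {E : Pt → Pt → Prop}

theorem inR' (h : IsTri m n E) {a b : Pt} (hE : E a b) : InR m n b := h.inR b a (h.symm a b hE)

theorem ne (h : IsTri m n E) {a b : Pt} (hE : E a b) : a ≠ b := by
  rintro rfl
  exact (h.prim a a hE).ne_zero (sub_self a)

/-- exactly one edge for every midpoint -/
theorem mid_unique (h : IsTri m n E) {a b c d : Pt} (h1 : E a b) (h2 : E c d)
    (hs : a + b = c + d) : (c = a ∧ d = b) ∨ (c = b ∧ d = a) := by
  rcases same_mid (h.prim _ _ h1) (h.prim _ _ h2) hs with h3 | h3 | h3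
  · exact Or.inl h3
  · exact Or.inr h3
  · exact absurd h3 (h.ncr _ _ _ _ h1 h2)

theorem full' (h : IsTri m n E) {s : Pt} (hs : InR2 m n s) (ho : ¬ (Even s.1 ∧ Even s.2)) :
    ∃ a b, E a b ∧ a + b = s :=
  h.full s hs.1 hs.2.1 hs.2.2.1 hs.2.2.2 ho

end IsTri

end Pool.Agent.MP01b126
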