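import Pool.Agent.Lib.MP_01b126_co.Edges
import Pool.Agent.Lib.MP_01b126_co.Apex

/-!
# MP_01b126_co: triangulations and edge relations

(i) `IsTriangulation.isTri`, (ii) `IsTri.isTriangulation`, `ed_faces`, `faces_ed`, `f_eq`,
(iii) `IsRegular.heights`.
-/

open MeasureTheory
open Pool.Agent.MP01b126 (IsTri InR InR2 Cross Prim det)

namespace MP01b126

variable {m n : ℕ} {T : Finset (Finset Pt)} {E : Pt → Pt → Prop}

lemma det3_eq (a b c : Pt) : det3 a b c = det (b - a) (c - a) := by
  simp only [det3, det, Prod.fst_sub, Prod.snd_sub]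

lemma inR_iff (p : Pt) : InR m n p ↔ p ∈ grid m n := by
  simp only [InR, grid, Finset.mem_product, Finset.mem_Icc, and_assoc]

/-- the crossing point of two transversally crossing segments -/
lemma cross_point {a b c d : Pt} (h : Cross a b c d) :
    ∃ x : ℝ × ℝ, x ∈ openSegment ℝ (emb a) (emb b) ∧ x ∈ openSegment ℝ (emb c) (emb d) := by
  obtain ⟨h1, h2⟩ := h
  set α := det (b - a) (c - a) with hα
  set β := det (b - a) (d - a) with hβ
  set γ := det (d - c) (a - c) with hγ
  set δ := det (d - c) (b - c) with hδ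
  have hs : β - α = γ - δ := by
    simp only [hα, hβ, hγ, hδ, det, Prod.fst_sub, Prod.snd_sub]; ring
  have hR1 : (α : ℝ) * β < 0 := by exact_mod_cast h1
  have hR2 : (γ : ℝ) * δ < 0 := by exact_mod_cast h2
  have hsR : (β : ℝ) - α = γ - δ := by exact_mod_cast hs
  have hne : (β : ℝ) - α ≠ 0 := by
    intro h0
    have : (β : ℝ) = α := by linarith
    rw [this] at hR1
    nlinarith [mul_self_nonneg (α : ℝ)]
  have e1 : (β : ℝ) * c.1 - α * d.1 = γ * b.1 - δ * a.1 := by
    have : β * c.1 - α * d.1 = γ * b.1 - δ * a.1 := by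
      simp only [hα, hβ, hγ, hδ, det, Prod.fst_sub, Prod.snd_sub]; ring
    exact_mod_cast this
  have e2 : (β : ℝ) * c.2 - α * d.2 = γ * b.2 - δ * a.2 := by
    have : β * c.2 - α * d.2 = γ * b.2 - δ * a.2 := by
      simp only [hα, hβ, hγ, hδ, det, Prod.fst_sub, Prod.snd_sub]; ring
    exact_mod_cast this
  refine ⟨(-δ / (β - α) : ℝ) • emb a + (γ / (β - α) : ℝ) • emb b, ⟨_, _, ?_, ?_, ?_, rfl⟩,
    ⟨(β / (β - α) : ℝ), (-α / (β - α) : ℝ), ?_, ?_, ?_, ?_⟩⟩
  · rw [hsR]
    rcases lt_trichotomy (δ : ℝ) 0 with h0 | h0 | h0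
    · have : 0 < (γ : ℝ) := by nlinarith
      exact div_pos (by linarith) (by linarith)
    · rw [h0] at hR2; simp at hR2
    · have : (γ : ℝ) < 0 := by nlinarith
      exact div_pos_of_neg_of_neg (by linarith) (by linarith)
  · rw [hsR]
    rcases lt_trichotomy (δ : ℝ) 0 with h0 | h0 | h0
    · have : 0 < (γ : ℝ) := by nlinarith
      exact div_pos (by linarith) (by linarith)
    · rw [h0] at hR2; simp at hR2
    · have : (γ : ℝ) < 0 := by nlinarith
      exact div_pos_of_neg_of_neg (by linarith) (by linarith)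
  · rw [← add_div, div_eq_one_iff_eq hne]; linarith
  · rcases lt_trichotomy (α : ℝ) 0 with h0 | h0 | h0
    · have : 0 < (β : ℝ) := by nlinarith
      exact div_pos (by linarith) (by linarith)
    · rw [h0] at hR1; simp at hR1
    · have : (β : ℝ) < 0 := by nlinarith
      exact div_pos_of_neg_of_neg (by linarith) (by linarith)
  · rcases lt_trichotomy (α : ℝ) 0 with h0 | h0 | h0
    · have : 0 < (β : ℝ) := by nlinarith
      exact div_pos (by linarith) (by linarith)
    · rw [h0] at hR1; simp at hR1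
    · have : (β : ℝ) < 0 := by nlinarith
      exact div_pos_of_neg_of_neg (by linarith) (by linarith)
  · rw [← add_div, div_eq_one_iff_eq hne]; ring
  · ext
    · simp only [emb, Prod.fst_add, Prod.smul_fst, smul_eq_mul]
      field_simp
      linarith
    · simp only [emb, Prod.snd_add, Prod.smul_snd, smul_eq_mul]
      field_simp
      linarith

lemma not_cross_self (a b : Pt) : ¬ Cross a b a b := by
  rintro ⟨h, _⟩
  simp [det] at h

lemma not_cross_self' (a b : Pt) : ¬ Cross a b b a := by
  rintro ⟨h, _⟩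
  simp [det] at h

/-- (i) the edge relation of a triangulation -/
theorem IsTriangulation.isTri (hT : IsTriangulation m n T) : IsTri m n (Ed T) where
  symm := fun a b h => h.symm
  inR := fun a b h => (inR_iff a).mpr (hT.ed_mem h).1
  prim := by
    rintro a b ⟨hab, t, ht, ha, hb⟩
    obtain ⟨c, _, hD⟩ := (hT.uni ht).third ha hb hab
    rw [det3_eq] at hD
    simp only [Prim, det] at hD ⊢
    rcases hD with hD | hD
    · exact ⟨(c - a).2, -(c - a).1, by linarith⟩
    · exact ⟨-(c - a).2, (c - a).1, by linarith⟩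
  ncr := by
    intro a b c d hab hcd hc
    obtain ⟨x, h1, h2⟩ := cross_point hc
    rcases hT.edge_unique hab hcd h1 h2 with ⟨rfl, rfl⟩ | ⟨rfl, rfl⟩
    · exact not_cross_self _ _ hc
    · exact not_cross_self' _ _ hc
  full := by
    intro s h1 h2 h3 h4 ho
    apply hT.exists_edge_mid
    · have h1' : (0 : ℝ) ≤ s.1 := by exact_mod_cast h1
      have h2' : (s.1 : ℝ) ≤ 2 * m := by exact_mod_cast h2
      have h3' : (0 : ℝ) ≤ s.2 := by exact_mod_cast h3
      have h4' : (s.2 : ℝ) ≤ 2 * n := by exact_mod_cast h4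
      exact ⟨⟨by simp; linarith, by simp; linarith⟩, ⟨by simp; linarith, by simp; linarith⟩⟩
    · rintro ⟨hd1, hd2⟩
      exact ho ⟨even_iff_two_dvd.mpr hd1, even_iff_two_dvd.mpr hd2⟩

open Classical in
/-- the triangles of an edge relation -/
noncomputable def faces (m n : ℕ) (E : Pt → Pt → Prop) : Finset (Finset Pt) :=
  (grid m n).powerset.filter (fun t => ∃ a b c, t = {a, b, c} ∧ Pool.Agent.MP01b126.Tr E a b c)

lemma mem_faces {t : Finset Pt} : t ∈ faces m n E ↔
    t ⊆ grid m n ∧ ∃ a b c, t = {a, b, c} ∧ Pool.Agent.MP01b126.Tr E a b c := by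
  simp only [faces, Finset.mem_filter, Finset.mem_powerset]

lemma tr_mem_faces (h : IsTri m n E) {a b c : Pt} (ht : Pool.Agent.MP01b126.Tr E a b c) :
    ({a, b, c} : Finset Pt) ∈ faces m n E := by
  rw [mem_faces]
  refine ⟨?_, a, b, c, rfl, ht⟩
  intro p hp
  simp only [Finset.mem_insert, Finset.mem_singleton] at hp
  rw [← inR_iff]
  rcases hp with rfl | rfl | rfl
  · exact h.inR _ _ ht.1
  · exact h.inR _ _ ht.2.1
  · exact h.inR _ _ ht.2.2.1

lemma tr_rot {a b c : Pt} (h : Pool.Agent.MP01b126.Tr E a b c) : Pool.Agent.MP01b126.Tr E b c a := by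
  obtain ⟨h1, h2, h3, h4⟩ := h
  exact ⟨h2, h3, h1, by rw [← det3_eq, det3_rot, det3_eq]; exact h4⟩

/-- the left apex is unique -/
lemma e_left_unique (h : IsTri m n E) {a b c c' : Pt} (h1 : Pool.Agent.MP01b126.Tr E a b c)
    (h2 : Pool.Agent.MP01b126.Tr E a b c') : c = c' := by
  obtain ⟨hab, hbc, hca, hd⟩ := h1
  obtain ⟨_, hbc', hca', hd'⟩ := h2
  have hp := h.prim _ _ hab
  have h0 : det (b - a) (c' - c) = 0 := by
    simp only [det, Prod.fst_sub, Prod.snd_sub] at *; linarith
  obtain ⟨k, hk⟩ := hp.eq_smul h0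
  have hk1 : c'.1 = c.1 + k * (b.1 - a.1) := by
    have := congrArg Prod.fst hk
    simp only [Prod.fst_sub, Prod.smul_fst, smul_eq_mul] at this; linarith
  have hk2 : c'.2 = c.2 + k * (b.2 - a.2) := by
    have := congrArg Prod.snd hk
    simp only [Prod.snd_sub, Prod.smul_snd, smul_eq_mul] at this; linarith
  simp only [det, Prod.fst_sub, Prod.snd_sub] at hd
  rcases lt_trichotomy k 0 with h3 | h3 | h3
  · exfalso
    refine h.ncr a c b c' (h.symm _ _ hca) hbc' ⟨?_, ?_⟩
    · have e1 : det (c - a) (b - a) = -1 := by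
        simp only [det, Prod.fst_sub, Prod.snd_sub]; linarith
      have e2 : det (c - a) (c' - a) = -k := by
        simp only [det, Prod.fst_sub, Prod.snd_sub, hk1, hk2]; linear_combination (-k) * hd
      rw [e1, e2]; linarith
    · have e1 : det (c' - b) (a - b) = 1 := by
        simp only [det, Prod.fst_sub, Prod.snd_sub, hk1, hk2]; linear_combination hd
      have e2 : det (c' - b) (c - b) = k := by
        simp only [det, Prod.fst_sub, Prod.snd_sub, hk1, hk2]; linear_combination k * hd
      rw [e1, e2]; linarith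
  · rw [h3] at hk1 hk2
    ext
    · rw [hk1]; ring
    · rw [hk2]; ring
  · exfalso
    refine h.ncr a c' b c (h.symm _ _ hca') hbc ⟨?_, ?_⟩
    · have e1 : det (c' - a) (b - a) = -1 := by
        simp only [det, Prod.fst_sub, Prod.snd_sub, hk1, hk2]; linear_combination (-1) * hd
      have e2 : det (c' - a) (c - a) = k := by
        simp only [det, Prod.fst_sub, Prod.snd_sub, hk1, hk2]; linear_combination k * hd
      rw [e1, e2]; linarith
    · have e1 : det (c - b) (a - b) = 1 := by
        simp only [det, Prod.fst_sub, Prod.snd_sub]; linear_combination hd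
      have e2 : det (c - b) (c' - b) = -k := by
        simp only [det, Prod.fst_sub, Prod.snd_sub, hk1, hk2]; linear_combination (-k) * hd
      rw [e1, e2]; linarith

/-! ### covering -/

lemma detR_up (a b : Pt) (x y ε : ℝ) :
    detR a b (x, y + ε) = detR a b (x, y) + ε * ((b.1 : ℝ) - a.1) := by
  simp only [detR]; ring

/-- a point of a side `a b` with irrational first coordinate is an inner point -/
lemma on_side {a b c : Pt} (hD : det3 a b c = 1) {x y : ℝ} (hx : Irrational x)
    (hmem : (x, y) ∈ hull {a, b, c}) (h0 : detR a b (x, y) = 0) :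
    0 < detR b c (x, y) ∧ 0 < detR c a (x, y) := by
  obtain ⟨_, h2, h3⟩ := (mem_hull_iff (by omega) _).mp hmem
  have hb := bary a b c (x, y)
  have hs := detR_sum a b c (x, y)
  rw [hD] at hb hs
  rw [h0] at hb hs
  simp only [Int.cast_one, one_smul, zero_smul, add_zero, zero_add] at hb hs
  have hx1 : x = detR b c (x, y) * a.1 + detR c a (x, y) * b.1 := by
    have := congrArg Prod.fst hb
    simpa [emb] using this
  constructor
  · apply lt_of_le_of_ne h2
    intro he
    rw [← he] at hx1 hs
    have : detR c a (x, y) = 1 := by linarith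
    rw [this] at hx1
    apply hx
    exact ⟨(b.1 : ℚ), by rw [hx1]; push_cast; ring⟩
  · apply lt_of_le_of_ne h3
    intro he
    rw [← he] at hx1 hs
    have : detR b c (x, y) = 1 := by linarith
    rw [this] at hx1
    apply hx
    exact ⟨(a.1 : ℚ), by rw [hx1]; push_cast; ring⟩

/-- strict side or non-upper side: stays in the half plane when moving up -/
lemma side_up {a b : Pt} {x y : ℝ} (h : 0 ≤ detR a b (x, y))
    (h' : 0 < detR a b (x, y) ∨ a.1 ≤ b.1) : ∀ᶠ ε in nhdsWithin (0 : ℝ) (Set.Ioi 0),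
    0 ≤ detR a b (x, y + ε) := by
  rcases h' with h' | h'
  · have hc : Continuous (fun ε : ℝ => detR a b (x, y + ε)) := by
      simp only [detR_up]; fun_prop
    have : ∀ᶠ ε in nhds (0 : ℝ), 0 < detR a b (x, y + ε) := by
      apply hc.continuousAt.eventually (lt_mem_nhds _)
      simpa using h'
    exact (this.filter_mono nhdsWithin_le_nhds).mono (fun ε hε => hε.le)
  · filter_upwards [self_mem_nhdsWithin] with ε hε
    rw [detR_up]
    have h1 : (0 : ℝ) ≤ (b.1 : ℝ) - a.1 := by
      have : (a.1 : ℝ) ≤ b.1 := by exact_mod_cast h'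
      linarith
    have : 0 ≤ ε * ((b.1 : ℝ) - a.1) := mul_nonneg (le_of_lt hε) h1
    linarith

lemma up_step (h : IsTri m n E) {x y : ℝ} (hx : Irrational x) (hy : y < n)
    (hmem : (x, y) ∈ ⋃ t ∈ faces m n E, hull t) :
    ∀ᶠ ε in nhdsWithin (0 : ℝ) (Set.Ioi 0), (x, y + ε) ∈ ⋃ t ∈ faces m n E, hull t := by
  obtain ⟨t, ht, hxt⟩ := Set.mem_iUnion₂.mp hmem
  obtain ⟨_, a, b, c, rfl, htr⟩ := mem_faces.mp ht
  -- the case of a tight upper side `a b`
  have key : ∀ a b c : Pt, Pool.Agent.MP01b126.Tr E a b c → (x, y) ∈ hull {a, b, c} →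
      detR a b (x, y) = 0 → b.1 < a.1 →
      ∀ᶠ ε in nhdsWithin (0 : ℝ) (Set.Ioi 0), (x, y + ε) ∈ ⋃ t ∈ faces m n E, hull t := by
    intro a b c htr hxt h0 hlt
    have hD : det3 a b c = 1 := by rw [det3_eq]; exact htr.2.2.2
    obtain ⟨hb1, hb2⟩ := on_side hD hx hxt h0
    have hsum := detR_sum a b c (x, y)
    have hb := bary a b c (x, y)
    rw [hD] at hb hsum
    rw [h0] at hb hsum
    simp only [Int.cast_one, one_smul, zero_smul, add_zero, zero_add] at hb hsum
    have hy2 : y = detR b c (x, y) * a.2 + detR c a (x, y) * b.2 := by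
      have := congrArg Prod.snd hb
      simpa [emb] using this
    have hx2 : x = detR b c (x, y) * a.1 + detR c a (x, y) * b.1 := by
      have := congrArg Prod.fst hb
      simpa [emb] using this
    have haR := h.inR _ _ htr.1
    have hbR := h.inR' htr.1
    -- a point above
    obtain ⟨z, hz, hzpos⟩ : ∃ z : Pt, InR m n z ∧ 0 < det (a - b) (z - b) := by
      by_cases ha2 : a.2 < n
      · refine ⟨(a.1, n), ⟨haR.1, haR.2.1, by simp, by simp⟩, ?_⟩
        simp only [det, Prod.fst_sub, Prod.snd_sub]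
        have : 0 < (a.1 - b.1) * ((n : ℤ) - a.2) := mul_pos (by omega) (by omega)
        linarith
      · have hb2' : b.2 < n := by
          by_contra hcon
          have e1 : a.2 = n := le_antisymm haR.2.2.2 (by omega)
          have e2 : b.2 = n := le_antisymm hbR.2.2.2 (by omega)
          rw [e1, e2] at hy2
          push_cast at hy2
          have : y = (detR b c (x, y) + detR c a (x, y)) * n := by linarith
          rw [hsum] at this
          linarith
        refine ⟨(b.1, n), ⟨hbR.1, hbR.2.1, by simp, by simp⟩, ?_⟩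
        simp only [det, Prod.fst_sub, Prod.snd_sub]
        have : 0 < (a.1 - b.1) * ((n : ℤ) - b.2) := mul_pos (by omega) (by omega)
        linarith
    obtain ⟨c', htr'⟩ := h.apex_exists (h.symm _ _ htr.1) hz hzpos
    have hD' : det3 b a c' = 1 := by rw [det3_eq]; exact htr'.2.2.2
    -- strict inequalities at the point for the two other sides
    have f1 : 0 < detR a c' (x, y) := by
      have : detR a c' (x, y) = detR c a (x, y) * detR a c' (emb b) + detR b c (x, y) * detR a c' (emb a) := by
        have hxy : ((x, y) : ℝ × ℝ) = detR c a (x, y) • emb b + detR b c (x, y) • emb a := by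
          rw [add_comm]; exact hb
        conv_lhs => rw [hxy]
        rw [detR_comb _ _ _ _ (by linarith)]
      rw [this, detR_emb, detR_emb, det3_rot]
      have : det3 a c' a = 0 := by simp
      rw [this, hD']; simpa using hb2
    have f2 : 0 < detR c' b (x, y) := by
      have : detR c' b (x, y) = detR c a (x, y) * detR c' b (emb b) + detR b c (x, y) * detR c' b (emb a) := by
        have hxy : ((x, y) : ℝ × ℝ) = detR c a (x, y) • emb b + detR b c (x, y) • emb a := by
          rw [add_comm]; exact hb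
        conv_lhs => rw [hxy]
        rw [detR_comb _ _ _ _ (by linarith)]
      rw [this, detR_emb, detR_emb, det3_right, det3_rot' b a c', hD']; simpa using hb1
    have g0 : detR b a (x, y) = 0 := by rw [detR_swap, h0, neg_zero]
    have e1 := side_up (a := b) (b := a) (x := x) (y := y) (by rw [g0]) (Or.inr hlt.le)
    have e2 := side_up (a := a) (b := c') (x := x) (y := y) f1.le (Or.inl f1)
    have e3 := side_up (a := c') (b := b) (x := x) (y := y) f2.le (Or.inl f2)
    filter_upwards [e1, e2, e3] with ε h1 h2 h3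
    refine Set.mem_iUnion₂.mpr ⟨{b, a, c'}, tr_mem_faces h htr', ?_⟩
    rw [mem_hull_iff (by omega)]
    exact ⟨h1, h2, h3⟩
  have hD : det3 a b c = 1 := by rw [det3_eq]; exact htr.2.2.2
  obtain ⟨g1, g2, g3⟩ := (mem_hull_iff (by omega) _).mp hxt
  by_cases c1 : detR a b (x, y) = 0 ∧ b.1 < a.1
  · exact key a b c htr hxt c1.1 c1.2
  by_cases c2 : detR b c (x, y) = 0 ∧ c.1 < b.1
  · exact key b c a (tr_rot htr) (by rw [perm1]; exact hxt) c2.1 c2.2
  by_cases c3 : detR c a (x, y) = 0 ∧ a.1 < c.1
  · exact key c a b (tr_rot (tr_rot htr)) (by rw [perm2]; exact hxt) c3.1 c3.2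
  have e1 := side_up g1 (by
    by_cases h0 : detR a b (x, y) = 0
    · exact Or.inr (by by_contra hcon; exact c1 ⟨h0, by omega⟩)
    · exact Or.inl (lt_of_le_of_ne g1 (Ne.symm h0)))
  have e2 := side_up g2 (by
    by_cases h0 : detR b c (x, y) = 0
    · exact Or.inr (by by_contra hcon; exact c2 ⟨h0, by omega⟩)
    · exact Or.inl (lt_of_le_of_ne g2 (Ne.symm h0)))
  have e3 := side_up g3 (by
    by_cases h0 : detR c a (x, y) = 0
    · exact Or.inr (by by_contra hcon; exact c3 ⟨h0, by omega⟩)
    · exact Or.inl (lt_of_le_of_ne g3 (Ne.symm h0)))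
  filter_upwards [e1, e2, e3] with ε h1 h2 h3
  refine Set.mem_iUnion₂.mpr ⟨{a, b, c}, ht, ?_⟩
  rw [mem_hull_iff (by omega)]
  exact ⟨h1, h2, h3⟩

end MP01b126
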