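import Pool.Agent.Lib.MP_01b126_co.BridgeE

open MeasureTheory
open Pool.Agent.MP01b126 (IsTri InR InR2 Cross Prim det)

namespace MP01b126

variable {m n : ℕ} {T : Finset (Finset Pt)} {E : Pt → Pt → Prop}

lemma isClosed_cover : IsClosed (⋃ t ∈ faces m n E, hull t) :=
  (Finset.finite_toSet _).isClosed_biUnion (fun s _ => isClosed_hull s)

/-- the bottom side is covered -/
lemma bottom (h : IsTri m n E) (hn : 0 < n) {x : ℝ} (hx : Irrational x) (h0 : 0 < x) (hm : x < m) :
    (x, (0 : ℝ)) ∈ ⋃ t ∈ faces m n E, hull t := by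
  set k := ⌊x⌋ with hk
  have hk0 : 0 ≤ k := Int.floor_nonneg.mpr h0.le
  have hkm : k < m := by
    have h1 : (k : ℝ) ≤ x := Int.floor_le x
    have : (k : ℝ) < m := by linarith
    exact_mod_cast this
  have hkx : (k : ℝ) ≤ x := Int.floor_le x
  have hkx1 : x < k + 1 := Int.lt_floor_add_one x
  obtain ⟨a, b, hab, hs⟩ := h.full (2 * k + 1, 0) (by simp; omega) (by simp; omega) (by simp) (by simp)
    (by rintro ⟨⟨r, hr⟩, _⟩; simp only at hr; omega)
  have haR := h.inR _ _ hab
  have hbR := h.inR' hab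
  have hp := h.prim _ _ hab
  have s1 := congrArg Prod.fst hs
  have s2 := congrArg Prod.snd hs
  simp only [Prod.fst_add, Prod.snd_add] at s1 s2
  have ha2 : a.2 = 0 := by have := haR.2.2.1; have := hbR.2.2.1; omega
  have hb2 : b.2 = 0 := by have := haR.2.2.1; have := hbR.2.2.1; omega
  have hunit : b.1 - a.1 = 1 ∨ b.1 - a.1 = -1 := by
    simp only [Prim, Prod.fst_sub, Prod.snd_sub, ha2, hb2, sub_zero] at hp
    obtain ⟨u, v, huv⟩ := hp
    have : u * (b.1 - a.1) = 1 := by linarith
    exact Int.isUnit_iff.mp (IsUnit.of_mul_eq_one u (by linarith))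
  -- orient the edge to the right
  obtain ⟨a, b, hab, ha, hb⟩ : ∃ a b : Pt, E a b ∧ a = (k, 0) ∧ b = (k + 1, 0) := by
    rcases hunit with h1 | h1
    · exact ⟨a, b, hab, Prod.ext (by simp only; omega) ha2, Prod.ext (by simp only; omega) hb2⟩
    · exact ⟨b, a, h.symm _ _ hab, Prod.ext (by simp only; omega) hb2, Prod.ext (by simp only; omega) ha2⟩
  obtain ⟨c, htr⟩ := h.apex_exists hab (z := (k, n)) ⟨hk0, hkm.le, by simp, by simp⟩ (by
    rw [ha, hb]; simp [det]; omega)
  refine Set.mem_iUnion₂.mpr ⟨_, tr_mem_faces h htr, ?_⟩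
  have hsub : hull {a, b} ⊆ hull {a, b, c} := hull_mono (by
    intro z hz
    simp only [Finset.mem_insert, Finset.mem_singleton] at hz ⊢
    tauto)
  apply hsub
  rw [hull_pair]
  refine ⟨k + 1 - x, x - k, by linarith, by linarith, by ring, ?_⟩
  rw [ha, hb]
  ext
  · simp only [emb, Prod.fst_add, Prod.smul_fst, smul_eq_mul]; push_cast; ring
  · simp only [emb, Prod.snd_add, Prod.smul_snd, smul_eq_mul]; push_cast; ring

/-- vertical lines with irrational abscissa are covered -/
lemma line_cover (h : IsTri m n E) (hn : 0 < n) {x : ℝ} (hx : Irrational x) (h0 : 0 < x) (hm : x < m) :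
    Set.Icc (0 : ℝ) n ⊆ {y | (x, y) ∈ ⋃ t ∈ faces m n E, hull t} := by
  have hcont : Continuous (fun y : ℝ => (x, y)) := by fun_prop
  apply IsClosed.Icc_subset_of_forall_mem_nhdsWithin
  · exact (isClosed_cover.preimage hcont).inter isClosed_Icc
  · exact bottom h hn hx h0 hm
  · rintro y ⟨hy, hy1⟩
    have h1 := up_step h hx hy1.2 hy
    -- translate the filter
    have h2 : Filter.Tendsto (fun z : ℝ => z - y) (nhdsWithin y (Set.Ioi y)) (nhdsWithin 0 (Set.Ioi 0)) := by
      apply tendsto_nhdsWithin_of_tendsto_nhds_of_eventually_within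
      · have : Filter.Tendsto (fun z : ℝ => z - y) (nhds y) (nhds (y - y)) :=
          (continuous_id.sub continuous_const).tendsto y
        rw [sub_self] at this
        exact this.mono_left nhdsWithin_le_nhds
      · filter_upwards [self_mem_nhdsWithin] with z hz
        show 0 < z - y
        exact sub_pos.mpr hz
    have h3 := h2.eventually h1
    have h4 : ∀ᶠ z in nhdsWithin y (Set.Ioi y), (x, z) ∈ ⋃ t ∈ faces m n E, hull t := by
      filter_upwards [h3] with z hz
      have : y + (z - y) = z := by ring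
      rw [this] at hz
      exact hz
    exact h4

lemma cover_rect (h : IsTri m n E) (hm : 0 < m) (hn : 0 < n) :
    rect m n ⊆ ⋃ t ∈ faces m n E, hull t := by
  have h1 : (Set.Ioo (0 : ℝ) m ∩ {x | Irrational x}) ×ˢ Set.Icc (0 : ℝ) n ⊆
      ⋃ t ∈ faces m n E, hull t := by
    rintro ⟨x, y⟩ ⟨⟨hx, hirr⟩, hy⟩
    exact line_cover h hn hirr hx.1 hx.2 hy
  have h2 : closure ((Set.Ioo (0 : ℝ) m ∩ {x | Irrational x}) ×ˢ Set.Icc (0 : ℝ) n) ⊆
      ⋃ t ∈ faces m n E, hull t := closure_minimal h1 isClosed_cover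
  refine subset_trans ?_ h2
  rw [closure_prod_eq]
  apply Set.prod_mono
  · have h3 : Set.Ioo (0 : ℝ) m ⊆ closure (Set.Ioo (0 : ℝ) m ∩ {x | Irrational x}) :=
      dense_irrational.open_subset_closure_inter isOpen_Ioo
    have h4 := closure_minimal h3 isClosed_closure
    rw [closure_Ioo] at h4
    · exact h4
    · have : (0 : ℝ) < m := by exact_mod_cast hm
      exact this.ne
  · exact subset_closure

/-! ### counting -/

lemma parity_aux : ∀ u1 u2 v1 v2 : ZMod 2, u1 * v2 - u2 * v1 = 1 →
    (u1 = 1 ∧ u2 = 1) ∨ (v1 = 1 ∧ v2 = 1) ∨ (v1 - u1 = 1 ∧ v2 - u2 = 1) := by decide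

lemma odd_cast {z : ℤ} (h : (z : ZMod 2) = 1) : z % 2 = 1 := by
  have : ((z : ℤ) : ZMod 2) = ((1 : ℤ) : ZMod 2) := by simpa using h
  rw [ZMod.intCast_eq_intCast_iff] at this
  exact this

/-- one of the sides of a unimodular triangle has an odd-odd midpoint -/
lemma odd_side {a b c : Pt} (h : det (b - a) (c - a) = 1) :
    ((a.1 + b.1) % 2 = 1 ∧ (a.2 + b.2) % 2 = 1) ∨ ((c.1 + a.1) % 2 = 1 ∧ (c.2 + a.2) % 2 = 1) ∨
    ((b.1 + c.1) % 2 = 1 ∧ (b.2 + c.2) % 2 = 1) := by
  have h1 := parity_aux ((b.1 - a.1 : ℤ) : ZMod 2) ((b.2 - a.2 : ℤ) : ZMod 2)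
    ((c.1 - a.1 : ℤ) : ZMod 2) ((c.2 - a.2 : ℤ) : ZMod 2) (by
      simp only [det, Prod.fst_sub, Prod.snd_sub] at h
      have := congrArg (fun z : ℤ => (z : ZMod 2)) h
      push_cast at this ⊢
      exact this)
  rcases h1 with ⟨h2, h3⟩ | ⟨h2, h3⟩ | ⟨h2, h3⟩
  · left; have := odd_cast h2; have := odd_cast h3; omega
  · right; left; have := odd_cast h2; have := odd_cast h3; omega
  · right; right
    have h2' : (((c.1 - a.1) - (b.1 - a.1) : ℤ) : ZMod 2) = 1 := by push_cast at h2 ⊢; exact h2
    have h3' : (((c.2 - a.2) - (b.2 - a.2) : ℤ) : ZMod 2) = 1 := by push_cast at h3 ⊢; exact h3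
    have := odd_cast h2'; have := odd_cast h3'; omega

lemma card_faces_le (h : IsTri m n E) : (faces m n E).card ≤ 2 * m * n := by
  classical
  -- a canonical oriented odd side
  have hex : ∀ t ∈ faces m n E, ∃ p : Pt × Pt, ∃ c, t = {p.1, p.2, c} ∧
      Pool.Agent.MP01b126.Tr E p.1 p.2 c ∧ (p.1.1 + p.2.1) % 2 = 1 ∧ (p.1.2 + p.2.2) % 2 = 1 := by
    intro t ht
    obtain ⟨_, a, b, c, rfl, htr⟩ := mem_faces.mp ht
    rcases odd_side htr.2.2.2 with ⟨h1, h2⟩ | ⟨h1, h2⟩ | ⟨h1, h2⟩
    · exact ⟨(a, b), c, rfl, htr, h1, h2⟩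
    · exact ⟨(c, a), b, (perm2 a b c).symm, tr_rot (tr_rot htr), h1, h2⟩
    · exact ⟨(b, c), a, (perm1 a b c).symm, tr_rot htr, h1, h2⟩
  choose! g c hg htr h1 h2 using hex
  set O := (faces m n E).image g with hO
  have hinj : Set.InjOn g (faces m n E : Set (Finset Pt)) := by
    intro t ht t' ht' heq
    have e1 := hg t ht
    have e2 := hg t' ht'
    have f1 := htr t ht
    have f2 := htr t' ht'
    rw [heq] at e1 f1
    rw [e_left_unique h f1 f2] at e1
    exact e1.trans e2.symm
  have hcard : O.card = (faces m n E).card := Finset.card_image_of_injOn hinj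
  -- the midpoints
  set S : Finset Pt := (Finset.range m ×ˢ Finset.range n).image
    (fun p => ((2 * (p.1 : ℤ) + 1, 2 * (p.2 : ℤ) + 1) : Pt)) with hS
  have hScard : S.card ≤ m * n := by
    refine Finset.card_image_le.trans ?_
    rw [Finset.card_product, Finset.card_range, Finset.card_range]
  have hmaps : ∀ p ∈ O, p.1 + p.2 ∈ S := by
    intro p hp
    obtain ⟨t, ht, rfl⟩ := Finset.mem_image.mp hp
    have f1 := htr t ht
    have g1 := h1 t ht
    have g2 := h2 t ht
    have r1 := h.inR _ _ f1.1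
    have r2 := h.inR' f1.1
    obtain ⟨a1, a2, a3, a4⟩ := r1
    obtain ⟨b1, b2, b3, b4⟩ := r2
    rw [hS, Finset.mem_image]
    refine ⟨((((g t).1.1 + (g t).2.1) / 2).toNat, (((g t).1.2 + (g t).2.2) / 2).toNat), ?_, ?_⟩
    · simp only [Finset.mem_product, Finset.mem_range]
      constructor <;> omega
    · ext
      · simp only [Prod.fst_add]; omega
      · simp only [Prod.snd_add]; omega
  have hfib : ∀ s ∈ S, (O.filter (fun p => p.1 + p.2 = s)).card ≤ 2 := by
    intro s _
    by_cases hne : (O.filter (fun p => p.1 + p.2 = s)).Nonempty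
    · obtain ⟨p, hp⟩ := hne
      rw [Finset.mem_filter] at hp
      have hsub : O.filter (fun p => p.1 + p.2 = s) ⊆ {p, (p.2, p.1)} := by
        intro q hq
        rw [Finset.mem_filter] at hq
        obtain ⟨t, ht, htp⟩ := Finset.mem_image.mp hp.1
        obtain ⟨t', ht', htq⟩ := Finset.mem_image.mp hq.1
        have f1 := (htr t ht).1
        have f2 := (htr t' ht').1
        rw [htp] at f1
        rw [htq] at f2
        simp only [Finset.mem_insert, Finset.mem_singleton]
        rcases h.mid_unique f1 f2 (by rw [hp.2, hq.2]) with ⟨e1, e2⟩ | ⟨e1, e2⟩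
        · left; exact Prod.ext e1 e2
        · right; exact Prod.ext e1 e2
      exact (Finset.card_le_card hsub).trans Finset.card_le_two
    · rw [Finset.not_nonempty_iff_eq_empty] at hne
      rw [hne]; simp
  have h3 : O.card ≤ S.card * 2 := by
    have := Finset.card_le_mul_card_image_of_maps_to (s := O) (t := S) (f := fun p => p.1 + p.2) hmaps 2 hfib
    linarith
  calc (faces m n E).card = O.card := hcard.symm
    _ ≤ S.card * 2 := h3
    _ ≤ (m * n) * 2 := Nat.mul_le_mul_right _ hScard
    _ = 2 * m * n := by ring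

lemma faces_uni {t : Finset Pt} (ht : t ∈ faces m n E) : IsUni t := by
  obtain ⟨_, a, b, c, rfl, htr⟩ := mem_faces.mp ht
  exact ⟨a, b, c, rfl, by rw [det3_eq, htr.2.2.2]; norm_num⟩

/-- (ii) the faces of an edge relation form a triangulation -/
theorem isTriangulation_faces (h : IsTri m n E) (hm : 0 < m) (hn : 0 < n) :
    IsTriangulation m n (faces m n E) :=
  isTriangulation_of_cover (fun _ ht => faces_uni ht) (fun _ ht => (mem_faces.mp ht).1)
    (cover_rect h hm hn) (card_faces_le h)

theorem ed_faces (h : IsTri m n E) (hm : 0 < m) (hn : 0 < n) (a b : Pt) :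
    Ed (faces m n E) a b ↔ E a b := by
  constructor
  · rintro ⟨hab, t, ht, ha, hb⟩
    obtain ⟨_, p, q, r, rfl, h1, h2, h3, _⟩ := mem_faces.mp ht
    simp only [Finset.mem_insert, Finset.mem_singleton] at ha hb
    rcases ha with rfl | rfl | rfl <;> rcases hb with rfl | rfl | rfl
    · exact absurd rfl hab
    · exact h1
    · exact h.symm _ _ h3
    · exact h.symm _ _ h1
    · exact absurd rfl hab
    · exact h2
    · exact h3
    · exact h.symm _ _ h2
    · exact absurd rfl hab
  · intro hE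
    have hne := h.ne hE
    -- a corner off the line
    have key : ∃ z : Pt, InR m n z ∧ det (b - a) (z - a) ≠ 0 := by
      by_contra hcon
      push Not at hcon
      have c1 := hcon (0, 0) ⟨by simp, by simp, by simp, by simp⟩
      have c2 := hcon ((m : ℤ), 0) ⟨by simp, by simp, by simp, by simp⟩
      have c3 := hcon (0, (n : ℤ)) ⟨by simp, by simp, by simp, by simp⟩
      simp only [det, Prod.fst_sub, Prod.snd_sub] at c1 c2 c3
      have d1 : (b.1 - a.1) * n = 0 := by linarith
      have d2 : (b.2 - a.2) * m = 0 := by linarith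
      have hm' : (m : ℤ) ≠ 0 := by omega
      have hn' : (n : ℤ) ≠ 0 := by omega
      have e1 := (mul_eq_zero.mp d1).resolve_right hn'
      have e2 := (mul_eq_zero.mp d2).resolve_right hm'
      exact hne (Prod.ext (by omega) (by omega))
    obtain ⟨z, hz, hz0⟩ := key
    rcases lt_or_gt_of_ne hz0 with h1 | h1
    · obtain ⟨c, hc⟩ := h.apex_exists (h.symm _ _ hE) hz (by
        have : det (a - b) (z - b) = - det (b - a) (z - a) := by
          simp only [det, Prod.fst_sub, Prod.snd_sub]; ring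
        rw [this]; omega)
      exact ⟨hne, _, tr_mem_faces h hc, by simp, by simp⟩
    · obtain ⟨c, hc⟩ := h.apex_exists hE hz h1
      exact ⟨hne, _, tr_mem_faces h hc, by simp, by simp⟩

lemma ed_faces_eq (h : IsTri m n E) (hm : 0 < m) (hn : 0 < n) : Ed (faces m n E) = E := by
  funext a b
  exact propext (ed_faces h hm hn a b)

theorem faces_ed (hT : IsTriangulation m n T) (hm : 0 < m) (hn : 0 < n) :
    faces m n (Ed T) = T := by
  symm
  apply Finset.eq_of_subset_of_card_le
  · intro t ht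
    obtain ⟨a, b, c, rfl, hD⟩ := (hT.uni ht).orient
    rw [mem_faces]
    obtain ⟨h1, h2, h3⟩ := det3_ne (a := a) (b := b) (c := c) (by omega)
    exact ⟨hT.sub ht, a, b, c, rfl, ⟨h1, _, ht, by simp, by simp⟩, ⟨h2, _, ht, by simp, by simp⟩,
      ⟨h3, _, ht, by simp, by simp⟩, by rw [← det3_eq]; exact hD⟩
  · rw [hT.card]
    exact card_faces_le hT.isTri

/-- `f(m,n)` counts edge relations -/
theorem f_eq (hm : 0 < m) (hn : 0 < n) : f m n = {E : Pt → Pt → Prop | IsTri m n E}.ncard := by
  unfold f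
  apply Set.ncard_congr (fun T _ => Ed T)
  · intro T hT
    exact hT.isTri
  · intro T T' hT hT' heq
    rw [← faces_ed hT hm hn, ← faces_ed hT' hm hn, heq]
  · intro E hE
    exact ⟨faces m n E, isTriangulation_faces hE hm hn, ed_faces_eq hE hm hn⟩

/-! ### regularity -/

/-- (iii) heights of a regular triangulation: strict inequality at every crossing -/
theorem IsRegular.heights (hT : IsRegular m n T) : ∃ h : Pt → ℝ, ∀ a b c d : Pt, Ed T a b →
    InR m n c → InR m n d → Cross a b c d →
    ((|det (d - c) (b - c)| : ℤ) : ℝ) * h a + ((|det (d - c) (a - c)| : ℤ) : ℝ) * h b <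
    ((|det (b - a) (d - a)| : ℤ) : ℝ) * h c + ((|det (b - a) (c - a)| : ℤ) : ℝ) * h d := by
  obtain ⟨h, hh⟩ := hT.strict
  have hTT := hT.1
  refine ⟨h, ?_⟩
  rintro a b c d ⟨hab, t, ht, ha, hb⟩ hc hd ⟨h1, h2⟩
  obtain ⟨A, hA1, hA2⟩ := hh t ht
  set α := det (b - a) (c - a) with hα
  set β := det (b - a) (d - a) with hβ
  set γ := det (d - c) (a - c) with hγ
  set δ := det (d - c) (b - c) with hδ
  have hs : β - α = γ - δ := by
    simp only [hα, hβ, hγ, hδ, det, Prod.fst_sub, Prod.snd_sub]; ring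
  -- `β c - α d = γ b - δ a`
  have e1 : (β : ℝ) * c.1 - α * d.1 = γ * b.1 - δ * a.1 := by
    have : β * c.1 - α * d.1 = γ * b.1 - δ * a.1 := by
      simp only [hα, hβ, hγ, hδ, det, Prod.fst_sub, Prod.snd_sub]; ring
    exact_mod_cast this
  have e2 : (β : ℝ) * c.2 - α * d.2 = γ * b.2 - δ * a.2 := by
    have : β * c.2 - α * d.2 = γ * b.2 - δ * a.2 := by
      simp only [hα, hβ, hγ, hδ, det, Prod.fst_sub, Prod.snd_sub]; ring
    exact_mod_cast this
  -- the affine function in coordinates
  have hAf : ∀ p : Pt, A (emb p) = A.linear (1, 0) * p.1 + A.linear (0, 1) * p.2 + A 0 := by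
    intro p
    have h5 : A (emb p) = A.linear (emb p) + A 0 := by
      have := A.decomp
      have h6 := congrFun this (emb p)
      simpa using h6
    have h7 : emb p = (p.1 : ℝ) • ((1, 0) : ℝ × ℝ) + (p.2 : ℝ) • ((0, 1) : ℝ × ℝ) := by
      ext <;> simp [emb]
    rw [h5, h7, map_add, map_smul, map_smul]
    simp only [smul_eq_mul]; ring
  have hlin : (β : ℝ) * A (emb c) - α * A (emb d) = γ * A (emb b) - δ * A (emb a) := by
    rw [hAf, hAf, hAf, hAf]
    have hsR : (β : ℝ) - α = γ - δ := by exact_mod_cast hs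
    linear_combination A.linear (1, 0) * e1 + A.linear (0, 1) * e2 + A 0 * hsR
  have gc : c ∈ grid m n := (inR_iff c).mp hc
  have gd : d ∈ grid m n := (inR_iff d).mp hd
  have hac : A (emb c) ≤ h c := by
    by_cases hct : c ∈ t
    · exact (hA1 c hct).le
    · exact (hA2 c gc hct).le
  have had : A (emb d) ≤ h d := by
    by_cases hdt : d ∈ t
    · exact (hA1 d hdt).le
    · exact (hA2 d gd hdt).le
  -- not both in `t`
  have hnot : ¬ (c ∈ t ∧ d ∈ t) := by
    rintro ⟨hct, hdt⟩
    obtain ⟨e, he, hD⟩ := (hTT.uni ht).third ha hb hab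
    rw [he] at hct hdt
    simp only [Finset.mem_insert, Finset.mem_singleton] at hct hdt
    have z1 : det (b - a) (a - a) = 0 := by simp [det]
    have z2 : det (b - a) (b - a) = 0 := by simp [det]; ring
    rcases hct with rfl | rfl | rfl
    · rw [hα, z1] at h1; simp at h1
    · rw [hα, z2] at h1; simp at h1
    · rcases hdt with rfl | rfl | rfl
      · rw [hβ, z1] at h1; simp at h1
      · rw [hβ, z2] at h1; simp at h1
      · rw [hα, hβ] at h1
        have := mul_self_nonneg (det (b - a) (d - a))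
        linarith
  have hAa := hA1 a ha
  have hAb := hA1 b hb
  -- signs
  have key : ∀ α β γ δ : ℝ, β < 0 → 0 < α → γ < 0 → 0 < δ → β * A (emb c) - α * A (emb d) = γ * A (emb b) - δ * A (emb a) →
      δ * h a + (-γ) * h b < (-β) * h c + α * h d := by
    intro α β γ δ hβ hα hγ hδ hl
    rw [← hAa, ← hAb]
    by_cases hct : c ∈ t
    · have hdt : d ∉ t := fun hdt => hnot ⟨hct, hdt⟩
      have := hA2 d gd hdt
      have k1 : α * A (emb d) < α * h d := mul_lt_mul_of_pos_left this hα
      have k2 : (-β) * A (emb c) ≤ (-β) * h c := mul_le_mul_of_nonneg_left hac (by linarith)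
      linarith
    · have := hA2 c gc hct
      have k1 : α * A (emb d) ≤ α * h d := mul_le_mul_of_nonneg_left had hα.le
      have k2 : (-β) * A (emb c) < (-β) * h c := mul_lt_mul_of_pos_left this (by linarith)
      linarith
  rcases lt_trichotomy α 0 with hα0 | hα0 | hα0
  · have hβ0 : 0 < β := by nlinarith
    have hγδ : δ < γ := by linarith
    have hγ0 : 0 < γ := by nlinarith
    have hδ0 : δ < 0 := by nlinarith
    rw [abs_of_neg hδ0, abs_of_pos hγ0, abs_of_pos hβ0, abs_of_neg hα0]
    have := key (-α) (-β) (-γ) (-δ) (by have : (0:ℝ) < β := by exact_mod_cast hβ0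
                                        linarith) (by have : (α:ℝ) < 0 := by exact_mod_cast hα0
                                                      linarith)
      (by have : (0:ℝ) < γ := by exact_mod_cast hγ0
          linarith) (by have : (δ:ℝ) < 0 := by exact_mod_cast hδ0
                        linarith) (by linarith)
    push_cast
    linarith
  · rw [hα0] at h1; simp at h1
  · have hβ0 : β < 0 := by nlinarith
    have hγδ : γ < δ := by linarith
    have hγ0 : γ < 0 := by nlinarith
    have hδ0 : 0 < δ := by nlinarith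
    rw [abs_of_pos hδ0, abs_of_neg hγ0, abs_of_neg hβ0, abs_of_pos hα0]
    have := key α β γ δ (by exact_mod_cast hβ0) (by exact_mod_cast hα0) (by exact_mod_cast hγ0)
      (by exact_mod_cast hδ0) hlin
    push_cast
    linarith

end MP01b126
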