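import Pool.Agent.Lib.MP_01b126_co.Model

/-!
# The certificate of non-regularity: four edges
-/

namespace Pool.Agent.MP01b126

theorem det_aff (o u v x y z w : Pt) :
    det (aff o u v x - aff o u v y) (aff o u v z - aff o u v w) =
      det (x - y) (z - w) * det u v := by
  simp only [aff, det, Prod.fst_sub, Prod.snd_sub, Prod.fst_add, Prod.snd_add, Prod.smul_fst,
    Prod.smul_snd, smul_eq_mul]
  ring

theorem cross_aff {o u v : Pt} (hd : det u v = 1 ∨ det u v = -1) (a b c d : Pt) :
    Cross (aff o u v a) (aff o u v b) (aff o u v c) (aff o u v d) ↔ Cross a b c d := by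
  unfold Cross
  simp only [det_aff]
  rcases hd with h | h <;> rw [h] <;> constructor <;> rintro ⟨h1, h2⟩ <;>
    constructor <;> linarith

theorem prim_aff {o u v : Pt} (hd : det u v = 1 ∨ det u v = -1) {a b : Pt} (h : Prim (b - a)) :
    Prim (aff o u v b - aff o u v a) := by
  obtain ⟨s, t, hst⟩ := h
  have e : aff o u v b - aff o u v a = (b - a).1 • u + (b - a).2 • v := by
    simp only [aff, Prod.fst_sub, Prod.snd_sub, sub_smul]; abel
  rw [e]
  set x := (b - a).1
  set y := (b - a).2
  rcases hd with h | h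
  · refine ⟨s * v.2 - t * u.2, - s * v.1 + t * u.1, ?_⟩
    simp only [Prod.fst_add, Prod.snd_add, Prod.smul_fst, Prod.smul_snd, smul_eq_mul]
    unfold det at h
    linear_combination (s * x + t * y) * h + hst
  · refine ⟨-(s * v.2 - t * u.2), -(- s * v.1 + t * u.1), ?_⟩
    simp only [Prod.fst_add, Prod.snd_add, Prod.smul_fst, Prod.smul_snd, smul_eq_mul]
    unfold det at h
    linear_combination (-(s * x + t * y)) * h + hst

/-- a triangulation containing an affine unimodular image of the four segments is not regular -/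
theorem cert {m n : ℕ} {E : Pt → Pt → Prop} (h : IsTri m n E) {o u v : Pt}
    (hd : det u v = 1 ∨ det u v = -1)
    (hE : ∀ i, E (aff o u v (sg i).1) (aff o u v (sg i).2)) : ¬ Reg m n E := by
  rintro ⟨f, hf⟩
  have h0 := hE 0
  have h1 := hE 1
  have h2 := hE 2
  have h3 := hE 3
  simp only [sg, Matrix.cons_val_zero, Matrix.cons_val_one, Matrix.cons_val] at h0 h1 h2 h3
  have key : ∀ a b c d : Pt, E (aff o u v a) (aff o u v b) → InR m n (aff o u v c) →
      InR m n (aff o u v d) → Cross a b c d →
      (|det (d - c) (b - c)| : ℝ) * f (aff o u v a) + (|det (d - c) (a - c)| : ℝ) * f (aff o u v b)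
      < (|det (b - a) (d - a)| : ℝ) * f (aff o u v c) +
        (|det (b - a) (c - a)| : ℝ) * f (aff o u v d) := by
    intro a b c d hab hc hd' hcr
    have := hf _ _ _ _ hab hc hd' ((cross_aff hd _ _ _ _).mpr hcr)
    simp only [det_aff] at this
    have e : ∀ x : ℤ, |((x * det u v : ℤ) : ℝ)| = |(x : ℝ)| := by
      intro x
      rcases hd with h | h <;> rw [h] <;> simp
    simp only [e] at this
    exact this
  have r00 := h.inR _ _ h0
  have r12 := h.inR' h0
  have r11 := h.inR _ _ h1
  have r63 := h.inR' h1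
  have r22 := h.inR _ _ h2
  have r03 := h.inR' h2
  have r32 := h.inR _ _ h3
  have r33 := h.inR' h3
  have k0 := key (0, 0) (1, 2) (1, 1) (0, 3) h0 r11 r03 (by unfold Cross det; norm_num)
  have k1 := key (1, 1) (6, 3) (0, 0) (3, 2) h1 r00 r32 (by unfold Cross det; norm_num)
  have k2 := key (2, 2) (0, 3) (1, 2) (3, 3) h2 r12 r33 (by unfold Cross det; norm_num)
  have k3 := key (3, 2) (3, 3) (2, 2) (6, 3) h3 r22 r63 (by unfold Cross det; norm_num)
  norm_num [det] at k0 k1 k2 k3
  linarith

end Pool.Agent.MP01b126
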