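import Pool.Agent.Lib.MP_01b126_co.Model

/-!
# Uniqueness of apexes, cones of faces, the exit lemma, the face in a given direction
-/

namespace Pool.Agent.MP01b126

/-- rotation of a face -/
theorem Tr.rot {E : Pt → Pt → Prop} {a b c : Pt} (h : Tr E a b c) : Tr E b c a := by
  obtain ⟨h1, h2, h3, h4⟩ := h
  refine ⟨h2, h3, h1, ?_⟩
  simp only [det, Prod.fst_sub, Prod.snd_sub] at *
  linarith

theorem Tr.rot' {E : Pt → Pt → Prop} {a b c : Pt} (h : Tr E a b c) : Tr E c a b := h.rot.rot

theorem Tr.det' {E : Pt → Pt → Prop} {a b c : Pt} (h : Tr E a b c) :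
    det (b - a) (c - a) = 1 := h.2.2.2

/-- two unimodular triangles on the same side of `ab` have crossing sides -/
theorem cross_of_apex {a u v : Pt} (hd : det u v = 1) {k : ℤ} (hk : 0 < k) :
    Cross (a + u) (a + v) a (a + v + k • u) := by
  have e1 : det (a + v - (a + u)) (a - (a + u)) = 1 := by
    simp only [det, Prod.fst_sub, Prod.snd_sub, Prod.fst_add, Prod.snd_add] at *
    linear_combination hd
  have e2 : det (a + v - (a + u)) (a + v + k • u - (a + u)) = - k := by
    simp only [det, Prod.fst_sub, Prod.snd_sub, Prod.fst_add, Prod.snd_add, Prod.smul_fst,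
      Prod.smul_snd, smul_eq_mul] at *
    linear_combination (-k) * hd
  have e3 : det (a + v + k • u - a) (a + u - a) = -1 := by
    simp only [det, Prod.fst_sub, Prod.snd_sub, Prod.fst_add, Prod.snd_add, Prod.smul_fst,
      Prod.smul_snd, smul_eq_mul] at *
    linear_combination (-1) * hd
  have e4 : det (a + v + k • u - a) (a + v - a) = k := by
    simp only [det, Prod.fst_sub, Prod.snd_sub, Prod.fst_add, Prod.snd_add, Prod.smul_fst,
      Prod.smul_snd, smul_eq_mul] at *
    linear_combination k * hd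
  refine ⟨?_, ?_⟩
  · rw [e1, e2]; linarith
  · rw [e3, e4]; linarith

/-- exit lemma: a primitive segment entering a unimodular triangle through `ab` ends at the apex or
leaves through one of the two other sides -/
theorem traverse {a b c x y : Pt} (hd : det (b - a) (c - a) = 1) (hp : Prim (y - x))
    (hc : Cross a b x y) (hy : 0 < det (b - a) (y - a)) :
    y = c ∨ Cross b c x y ∨ Cross c a x y := by
  obtain ⟨hc1, hc2⟩ := hc
  set u := b - a with hu
  set v := c - a with hv
  have hb : b = a + u := by rw [hu]; abel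
  have hcc : c = a + v := by rw [hv]; abel
  obtain ⟨x1, x2, hx⟩ : ∃ x1 x2 : ℤ, x = a + x1 • u + x2 • v := by
    refine ⟨det (x - a) v, det u (x - a), ?_⟩
    have := expand hd (x - a)
    rw [add_assoc, ← this]; abel
  obtain ⟨y1, y2, hyy⟩ : ∃ y1 y2 : ℤ, y = a + y1 • u + y2 • v := by
    refine ⟨det (y - a) v, det u (y - a), ?_⟩
    have := expand hd (y - a)
    rw [add_assoc, ← this]; abel
  have f1 : ∀ p1 p2 : ℤ, det u (a + p1 • u + p2 • v - a) = p2 := by
    intro p1 p2
    have : a + p1 • u + p2 • v - a = p1 • u + p2 • v := by abel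
    rw [this, det_add_right, det_smul_right, det_smul_right, det_self, hd]; ring
  have hx2 : x2 < 0 := by
    rw [hx, hyy, f1, f1] at hc1
    rw [hyy, f1] at hy
    nlinarith
  have hy2 : 0 < y2 := by rw [hyy, f1] at hy; exact hy
  have hyx : y - x = (y1 - x1) • u + (y2 - x2) • v := by
    rw [hx, hyy, sub_smul, sub_smul]; abel
  have g : ∀ p1 p2 q1 q2 : ℤ, det (p1 • u + p2 • v) (q1 • u + q2 • v) = p1 * q2 - p2 * q1 := by
    intro p1 p2 q1 q2
    simp only [det_add_left, det_add_right, det_smul_left, det_smul_right, det_self, hd,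
      det_swap v u]
    ring
  have ga : det (y - x) (a - x) = x1 * y2 - x2 * y1 := by
    have : a - x = (- x1) • u + (- x2) • v := by rw [hx, neg_smul, neg_smul]; abel
    rw [hyx, this, g]; ring
  have gb : det (y - x) (b - x) = x1 * y2 - x2 * y1 - (y2 - x2) := by
    have : b - x = (1 - x1) • u + (- x2) • v := by
      rw [hx, hb, sub_smul, one_smul, neg_smul]; abel
    rw [hyx, this, g]; ring
  have gc : det (y - x) (c - x) = x1 * y2 - x2 * y1 + (y1 - x1) := by
    have : c - x = (- x1) • u + (1 - x2) • v := by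
      rw [hx, hcc, sub_smul, one_smul, neg_smul]; abel
    rw [hyx, this, g]; ring
  set A := x1 * y2 - x2 * y1 with hA
  rw [ga, gb] at hc2
  have hApos : 0 < A := by nlinarith
  have hAlt : A < y2 - x2 := by nlinarith
  -- the side lines
  have sbc : ∀ p1 p2 : ℤ, det (c - b) (a + p1 • u + p2 • v - b) = 1 - p1 - p2 := by
    intro p1 p2
    have e1 : c - b = (-1 : ℤ) • u + (1 : ℤ) • v := by
      rw [hcc, hb, neg_smul, one_smul, one_smul]; abel
    have e2 : a + p1 • u + p2 • v - b = (p1 - 1) • u + p2 • v := by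
      rw [hb, sub_smul, one_smul]; abel
    rw [e1, e2, g]; ring
  have sca : ∀ p1 p2 : ℤ, det (a - c) (a + p1 • u + p2 • v - c) = p1 := by
    intro p1 p2
    have e1 : a - c = (0 : ℤ) • u + (-1 : ℤ) • v := by
      rw [hcc, neg_smul, one_smul, zero_smul]; abel
    have e2 : a + p1 • u + p2 • v - c = p1 • u + (p2 - 1) • v := by
      rw [hcc, sub_smul, one_smul]; abel
    rw [e1, e2, g]; ring
  rcases lt_trichotomy (A + (y1 - x1)) 0 with ht | ht | ht
  · -- leaves through `ca`
    right; right
    have hy1 : y1 < 0 := by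
      by_contra hc
      push Not at hc
      have hx1 : x1 < 0 := by
        by_contra hcx
        push Not at hcx
        nlinarith [mul_nonneg hcx (show (0:ℤ) ≤ y2 - 1 by linarith),
          mul_nonneg hc (show (0:ℤ) ≤ 1 - x2 by linarith)]
      linarith
    have hx1 : 0 < x1 := by
      by_contra hcx
      push Not at hcx
      nlinarith [mul_nonneg (neg_nonneg.mpr hcx) hy2.le,
        mul_nonneg (neg_nonneg.mpr hy1.le) (neg_nonneg.mpr hx2.le)]
    refine ⟨?_, ?_⟩
    · rw [hx, hyy, sca, sca]; exact mul_neg_of_pos_of_neg hx1 hy1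
    · rw [gc, ga]; exact mul_neg_of_neg_of_pos ht hApos
  · -- through the apex
    left
    have h0 : det (y - x) (c - x) = 0 := by rw [gc]; exact ht
    obtain ⟨k, hk⟩ := hp.eq_smul h0
    have h1 : det u (c - x) = 1 - x2 := by
      have : c - x = (- x1) • u + (1 - x2) • v := by
        rw [hx, hcc, sub_smul, one_smul, neg_smul]; abel
      rw [this, det_add_right, det_smul_right, det_smul_right, det_self, hd]; ring
    have h2 : det u (y - x) = y2 - x2 := by
      rw [hyx, det_add_right, det_smul_right, det_smul_right, det_self, hd]; ring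
    rw [hk, det_smul_right, h2] at h1
    have hk1 : k = 1 := by
      have k0 : 0 < k := by
        by_contra hc
        push Not at hc
        nlinarith
      by_contra hne
      have k2 : 2 ≤ k := by omega
      nlinarith
    rw [hk1, one_smul] at hk
    exact (sub_left_inj.mp hk).symm
  · -- leaves through `bc`
    by_cases hY : 0 ≤ 1 - y1 - y2
    · left
      have hX : 1 - y1 - y2 < 1 - x1 - x2 := by linarith
      have hy1 : 0 ≤ y1 := by
        by_contra hc
        push Not at hc
        rcases le_or_gt 0 x1 with h1 | h1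
        · have : A + (y1 - x1) ≤ y1 * (1 - x1 - x2) := by
            have h3 := mul_le_mul_of_nonneg_left (show y2 - 1 ≤ - y1 by linarith) h1
            rw [hA]; nlinarith
          have : y1 * (1 - x1 - x2) < 0 := mul_neg_of_neg_of_pos hc (by linarith)
          linarith
        · nlinarith [mul_nonneg (neg_nonneg.mpr h1.le) (show (0:ℤ) ≤ y2 - 1 by linarith),
            mul_pos (neg_pos.mpr hc) (show (0:ℤ) < 1 - x2 by linarith)]
      have e1 : y1 = 0 := by linarith
      have e2 : y2 = 1 := by linarith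
      rw [hyy, e1, e2, hcc, zero_smul, one_smul, add_zero]
    · right; left
      push Not at hY
      refine ⟨?_, ?_⟩
      · rw [hx, hyy, sbc, sbc]
        refine mul_neg_of_pos_of_neg ?_ hY
        by_contra hcx
        push Not at hcx
        have : y2 * (1 - x1 - x2) - x2 * (1 - y1 - y2) = (y2 - x2) - A := by rw [hA]; ring
        nlinarith [mul_nonneg hy2.le (neg_nonneg.mpr hcx),
          mul_nonneg (neg_nonneg.mpr hx2.le) (neg_nonneg.mpr hY.le)]
      · rw [gb, gc]; exact mul_neg_of_neg_of_pos (by linarith) ht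

namespace IsTri

variable {m n : ℕ} {E : Pt → Pt → Prop}

theorem tr_inR (h : IsTri m n E) {a b c : Pt} (h1 : Tr E a b c) : InR m n c := h.inR _ _ h1.2.2.1

/-- the face on the left of an edge is unique -/
theorem apex_unique (h : IsTri m n E) {a b c d : Pt} (h1 : Tr E a b c) (h2 : Tr E a b d) :
    c = d := by
  have key : ∀ c d : Pt, Tr E a b c → Tr E a b d → ∀ k : ℤ, 0 < k → d = c + k • (b - a) →
      False := by
    intro c d h1 h2 k hk hd
    have := cross_of_apex (a := a) h1.det' hk
    have e1 : a + (b - a) = b := by abel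
    have e2 : a + (c - a) = c := by abel
    rw [e1, e2, ← hd] at this
    exact h.ncr _ _ _ _ h1.2.1 (h.symm _ _ h2.2.2.1) this
  have h0 : det (b - a) (d - c) = 0 := by
    have e : d - c = (d - a) - (c - a) := by abel
    rw [e, det_sub_right, h1.det', h2.det', sub_self]
  obtain ⟨k, hk⟩ := (h.prim _ _ h1.1).eq_smul h0
  rcases lt_trichotomy k 0 with hk0 | hk0 | hk0
  · exact (key d c h2 h1 (-k) (by linarith) (by rw [neg_smul, ← hk]; abel)).elim
  · rw [hk0, zero_smul] at hk
    exact (sub_eq_zero.mp hk).symm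
  · exact (key c d h1 h2 k hk0 (by rw [← hk]; abel)).elim

/-- no edge at `y` lies strictly inside the cone of a face at `y` -/
theorem not_inside (h : IsTri m n E) {y a b x : Pt} (h1 : Tr E y a b) (h2 : E y x)
    (h3 : 0 < det (a - y) (x - y)) : ¬ 0 < det (x - y) (b - y) := by
  intro h4
  refine h.ncr _ _ _ _ h1.2.1 h2 ⟨?_, ?_⟩
  · have hd := h1.det'
    have e1 : det (b - a) (y - a) = 1 := by
      simp only [det, Prod.fst_sub, Prod.snd_sub] at *
      linear_combination hd
    have e2 : det (b - a) (x - a) = 1 - det (x - y) (b - y) - det (a - y) (x - y) := by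
      simp only [det, Prod.fst_sub, Prod.snd_sub] at *
      linear_combination hd
    rw [e1, e2]; linarith
  · have e3 : det (x - y) (a - y) = - det (a - y) (x - y) := det_swap _ _
    rw [e3]
    exact mul_neg_of_neg_of_pos (by linarith) h4

theorem edges_finite (h : IsTri m n E) : {e : Pt × Pt | E e.1 e.2}.Finite := by
  have hR : {p : Pt | InR m n p}.Finite := by
    refine ((Set.finite_Icc (0 : ℤ) m).prod (Set.finite_Icc (0 : ℤ) n)).subset ?_
    rintro ⟨p1, p2⟩ ⟨h1, h2, h3, h4⟩
    exact ⟨⟨h1, h2⟩, ⟨h3, h4⟩⟩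
  refine (hR.prod hR).subset ?_
  rintro ⟨a, b⟩ hab
  exact ⟨h.inR _ _ hab, h.inR' hab⟩

end IsTri

/-- the position of the crossing point of `yx` with the line `pq`, measured from `y` -/
noncomputable def tau (y x : Pt) (e : Pt × Pt) : ℚ :=
  (det (e.2 - e.1) (y - e.1) : ℚ) /
    ((det (e.2 - e.1) (y - e.1) : ℚ) - (det (e.2 - e.1) (x - e.1) : ℚ))

theorem tau_neg (y x p q : Pt) : tau y x (q, p) = tau y x (p, q) := by
  have e : ∀ z : Pt, (det (p - q) (z - q) : ℚ) = - (det (q - p) (z - p) : ℚ) := by
    intro z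
    rw [← Int.cast_neg]; congr 1
    simp only [det, Prod.fst_sub, Prod.snd_sub]; ring
  unfold tau
  simp only [e]
  rw [show (-(det (q - p) (y - p) : ℚ) - -(det (q - p) (x - p) : ℚ)) =
    -((det (q - p) (y - p) : ℚ) - (det (q - p) (x - p) : ℚ)) by ring, neg_div_neg_eq]

/-- the exit point of a triangle is closer to the end than the entry point -/
theorem tau_lt {p q c x y : Pt} (hd : det (q - p) (c - p) = 1) (hc : Cross p q x y)
    (hy : 0 < det (q - p) (y - p)) :
    (Cross q c x y → tau y x (q, c) < tau y x (p, q)) ∧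
    (Cross c p x y → tau y x (c, p) < tau y x (p, q)) := by
  obtain ⟨hc1, hc2⟩ := hc
  set u := q - p with hu
  set v := c - p with hv
  have hb : q = p + u := by rw [hu]; abel
  have hcc : c = p + v := by rw [hv]; abel
  obtain ⟨x1, x2, hx⟩ : ∃ x1 x2 : ℤ, x = p + x1 • u + x2 • v := by
    refine ⟨det (x - p) v, det u (x - p), ?_⟩
    have := expand hd (x - p)
    rw [add_assoc, ← this]; abel
  obtain ⟨y1, y2, hyy⟩ : ∃ y1 y2 : ℤ, y = p + y1 • u + y2 • v := by
    refine ⟨det (y - p) v, det u (y - p), ?_⟩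
    have := expand hd (y - p)
    rw [add_assoc, ← this]; abel
  have f1 : ∀ p1 p2 : ℤ, det u (p + p1 • u + p2 • v - p) = p2 := by
    intro p1 p2
    have : p + p1 • u + p2 • v - p = p1 • u + p2 • v := by abel
    rw [this, det_add_right, det_smul_right, det_smul_right, det_self, hd]; ring
  have hy2 : 0 < y2 := by rw [hyy, f1] at hy; exact hy
  have hx2 : x2 < 0 := by
    rw [hx, hyy, f1, f1] at hc1
    nlinarith
  have g : ∀ p1 p2 q1 q2 : ℤ, det (p1 • u + p2 • v) (q1 • u + q2 • v) = p1 * q2 - p2 * q1 := by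
    intro p1 p2 q1 q2
    simp only [det_add_left, det_add_right, det_smul_left, det_smul_right, det_self, hd,
      det_swap v u]
    ring
  have hyx : y - x = (y1 - x1) • u + (y2 - x2) • v := by
    rw [hx, hyy, sub_smul, sub_smul]; abel
  have ga : det (y - x) (p - x) = x1 * y2 - x2 * y1 := by
    have : p - x = (- x1) • u + (- x2) • v := by rw [hx, neg_smul, neg_smul]; abel
    rw [hyx, this, g]; ring
  have gb : det (y - x) (q - x) = x1 * y2 - x2 * y1 - (y2 - x2) := by
    have : q - x = (1 - x1) • u + (- x2) • v := by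
      rw [hx, hb, sub_smul, one_smul, neg_smul]; abel
    rw [hyx, this, g]; ring
  set A := x1 * y2 - x2 * y1 with hA
  rw [ga, gb] at hc2
  have hApos : 0 < A := by nlinarith
  have hAlt : A < y2 - x2 := by nlinarith
  have gc : det (y - x) (c - x) = A + (y1 - x1) := by
    have : c - x = (- x1) • u + (1 - x2) • v := by
      rw [hx, hcc, sub_smul, one_smul, neg_smul]; abel
    rw [hyx, this, g]; ring
  have sbc : ∀ p1 p2 : ℤ, det (c - q) (p + p1 • u + p2 • v - q) = 1 - p1 - p2 := by
    intro p1 p2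
    have e1 : c - q = (-1 : ℤ) • u + (1 : ℤ) • v := by
      rw [hcc, hb, neg_smul, one_smul, one_smul]; abel
    have e2 : p + p1 • u + p2 • v - q = (p1 - 1) • u + p2 • v := by
      rw [hb, sub_smul, one_smul]; abel
    rw [e1, e2, g]; ring
  have sca : ∀ p1 p2 : ℤ, det (p - c) (p + p1 • u + p2 • v - c) = p1 := by
    intro p1 p2
    have e1 : p - c = (0 : ℤ) • u + (-1 : ℤ) • v := by
      rw [hcc, neg_smul, one_smul, zero_smul]; abel
    have e2 : p + p1 • u + p2 • v - c = p1 • u + (p2 - 1) • v := by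
      rw [hcc, sub_smul, one_smul]; abel
    rw [e1, e2, g]; ring
  have t1 : tau y x (p, q) = (y2 : ℚ) / ((y2 : ℚ) - (x2 : ℚ)) := by
    unfold tau
    simp only
    rw [← hu, hx, hyy, f1, f1]
  have ex2 : (x2 : ℚ) < 0 := by exact_mod_cast hx2
  have ey2 : (0 : ℚ) < (y2 : ℚ) := by exact_mod_cast hy2
  constructor
  · rintro ⟨hq1, hq2⟩
    have t2 : tau y x (q, c) = (1 - y1 - y2 : ℚ) / ((1 - y1 - y2 : ℚ) - (1 - x1 - x2 : ℚ)) := by
      unfold tau
      simp only
      rw [hx, hyy, sbc, sbc]; push_cast; ring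
    rw [hx, hyy, sbc, sbc] at hq1
    rw [gb, gc] at hq2
    have hid : y2 * (1 - x1 - x2) - x2 * (1 - y1 - y2) = (y2 - x2) - A := by rw [hA]; ring
    have ht : 0 < A + (y1 - x1) := by
      by_contra h3
      push Not at h3
      nlinarith [mul_nonneg (show (0:ℤ) ≤ (y2 - x2) - A by linarith) (neg_nonneg.mpr h3)]
    have hXY : 1 - y1 - y2 < 1 - x1 - x2 := by linarith
    have hX : 0 < 1 - x1 - x2 := by
      by_contra hcx
      push Not at hcx
      nlinarith [mul_nonneg (neg_nonneg.mpr hcx) (show (0:ℤ) ≤ -(1 - y1 - y2) by linarith)]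
    have hY : 1 - y1 - y2 < 0 := by
      by_contra hcx
      push Not at hcx
      nlinarith
    rw [t1, t2]
    have eX : (0 : ℚ) < (1 - x1 - x2 : ℚ) := by exact_mod_cast hX
    have eY : (1 - y1 - y2 : ℚ) < 0 := by exact_mod_cast hY
    have eid : (y2 : ℚ) * (1 - x1 - x2) - x2 * (1 - y1 - y2) = (y2 - x2) - A := by
      exact_mod_cast hid
    have eA : (A : ℚ) < y2 - x2 := by exact_mod_cast hAlt
    rw [show (1 - y1 - y2 : ℚ) / ((1 - y1 - y2 : ℚ) - (1 - x1 - x2 : ℚ)) =
      (-(1 - y1 - y2 : ℚ)) / ((1 - x1 - x2 : ℚ) - (1 - y1 - y2 : ℚ)) by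
        rw [← neg_div_neg_eq]; congr 1; ring]
    rw [div_lt_div_iff₀ (by linarith) (by linarith)]
    nlinarith
  · rintro ⟨hq1, hq2⟩
    have t2 : tau y x (c, p) = (y1 : ℚ) / ((y1 : ℚ) - (x1 : ℚ)) := by
      unfold tau
      simp only
      rw [hx, hyy, sca, sca]
    rw [hx, hyy, sca, sca] at hq1
    rw [ga, gc] at hq2
    have ht : A + (y1 - x1) < 0 := by
      by_contra h3
      push Not at h3
      nlinarith [mul_nonneg hApos.le h3]
    have hx1 : 0 < x1 := by
      by_contra hcx
      push Not at hcx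
      nlinarith [mul_nonneg (neg_nonneg.mpr hcx) (show (0:ℤ) ≤ - y1 by linarith)]
    have hy1 : y1 < 0 := by by_contra h3; push Not at h3; nlinarith
    rw [t1, t2]
    have eX : (0 : ℚ) < x1 := by exact_mod_cast hx1
    have eY : (y1 : ℚ) < 0 := by exact_mod_cast hy1
    have eA : (0 : ℚ) < x1 * y2 - x2 * y1 := by exact_mod_cast hApos
    rw [show (y1 : ℚ) / ((y1 : ℚ) - x1) = (-(y1 : ℚ)) / ((x1 : ℚ) - y1) by
        rw [← neg_div_neg_eq]; congr 1; ring]
    rw [div_lt_div_iff₀ (by linarith) (by linarith)]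
    nlinarith

namespace IsTri

variable {m n : ℕ} {E : Pt → Pt → Prop}

/-- if `yx` is not an edge, then the face at `y` in the direction of `x` is bounded by an edge which
crosses `yx` -/
theorem first_face (h : IsTri m n E) {y x : Pt} (hy : InR m n y) (hx : InR m n x)
    (hp : Prim (x - y)) (hn : ¬ E y x) : ∃ p q, Tr E y p q ∧ Cross p q x y := by
  set S : Set (Pt × Pt) := {e | E e.1 e.2 ∧ Cross e.1 e.2 x y ∧ 0 < det (e.2 - e.1) (y - e.1)}
    with hS
  have hfin : S.Finite := h.edges_finite.subset (fun e he => he.1)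
  have hne : S.Nonempty := by
    have hsum : InR2 m n (x + y) := by
      obtain ⟨a1, a2, a3, a4⟩ := hx
      obtain ⟨b1, b2, b3, b4⟩ := hy
      refine ⟨?_, ?_, ?_, ?_⟩ <;> simp only [Prod.fst_add, Prod.snd_add] <;> linarith
    have hodd : ¬ (Even (x + y).1 ∧ Even (x + y).2) := by
      rintro ⟨⟨i, hi⟩, ⟨j, hj⟩⟩
      refine hp.not_even ⟨⟨i - y.1, ?_⟩, ⟨j - y.2, ?_⟩⟩
      · simp only [Prod.fst_add, Prod.fst_sub] at *; linarith
      · simp only [Prod.snd_add, Prod.snd_sub] at *; linarith
    obtain ⟨p, q, hpq, hs⟩ := h.full' hsum hodd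
    rcases same_mid (h.prim _ _ hpq) (show Prim (y - x) by
      have := hp.neg; rwa [neg_sub] at this) hs with ⟨h1, h2⟩ | ⟨h1, h2⟩ | h1
    · exact absurd (by rw [h1, h2]; exact h.symm _ _ hpq) hn
    · exact absurd (by rw [h1, h2]; exact hpq) hn
    · rcases lt_or_gt_of_ne (show det (q - p) (y - p) ≠ 0 by
        intro h0
        have := h1.1
        rw [h0, mul_zero] at this
        exact lt_irrefl _ this) with h2 | h2
      · refine ⟨(q, p), h.symm _ _ hpq, h1.swap, ?_⟩
        simp only [det, Prod.fst_sub, Prod.snd_sub] at *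
        linarith
      · exact ⟨(p, q), hpq, h1, h2⟩
  obtain ⟨⟨p, q⟩, ⟨hpq, hcr, hpos⟩, hmin⟩ := Set.exists_min_image S (tau y x) hfin hne
  simp only at hpq hcr hpos
  obtain ⟨c, hc⟩ := h.apex_exists hpq hy hpos
  have hpyx : Prim (y - x) := by have := hp.neg; rwa [neg_sub] at this
  have hlt := tau_lt hc.det' hcr hpos
  rcases traverse hc.det' hpyx hcr hpos with h1 | h1 | h1
  · refine ⟨p, q, ?_, hcr⟩
    rw [h1]; exact hc.rot'
  · exfalso
    have h2 := hlt.1 h1
    have h2' : tau y x (c, q) < tau y x (p, q) := by rw [tau_neg]; exact h2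
    have hmem : (c, q) ∈ S ∨ (q, c) ∈ S := by
      rcases lt_or_gt_of_ne (show det (c - q) (y - q) ≠ 0 by
        intro h0
        have := h1.1
        rw [h0, mul_zero] at this
        exact lt_irrefl _ this) with h3 | h3
      · left
        refine ⟨h.symm _ _ hc.2.1, h1.swap, ?_⟩
        simp only [det, Prod.fst_sub, Prod.snd_sub] at *
        linarith
      · right
        exact ⟨hc.2.1, h1, h3⟩
    rcases hmem with h3 | h3
    · exact absurd (hmin _ h3) (not_le.mpr h2')
    · exact absurd (hmin _ h3) (not_le.mpr h2)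
  · exfalso
    have h2 := hlt.2 h1
    have hmem : (c, p) ∈ S ∨ (p, c) ∈ S := by
      rcases lt_or_gt_of_ne (show det (p - c) (y - c) ≠ 0 by
        intro h0
        have := h1.1
        rw [h0, mul_zero] at this
        exact lt_irrefl _ this) with h3 | h3
      · right
        refine ⟨h.symm _ _ hc.2.2.1, h1.swap, ?_⟩
        simp only [det, Prod.fst_sub, Prod.snd_sub] at *
        linarith
      · left
        exact ⟨hc.2.2.1, h1, h3⟩
    have h2' : tau y x (p, c) < tau y x (p, q) := by rw [tau_neg]; exact h2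
    rcases hmem with h3 | h3
    · exact absurd (hmin _ h3) (not_le.mpr h2)
    · exact absurd (hmin _ h3) (not_le.mpr h2')

/-- a segment leaving the face `y p q` through `pq` starts inside its cone -/
theorem _root_.Pool.Agent.MP01b126.inside_of_cross {y p q x : Pt}
    (hd : det (p - y) (q - y) = 1) (hc : Cross p q x y) :
    0 < det (p - y) (x - y) ∧ 0 < det (x - y) (q - y) := by
  obtain ⟨h1, h2⟩ := hc
  have e1 : det (q - p) (y - p) = 1 := by
    simp only [det, Prod.fst_sub, Prod.snd_sub] at *
    linear_combination hd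
  have e2 : det (q - p) (x - p) = 1 - det (x - y) (q - y) - det (p - y) (x - y) := by
    simp only [det, Prod.fst_sub, Prod.snd_sub] at *
    linear_combination hd
  have e3 : det (y - x) (p - x) = det (p - y) (x - y) := by
    simp only [det, Prod.fst_sub, Prod.snd_sub]; ring
  have e4 : det (y - x) (q - x) = - det (x - y) (q - y) := by
    simp only [det, Prod.fst_sub, Prod.snd_sub]; ring
  rw [e1, e2] at h1
  rw [e3, e4] at h2
  constructor
  · by_contra hcx
    push Not at hcx
    nlinarith
  · by_contra hcx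
    push Not at hcx
    nlinarith

/-- every direction into the rectangle is a neighbour or lies strictly inside the cone of a face -/
theorem dir_face (h : IsTri m n E) {y x : Pt} (hy : InR m n y) (hx : InR m n x)
    (hp : Prim (x - y)) :
    E y x ∨ ∃ a b, Tr E y a b ∧ 0 < det (a - y) (x - y) ∧ 0 < det (x - y) (b - y) := by
  by_cases hn : E y x
  · exact Or.inl hn
  · obtain ⟨p, q, h1, h2⟩ := h.first_face hy hx hp hn
    exact Or.inr ⟨p, q, h1, inside_of_cross h1.det' h2⟩

end IsTri

end Pool.Agent.MP01b126
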