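import Pool.Agent.Lib.MP_01b126_co.Cone

/-!
# MP_01b126_co: sail lemma and the straight continuation of edges with large shear (piece E6)
-/

namespace Pool.Agent.MP01b126

variable {m n : ℕ} {E : Pt → Pt → Prop}

/-- lattice points between two points of the rectangle on a line -/
theorem inR_between {o w : Pt} {i j k : ℤ} (hi : InR m n (o + i • w)) (hj : InR m n (o + j • w))
    (hik : i ≤ k) (hkj : k ≤ j) : InR m n (o + k • w) := by
  obtain ⟨a1, a2, a3, a4⟩ := hi
  obtain ⟨b1, b2, b3, b4⟩ := hj
  simp only [Prod.fst_add, Prod.snd_add, Prod.smul_fst, Prod.smul_snd, smul_eq_mul] at *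
  refine ⟨?_, ?_, ?_, ?_⟩ <;>
    simp only [Prod.fst_add, Prod.snd_add, Prod.smul_fst, Prod.smul_snd, smul_eq_mul]
  · rcases le_total 0 w.1 with h | h
    · have := mul_le_mul_of_nonneg_right hik h; linarith
    · have := mul_le_mul_of_nonpos_right hkj h; linarith
  · rcases le_total 0 w.1 with h | h
    · have := mul_le_mul_of_nonneg_right hkj h; linarith
    · have := mul_le_mul_of_nonpos_right hik h; linarith
  · rcases le_total 0 w.2 with h | h
    · have := mul_le_mul_of_nonneg_right hik h; linarith
    · have := mul_le_mul_of_nonpos_right hkj h; linarith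
  · rcases le_total 0 w.2 with h | h
    · have := mul_le_mul_of_nonneg_right hkj h; linarith
    · have := mul_le_mul_of_nonpos_right hik h; linarith

/-- the neighbours of `y` at height one over `w` form an interval -/
theorem IsTri.sail (h : IsTri m n E) {y w e : Pt} (hd : det w e = 1) {i j k : ℤ}
    (hi : E y (y + e + i • w)) (hj : E y (y + e + j • w)) (hik : i ≤ k) (hkj : k ≤ j) :
    E y (y + e + k • w) := by
  have hed : det e w = -1 := by rw [det_swap, hd]
  have hxR : InR m n (y + e + k • w) := inR_between (h.inR' hi) (h.inR' hj) hik hkj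
  have hsub : ∀ l : ℤ, y + e + l • w - y = e + l • w := fun l => by abel
  have hp : Prim (y + e + k • w - y) := by
    rw [hsub]
    refine prim_of_det' (u := w) ?_
    rw [det_add_right, det_smul_right, det_self, hd]; ring
  rcases h.dir_face (h.inR _ _ hi) hxR hp with h1 | ⟨a, b, h1, h2, h3⟩
  · exact h1
  exfalso
  have hA := h.not_inside (x := y + e + i • w) h1 hi
  have hB := h.not_inside (x := y + e + j • w) h1 hj
  have huv : det (a - y) (b - y) = 1 := h1.2.2.2
  rw [hsub] at h2 h3 hA hB
  set u := a - y with hu
  set v := b - y with hv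
  have eu : ∀ l : ℤ, det u (e + l • w) = det u e + l * det u w := by
    intro l; rw [det_add_right, det_smul_right]
  have ev : ∀ l : ℤ, det (e + l • w) v = det e v + l * det w v := by
    intro l; rw [det_add_left, det_smul_left]
  have hwu : det u w = - det w u := det_swap _ _
  rw [eu, ev] at *
  -- expansion of the direction in the basis `u, v`
  have hX := expand huv (e + k • w)
  rw [eu, ev] at hX
  have hh : (1 : ℤ) = (det e v + k * det w v) * det w u + (det u e + k * det u w) * det w v := by
    have := congrArg (det w) hX
    rw [det_add_right, det_add_right, det_smul_right, det_smul_right, det_smul_right, det_self,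
      hd] at this
    linarith
  rw [hwu] at hh h2 hA hB
  set q := det w u
  set s := det w v
  set α := det e v + k * s with hα
  set β := det u e + k * -q with hβ
  have hα' : 1 ≤ α := h3
  have hβ' : 1 ≤ β := h2
  rcases le_or_gt q 0 with hq | hq
  · have hs : 0 < s := by
      by_contra hc
      push Not at hc
      have := mul_nonneg (by linarith : (0 : ℤ) ≤ α) (neg_nonneg.mpr hq)
      have := mul_nonneg (by linarith : (0 : ℤ) ≤ β) (neg_nonneg.mpr hc)
      nlinarith
    have c1 : 0 ≤ (j - k) * -q := mul_nonneg (by linarith) (by linarith)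
    have c2 : 0 ≤ (j - k) * s := mul_nonneg (by linarith) hs.le
    refine hB ?_ ?_
    · have : det u e + j * -q = β + (j - k) * -q := by rw [hβ]; ring
      rw [this]; linarith
    · have : det e v + j * s = α + (j - k) * s := by rw [hα]; ring
      rw [this]; linarith
  · rcases le_or_gt s 0 with hs | hs
    · have c1 : 0 ≤ (k - i) * q := mul_nonneg (by linarith) hq.le
      have c2 : 0 ≤ (k - i) * -s := mul_nonneg (by linarith) (by linarith)
      refine hA ?_ ?_
      · have : det u e + i * -q = β + (k - i) * q := by rw [hβ]; ring
        rw [this]; linarith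
      · have : det e v + i * s = α + (k - i) * -s := by rw [hα]; ring
        rw [this]; linarith
    · have c1 : 1 * 1 ≤ α * q := mul_le_mul hα' hq (by norm_num) (by linarith)
      have c2 : 1 * 1 ≤ β * s := mul_le_mul hβ' hs (by norm_num) (by linarith)
      linarith

/-- an edge with shear at least two continues straight -/
theorem IsTri.straight (h : IsTri m n E) {a b c c' : Pt} {k : ℤ} (h1 : Tr E a b c)
    (h2 : Tr E b a c') (hk : (c - b) + (c' - b) = k • (b - a)) (h3 : 2 ≤ k) :
    E b (b + (b - a)) := by
  set w := b - a with hw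
  have hwp : Prim w := h.prim _ _ h1.1
  have hbR : InR m n b := h.inR' h1.1
  have hcR : InR m n c := h.inR' h1.2.1
  have hcR' : InR m n c' := h.inR _ _ h2.2.2.1
  have hdC : det w (c - b) = 1 := by
    have := h1.2.2.2
    have e : det w (c - b) = det (b - a) (c - a) := by
      rw [hw]; simp only [det, Prod.fst_sub, Prod.snd_sub]; ring
    rw [e, this]
  set C := c - b with hC
  have hC' : c' - b = k • w - C := by rw [← hk]; abel
  -- the midpoint
  have hin : InR2 m n (b + (b + w)) := by
    obtain ⟨a1, a2, a3, a4⟩ := hbR
    obtain ⟨b1, b2, b3, b4⟩ := hcR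
    obtain ⟨c1, c2, c3, c4⟩ := hcR'
    have e1 := congrArg Prod.fst hk
    have e2 := congrArg Prod.snd hk
    simp only [Prod.fst_add, Prod.snd_add, Prod.smul_fst, Prod.smul_snd, smul_eq_mul, hC,
      Prod.fst_sub, Prod.snd_sub] at e1 e2
    refine ⟨?_, ?_, ?_, ?_⟩ <;> simp only [Prod.fst_add, Prod.snd_add] <;> nlinarith
  have hodd : ¬ (Even (b + (b + w)).1 ∧ Even (b + (b + w)).2) := by
    rintro ⟨h4, h5⟩
    refine hwp.not_even ⟨?_, ?_⟩
    · simp only [Prod.fst_add] at h4
      obtain ⟨x, hx⟩ := h4
      exact ⟨x - b.1, by linarith⟩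
    · simp only [Prod.snd_add] at h5
      obtain ⟨x, hx⟩ := h5
      exact ⟨x - b.2, by linarith⟩
  obtain ⟨p', q', hpq', hsum'⟩ := h.full' hin hodd
  -- orientation
  obtain ⟨p, q, hpq, hsum, hy⟩ : ∃ p q, E p q ∧ p + q = b + (b + w) ∧ 0 ≤ det w (q - p) := by
    rcases le_total 0 (det w (q' - p')) with h4 | h4
    · exact ⟨p', q', hpq', hsum', h4⟩
    · refine ⟨q', p', h.symm _ _ hpq', by rw [add_comm]; exact hsum', ?_⟩
      have : det w (p' - q') = - det w (q' - p') := by
        simp only [det, Prod.fst_sub, Prod.snd_sub]; ring
      rw [this]; linarith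
  set D := q - p with hD
  have hq : q = b + (b + w) - p := by rw [← hsum]; abel
  have e1 : 2 * det w (p - b) = - det w D := by
    rw [hD, hq]; simp only [det, Prod.fst_sub, Prod.snd_sub, Prod.fst_add, Prod.snd_add]; ring
  rcases eq_or_lt_of_le hy with hy0 | hypos
  · -- the edge is `b, b + w`
    rcases hwp.eq_or_neg (h.prim _ _ hpq) hy0.symm with h4 | h4
    · have h5 : p = b ∧ q = b + w := by
        have e3 : (2 : ℤ) • (p - b) = 0 := by
          have : (2 : ℤ) • (p - b) = w - D := by rw [hD, hq, two_smul]; abel
          rw [this, hD, h4]; abel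
        have e4 : p - b = 0 := by
          rw [smul_eq_zero] at e3
          simpa using e3
        have e5 : p = b := sub_eq_zero.mp e4
        refine ⟨e5, ?_⟩
        rw [hq, e5]; abel
      have h6 := hpq
      rw [h5.1, h5.2] at h6
      exact h6
    · have h5 : p = b + w ∧ q = b := by
        have e3 : (2 : ℤ) • (q - b) = 0 := by
          have : (2 : ℤ) • (q - b) = w + D := by
            have e6 : p = b + (b + w) - q := by rw [← hsum]; abel
            rw [hD, e6, two_smul]; abel
          rw [this, hD, h4]; abel
        have e4 : q - b = 0 := by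
          rw [smul_eq_zero] at e3
          simpa using e3
        have e5 : q = b := sub_eq_zero.mp e4
        refine ⟨?_, e5⟩
        have e6 : p = b + (b + w) - q := by rw [← hsum]; abel
        rw [e6, e5]; abel
      have h6 := h.symm _ _ hpq
      rw [h5.1, h5.2] at h6
      exact h6
  · exfalso
    set y := det w D with hydef
    have hy2 : 2 ≤ y := by omega
    have hCw : det C w = -1 := by rw [det_swap, hdC]
    have e2p : (2 : ℤ) • (p - b) = w - D := by rw [hD, hq, two_smul]; abel
    have e2q : (2 : ℤ) • (q - b) = w + D := by rw [hD, hq, two_smul]; abel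
    have hDw : det D w = - y := det_swap _ _
    have hCD : det C D = - det D C := det_swap _ _
    set x := det D C with hx
    have f1 : 2 * det C (p - b) = x - 1 := by
      rw [← det_smul_right, e2p, det_sub_right, hCw, hCD]; ring
    have f2 : 2 * det C (q - b) = - (1 + x) := by
      rw [← det_smul_right, e2q, det_add_right, hCw, hCD]; ring
    have f3 : 2 * det w (q - b) = y := by
      rw [← det_smul_right, e2q, det_add_right, det_self]; ring
    have f4 : 2 * det D (b - p) = y := by
      have : det D (b - p) = - det D (p - b) := by rw [← det_neg_right]; congr 1; abel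
      rw [this]
      have h5 : 2 * det D (p - b) = - y := by
        rw [← det_smul_right, e2p, det_sub_right, det_self, hDw]; ring
      linarith
    have f5 : 2 * det D (c - p) = y + 2 * x := by
      have : c - p = (b - p) + C := by rw [hC]; abel
      rw [this, det_add_right]; linarith
    have hbc : E b c := h1.2.1
    have hbc' : E b c' := h.symm _ _ h2.2.2.1
    rcases lt_or_ge (y + 2 * x) 0 with h4 | h4
    · refine h.ncr _ _ _ _ hbc hpq ⟨?_, ?_⟩
      · have g1 : det C (p - b) < 0 := by linarith
        have g2 : 0 < det C (q - b) := by linarith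
        exact mul_neg_of_neg_of_pos g1 g2
      · have g1 : 0 < det D (b - p) := by linarith
        have g2 : det D (c - p) < 0 := by linarith
        exact mul_neg_of_pos_of_neg g1 g2
    · have hky : 2 * y ≤ k * y := mul_le_mul_of_nonneg_right h3 (by linarith)
      refine h.ncr _ _ _ _ hbc' hpq ⟨?_, ?_⟩
      · rw [hC']
        have g1 : det (k • w - C) (p - b) < 0 := by
          have : 2 * det (k • w - C) (p - b) = k * (2 * det w (p - b)) - 2 * det C (p - b) := by
            rw [det_sub_left, det_smul_left]; ring
          rw [e1, f1] at this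
          have g3 : k * -y = -(k * y) := by ring
          rw [g3] at this
          linarith
        have g2 : 0 < det (k • w - C) (q - b) := by
          have : 2 * det (k • w - C) (q - b) = k * (2 * det w (q - b)) - 2 * det C (q - b) := by
            rw [det_sub_left, det_smul_left]; ring
          rw [f3, f2] at this
          linarith
        exact mul_neg_of_neg_of_pos g1 g2
      · have g1 : 0 < det D (b - p) := by linarith
        have g2 : det D (c' - p) < 0 := by
          have g3 : c' - p = (b - p) + (k • w - C) := by rw [← hC']; abel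
          have g4 : 2 * det D (c' - p) = y - 2 * (k * y) - 2 * x := by
            rw [g3, det_add_right, det_sub_right D (k • w) C, det_smul_right, hDw, mul_add, f4]
            ring
          linarith
        exact mul_neg_of_pos_of_neg g1 g2

/-- an edge with shear at least two continues straight, and the shear drops by at most two -/
theorem IsTri.run (h : IsTri m n E) {a b c c' : Pt} {k : ℤ} (h1 : Tr E a b c) (h2 : Tr E b a c')
    (hk : (c - b) + (c' - b) = k • (b - a)) (h3 : 2 ≤ k) :
    ∃ d d' : Pt, ∃ l : ℤ, Tr E b (b + (b - a)) d ∧ Tr E (b + (b - a)) b d' ∧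
      (d - (b + (b - a))) + (d' - (b + (b - a))) = l • (b - a) ∧ k - 2 ≤ l ∧
      (∃ i : ℤ, 0 ≤ i ∧ d = c + i • (b - a)) ∧ (∃ i : ℤ, 0 ≤ i ∧ d' = c' + i • (b - a)) := by
  have hE := h.straight h1 h2 hk h3
  set w := b - a with hw
  have hwp : Prim w := h.prim _ _ h1.1
  have hdC : det w (c - b) = 1 := by
    have := h1.2.2.2
    have e : det w (c - b) = det (b - a) (c - a) := by
      rw [hw]; simp only [det, Prod.fst_sub, Prod.snd_sub]; ring
    rw [e, this]
  set C := c - b with hC
  have hC' : c' - b = k • w - C := by rw [← hk]; abel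
  have hdC' : det w (c' - b) = -1 := by
    rw [hC', det_sub_right, det_smul_right, det_self, hdC]; ring
  set C' := c' - b with hC'd
  have hww : b + w - b = w := by abel
  have hww' : b - (b + w) = - w := by abel
  obtain ⟨d, hd⟩ := h.apex_exists (z := c) hE (h.inR' h1.2.1) (by rw [hww, ← hC, hdC]; norm_num)
  obtain ⟨d', hd'⟩ := h.apex_exists (z := c') (h.symm _ _ hE) (h.inR _ _ h2.2.2.1) (by
    have : c' - (b + w) = C' - w := by rw [hC'd]; abel
    rw [hww', this, det_neg_left, det_sub_right, hdC', det_self]; norm_num)
  have hdd : det w (d - b) = 1 := by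
    have := hd.2.2.2
    rw [hww] at this
    exact this
  have hdd' : det w (d' - b) = -1 := by
    have := hd'.2.2.2
    rw [hww', det_neg_left] at this
    have e : d' - (b + w) = (d' - b) - w := by abel
    rw [e, det_sub_right, det_self] at this
    linarith
  obtain ⟨i, hi⟩ := hwp.eq_smul (v := d - c) (by
    have : d - c = (d - b) - C := by rw [hC]; abel
    rw [this, det_sub_right, hdd, hdC]; norm_num)
  obtain ⟨i', hi'⟩ := hwp.eq_smul (v := d' - c') (by
    have : d' - c' = (d' - b) - C' := by rw [hC'd]; abel
    rw [this, det_sub_right, hdd', hdC']; norm_num)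
  have hdi : d = c + i • w := by rw [← hi]; abel
  have hdi' : d' = c' + i' • w := by rw [← hi']; abel
  have hCw : det C w = -1 := by rw [det_swap, hdC]
  have hCw' : det C' w = 1 := by rw [det_swap, hdC']; norm_num
  have hi0 : 0 ≤ i := by
    by_contra hc
    push Not at hc
    refine h.ncr _ _ _ _ h1.2.1 hd.2.1 ⟨?_, ?_⟩
    · have e1 : det (c - b) (b + w - b) = -1 := by rw [hww, ← hC, hCw]
      have e2 : det (c - b) (d - b) = - i := by
        have : d - b = C + i • w := by rw [hdi, hC]; abel
        rw [this, ← hC, det_add_right, det_self, det_smul_right, hCw]; ring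
      rw [e1, e2]; linarith
    · have e0 : d - (b + w) = C + (i - 1) • w := by
        rw [hdi, hC, sub_smul, one_smul]; abel
      have e1 : det (d - (b + w)) (b - (b + w)) = 1 := by
        rw [e0, hww', det_add_left, det_neg_right, det_neg_right, hCw, det_smul_left, det_self]
        ring
      have e2 : det (d - (b + w)) (c - (b + w)) = i := by
        have : c - (b + w) = C - w := by rw [hC]; abel
        rw [e0, this, det_add_left, det_sub_right C C w, det_self C, hCw, det_smul_left,
          det_sub_right w C w, hdC, det_self w]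
        ring
      rw [e1, e2]; linarith
  have hi0' : 0 ≤ i' := by
    by_contra hc
    push Not at hc
    refine h.ncr _ _ _ _ (h.symm _ _ h2.2.2.1) (h.symm _ _ hd'.2.2.1) ⟨?_, ?_⟩
    · have e1 : det (c' - b) (b + w - b) = 1 := by rw [hww, ← hC'd, hCw']
      have e2 : det (c' - b) (d' - b) = i' := by
        have : d' - b = C' + i' • w := by rw [hdi', hC'd]; abel
        rw [this, ← hC'd, det_add_right, det_self, det_smul_right, hCw']; ring
      rw [e1, e2]; linarith
    · have e0 : d' - (b + w) = C' + (i' - 1) • w := by
        rw [hdi', hC'd, sub_smul, one_smul]; abel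
      have e1 : det (d' - (b + w)) (b - (b + w)) = -1 := by
        rw [e0, hww', det_add_left, det_neg_right, det_neg_right, hCw', det_smul_left, det_self]
        ring
      have e2 : det (d' - (b + w)) (c' - (b + w)) = - i' := by
        have : c' - (b + w) = C' - w := by rw [hC'd]; abel
        rw [e0, this, det_add_left, det_sub_right C' C' w, det_self C', hCw', det_smul_left,
          det_sub_right w C' w, hdC', det_self w]
        ring
      rw [e1, e2]; linarith
  refine ⟨d, d', k - 2 + i + i', hd, hd', ?_, by linarith, ⟨i, hi0, hdi⟩, ⟨i', hi0', hdi'⟩⟩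
  have e1 : d - (b + w) + (d' - (b + w)) = (C + C') + i • w + i' • w - (2 : ℤ) • w := by
    rw [hdi, hdi', hC, hC'd, two_smul]; abel
  rw [e1, hk, ← add_smul, ← add_smul, ← sub_smul]
  congr 1
  ring

end Pool.Agent.MP01b126
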