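import Pool.Agent.Lib.MP_01b126_co.RareDefs
import Pool.Agent.Lib.MP_01b126_co.Cone

/-!
# MP_01b126_co, piece E5: boundary edges, number of edges, balls, finiteness
-/

namespace Pool.Agent.MP01b126

variable {m n : ℕ} {E : Pt → Pt → Prop}

/-! ## finiteness -/

theorem rectE_finite (m n : ℕ) : {p : Pt | InR m n p}.Finite := by
  refine (Set.finite_Icc ((0 : ℤ), (0 : ℤ)) ((m : ℤ), (n : ℤ))).subset ?_
  rintro ⟨x, y⟩ ⟨h1, h2, h3, h4⟩
  exact ⟨⟨h1, h3⟩, ⟨h2, h4⟩⟩

theorem DE_finite (h : IsTri m n E) : (DE E).Finite := by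
  refine ((rectE_finite m n).prod (rectE_finite m n)).subset ?_
  rintro ⟨a, b⟩ hab
  exact ⟨h.inR a b hab, h.inR' hab⟩

theorem TT_finite (m n : ℕ) : (TT m n).Finite := by
  refine Set.Finite.of_finite_image (f := fun E : Pt → Pt → Prop => DE E) ?_ ?_
  · refine (((rectE_finite m n).prod (rectE_finite m n)).finite_subsets).subset ?_
    rintro _ ⟨E, hE, rfl⟩
    rintro ⟨a, b⟩ hab
    exact ⟨hE.inR a b hab, hE.inR' hab⟩
  · intro E _ E' _ hEE
    funext a b
    exact propext (Set.ext_iff.1 hEE (a, b))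

/-! ## moves -/

theorem Move.edge (h : IsTri m n E) {e e' : Pt × Pt} (hm : Move E e e') :
    E e.1 e.2 ∧ E e'.1 e'.2 := by
  cases hm with
  | opp hab => exact ⟨hab, h.symm _ _ hab⟩
  | next ht => exact ⟨ht.1, ht.2.1⟩
  | prev ht => exact ⟨ht.1, ht.2.2.1⟩

theorem Move.symm' (h : IsTri m n E) {e e' : Pt × Pt} (hm : Move E e e') : Move E e' e := by
  cases hm with
  | opp hab => exact Move.opp (h.symm _ _ hab)
  | next ht => exact Move.prev ht.rot
  | prev ht => exact Move.next ht.rot.rot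

theorem Reach.cons {R : ℕ} {e e₁ e' : Pt × Pt} (hm : Move E e e₁) (hr : Reach E R e₁ e') :
    Reach E (R + 1) e e' := by
  induction R generalizing e' with
  | zero =>
    have : e₁ = e' := hr
    subst this
    exact Or.inr ⟨e, rfl, hm⟩
  | succ R ih =>
    rcases hr with hr | ⟨e'', hr, hm'⟩
    · exact Or.inl (ih hr)
    · exact Or.inr ⟨e'', ih hr, hm'⟩

theorem reach_symm (h : IsTri m n E) {R : ℕ} {e e' : Pt × Pt} (he : E e.1 e.2)
    (hr : Reach E R e e') : E e'.1 e'.2 ∧ Reach E R e' e := by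
  induction R generalizing e' with
  | zero =>
    have : e = e' := hr
    subst this
    exact ⟨he, rfl⟩
  | succ R ih =>
    rcases hr with hr | ⟨e'', hr, hm⟩
    · obtain ⟨h1, h2⟩ := ih hr
      exact ⟨h1, Or.inl h2⟩
    · obtain ⟨h1, h2⟩ := ih hr
      exact ⟨(hm.edge h).2, Reach.cons (hm.symm' h) h2⟩

/-- at most three directed edges are reached by one move -/
theorem move_card (h : IsTri m n E) (e : Pt × Pt) :
    {e' | Move E e e'}.Finite ∧ {e' | Move E e e'}.ncard ≤ 3 := by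
  classical
  obtain ⟨a, b⟩ := e
  by_cases hc : ∃ c, Tr E a b c
  · obtain ⟨c, hc⟩ := hc
    have hsub : {e' | Move E (a, b) e'} ⊆
        ((({(b, a), (b, c), (c, a)} : Finset (Pt × Pt)) : Set (Pt × Pt))) := by
      intro e' he'
      rcases he' with _ | ht | ht
      · simp
      · have := h.apex_unique hc ht
        subst this
        simp
      · have := h.apex_unique hc ht
        subst this
        simp
    refine ⟨(Finset.finite_toSet _).subset hsub, ?_⟩
    refine (Set.ncard_le_ncard hsub (Finset.finite_toSet _)).trans ?_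
    rw [Set.ncard_coe_finset]
    exact Finset.card_le_three
  · have hsub : {e' | Move E (a, b) e'} ⊆
        ((({(b, a)} : Finset (Pt × Pt)) : Set (Pt × Pt))) := by
      intro e' he'
      rcases he' with _ | ht | ht
      · simp
      · exact absurd ⟨_, ht⟩ hc
      · exact absurd ⟨_, ht⟩ hc
    refine ⟨(Finset.finite_toSet _).subset hsub, ?_⟩
    refine (Set.ncard_le_ncard hsub (Finset.finite_toSet _)).trans ?_
    rw [Set.ncard_coe_finset]
    simp

theorem reach_fin (h : IsTri m n E) (R : ℕ) (e : Pt × Pt) :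
    {e' | Reach E R e e'}.Finite ∧ {e' | Reach E R e e'}.ncard ≤ 4 ^ R := by
  classical
  induction R with
  | zero =>
    have : {e' | Reach E 0 e e'} = {e} := by
      ext e'
      exact ⟨fun h => (h : e = e').symm, fun h => (show e = e' from h.symm)⟩
    rw [this]
    exact ⟨Set.finite_singleton _, by simp⟩
  | succ R ih =>
    obtain ⟨hf, hc⟩ := ih
    have hsub : {e' | Reach E (R + 1) e e'} ⊆ ((hf.toFinset ∪ hf.toFinset.biUnion
        fun e'' => (move_card h e'').1.toFinset : Finset (Pt × Pt)) : Set (Pt × Pt)) := by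
      intro e' he'
      rw [Finset.mem_coe, Finset.mem_union, Finset.mem_biUnion]
      rcases he' with hr | ⟨e'', hr, hm⟩
      · exact Or.inl (hf.mem_toFinset.2 hr)
      · exact Or.inr ⟨e'', hf.mem_toFinset.2 hr, (move_card h e'').1.mem_toFinset.2 hm⟩
    refine ⟨(Finset.finite_toSet _).subset hsub, ?_⟩
    refine (Set.ncard_le_ncard hsub (Finset.finite_toSet _)).trans ?_
    rw [Set.ncard_coe_finset]
    refine (Finset.card_union_le _ _).trans ?_
    have h1 : (hf.toFinset.biUnion fun e'' => (move_card h e'').1.toFinset).card ≤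
        hf.toFinset.card * 3 := by
      refine Finset.card_biUnion_le_card_mul _ _ _ fun e'' _ => ?_
      rw [← Set.ncard_eq_toFinset_card _ (move_card h e'').1]
      exact (move_card h e'').2
    have h2 : hf.toFinset.card ≤ 4 ^ R := by
      rw [← Set.ncard_eq_toFinset_card _ hf]
      exact hc
    rw [pow_succ]
    omega

theorem reach_card (h : IsTri m n E) (R : ℕ) {e : Pt × Pt} (_he : E e.1 e.2) :
    {e' | Reach E R e e'}.ncard ≤ 4 ^ R := (reach_fin h R e).2

theorem sees_card (h : IsTri m n E) (R : ℕ) {X : Set (Pt × Pt)} (hX : X ⊆ DE E) :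
    (Sees E R X).ncard ≤ 4 ^ R * X.ncard := by
  classical
  have hXf : X.Finite := (DE_finite h).subset hX
  have hsub : Sees E R X ⊆ ((hXf.toFinset.biUnion
      fun e' => (reach_fin h R e').1.toFinset : Finset (Pt × Pt)) : Set (Pt × Pt)) := by
    rintro e ⟨he, e', he', hr⟩
    rw [Finset.mem_coe, Finset.mem_biUnion]
    exact ⟨e', hXf.mem_toFinset.2 he', (reach_fin h R e').1.mem_toFinset.2 (reach_symm h he hr).2⟩
  refine (Set.ncard_le_ncard hsub (Finset.finite_toSet _)).trans ?_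
  rw [Set.ncard_coe_finset, Set.ncard_eq_toFinset_card _ hXf, mul_comm]
  refine Finset.card_biUnion_le_card_mul _ _ _ fun e'' _ => ?_
  rw [← Set.ncard_eq_toFinset_card _ (reach_fin h R e'').1]
  exact (reach_fin h R e'').2

/-! ## boundary edges -/

theorem rareB (h : IsTri m n E) : (evB E).ncard ≤ 2 * (m + n) := by
  classical
  let S : Finset (Pt × Pt) :=
    (Finset.range m).image (fun i : ℕ => (((i : ℤ), (n : ℤ)), ((i : ℤ) + 1, (n : ℤ)))) ∪
    (Finset.range m).image (fun i : ℕ => (((i : ℤ) + 1, (0 : ℤ)), ((i : ℤ), (0 : ℤ)))) ∪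
    (Finset.range n).image (fun i : ℕ => (((0 : ℤ), (i : ℤ)), ((0 : ℤ), (i : ℤ) + 1))) ∪
    (Finset.range n).image (fun i : ℕ => (((m : ℤ), (i : ℤ) + 1), ((m : ℤ), (i : ℤ))))
  have hS : S.card ≤ 2 * (m + n) := by
    refine (Finset.card_union_le _ _).trans ?_
    refine (Nat.add_le_add_right ((Finset.card_union_le _ _).trans
      (Nat.add_le_add_right (Finset.card_union_le _ _) _)) _).trans ?_
    have h1 := fun (f : ℕ → Pt × Pt) (k : ℕ) =>
      (Finset.card_image_le (s := Finset.range k) (f := f)).trans_eq (Finset.card_range k)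
    have a1 := h1 (fun i : ℕ => (((i : ℤ), (n : ℤ)), ((i : ℤ) + 1, (n : ℤ)))) m
    have a2 := h1 (fun i : ℕ => (((i : ℤ) + 1, (0 : ℤ)), ((i : ℤ), (0 : ℤ)))) m
    have a3 := h1 (fun i : ℕ => (((0 : ℤ), (i : ℤ)), ((0 : ℤ), (i : ℤ) + 1))) n
    have a4 := h1 (fun i : ℕ => (((m : ℤ), (i : ℤ) + 1), ((m : ℤ), (i : ℤ)))) n
    omega
  have hsub : evB E ⊆ (S : Set (Pt × Pt)) := by
    rintro ⟨⟨a1, a2⟩, ⟨b1, b2⟩⟩ ⟨hE, hno⟩
    dsimp only at hE hno
    have hz : ∀ z : Pt, InR m n z → det ((b1, b2) - (a1, a2)) (z - (a1, a2)) ≤ 0 := by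
      intro z hz
      by_contra hc
      push Not at hc
      exact hno (h.apex_exists hE hz hc)
    obtain ⟨ha1, ha1', ha2, ha2'⟩ := h.inR _ _ hE
    obtain ⟨hb1, hb1', hb2, hb2'⟩ := h.inR' hE
    have hp := h.prim _ _ hE
    simp only [det, Prod.fst_sub, Prod.snd_sub] at hz
    dsimp only at ha1 ha1' ha2 ha2' hb1 hb1' hb2 hb2'
    unfold Prim at hp
    simp only [Prod.fst_sub, Prod.snd_sub] at hp
    rw [Finset.mem_coe]
    simp only [S, Finset.mem_union, Finset.mem_image, Finset.mem_range, Prod.mk.injEq]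
    have z1 := hz (a1, n) ⟨ha1, ha1', by positivity, le_rfl⟩
    have z2 := hz (b1, n) ⟨hb1, hb1', by positivity, le_rfl⟩
    have z3 := hz (a1, 0) ⟨ha1, ha1', le_rfl, by positivity⟩
    have z4 := hz (b1, 0) ⟨hb1, hb1', le_rfl, by positivity⟩
    have z5 := hz (0, a2) ⟨le_rfl, by positivity, ha2, ha2'⟩
    have z6 := hz (m, a2) ⟨by positivity, le_rfl, ha2, ha2'⟩
    dsimp only at z1 z2 z3 z4 z5 z6
    rcases lt_trichotomy (b1 - a1) 0 with hw | hw | hw
    · -- `w₁ < 0`: bottom side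
      have e1 : a2 = 0 := by nlinarith
      have e2 : b2 = 0 := by
        have : (b1 - a1) * (0 - b2) ≤ 0 := by
          have e : (b1 - a1) * (0 - a2) - (b2 - a2) * (b1 - a1) = (b1 - a1) * (0 - b2) := by ring
          rw [← e]
          exact z4
        nlinarith
      rw [e1, e2, sub_zero] at hp
      have h1 : IsUnit (b1 - a1) := isCoprime_zero_right.1 hp
      rcases Int.isUnit_iff.1 h1 with h2 | h2
      · omega
      · left; left; right
        refine ⟨b1.toNat, by omega, ⟨by omega, e1.symm⟩, by omega, e2.symm⟩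
    · -- vertical
      have hw1 : b1 = a1 := by linarith
      rw [hw] at hp
      have h1 : IsUnit (b2 - a2) := isCoprime_zero_left.1 hp
      rw [hw] at z5 z6
      rcases Int.isUnit_iff.1 h1 with h2 | h2
      · rw [h2] at z5 z6
        left; right
        refine ⟨a2.toNat, by omega, ⟨by omega, by omega⟩, by omega, by omega⟩
      · rw [h2] at z5 z6
        right
        refine ⟨b2.toNat, by omega, ⟨by omega, by omega⟩, by omega, by omega⟩
    · -- `w₁ > 0`: top side
      have e1 : a2 = n := by nlinarith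
      have e2 : b2 = n := by
        have : (b1 - a1) * (n - b2) ≤ 0 := by
          have e : (b1 - a1) * (n - a2) - (b2 - a2) * (b1 - a1) = (b1 - a1) * (n - b2) := by ring
          rw [← e]
          exact z2
        nlinarith
      have e3 : b2 - a2 = 0 := by omega
      rw [e3] at hp
      have h1 : IsUnit (b1 - a1) := isCoprime_zero_right.1 hp
      rcases Int.isUnit_iff.1 h1 with h2 | h2
      · left; left; left
        refine ⟨a1.toNat, by omega, ⟨by omega, e1.symm⟩, by omega, e2.symm⟩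
      · omega
  refine (Set.ncard_le_ncard hsub (Finset.finite_toSet _)).trans ?_
  rw [Set.ncard_coe_finset]
  exact hS

/-! ## the number of edges -/

theorem card_odd (m n : ℕ) : ((Finset.Icc (0 : ℤ) (2 * m) ×ˢ Finset.Icc (0 : ℤ) (2 * n)).filter
    fun s : Pt => ¬ (Even s.1 ∧ Even s.2)).card = 3 * m * n + m + n := by
  classical
  have h1 := Finset.card_filter_add_card_filter_not
    (s := (Finset.Icc (0 : ℤ) (2 * m) ×ˢ Finset.Icc (0 : ℤ) (2 * n)))
    (fun s : Pt => Even s.1 ∧ Even s.2)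
  have h2 : ((Finset.Icc (0 : ℤ) (2 * m) ×ˢ Finset.Icc (0 : ℤ) (2 * n)).filter
      fun s : Pt => Even s.1 ∧ Even s.2) =
      (Finset.range (m + 1) ×ˢ Finset.range (n + 1)).image
        (fun p : ℕ × ℕ => ((2 * (p.1 : ℤ), 2 * (p.2 : ℤ)) : Pt)) := by
    ext ⟨x, y⟩
    simp only [Finset.mem_filter, Finset.mem_product, Finset.mem_Icc, Finset.mem_image,
      Finset.mem_range, Prod.mk.injEq, Prod.exists]
    constructor
    · rintro ⟨⟨⟨hx0, hx1⟩, hy0, hy1⟩, ⟨a, ha⟩, ⟨b, hb⟩⟩
      exact ⟨a.toNat, b.toNat, ⟨by omega, by omega⟩, by omega, by omega⟩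
    · rintro ⟨a, b, ⟨ha, hb⟩, rfl, rfl⟩
      refine ⟨⟨⟨by omega, by omega⟩, by omega, by omega⟩, even_two_mul _, even_two_mul _⟩
  have h3 : ((Finset.range (m + 1) ×ˢ Finset.range (n + 1)).image
        (fun p : ℕ × ℕ => ((2 * (p.1 : ℤ), 2 * (p.2 : ℤ)) : Pt))).card = (m + 1) * (n + 1) := by
    rw [Finset.card_image_of_injective, Finset.card_product, Finset.card_range, Finset.card_range]
    rintro ⟨a, b⟩ ⟨c, d⟩ hab
    simp only [Prod.mk.injEq] at hab ⊢
    omega
  rw [h2, h3, Finset.card_product, Int.card_Icc, Int.card_Icc] at h1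
  have h4 : ((2 * (m : ℤ) + 1 - 0).toNat) = 2 * m + 1 := by omega
  have h5 : ((2 * (n : ℤ) + 1 - 0).toNat) = 2 * n + 1 := by omega
  rw [h4, h5] at h1
  have h6 : (2 * m + 1) * (2 * n + 1) = (m + 1) * (n + 1) + (3 * m * n + m + n) := by ring
  rw [h6] at h1
  exact Nat.add_left_cancel h1

theorem card_DE (h : IsTri m n E) : (DE E).ncard = 2 * (3 * m * n + m + n) := by
  classical
  rw [Set.ncard_eq_toFinset_card _ (DE_finite h), ← card_odd m n, mul_comm 2]
  refine (Finset.card_eq_sum_card_fiberwise (f := fun e : Pt × Pt => e.1 + e.2)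
    (t := (Finset.Icc (0 : ℤ) (2 * m) ×ˢ Finset.Icc (0 : ℤ) (2 * n)).filter
      fun s : Pt => ¬ (Even s.1 ∧ Even s.2)) ?_).trans ?_
  · rintro ⟨a, b⟩ hab
    have hE : E a b := (DE_finite h).mem_toFinset.1 hab
    obtain ⟨ha1, ha1', ha2, ha2'⟩ := h.inR _ _ hE
    obtain ⟨hb1, hb1', hb2, hb2'⟩ := h.inR' hE
    have hp := (h.prim _ _ hE).not_even
    simp only [Finset.coe_filter, Finset.mem_product, Finset.mem_Icc, Set.mem_ofPred_eq,
      Prod.fst_add, Prod.snd_add]
    refine ⟨⟨⟨by omega, by omega⟩, by omega, by omega⟩, ?_⟩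
    rintro ⟨⟨x, hx⟩, ⟨y, hy⟩⟩
    exact hp ⟨⟨x - a.1, by simp only [Prod.fst_sub]; omega⟩,
      ⟨y - a.2, by simp only [Prod.snd_sub]; omega⟩⟩
  · rw [Finset.sum_const_nat]
    rintro s hs
    simp only [Finset.mem_filter, Finset.mem_product, Finset.mem_Icc] at hs
    obtain ⟨⟨⟨h1, h2⟩, h3, h4⟩, h5⟩ := hs
    obtain ⟨a, b, hab, hs⟩ := h.full s h1 h2 h3 h4 h5
    have hne : a ≠ b := h.ne hab
    have : ((DE_finite h).toFinset.filter fun e : Pt × Pt => e.1 + e.2 = s) =
        {(a, b), (b, a)} := by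
      ext ⟨c, d⟩
      simp only [Finset.mem_filter, Set.Finite.mem_toFinset, Finset.mem_insert,
        Finset.mem_singleton, Prod.mk.injEq]
      constructor
      · rintro ⟨hcd, hcs⟩
        exact h.mid_unique hab hcd (hs.trans hcs.symm)
      · rintro (⟨rfl, rfl⟩ | ⟨rfl, rfl⟩)
        · exact ⟨hab, hs⟩
        · exact ⟨h.symm _ _ hab, by rw [add_comm]; exact hs⟩
    rw [this]
    exact Finset.card_pair (by simp [hne])

end Pool.Agent.MP01b126
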