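import Pool.Agent.Lib.MP_01b126_co.RareDefs

/-!
# MP_01b126_co, E3: edges with many partners at the same vertex are rare
-/

namespace Pool.Agent.MP01b126

variable {m n : ℕ} {E : Pt → Pt → Prop}

/-- squared length -/
private def nrm (w : Pt) : ℤ := w.1 ^ 2 + w.2 ^ 2

/-- scalar product -/
private def ip (w v : Pt) : ℤ := w.1 * v.1 + w.2 * v.2

private theorem nrm_pos {w : Pt} (h : Prim w) : 0 < nrm w := by
  have h0 := h.ne_zero
  unfold nrm
  by_contra hc
  have h1 : w.1 ^ 2 = 0 := by nlinarith [sq_nonneg w.1, sq_nonneg w.2]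
  have h2 : w.2 ^ 2 = 0 := by nlinarith [sq_nonneg w.1, sq_nonneg w.2]
  exact h0 (Prod.ext (pow_eq_zero_iff (two_ne_zero) |>.mp h1)
    (pow_eq_zero_iff (two_ne_zero) |>.mp h2))

private theorem ip_bound {w v : Pt} (h : Prim w) (hd : det w v ^ 2 = 1) (hn : nrm v ≤ nrm w) :
    |ip w v| < nrm w := by
  have h1 := nrm_pos h
  have h2 : ip w v ^ 2 + det w v ^ 2 = nrm w * nrm v := by
    unfold ip det nrm; ring
  have h3 : ip w v ^ 2 < nrm w ^ 2 := by
    rw [hd] at h2
    have : nrm w * nrm v ≤ nrm w * nrm w := mul_le_mul_of_nonneg_left hn h1.le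
    nlinarith
  exact abs_lt_of_sq_lt_sq h3 h1.le

/-- two neighbours of `w` at the same height, both not longer than `w`, differ by at most `w` -/
private theorem diff_one {w v v' : Pt} (h : Prim w) (hd : det w v ^ 2 = 1)
    (he : det w v' = det w v) (hn : nrm v ≤ nrm w) (hn' : nrm v' ≤ nrm w) (hne : v ≠ v') :
    v' = v + w ∨ v' = v - w := by
  have h0 : det w (v' - v) = 0 := by rw [det_sub_right, he, sub_self]
  obtain ⟨k, hk⟩ := h.eq_smul h0
  have h1 := ip_bound h hd hn
  have h2 := ip_bound h (by rw [he]; exact hd) hn'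
  have h3 := nrm_pos h
  have h4 : ip w v' - ip w v = k * nrm w := by
    have e1 := congrArg Prod.fst hk
    have e2 := congrArg Prod.snd hk
    simp only [Prod.fst_sub, Prod.snd_sub, Prod.smul_fst, Prod.smul_snd, smul_eq_mul] at e1 e2
    unfold ip nrm
    linear_combination w.1 * e1 + w.2 * e2
  have h5 := abs_lt.mp h1
  have h6 := abs_lt.mp h2
  have h7 : k < 2 := by
    by_contra hc
    push Not at hc
    nlinarith
  have h8 : -2 < k := by
    by_contra hc
    push Not at hc
    nlinarith
  have h9 : k ≠ 0 := by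
    rintro rfl
    rw [zero_smul, sub_eq_zero] at hk
    exact hne hk.symm
  have h10 : k = 1 ∨ k = -1 := by omega
  rcases h10 with rfl | rfl
  · left
    rw [one_smul] at hk
    rw [← hk]; abel
  · right
    rw [neg_smul, one_smul] at hk
    have : v' = v + (v' - v) := by abel
    rw [this, hk]; abel

private theorem card_le_two {A : Finset Pt} {w : Pt} (h : Prim w) {d : ℤ} (hd : d ^ 2 = 1) :
    (A.filter (fun v => det w v = d ∧ nrm v ≤ nrm w)).card ≤ 2 := by
  by_contra hc
  push Not at hc
  obtain ⟨a, b, c, ha, hb, hc', hab, hac, hbc⟩ := Finset.two_lt_card_iff.mp hc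
  simp only [Finset.mem_filter] at ha hb hc'
  obtain ⟨-, ha1, ha2⟩ := ha
  obtain ⟨-, hb1, hb2⟩ := hb
  obtain ⟨-, hc1, hc2⟩ := hc'
  have hw := h.ne_zero
  have e1 := diff_one h (v := a) (v' := b) (by rw [ha1]; exact hd) (by rw [ha1, hb1]) ha2 hb2 hab
  have e2 := diff_one h (v := a) (v' := c) (by rw [ha1]; exact hd) (by rw [ha1, hc1]) ha2 hc2 hac
  have e3 := diff_one h (v := b) (v' := c) (by rw [hb1]; exact hd) (by rw [hb1, hc1]) hb2 hc2 hbc
  have key : ∀ k : ℤ, k ≠ 0 → k • w ≠ 0 := fun k hk => smul_ne_zero hk hw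
  rcases e1 with e1 | e1 <;> rcases e2 with e2 | e2 <;> rcases e3 with e3 | e3
  · exact hbc (e1.trans e2.symm)
  · exact hbc (e1.trans e2.symm)
  · rw [e1, e2] at e3
    refine key 3 (by norm_num) ?_
    have : (3 : ℤ) • w = (a + w + w) - (a - w) := by
      rw [show (3 : ℤ) = 1 + 1 + 1 by norm_num, add_smul, add_smul, one_smul]; abel
    rw [this, ← e3]; abel
  · rw [e1, e2] at e3
    refine key 1 (by norm_num) ?_
    have : (1 : ℤ) • w = (a + w - w) - (a - w) := by
      rw [one_smul]; abel
    rw [this, ← e3]; abel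
  · rw [e1, e2] at e3
    refine key 1 (by norm_num) ?_
    have : (1 : ℤ) • w = (a + w) - (a - w + w) := by
      rw [one_smul]; abel
    rw [this, ← e3]; abel
  · rw [e1, e2] at e3
    refine key 3 (by norm_num) ?_
    have : (3 : ℤ) • w = (a + w) - (a - w - w) := by
      rw [show (3 : ℤ) = 1 + 1 + 1 by norm_num, add_smul, add_smul, one_smul]; abel
    rw [this, ← e3]; abel
  · exact hbc (e1.trans e2.symm)
  · exact hbc (e1.trans e2.symm)

private theorem card_le_four {A : Finset Pt} {w : Pt} (h : Prim w) :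
    (A.filter (fun v => |det w v| = 1 ∧ nrm v ≤ nrm w)).card ≤ 4 := by
  have h1 := card_le_two (A := A) h (d := 1) (by norm_num)
  have h2 := card_le_two (A := A) h (d := -1) (by norm_num)
  have h3 : A.filter (fun v => |det w v| = 1 ∧ nrm v ≤ nrm w) ⊆
      A.filter (fun v => det w v = 1 ∧ nrm v ≤ nrm w) ∪
      A.filter (fun v => det w v = -1 ∧ nrm v ≤ nrm w) := by
    intro v hv
    simp only [Finset.mem_filter, Finset.mem_union] at hv ⊢
    obtain ⟨hv1, hv2, hv3⟩ := hv
    rcases (abs_eq (by norm_num : (0 : ℤ) ≤ 1)).mp hv2 with h4 | h4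
    · exact Or.inl ⟨hv1, h4, hv3⟩
    · exact Or.inr ⟨hv1, h4, hv3⟩
  have h4 := Finset.card_le_card h3
  have h5 := Finset.card_union_le (A.filter (fun v => det w v = 1 ∧ nrm v ≤ nrm w))
    (A.filter (fun v => det w v = -1 ∧ nrm v ≤ nrm w))
  omega

theorem pairs_le (A : Finset Pt) (hA : ∀ w ∈ A, Prim w) :
    ((A ×ˢ A).filter (fun p => |det p.1 p.2| = 1)).card ≤ 12 * A.card := by
  classical
  set T1 := (A ×ˢ A).filter (fun p => |det p.1 p.2| = 1 ∧ nrm p.2 ≤ nrm p.1) with hT1
  have h1 : T1.card ≤ 4 * A.card := by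
    have : T1.card = ∑ w ∈ A, (T1.filter (fun p => p.1 = w)).card :=
      Finset.card_eq_sum_card_fiberwise (fun p hp => by
        have hp' : p ∈ T1 := hp
        rw [hT1, Finset.mem_filter, Finset.mem_product] at hp'
        exact hp'.1.1)
    rw [this]
    have h2 : ∀ w ∈ A, (T1.filter (fun p => p.1 = w)).card ≤ 4 := by
      intro w hw
      refine le_trans ?_ (card_le_four (A := A) (hA w hw))
      refine Finset.card_le_card_of_injOn Prod.snd ?_ ?_
      · intro p hp
        have hp' := Finset.mem_filter.mp (Finset.mem_coe.mp hp)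
        obtain ⟨hp1, hp2⟩ := hp'
        rw [hT1, Finset.mem_filter, Finset.mem_product] at hp1
        rw [Finset.mem_coe, Finset.mem_filter, ← hp2]
        exact ⟨hp1.1.2, hp1.2⟩
      · intro p hp q hq hpq
        have hp' := (Finset.mem_filter.mp (Finset.mem_coe.mp hp)).2
        have hq' := (Finset.mem_filter.mp (Finset.mem_coe.mp hq)).2
        exact Prod.ext (hp'.trans hq'.symm) hpq
    have h3 := Finset.sum_le_card_nsmul A _ 4 h2
    rw [smul_eq_mul] at h3
    linarith
  have h2 : (A ×ˢ A).filter (fun p => |det p.1 p.2| = 1) ⊆ T1 ∪ T1.image Prod.swap := by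
    intro p hp
    rw [Finset.mem_filter, Finset.mem_product] at hp
    rw [Finset.mem_union]
    rcases le_total (nrm p.2) (nrm p.1) with h3 | h3
    · left
      rw [hT1, Finset.mem_filter, Finset.mem_product]
      exact ⟨hp.1, hp.2, h3⟩
    · right
      rw [Finset.mem_image]
      refine ⟨p.swap, ?_, Prod.swap_swap p⟩
      rw [hT1, Finset.mem_filter, Finset.mem_product]
      refine ⟨⟨hp.1.2, hp.1.1⟩, ?_, h3⟩
      simp only [Prod.fst_swap, Prod.snd_swap]
      rw [det_swap, abs_neg]
      exact hp.2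
  have h3 := Finset.card_le_card h2
  have h4 := Finset.card_union_le T1 (T1.image Prod.swap)
  have h5 : (T1.image Prod.swap).card ≤ T1.card := Finset.card_image_le
  omega

private theorem inR_finite (m n : ℕ) : {p : Pt | InR m n p}.Finite := by
  refine (Set.finite_Icc ((0, 0) : Pt) ((m : ℤ), (n : ℤ))).subset ?_
  rintro p ⟨h1, h2, h3, h4⟩
  exact ⟨⟨h1, h3⟩, ⟨h2, h4⟩⟩

private theorem DE_fin (h : IsTri m n E) : (DE E).Finite := by
  refine ((inR_finite m n).prod (inR_finite m n)).subset ?_
  intro e he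
  exact ⟨h.inR _ _ he, h.inR' he⟩

theorem rareP (h : IsTri m n E) (S : ℕ) : S * (evP E S).ncard ≤ 12 * (DE E).ncard := by
  classical
  have hfin := DE_fin h
  have hsub : evP E S ⊆ DE E := fun e he => he.1
  have hfin' := hfin.subset hsub
  rw [Set.ncard_eq_toFinset_card _ hfin, Set.ncard_eq_toFinset_card _ hfin']
  set F := hfin.toFinset with hF
  set G := hfin'.toFinset with hG
  have hGF : G ⊆ F := by
    intro e he
    rw [hF, Set.Finite.mem_toFinset]
    rw [hG, Set.Finite.mem_toFinset] at he
    exact hsub he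
  set R := F.image Prod.fst with hR
  have h1 : F.card = ∑ y ∈ R, (F.filter (fun e => e.1 = y)).card :=
    Finset.card_eq_sum_card_fiberwise (fun e he => Finset.mem_image_of_mem _ he)
  have h2 : G.card = ∑ y ∈ R, (G.filter (fun e => e.1 = y)).card :=
    Finset.card_eq_sum_card_fiberwise (fun e he => Finset.mem_image_of_mem _ (hGF he))
  rw [h1, h2, Finset.mul_sum, Finset.mul_sum]
  refine Finset.sum_le_sum fun y _ => ?_
  -- the star of `y`
  set A := (F.filter (fun e => e.1 = y)).image (fun e => e.2 - y) with hA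
  set B := (G.filter (fun e => e.1 = y)).image (fun e => e.2 - y) with hB
  have hAc : A.card = (F.filter (fun e => e.1 = y)).card := by
    refine Finset.card_image_of_injOn ?_
    intro e he e' he' hee
    have h3 := (Finset.mem_filter.mp (Finset.mem_coe.mp he)).2
    have h4 := (Finset.mem_filter.mp (Finset.mem_coe.mp he')).2
    exact Prod.ext (h3.trans h4.symm) (sub_left_injective hee)
  have hBc : B.card = (G.filter (fun e => e.1 = y)).card := by
    refine Finset.card_image_of_injOn ?_
    intro e he e' he' hee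
    have h3 := (Finset.mem_filter.mp (Finset.mem_coe.mp he)).2
    have h4 := (Finset.mem_filter.mp (Finset.mem_coe.mp he')).2
    exact Prod.ext (h3.trans h4.symm) (sub_left_injective hee)
  have hmemA : ∀ w, w ∈ A ↔ E y (y + w) := by
    intro w
    rw [hA, Finset.mem_image]
    constructor
    · rintro ⟨e, he, rfl⟩
      rw [Finset.mem_filter, hF, Set.Finite.mem_toFinset] at he
      obtain ⟨he1, he2⟩ := he
      have : y + (e.2 - y) = e.2 := by abel
      rw [this, ← he2]
      exact he1
    · intro hw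
      refine ⟨(y, y + w), ?_, by simp⟩
      rw [Finset.mem_filter, hF, Set.Finite.mem_toFinset]
      exact ⟨hw, rfl⟩
  have hBA : B ⊆ A := Finset.image_subset_image (Finset.filter_subset_filter _ hGF)
  have hAprim : ∀ w ∈ A, Prim w := by
    intro w hw
    have := h.prim _ _ ((hmemA w).mp hw)
    simpa using this
  have hpair := pairs_le A hAprim
  have hsum : ((A ×ˢ A).filter (fun p => |det p.1 p.2| = 1)).card =
      ∑ w ∈ A, (A.filter (fun v => |det w v| = 1)).card := by
    rw [Finset.card_filter, Finset.sum_product]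
    refine Finset.sum_congr rfl fun w _ => ?_
    rw [Finset.card_filter]
  have hBS : ∀ w ∈ B, S ≤ (A.filter (fun v => |det w v| = 1)).card := by
    intro w hw
    rw [hB, Finset.mem_image] at hw
    obtain ⟨e, he, rfl⟩ := hw
    rw [Finset.mem_filter, hG, Set.Finite.mem_toFinset] at he
    obtain ⟨he1, he2⟩ := he
    obtain ⟨-, he3⟩ := he1
    refine he3.trans ?_
    rw [he2]
    have h5 : {x | E y x ∧ |det (e.2 - y) (x - y)| = 1} =
        ((A.filter (fun v => |det (e.2 - y) v| = 1)).image (fun v => y + v) : Finset Pt) := by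
      ext x
      simp only [Set.mem_ofPred_eq, Finset.coe_image, Finset.coe_filter, Set.mem_image]
      constructor
      · rintro ⟨hx1, hx2⟩
        refine ⟨x - y, ⟨(hmemA _).mpr ?_, hx2⟩, by abel⟩
        have : y + (x - y) = x := by abel
        rw [this]; exact hx1
      · rintro ⟨v, ⟨hv1, hv2⟩, rfl⟩
        refine ⟨(hmemA _).mp hv1, ?_⟩
        have : y + v - y = v := by abel
        rw [this]; exact hv2
    rw [h5, Set.ncard_coe_finset]
    exact Finset.card_image_le
  calc S * (G.filter (fun e => e.1 = y)).card = S * B.card := by rw [hBc]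
    _ = B.card • S := by rw [smul_eq_mul, mul_comm]
    _ ≤ ∑ w ∈ B, (A.filter (fun v => |det w v| = 1)).card := Finset.card_nsmul_le_sum _ _ _ hBS
    _ ≤ ∑ w ∈ A, (A.filter (fun v => |det w v| = 1)).card :=
        Finset.sum_le_sum_of_subset hBA
    _ ≤ 12 * A.card := by rw [← hsum]; exact hpair
    _ = 12 * (F.filter (fun e => e.1 = y)).card := by rw [hAc]

end Pool.Agent.MP01b126
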