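import Pool.Agent.Lib.MP_01b126_co.Face

/-!
# MP_01b126_co: covering + counting gives a triangulation, and conversely
-/

open MeasureTheory

namespace MP01b126

lemma IsUni.vol {t : Finset Pt} (ht : IsUni t) : volume.real (hull t) = 1 / 2 := by
  obtain ⟨a, b, c, rfl, h⟩ := ht
  rw [Measure.real, volume_hull a b c h, ENNReal.toReal_ofReal (by norm_num)]

lemma hull_ne_top (t : Finset Pt) : volume (hull t) ≠ ⊤ := (isCompact_hull t).measure_lt_top.ne

lemma volume_rect (m n : ℕ) : volume.real (rect m n) = m * n := by
  rw [rect, Measure.real, Measure.volume_eq_prod, Measure.prod_prod, Real.volume_Icc, Real.volume_Icc,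
    ENNReal.toReal_mul, ENNReal.toReal_ofReal (by simp), ENNReal.toReal_ofReal (by simp)]
  simp

lemma isCompact_rect (m n : ℕ) : IsCompact (rect m n) := isCompact_Icc.prod isCompact_Icc

lemma convex_rect (m n : ℕ) : Convex ℝ (rect m n) := (convex_Icc _ _).prod (convex_Icc _ _)

lemma emb_mem_rect {m n : ℕ} {p : Pt} : emb p ∈ rect m n ↔ p ∈ grid m n := by
  simp only [rect, grid, emb, Set.mem_prod, Set.mem_Icc, Finset.mem_product, Finset.mem_Icc]
  constructor
  · rintro ⟨⟨h1, h2⟩, h3, h4⟩
    exact ⟨⟨by exact_mod_cast h1, by exact_mod_cast h2⟩, by exact_mod_cast h3, by exact_mod_cast h4⟩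
  · rintro ⟨⟨h1, h2⟩, h3, h4⟩
    exact ⟨⟨by exact_mod_cast h1, by exact_mod_cast h2⟩, by exact_mod_cast h3, by exact_mod_cast h4⟩

lemma hull_subset_rect {m n : ℕ} {t : Finset Pt} (h : t ⊆ grid m n) : hull t ⊆ rect m n :=
  hull_subset (convex_rect m n) (fun _ hp => emb_mem_rect.mpr (h hp))

lemma disjoint_of_null {t t' : Finset Pt} (h : volume.real (hull t ∩ hull t') = 0) :
    Disjoint (interior (hull t)) (interior (hull t')) := by
  rw [Set.disjoint_iff_inter_eq_empty, ← interior_inter,
    ← isOpen_interior.measure_eq_zero_iff (volume : Measure (ℝ × ℝ))]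
  have h1 : volume (hull t ∩ hull t') = 0 := by
    rw [Measure.real, ENNReal.toReal_eq_zero_iff] at h
    rcases h with h | h
    · exact h
    · exact absurd (measure_mono_top Set.inter_subset_left h) (hull_ne_top t)
  exact measure_mono_null interior_subset h1

/-- **Covering criterion**: unimodular triangles in the grid covering the rectangle, at most `2mn`
of them, form a triangulation. -/
theorem isTriangulation_of_cover {m n : ℕ} {T : Finset (Finset Pt)}
    (huni : ∀ t ∈ T, IsUni t) (hsub : ∀ t ∈ T, t ⊆ grid m n)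
    (hcover : rect m n ⊆ ⋃ t ∈ T, hull t) (hcard : T.card ≤ 2 * m * n) :
    IsTriangulation m n T := by
  classical
  have hnull : ∀ t ∈ T, ∀ t' ∈ T, t ≠ t' → volume.real (hull t ∩ hull t') = 0 := by
    intro t ht t' ht' hne
    have h1 := measureReal_union_add_inter (μ := (volume : Measure (ℝ × ℝ))) (s := hull t)
      (isClosed_hull t').measurableSet (hull_ne_top t) (hull_ne_top t')
    rw [(huni t ht).vol, (huni t' ht').vol] at h1
    set T' := (T.erase t).erase t' with hT'
    have ht't : t' ∈ T.erase t := Finset.mem_erase.mpr ⟨hne.symm, ht'⟩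
    have hc1 : T'.card + 2 = T.card := by
      rw [hT', Finset.card_erase_of_mem ht't, Finset.card_erase_of_mem ht]
      have : 2 ≤ T.card := by
        have : ({t, t'} : Finset (Finset Pt)) ⊆ T := by
          intro z hz
          simp only [Finset.mem_insert, Finset.mem_singleton] at hz
          rcases hz with rfl | rfl <;> assumption
        have := Finset.card_le_card this
        rw [Finset.card_pair hne] at this
        exact this
      omega
    have hUT : rect m n ⊆ (hull t ∪ hull t') ∪ ⋃ s ∈ T', hull s := by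
      intro x hx
      obtain ⟨s, hs, hxs⟩ := Set.mem_iUnion₂.mp (hcover hx)
      by_cases h2 : s = t
      · left; left; rw [← h2]; exact hxs
      · by_cases h3 : s = t'
        · left; right; rw [← h3]; exact hxs
        · right
          exact Set.mem_iUnion₂.mpr ⟨s, Finset.mem_erase.mpr ⟨h3, Finset.mem_erase.mpr ⟨h2, hs⟩⟩, hxs⟩
    have hfin : volume (⋃ s ∈ T', hull s) ≠ ⊤ := by
      refine ((measure_biUnion_finset_le T' _).trans_lt ?_).ne
      exact ENNReal.sum_lt_top.mpr (fun s _ => (hull_ne_top s).lt_top)
    have hfin2 : volume (hull t ∪ hull t') ≠ ⊤ :=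
      ((measure_union_le _ _).trans_lt (ENNReal.add_lt_top.mpr
        ⟨(hull_ne_top t).lt_top, (hull_ne_top t').lt_top⟩)).ne
    have h2 : volume.real (rect m n) ≤ volume.real (hull t ∪ hull t') +
        volume.real (⋃ s ∈ T', hull s) :=
      (measureReal_mono hUT ((measure_union_le _ _).trans_lt (ENNReal.add_lt_top.mpr
        ⟨hfin2.lt_top, hfin.lt_top⟩)).ne).trans (measureReal_union_le _ _)
    have h3 : volume.real (⋃ s ∈ T', hull s) ≤ T'.card * (1 / 2) := by
      refine (measureReal_biUnion_finset_le T' _).trans ?_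
      rw [← nsmul_eq_mul]
      apply Finset.sum_le_card_nsmul
      intro s hs
      exact (huni s (Finset.mem_of_mem_erase (Finset.mem_of_mem_erase hs))).vol.le
    rw [volume_rect] at h2
    have h4 : (T'.card : ℝ) + 2 ≤ 2 * m * n := by exact_mod_cast (hc1.trans_le hcard)
    have h5 : 0 ≤ volume.real (hull t ∩ hull t') := measureReal_nonneg
    linarith
  refine ⟨fun t ht => (huni t ht).nondeg, ?_, ?_, ?_⟩
  · apply Set.Subset.antisymm
    · exact Set.iUnion₂_subset (fun t ht => hull_subset_rect (hsub t ht))
    · exact hcover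
  · intro t ht t' ht'
    by_cases h : t = t'
    · rw [h, Set.inter_self, Finset.inter_self]
    · exact face_to_face (huni t ht) (huni t' ht') (disjoint_of_null (hnull t ht t' ht' h))
  · apply Finset.Subset.antisymm
    · intro p hp
      rw [Finset.mem_biUnion] at hp
      obtain ⟨t, ht, hpt⟩ := hp
      exact hsub t ht hpt
    · intro p hp
      obtain ⟨t, ht, hpt⟩ := Set.mem_iUnion₂.mp (hcover (emb_mem_rect.mpr hp))
      exact Finset.mem_biUnion.mpr ⟨t, ht, (huni t ht).mem_of_emb_mem hpt⟩

/-! ### Empty lattice triangles are unimodular -/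

/-- a lattice triangle of area `≥ 1` contains another lattice point -/
lemma exists_lattice_point {a b c : Pt} (h : 2 ≤ det3 a b c) :
    ∃ p : Pt, emb p ∈ hull {a, b, c} ∧ p ∉ ({a, b, c} : Finset Pt) := by
  obtain ⟨hab, hbc, hca⟩ := det3_ne (a := a) (b := b) (c := c) (by omega)
  -- the side `a b`
  set d1 := b.1 - a.1 with hd1
  set d2 := b.2 - a.2 with hd2
  by_cases hprim : Int.gcd d1 d2 = 1
  · -- primitive side: a point at height one
    obtain ⟨u, v, huv⟩ := Int.isCoprime_iff_gcd_eq_one.mpr hprim
    -- `u d1 + v d2 = 1`; the vector `(-v, u)` has determinant one with `(d1, d2)`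
    set D := det3 a b c with hD
    -- w = det(p0, c) for p0 = a + (-v, u)
    set w := det3 c a (a.1 - v, a.2 + u) with hw
    -- p = p0 + k (b - a)
    set k := -(w / D) with hk
    set p : Pt := (a.1 - v + k * d1, a.2 + u + k * d2) with hp
    have h1 : det3 a b p = 1 := by
      simp only [det3, hp]
      linear_combination huv
    have h2 : det3 c a p = w + k * D := by
      simp only [det3, hp, hw, hD]
      ring
    have h3 : det3 c a p = w % D := by
      rw [h2, hk]
      have := Int.emod_add_mul_ediv w D
      linarith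
    have h4 : 0 ≤ det3 c a p := by rw [h3]; exact Int.emod_nonneg _ (by omega)
    have h5 : det3 c a p < D := by rw [h3]; exact Int.emod_lt_of_pos _ (by omega)
    have h6 := det3_sum a b c p
    refine ⟨p, ?_, ?_⟩
    · rw [mem_hull_iff (by omega)]
      simp only [detR_emb]
      refine ⟨by exact_mod_cast (by omega), by exact_mod_cast (by omega), by exact_mod_cast h4⟩
    · intro hmem
      simp only [Finset.mem_insert, Finset.mem_singleton] at hmem
      rcases hmem with h7 | h7 | h7
      · rw [h7] at h1; simp at h1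
      · rw [h7] at h1; simp at h1
      · rw [h7] at h1; omega
  · -- non-primitive side
    set g := Int.gcd d1 d2 with hg
    have hd : ¬ (d1 = 0 ∧ d2 = 0) := by
      rintro ⟨e1, e2⟩
      apply hab
      ext <;> omega
    have hg0 : 0 < g := Int.gcd_pos_iff.mpr (by tauto)
    have hg2 : 2 ≤ g := by omega
    obtain ⟨e1, he1⟩ : (g : ℤ) ∣ d1 := Int.gcd_dvd_left _ _
    obtain ⟨e2, he2⟩ : (g : ℤ) ∣ d2 := Int.gcd_dvd_right _ _
    refine ⟨(a.1 + e1, a.2 + e2), ?_, ?_⟩
    · have hsub : hull {a, b} ⊆ hull {a, b, c} := hull_mono (by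
        intro z hz
        simp only [Finset.mem_insert, Finset.mem_singleton] at hz ⊢
        tauto)
      apply hsub
      rw [hull_pair]
      have hgR : (2 : ℝ) ≤ g := by exact_mod_cast hg2
      refine ⟨1 - 1 / g, 1 / g, ?_, by positivity, by ring, ?_⟩
      · rw [sub_nonneg, div_le_one (by linarith)]; linarith
      · have hb1 : (b.1 : ℝ) = a.1 + g * e1 := by
          have : b.1 = a.1 + g * e1 := by omega
          rw [this]; push_cast; ring
        have hb2 : (b.2 : ℝ) = a.2 + g * e2 := by
          have : b.2 = a.2 + g * e2 := by omega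
          rw [this]; push_cast; ring
        have hgne : (g : ℝ) ≠ 0 := by linarith
        ext
        · simp only [emb, Prod.fst_add, Prod.smul_fst, smul_eq_mul, hb1]; push_cast; field_simp; ring
        · simp only [emb, Prod.snd_add, Prod.smul_snd, smul_eq_mul, hb2]; push_cast; field_simp; ring
    · intro hmem
      simp only [Finset.mem_insert, Finset.mem_singleton] at hmem
      have hne : ¬ (e1 = 0 ∧ e2 = 0) := by
        rintro ⟨h1, h2⟩
        exact hd ⟨by rw [he1, h1, mul_zero], by rw [he2, h2, mul_zero]⟩
      rcases hmem with h7 | h7 | h7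
      · rw [Prod.ext_iff] at h7
        exact hne ⟨by simpa using h7.1, by simpa using h7.2⟩
      · rw [Prod.ext_iff] at h7
        obtain ⟨h8, h9⟩ := h7
        simp only at h8 h9
        have f1 : ((g : ℤ) - 1) * e1 = 0 := by linear_combination (-1) * he1 + hd1 - h8
        have f2 : ((g : ℤ) - 1) * e2 = 0 := by linear_combination (-1) * he2 + hd2 - h9
        have hg1 : (g : ℤ) - 1 ≠ 0 := by omega
        exact hne ⟨(mul_eq_zero.mp f1).resolve_left hg1, (mul_eq_zero.mp f2).resolve_left hg1⟩
      · have : det3 a b c = 0 := by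
          rw [← h7]
          simp only [det3]
          have f1 : b.1 - a.1 = g * e1 := he1
          have f2 : b.2 - a.2 = g * e2 := he2
          rw [f1, f2]; ring
        omega

end MP01b126
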