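import Mathlib

/-!
# MP_01b126_co: unimodular triangulations of the grid — shared definitions

`grid m n` is `P_{m,n} = {0,…,m} × {0,…,n}`.  A triangulation of `[0,m] × [0,n]` with vertex set
`P_{m,n}` is a finite set `T` of triangles, each given by its set of vertices (a `Finset` of lattice
points); `hull t` is the closed triangle in the plane.
-/

namespace MP01b126

/-- lattice points of the plane -/
abbrev Pt := ℤ × ℤ

/-- the embedding `ℤ² → ℝ²` -/
def emb (p : Pt) : ℝ × ℝ := ((p.1 : ℝ), (p.2 : ℝ))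

/-- twice the signed area of the triangle `a b c` -/
def det3 (a b c : Pt) : ℤ := (b.1 - a.1) * (c.2 - a.2) - (b.2 - a.2) * (c.1 - a.1)

/-- the (real, closed) convex hull of a finite set of lattice points -/
def hull (t : Finset Pt) : Set (ℝ × ℝ) := convexHull ℝ (emb '' (t : Set Pt))

/-- `P_{m,n} = {0,…,m} × {0,…,n}` -/
noncomputable def grid (m n : ℕ) : Finset Pt := Finset.Icc 0 (m : ℤ) ×ˢ Finset.Icc 0 (n : ℤ)

/-- the rectangle `[0,m] × [0,n]` -/
def rect (m n : ℕ) : Set (ℝ × ℝ) := Set.Icc 0 (m : ℝ) ×ˢ Set.Icc 0 (n : ℝ)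

/-- `T` is a triangulation of `[0,m] × [0,n]` with vertex set `P_{m,n}` (a unimodular triangulation
of `P_{m,n}`): its members are non-degenerate triangles, they cover the rectangle, any two meet in
the hull of their common vertices, and the vertices of the triangles are exactly the points of
`P_{m,n}`. -/
structure IsTriangulation (m n : ℕ) (T : Finset (Finset Pt)) : Prop where
  tri : ∀ t ∈ T, ∃ a b c : Pt, t = {a, b, c} ∧ det3 a b c ≠ 0
  cover : ⋃ t ∈ T, hull t = rect m n
  face : ∀ t ∈ T, ∀ t' ∈ T, hull t ∩ hull t' = hull (t ∩ t')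
  verts : T.biUnion id = grid m n

/-- `S` is a domain of linearity of `h` in `R`: a convex subset of `R` with nonempty interior on
which `h` is affine. -/
def IsLinDomain (h : ℝ × ℝ → ℝ) (R S : Set (ℝ × ℝ)) : Prop :=
  S ⊆ R ∧ Convex ℝ S ∧ (interior S).Nonempty ∧ ∃ A : (ℝ × ℝ) →ᵃ[ℝ] ℝ, Set.EqOn h A S

/-- A triangulation is regular if there is a convex function on the rectangle whose maximal domains
of linearity are exactly the triangles of `T` (such a function is piecewise linear). -/
def IsRegular (m n : ℕ) (T : Finset (Finset Pt)) : Prop :=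
  IsTriangulation m n T ∧ ∃ h : ℝ × ℝ → ℝ, ConvexOn ℝ (rect m n) h ∧
    {S | Maximal (IsLinDomain h (rect m n)) S} = {S | ∃ t ∈ T, S = hull t}

/-- `f(m,n)`, the number of unimodular triangulations of `P_{m,n}` -/
noncomputable def f (m n : ℕ) : ℕ := {T : Finset (Finset Pt) | IsTriangulation m n T}.ncard

/-- `f^reg(m,n)`, the number of regular unimodular triangulations of `P_{m,n}` -/
noncomputable def freg (m n : ℕ) : ℕ := {T : Finset (Finset Pt) | IsRegular m n T}.ncard

/-- the statement Q1 -/
def MostNonregular : Prop := ∃ N : ℕ, ∀ m n : ℕ, N ≤ m → N ≤ n → 2 * freg m n < f m n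

/-! ### The combinatorial form -/

/-- a unimodular lattice triangle -/
def IsUni (t : Finset Pt) : Prop := ∃ a b c : Pt, t = {a, b, c} ∧ |det3 a b c| = 1

/-- a side line of `t` separates `t` from `t'` -/
def SideSep (t t' : Finset Pt) : Prop :=
  ∃ a ∈ t, ∃ b ∈ t, a ≠ b ∧ (∀ p ∈ t, 0 ≤ det3 a b p) ∧ ∀ p ∈ t', det3 a b p ≤ 0

/-- a side line of one of the two triangles separates them -/
def Sep (t t' : Finset Pt) : Prop := SideSep t t' ∨ SideSep t' t

/-- the purely integral form of `IsTriangulation` (see `Bridge.lean` for the equivalence) -/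
structure CombTri (m n : ℕ) (T : Finset (Finset Pt)) : Prop where
  sub : ∀ t ∈ T, t ⊆ grid m n
  uni : ∀ t ∈ T, IsUni t
  sep : ∀ t ∈ T, ∀ t' ∈ T, t ≠ t' → Sep t t'
  card : T.card = 2 * m * n

end MP01b126
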