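import Pool.Agent.Lib.MP_01b126_co.St.LimDefs

/-!
# MP_01b126_co: shared vocabulary for the local theory (edges, curvature `Kap`, runs, fans, windows,
rooms) and, in comments, the four main theorems.
-/

namespace MP01b126

/-- `a b c` is a positively oriented (unimodular) triangle of `T` -/
def Tr (T : Finset (Finset Pt)) (a b c : Pt) : Prop :=
  ({a, b, c} : Finset Pt) ∈ T ∧ det3 a b c = 1

/-- `a b` is an edge of `T` -/
def Ed (T : Finset (Finset Pt)) (a b : Pt) : Prop := a ≠ b ∧ ∃ t ∈ T, a ∈ t ∧ b ∈ t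

/-- `a b` is an interior edge of `T` with left apex `c` and right apex `d`,
`c + d = a + b + k (b - a)`.  (`k = 0` iff the edge is flippable; `Kap T b a (-k)`.) -/
def Kap (T : Finset (Finset Pt)) (a b : Pt) (k : ℤ) : Prop :=
  ∃ c d, Tr T a b c ∧ Tr T b a d ∧ c + d = a + b + k • (b - a)

open Classical in
/-- degree of a vertex -/
noncomputable def deg (T : Finset (Finset Pt)) (v : Pt) : ℕ := ((T.biUnion id).filter (Ed T v)).card

/-- `v` lies on a straight path of `T` with `L` edges -/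
def Run (T : Finset (Finset Pt)) (L : ℕ) (v : Pt) : Prop :=
  ∃ u : Pt, u ≠ 0 ∧ ∃ i : ℕ, i ≤ L ∧ ∀ j : ℕ, j < L →
    Ed T (v + ((j : ℤ) - i) • u) (v + ((j : ℤ) - i + 1) • u)

/-- `v` is the centre of a long arithmetic progression of neighbours of a vertex `A`, on a line at
lattice distance one from `A` -/
def FanAt (T : Finset (Finset Pt)) (L : ℕ) (v : Pt) : Prop :=
  ∃ A u : Pt, |dt u (v - A)| = 1 ∧ ∀ j : ℤ, |j| ≤ L → Ed T A (v + j • u)

/-- `w` is the head of an edge of `T` parallel to `u` with curvature at least `B` -/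
def Wild (T : Finset (Finset Pt)) (B : ℕ) (w u : Pt) : Prop :=
  ∃ k : ℤ, (B : ℤ) ≤ k ∧ (Kap T (w - u) w k ∨ Kap T (w + u) w k)

/-- `z` is an interior point of the rectangle, its star lies in the strip of width two with direction
`u` centred at `z`, and all neighbours on the two boundary lines of the strip are wild -/
def St (m n : ℕ) (T : Finset (Finset Pt)) (B : ℕ) (z u : Pt) : Prop :=
  (0 < z.1 ∧ z.1 < m ∧ 0 < z.2 ∧ z.2 < n) ∧
  ∀ w, Ed T z w → dt u (w - z) = 0 ∨ (|dt u (w - z)| = 1 ∧ Wild T B w u)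

/-- `v` is in the middle row of a window of a strip of width two with wild walls -/
def Win (m n : ℕ) (T : Finset (Finset Pt)) (q D B : ℕ) (v : Pt) : Prop :=
  ∃ u : Pt, IsCoprime u.1 u.2 ∧ ∀ i : ℤ, |i| ≤ q →
    St m n T B (v + i • u) u ∧ deg T (v + i • u) ≤ D

/-- all triangles at dual distance at most `R` of the star of `v` -/
def ball (T : Finset (Finset Pt)) : ℕ → Pt → Finset (Finset Pt)
  | 0, v => T.filter (fun t => v ∈ t)
  | R + 1, v => T.filter (fun t => ∃ t' ∈ ball T R v, 2 ≤ (t ∩ t').card)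

/-- the two model polygons: `false` is the square `[0,3]²`, `true` is the pentagon
`conv {(0,0),(2,1),(4,3),(-4,3),(-2,1)}` -/
def Shape (s : Bool) : Set (ℝ × ℝ) :=
  if s then {p | 0 ≤ p.2 ∧ p.2 ≤ 3 ∧ |p.1| ≤ 2 * p.2 ∧ |p.1| ≤ p.2 + 1}
  else {p | 0 ≤ p.1 ∧ p.1 ≤ 3 ∧ 0 ≤ p.2 ∧ p.2 ≤ 3}

/-- the affine image of a model polygon in the frame `o, u, w` -/
def Poly (r : Bool × Pt × Pt × Pt) : Set (ℝ × ℝ) :=
  (fun p : ℝ × ℝ => emb r.2.1 + p.1 • emb r.2.2.1 + p.2 • emb r.2.2.2) '' Shape r.1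

/-- the interiors of the triangle `t` and of the polygon meet -/
def Meets (t : Finset Pt) (P : Set (ℝ × ℝ)) : Prop := (interior (hull t) ∩ interior P).Nonempty

open Classical in
/-- a room of complexity `k`: a unimodular image of a model polygon inside the rectangle whose
interior meets at most `k` triangles of `T` -/
def IsRoom (m n : ℕ) (T : Finset (Finset Pt)) (k : ℕ) (r : Bool × Pt × Pt × Pt) : Prop :=
  dt r.2.2.1 r.2.2.2 = 1 ∧ Poly r ⊆ rect m n ∧ (T.filter (fun t => Meets t (Poly r))).card ≤ k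

def rooms (m n : ℕ) (T : Finset (Finset Pt)) (k : ℕ) : Set (Bool × Pt × Pt × Pt) :=
  {r | IsRoom m n T k r}

/-- there is a room of complexity `k` at dual distance at most `k` from `v` -/
def RoomAt (m n : ℕ) (T : Finset (Finset Pt)) (k : ℕ) (v : Pt) : Prop :=
  ∃ r, IsRoom m n T k r ∧ ∃ t ∈ ball T k v, Meets t (Poly r)

/-! The four main theorems (each is proved in its own file). -/

/-- STRUCTURE -/
def StructureThm : Prop :=
  ∀ ε : ℝ, 0 < ε → ∀ q : ℕ, ∃ D : ℕ, ∀ L B : ℕ, ∃ k N : ℕ, ∀ m n : ℕ, N ≤ m → N ≤ n →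
    ∀ T, IsTriangulation m n T →
      (({v ∈ grid m n | ¬ Run T L v ∧ ¬ FanAt T L v ∧ ¬ Win m n T q D B v ∧
        ¬ RoomAt m n T k v} : Set Pt).ncard : ℝ) ≤ ε * m * n

/-- COUNTING -/
def CountingThm : Prop :=
  ∃ ε : ℝ, 0 < ε ∧ ∃ q : ℕ, ∀ D : ℕ, ∃ L B N : ℕ, ∀ m n : ℕ, N ≤ m → N ≤ n →
    (({T | IsTriangulation m n T ∧
      (({v ∈ grid m n | ¬ Run T L v ∧ ¬ FanAt T L v ∧ ¬ Win m n T q D B v} : Set Pt).ncard : ℝ)
        ≤ ε * m * n} : Set (Finset (Finset Pt))).ncard : ℝ) ≤ (2 : ℝ) ^ ((2.061 : ℝ) * m * n)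

/-- SURGERY -/
def SurgeryThm : Prop :=
  ∀ k : ℕ, ∃ M : ℕ, ∀ m n K : ℕ,
    K * ({T | IsRegular m n T ∧ K ≤ (rooms m n T k).ncard} : Set (Finset (Finset Pt))).ncard
      ≤ M * f m n

/-- NEAR COUNT -/
def NearCount : Prop :=
  ∀ k : ℕ, ∃ C : ℕ, ∀ m n : ℕ, ∀ T, IsTriangulation m n T →
    ({v ∈ grid m n | RoomAt m n T k v} : Set Pt).ncard ≤ C * (rooms m n T k).ncard

/-- LOWER BOUND -/
def LowerThm : Prop :=
  ∃ N : ℕ, ∀ m n : ℕ, N ≤ m → N ≤ n → (2 : ℝ) ^ ((2.063 : ℝ) * m * n) ≤ f m n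

end MP01b126
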