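import Pool.Agent.Lib.MP_01b126_co.Struct
import Pool.Agent.Lib.MP_01b126_co.Iface

/-!
# MP_01b126_co: edges of a triangulation, adjacency, midpoints, regularity
-/

open MeasureTheory

namespace MP01b126

variable {m n : ℕ} {T : Finset (Finset Pt)}

/-- the midpoint of two lattice points -/
noncomputable def mid (a b : Pt) : ℝ × ℝ := (1 / 2 : ℝ) • emb a + (1 / 2 : ℝ) • emb b

lemma mid_mem_openSegment (a b : Pt) : mid a b ∈ openSegment ℝ (emb a) (emb b) :=
  ⟨1 / 2, 1 / 2, by norm_num, by norm_num, by norm_num, rfl⟩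

/-- two vertices of a non-degenerate triangle: the third one, up to orientation -/
lemma third {t : Finset Pt} (ht : ∃ a b c : Pt, t = {a, b, c} ∧ det3 a b c ≠ 0) {a b : Pt}
    (ha : a ∈ t) (hb : b ∈ t) (hab : a ≠ b) : ∃ c, t = {a, b, c} ∧ det3 a b c ≠ 0 := by
  obtain ⟨p, q, r, rfl, hD⟩ := ht
  simp only [Finset.mem_insert, Finset.mem_singleton] at ha hb
  have e1 := det3_rot p q r
  have e2 := det3_rot' p q r
  have e3 := det3_swap p q r
  have e4 := det3_swap q r p
  have e5 := det3_swap r p q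
  rcases ha with rfl | rfl | rfl <;> rcases hb with rfl | rfl | rfl
  · exact absurd rfl hab
  · exact ⟨r, rfl, hD⟩
  · refine ⟨q, ?_, by omega⟩
    ext z; simp only [Finset.mem_insert, Finset.mem_singleton]; tauto
  · refine ⟨r, ?_, by omega⟩
    ext z; simp only [Finset.mem_insert, Finset.mem_singleton]; tauto
  · exact absurd rfl hab
  · refine ⟨p, ?_, by omega⟩
    ext z; simp only [Finset.mem_insert, Finset.mem_singleton]; tauto
  · refine ⟨q, ?_, by omega⟩
    ext z; simp only [Finset.mem_insert, Finset.mem_singleton]; tauto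
  · refine ⟨p, ?_, by omega⟩
    ext z; simp only [Finset.mem_insert, Finset.mem_singleton]; tauto
  · exact absurd rfl hab

lemma IsUni.third {t : Finset Pt} (ht : IsUni t) {a b : Pt}
    (ha : a ∈ t) (hb : b ∈ t) (hab : a ≠ b) : ∃ c, t = {a, b, c} ∧ (det3 a b c = 1 ∨ det3 a b c = -1) := by
  obtain ⟨c, hc, hD⟩ := MP01b126.third ht.nondeg ha hb hab
  refine ⟨c, hc, ?_⟩
  subst hc
  obtain ⟨p, q, r, hpqr, h1⟩ := ht.orient
  have ha' : a ∈ ({p, q, r} : Finset Pt) := by rw [← hpqr]; exact ha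
  have hb' : b ∈ ({p, q, r} : Finset Pt) := by rw [← hpqr]; exact hb
  have hc' : c ∈ ({p, q, r} : Finset Pt) := by rw [← hpqr]; simp
  simp only [Finset.mem_insert, Finset.mem_singleton] at ha' hb' hc'
  have e1 := det3_rot p q r
  have e2 := det3_rot' p q r
  have e3 := det3_swap p q r
  have e4 := det3_swap q r p
  have e5 := det3_swap r p q
  rcases ha' with rfl | rfl | rfl <;> rcases hb' with rfl | rfl | rfl <;>
    rcases hc' with rfl | rfl | rfl <;>
    first
    | omega
    | (exfalso; apply hD; simp [det3_left, det3_right, det3_same])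

/-- an inner point of a side `a b` of `t` lies in another triangle `t'` only if `a b` is a side
of `t'` -/
lemma IsTriangulation.side_mem (hT : IsTriangulation m n T) {t t' : Finset Pt} (ht : t ∈ T)
    (ht' : t' ∈ T) {a b : Pt} (ha : a ∈ t) (hb : b ∈ t) (hab : a ≠ b) {x : ℝ × ℝ}
    (hx : x ∈ openSegment ℝ (emb a) (emb b)) (hx' : x ∈ hull t') : a ∈ t' ∧ b ∈ t' := by
  have hxt : x ∈ hull t := by
    have : hull {a, b} ⊆ hull t := hull_mono (by
      intro z hz
      simp only [Finset.mem_insert, Finset.mem_singleton] at hz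
      rcases hz with rfl | rfl <;> assumption)
    apply this
    rw [hull_pair]; exact openSegment_subset_segment ℝ _ _ hx
  have hxi : x ∈ hull (t ∩ t') := by rw [← hT.face t ht t' ht']; exact ⟨hxt, hx'⟩
  -- key: a missing vertex gives a contradiction
  have key : ∀ a b : Pt, a ∈ t → b ∈ t → a ≠ b → x ∈ openSegment ℝ (emb a) (emb b) → a ∈ t' := by
    intro a b ha hb hab hx
    by_contra hat
    obtain ⟨c, hc, hD⟩ := (hT.uni ht).third ha hb hab
    obtain ⟨s1, s2, hs1, hs2, hs12, hxs⟩ := hx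
    have hbc : ∀ p ∈ t ∩ t', p = b ∨ p = c := by
      intro p hp
      rw [Finset.mem_inter] at hp
      have h1 := hp.1
      rw [hc] at h1
      simp only [Finset.mem_insert, Finset.mem_singleton] at h1
      rcases h1 with rfl | h | h
      · exact absurd hp.2 hat
      · exact Or.inl h
      · exact Or.inr h
    have h2 : detR b c x = s1 * det3 a b c := by
      rw [← hxs, detR_comb b c _ _ hs12, detR_emb, detR_left, det3_rot]; ring
    rcases hD with hD | hD
    · have h1 : hull (t ∩ t') ⊆ {x | detR b c x ≤ 0} := by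
        apply hull_subset (convex_detR_nonpos b c)
        intro p hp
        rcases hbc p hp with rfl | rfl <;> simp
      have h3 : detR b c x ≤ 0 := h1 hxi
      rw [h2, hD] at h3
      push_cast at h3; linarith
    · have h1 : hull (t ∩ t') ⊆ {x | 0 ≤ detR b c x} := by
        apply hull_subset (convex_detR_nonneg b c)
        intro p hp
        rcases hbc p hp with rfl | rfl <;> simp
      have h3 : 0 ≤ detR b c x := h1 hxi
      rw [h2, hD] at h3
      push_cast at h3; linarith
  refine ⟨key a b ha hb hab hx, key b a hb ha hab.symm ?_⟩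
  rw [openSegment_symm]; exact hx

/-- two edges of a triangulation with a common inner point are equal -/
theorem IsTriangulation.edge_unique (hT : IsTriangulation m n T) {a b a' b' : Pt}
    (h : Ed T a b) (h' : Ed T a' b') {x : ℝ × ℝ} (hx : x ∈ openSegment ℝ (emb a) (emb b))
    (hx' : x ∈ openSegment ℝ (emb a') (emb b')) : (a' = a ∧ b' = b) ∨ (a' = b ∧ b' = a) := by
  obtain ⟨hab, t, ht, ha, hb⟩ := h
  obtain ⟨hab', t', ht', ha', hb'⟩ := h'
  have hxt : x ∈ hull t := by
    have : hull {a, b} ⊆ hull t := hull_mono (by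
      intro z hz
      simp only [Finset.mem_insert, Finset.mem_singleton] at hz
      rcases hz with rfl | rfl <;> assumption)
    apply this
    rw [hull_pair]; exact openSegment_subset_segment ℝ _ _ hx
  obtain ⟨h1, h2⟩ := hT.side_mem ht' ht ha' hb' hab' hx' hxt
  obtain ⟨c, hc, hD⟩ := (hT.uni ht).third ha hb hab
  -- `x` has `detR a b x = 0` so `c` is not one of `a', b'`
  have hz : detR a b x = 0 := by
    obtain ⟨s1, s2, hs1, hs2, hs12, hxs⟩ := hx
    rw [← hxs, detR_comb a b _ _ hs12]; simp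
  have hDR : ((det3 a b c : ℤ) : ℝ) ≠ 0 := by
    rcases hD with hD | hD <;> rw [hD] <;> norm_num
  rw [hc] at h1 h2
  simp only [Finset.mem_insert, Finset.mem_singleton] at h1 h2
  obtain ⟨s1, s2, hs1, hs2, hs12, hxs⟩ := hx'
  have hz2 : s1 * detR a b (emb a') + s2 * detR a b (emb b') = 0 := by
    rw [← hz, ← hxs, detR_comb a b _ _ hs12]
  rcases h1 with rfl | rfl | rfl <;> rcases h2 with rfl | rfl | rfl
  · exact absurd rfl hab'
  · exact Or.inl ⟨rfl, rfl⟩
  · rw [detR_left, detR_emb, mul_zero, zero_add] at hz2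
    exact absurd hz2 (mul_ne_zero hs2.ne' hDR)
  · exact Or.inr ⟨rfl, rfl⟩
  · exact absurd rfl hab'
  · rw [detR_right, detR_emb, mul_zero, zero_add] at hz2
    exact absurd hz2 (mul_ne_zero hs2.ne' hDR)
  · rw [detR_left, detR_emb, mul_zero, add_zero] at hz2
    exact absurd hz2 (mul_ne_zero hs1.ne' hDR)
  · rw [detR_right, detR_emb, mul_zero, add_zero] at hz2
    exact absurd hz2 (mul_ne_zero hs1.ne' hDR)
  · exact absurd rfl hab'

lemma detR_mid_left (a b c : Pt) : detR b c (mid a b) = (det3 a b c : ℤ) / 2 := by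
  rw [mid, detR_comb b c _ _ (by norm_num), detR_emb, detR_emb, det3_rot]; simp; ring

lemma detR_mid_right (a b c : Pt) : detR c a (mid a b) = (det3 a b c : ℤ) / 2 := by
  rw [mid, detR_comb c a _ _ (by norm_num), detR_emb, detR_emb, det3_rot' a b c]; simp; ring

lemma detR_mid (a b : Pt) : detR a b (mid a b) = 0 := by
  rw [mid, detR_comb a b _ _ (by norm_num)]; simp

/-- the left normal of `a b` -/
def nrm (a b : Pt) : ℝ × ℝ := (-((b.2 : ℝ) - a.2), (b.1 : ℝ) - a.1)

lemma detR_nrm {a b : Pt} (hab : a ≠ b) (x : ℝ × ℝ) {ε : ℝ} (hε : 0 < ε) :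
    detR a b x < detR a b (x + ε • nrm a b) := by
  rw [detR_add_smul]
  have h4 : 0 < ((b.1 : ℝ) - a.1) * ((b.1 : ℝ) - a.1) + ((b.2 : ℝ) - a.2) * ((b.2 : ℝ) - a.2) := by
    rcases eq_or_ne a.1 b.1 with h5 | h5
    · have h6 : a.2 ≠ b.2 := fun h6 => hab (Prod.ext h5 h6)
      have h7 : (b.2 : ℝ) - a.2 ≠ 0 := by
        intro h8; apply h6
        have : (b.2 : ℝ) = a.2 := by linarith
        exact_mod_cast this.symm
      have := mul_self_nonneg ((b.1 : ℝ) - a.1)
      have := mul_self_pos.mpr h7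
      linarith
    · have h7 : (b.1 : ℝ) - a.1 ≠ 0 := by
        intro h8; apply h5
        have : (b.1 : ℝ) = a.1 := by linarith
        exact_mod_cast this.symm
      have := mul_self_nonneg ((b.2 : ℝ) - a.2)
      have := mul_self_pos.mpr h7
      linarith
  simp only [nrm]
  have := mul_pos hε h4
  nlinarith

/-- the triangle on the left of an interior edge exists -/
theorem IsTriangulation.exists_left (hT : IsTriangulation m n T) {a b : Pt} (h : Ed T a b)
    (hint : mid a b ∈ interior (rect m n)) : ∃ c, Tr T a b c := by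
  classical
  obtain ⟨hab, t, ht, ha, hb⟩ := h
  set C : Set (ℝ × ℝ) := ⋃ s ∈ T.filter (fun s => mid a b ∉ hull s), hull s with hC
  have hCc : IsClosed C := (Finset.finite_toSet _).isClosed_biUnion (fun s _ => isClosed_hull s)
  have hxC : mid a b ∉ C := by
    rw [hC, Set.mem_iUnion₂]
    rintro ⟨s, hs, hxs⟩
    exact (Finset.mem_filter.mp hs).2 hxs
  have hO : mid a b ∈ interior (interior (rect m n) \ C) := by
    rw [(isOpen_interior.sdiff hCc).interior_eq]
    exact ⟨hint, hxC⟩
  obtain ⟨ε, hε, hy⟩ := exists_eps hO (nrm a b)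
  set y := mid a b + ε • nrm a b with hydef
  have hy' := interior_subset hy
  obtain ⟨s, hs, hys⟩ := hT.exists_mem (interior_subset hy'.1)
  have hxs : mid a b ∈ hull s := by
    by_contra hcon
    exact hy'.2 (Set.mem_iUnion₂.mpr ⟨s, Finset.mem_filter.mpr ⟨hs, hcon⟩, hys⟩)
  obtain ⟨has, hbs⟩ := hT.side_mem ht hs ha hb hab (mid_mem_openSegment a b) hxs
  obtain ⟨c, hc, hD⟩ := (hT.uni hs).third has hbs hab
  refine ⟨c, by rw [← hc]; exact hs, ?_⟩
  rcases hD with hD | hD
  · exact hD
  · exfalso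
    have h1 : hull s ⊆ {x | detR a b x ≤ 0} := by
      apply hull_subset (convex_detR_nonpos a b)
      intro p hp
      rw [hc] at hp
      simp only [Finset.mem_insert, Finset.mem_singleton] at hp
      rcases hp with rfl | rfl | rfl
      · simp
      · simp
      · show detR _ _ _ ≤ 0; rw [detR_emb, hD]; norm_num
    have h2 : detR a b y ≤ 0 := h1 hys
    have h3 := detR_nrm hab (mid a b) hε
    rw [detR_mid, ← hydef] at h3
    linarith

/-- the left apex is unique -/
theorem IsTriangulation.left_unique (hT : IsTriangulation m n T) {a b c c' : Pt} (h : Tr T a b c)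
    (h' : Tr T a b c') : c = c' := by
  obtain ⟨ht, hD⟩ := h
  obtain ⟨ht', hD'⟩ := h'
  by_cases heq : ({a, b, c} : Finset Pt) = {a, b, c'}
  · have hc : c ∈ ({a, b, c'} : Finset Pt) := by rw [← heq]; simp
    simp only [Finset.mem_insert, Finset.mem_singleton] at hc
    rcases hc with rfl | rfl | h
    · simp at hD
    · simp at hD
    · exact h
  · exfalso
    have hd := hT.disj ht ht' heq
    obtain ⟨hab, _, _⟩ := det3_ne (a := a) (b := b) (c := c) (by omega)
    rw [interior_hull (by omega), interior_hull (by omega), Set.disjoint_left] at hd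
    set S : Set (ℝ × ℝ) := {x | (0 < detR b c x ∧ 0 < detR c a x) ∧ (0 < detR b c' x ∧ 0 < detR c' a x)}
      with hS
    have hSo : IsOpen S := by
      apply IsOpen.inter
      · exact (isOpen_lt continuous_const (continuous_detR _ _)).inter
          (isOpen_lt continuous_const (continuous_detR _ _))
      · exact (isOpen_lt continuous_const (continuous_detR _ _)).inter
          (isOpen_lt continuous_const (continuous_detR _ _))
    have hm : mid a b ∈ interior S := by
      rw [hSo.interior_eq, hS]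
      refine ⟨⟨?_, ?_⟩, ?_, ?_⟩
      · rw [detR_mid_left, hD]; norm_num
      · rw [detR_mid_right, hD]; norm_num
      · rw [detR_mid_left, hD']; norm_num
      · rw [detR_mid_right, hD']; norm_num
    obtain ⟨ε, hε, hy⟩ := exists_eps hm (nrm a b)
    have hy' := interior_subset hy
    have h3 := detR_nrm hab (mid a b) hε
    rw [detR_mid] at h3
    exact hd ⟨h3, hy'.1.1, hy'.1.2⟩ ⟨h3, hy'.2.1, hy'.2.2⟩

lemma Ed.symm {a b : Pt} (h : Ed T a b) : Ed T b a := by
  obtain ⟨h1, t, ht, ha, hb⟩ := h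
  exact ⟨h1.symm, t, ht, hb, ha⟩

lemma mid_comm (a b : Pt) : mid a b = mid b a := by
  unfold mid; rw [add_comm]

/-- the triangle on the right of an interior edge exists -/
theorem IsTriangulation.exists_right (hT : IsTriangulation m n T) {a b : Pt} (h : Ed T a b)
    (hint : mid a b ∈ interior (rect m n)) : ∃ c, Tr T b a c :=
  hT.exists_left h.symm (by rw [mid_comm]; exact hint)

lemma IsTriangulation.ed_mem (hT : IsTriangulation m n T) {a b : Pt} (h : Ed T a b) :
    a ∈ grid m n ∧ b ∈ grid m n := by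
  obtain ⟨_, t, ht, ha, hb⟩ := h
  exact ⟨hT.sub ht ha, hT.sub ht hb⟩

/-- a triangle containing the edge is `{a, b, c}` with `c` the left or the right apex -/
theorem IsTriangulation.tri_of_edge (hT : IsTriangulation m n T) {a b : Pt} {t : Finset Pt}
    (ht : t ∈ T) (ha : a ∈ t) (hb : b ∈ t) (hab : a ≠ b) :
    ∃ c, t = {a, b, c} ∧ (Tr T a b c ∨ Tr T b a c) := by
  obtain ⟨c, hc, hD⟩ := (hT.uni ht).third ha hb hab
  refine ⟨c, hc, ?_⟩
  rcases hD with hD | hD
  · exact Or.inl ⟨by rw [← hc]; exact ht, hD⟩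
  · right
    refine ⟨?_, by rw [det3_swap]; omega⟩
    rw [perm3, ← hc]; exact ht

lemma Tr.ed {a b c : Pt} (h : Tr T a b c) : Ed T a b := by
  obtain ⟨ht, hD⟩ := h
  exact ⟨(det3_ne (a := a) (b := b) (c := c) (by omega)).1, _, ht, by simp, by simp⟩

lemma Tr.rot {a b c : Pt} (h : Tr T a b c) : Tr T b c a := by
  obtain ⟨ht, hD⟩ := h
  exact ⟨by rw [perm1]; exact ht, by rw [det3_rot]; exact hD⟩

/-- every half-integral non-lattice point of the rectangle is the midpoint of an edge -/
theorem IsTriangulation.exists_edge_mid (hT : IsTriangulation m n T) {p : Pt}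
    (hp : ((p.1 : ℝ) / 2, (p.2 : ℝ) / 2) ∈ rect m n) (hodd : ¬ (2 ∣ p.1 ∧ 2 ∣ p.2)) :
    ∃ a b, Ed T a b ∧ a + b = p := by
  obtain ⟨t, ht, hx⟩ := hT.exists_mem hp
  obtain ⟨a, b, c, rfl, hD⟩ := (hT.uni ht).orient
  set x : ℝ × ℝ := ((p.1 : ℝ) / 2, (p.2 : ℝ) / 2) with hxdef
  obtain ⟨h1, h2, h3⟩ := (mem_hull_iff (by omega) x).mp hx
  -- integrality of the doubled coordinates
  have hint : ∀ a b : Pt, detR a b x = (((b.1 - a.1) * (p.2 - 2 * a.2) - (b.2 - a.2) * (p.1 - 2 * a.1) : ℤ) : ℝ) / 2 := by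
    intro a b
    simp only [detR, hxdef]; push_cast; ring
  set A := (c.1 - b.1) * (p.2 - 2 * b.2) - (c.2 - b.2) * (p.1 - 2 * b.1) with hA
  set B := (a.1 - c.1) * (p.2 - 2 * c.2) - (a.2 - c.2) * (p.1 - 2 * c.1) with hB
  set C := (b.1 - a.1) * (p.2 - 2 * a.2) - (b.2 - a.2) * (p.1 - 2 * a.1) with hC
  have eA : detR b c x = (A : ℝ) / 2 := hint b c
  have eB : detR c a x = (B : ℝ) / 2 := hint c a
  have eC : detR a b x = (C : ℝ) / 2 := hint a b
  have hA0 : 0 ≤ A := by rw [eA] at h2; have : (0:ℝ) ≤ A := by linarith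
                         exact_mod_cast this
  have hB0 : 0 ≤ B := by rw [eB] at h3; have : (0:ℝ) ≤ B := by linarith
                         exact_mod_cast this
  have hC0 : 0 ≤ C := by rw [eC] at h1; have : (0:ℝ) ≤ C := by linarith
                         exact_mod_cast this
  have hsum : A + B + C = 2 := by
    have h := hD
    simp only [det3] at h
    rw [hA, hB, hC]
    linear_combination 2 * h
  have hbar : ((1 : ℤ) : ℝ) • x = detR b c x • emb a + detR c a x • emb b + detR a b x • emb c := by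
    rw [← hD]; exact bary a b c x
  rw [Int.cast_one, one_smul, eA, eB, eC] at hbar
  have hp1 : (p.1 : ℝ) = A * a.1 + B * b.1 + C * c.1 := by
    have := congrArg Prod.fst hbar
    simp only [hxdef, emb, Prod.fst_add, Prod.smul_fst, smul_eq_mul] at this
    linarith
  have hp2 : (p.2 : ℝ) = A * a.2 + B * b.2 + C * c.2 := by
    have := congrArg Prod.snd hbar
    simp only [hxdef, emb, Prod.snd_add, Prod.smul_snd, smul_eq_mul] at this
    linarith
  have hp1' : p.1 = A * a.1 + B * b.1 + C * c.1 := by exact_mod_cast hp1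
  have hp2' : p.2 = A * a.2 + B * b.2 + C * c.2 := by exact_mod_cast hp2
  obtain ⟨hab, hbc, hca⟩ := det3_ne (a := a) (b := b) (c := c) (by omega)
  have cases6 : (A = 2 ∧ B = 0 ∧ C = 0) ∨ (A = 0 ∧ B = 2 ∧ C = 0) ∨ (A = 0 ∧ B = 0 ∧ C = 2) ∨
      (A = 1 ∧ B = 1 ∧ C = 0) ∨ (A = 0 ∧ B = 1 ∧ C = 1) ∨ (A = 1 ∧ B = 0 ∧ C = 1) := by omega
  rcases cases6 with ⟨f1, f2, f3⟩ | ⟨f1, f2, f3⟩ | ⟨f1, f2, f3⟩ | ⟨f1, f2, f3⟩ | ⟨f1, f2, f3⟩ |
    ⟨f1, f2, f3⟩
  · exfalso; apply hodd; rw [hp1', hp2', f1, f2, f3]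
    exact ⟨⟨a.1, by ring⟩, ⟨a.2, by ring⟩⟩
  · exfalso; apply hodd; rw [hp1', hp2', f1, f2, f3]
    exact ⟨⟨b.1, by ring⟩, ⟨b.2, by ring⟩⟩
  · exfalso; apply hodd; rw [hp1', hp2', f1, f2, f3]
    exact ⟨⟨c.1, by ring⟩, ⟨c.2, by ring⟩⟩
  · refine ⟨a, b, ⟨hab, _, ht, by simp, by simp⟩, ?_⟩
    ext
    · rw [hp1', f1, f2, f3]; simp
    · rw [hp2', f1, f2, f3]; simp
  · refine ⟨b, c, ⟨hbc, _, ht, by simp, by simp⟩, ?_⟩
    ext
    · rw [hp1', f1, f2, f3]; simp
    · rw [hp2', f1, f2, f3]; simp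
  · refine ⟨a, c, ⟨hca.symm, _, ht, by simp, by simp⟩, ?_⟩
    ext
    · rw [hp1', f1, f2, f3]; simp
    · rw [hp2', f1, f2, f3]; simp

/-- an edge is determined by its midpoint -/
theorem IsTriangulation.edge_of_mid (hT : IsTriangulation m n T) {a b a' b' : Pt}
    (h : Ed T a b) (h' : Ed T a' b') (hs : a + b = a' + b') :
    (a' = a ∧ b' = b) ∨ (a' = b ∧ b' = a) := by
  apply hT.edge_unique h h' (mid_mem_openSegment a b)
  have : mid a b = mid a' b' := by
    have h1 := congrArg Prod.fst hs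
    have h2 := congrArg Prod.snd hs
    simp only [Prod.fst_add, Prod.snd_add] at h1 h2
    have h1' : (a.1 : ℝ) + b.1 = a'.1 + b'.1 := by exact_mod_cast h1
    have h2' : (a.2 : ℝ) + b.2 = a'.2 + b'.2 := by exact_mod_cast h2
    ext
    · simp only [mid, emb, Prod.fst_add, Prod.smul_fst, smul_eq_mul]; linarith
    · simp only [mid, emb, Prod.snd_add, Prod.smul_snd, smul_eq_mul]; linarith
  rw [this]
  exact mid_mem_openSegment a' b'

/-- regular triangulations: strict local (indeed global) convexity of the heights -/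
theorem IsRegular.strict (hT : IsRegular m n T) : ∃ h : Pt → ℝ, ∀ t ∈ T,
    ∃ A : (ℝ × ℝ) →ᵃ[ℝ] ℝ, (∀ p ∈ t, A (emb p) = h p) ∧ ∀ p ∈ grid m n, p ∉ t → A (emb p) < h p := by
  obtain ⟨hT, h, hconv, hmax⟩ := hT
  refine ⟨fun p => h (emb p), fun t ht => ?_⟩
  have hm : Maximal (IsLinDomain h (rect m n)) (hull t) := by
    have : hull t ∈ {S | Maximal (IsLinDomain h (rect m n)) S} := by rw [hmax]; exact ⟨t, ht, rfl⟩
    exact this
  obtain ⟨hsub, _, hint, A, hA⟩ := hm.prop
  refine ⟨A, fun p hp => (hA (emb_mem_hull hp)).symm, ?_⟩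
  -- `A ≤ h` on the rectangle
  have hle : ∀ x ∈ rect m n, A x ≤ h x := by
    intro x hx
    -- an interior point of the triangle
    obtain ⟨a, b, c, rfl, hD⟩ := (hT.uni ht).orient
    obtain ⟨z, hz⟩ := openT_nonempty (a := a) (b := b) (c := c) (by omega)
    rw [← interior_hull (by omega)] at hz
    obtain ⟨ε, hε, hy⟩ := exists_eps hz (z - x)
    have hzt := interior_subset hz
    have hyt := interior_subset hy
    -- `z` is a convex combination of `x` and `y = z + ε (z - x)`
    set y := z + ε • (z - x) with hydef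
    have hcomb : (ε / (1 + ε)) • x + (1 / (1 + ε)) • y = z := by
      rw [hydef]
      have : (1 + ε) ≠ 0 := by positivity
      ext
      · simp only [Prod.fst_add, Prod.smul_fst, Prod.fst_sub, smul_eq_mul]; field_simp; ring
      · simp only [Prod.snd_add, Prod.smul_snd, Prod.snd_sub, smul_eq_mul]; field_simp; ring
    have hsum : ε / (1 + ε) + 1 / (1 + ε) = 1 := by
      have : (1 + ε) ≠ 0 := by positivity
      field_simp; ring
    have h1 := hconv.2 hx (hsub hyt) (by positivity : (0:ℝ) ≤ ε / (1 + ε))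
      (by positivity : (0:ℝ) ≤ 1 / (1 + ε)) hsum
    rw [hcomb] at h1
    have h2 : A z = (ε / (1 + ε)) * A x + (1 / (1 + ε)) * A y := by
      rw [← hcomb]
      have := Convex.combo_affine_apply (f := A) (x := x) (y := y) hsum
      rw [this]; simp
    rw [hA hzt, h2] at h1
    rw [hA hyt] at h1
    simp only [smul_eq_mul] at h1
    have h3 : 0 < ε / (1 + ε) := by positivity
    have h4 : (ε / (1 + ε)) * A x ≤ (ε / (1 + ε)) * h x := by linarith
    exact le_of_mul_le_mul_left h4 h3
  intro p hp hpt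
  have hpr : emb p ∈ rect m n := emb_mem_rect.mpr hp
  refine lt_of_le_of_ne (hle _ hpr) ?_
  intro heq
  have hsub2 : hull t ⊆ {x | x ∈ rect m n ∧ h x = A x} := fun x hx => ⟨hsub hx, hA hx⟩
  -- the domain `{h = A}` is a linearity domain
  have hdom : IsLinDomain h (rect m n) {x | x ∈ rect m n ∧ h x = A x} := by
    refine ⟨fun x hx => hx.1, ?_, hint.mono (interior_mono hsub2), A, fun x hx => hx.2⟩
    intro x hx y hy s r hs hr hsr
    refine ⟨(convex_rect m n) hx.1 hy.1 hs hr hsr, ?_⟩
    apply le_antisymm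
    · have h1 := hconv.2 hx.1 hy.1 hs hr hsr
      rw [hx.2, hy.2] at h1
      have := Convex.combo_affine_apply (f := A) (x := x) (y := y) hsr
      rw [this]; exact h1
    · exact hle _ ((convex_rect m n) hx.1 hy.1 hs hr hsr)
  have := hm.le_of_ge hdom hsub2
  have hmem : emb p ∈ hull t := this ⟨hpr, heq.symm⟩
  exact hpt (hT.mem_of_emb_mem ht hmem)

end MP01b126
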