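import Pool.Agent.Lib.MP_01b126_co.Geo2

/-!
# MP_01b126_co: unimodular triangles with disjoint interiors meet face to face
-/

open MeasureTheory

namespace MP01b126

lemma closure_interior_hull {t : Finset Pt} (ht : IsUni t) :
    hull t ⊆ closure (interior (hull t)) := by
  obtain ⟨a, b, c, rfl, h⟩ := ht.orient
  have hne : (interior (hull {a, b, c})).Nonempty := by
    rw [interior_hull (by omega)]; exact openT_nonempty (by omega)
  rw [(convex_hull _).closure_interior_eq_closure_of_nonempty_interior hne]
  exact subset_closure

/-- a separating functional for two unimodular triangles with disjoint interiors -/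
lemma exists_sep {t t' : Finset Pt} (ht : IsUni t) (ht' : IsUni t')
    (hd : Disjoint (interior (hull t)) (interior (hull t'))) :
    ∃ g : ℝ × ℝ →L[ℝ] ℝ, ∃ u : ℝ, g ≠ 0 ∧ (∀ x ∈ hull t, g x ≤ u) ∧ ∀ x ∈ hull t', u ≤ g x := by
  obtain ⟨g, u, h1, h2⟩ := geometric_hahn_banach_open_open (convex_hull t).interior isOpen_interior
    (convex_hull t').interior isOpen_interior hd
  refine ⟨g, u, ?_, ?_, ?_⟩
  · rintro rfl
    obtain ⟨a, b, c, rfl, h⟩ := ht.orient
    obtain ⟨a', b', c', rfl, h'⟩ := ht'.orient
    obtain ⟨x, hx⟩ := openT_nonempty (a := a) (b := b) (c := c) (by omega)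
    obtain ⟨y, hy⟩ := openT_nonempty (a := a') (b := b') (c := c') (by omega)
    rw [← interior_hull (by omega)] at hx hy
    have := h1 x hx
    have := h2 y hy
    simp at *
    linarith
  · intro x hx
    have hcl : closure (interior (hull t)) ⊆ {x | g x ≤ u} :=
      closure_minimal (fun y hy => (h1 y hy).le) (isClosed_le g.continuous continuous_const)
    exact hcl (closure_interior_hull ht hx)
  · intro x hx
    have hcl : closure (interior (hull t')) ⊆ {x | u ≤ g x} :=
      closure_minimal (fun y hy => (h2 y hy).le) (isClosed_le continuous_const g.continuous)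
    exact hcl (closure_interior_hull ht' hx)

/-- two primitive segments on a line meeting in a common inner point are equal -/
lemma seg_eq {p q r p' q' r' : Pt} (h : det3 p q r = 1) (h' : det3 p' q' r' = 1)
    {g : ℝ × ℝ →L[ℝ] ℝ} {u : ℝ} (hg : g ≠ 0) (gp : g (emb p) = u) (gq : g (emb q) = u)
    (gp' : g (emb p') = u) (gq' : g (emb q') = u) {x : ℝ × ℝ}
    (hx : x ∈ openSegment ℝ (emb p) (emb q)) (hx' : x ∈ openSegment ℝ (emb p') (emb q')) :
    ({p, q} : Finset Pt) = {p', q'} := by
  -- `g` is proportional to `detR p q`
  have hgr : g (emb r) ≠ u := by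
    intro gr
    apply hg
    refine ContinuousLinearMap.ext fun z => ?_
    have hz' : z = (((r.2 : ℝ) - p.2) * z.1 - ((r.1 : ℝ) - p.1) * z.2) • (emb q - emb p) +
      ((((q.1 : ℝ) - p.1) * z.2 - ((q.2 : ℝ) - p.2) * z.1)) • (emb r - emb p) := by
      have hR : ((q.1 : ℝ) - p.1) * ((r.2 : ℝ) - p.2) - ((q.2 : ℝ) - p.2) * ((r.1 : ℝ) - p.1) = 1 := by
        have : ((det3 p q r : ℤ) : ℝ) = 1 := by rw [h]; simp
        simp only [det3] at this; push_cast at this; exact this
      ext
      · simp only [emb, Prod.fst_add, Prod.smul_fst, Prod.fst_sub, smul_eq_mul]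
        linear_combination (-z.1) * hR
      · simp only [emb, Prod.snd_add, Prod.smul_snd, Prod.snd_sub, smul_eq_mul]
        linear_combination (-z.2) * hR
    rw [hz']
    simp [gp, gq, gr]
  -- lattice points on the line
  have key : ∀ s : Pt, g (emb s) = u → det3 p q s = 0 := by
    intro s hs
    have hb := bary p q r (emb s)
    rw [h] at hb
    simp only [detR_emb, Int.cast_one, one_smul] at hb
    have h5 := congrArg g hb
    simp only [map_add, map_smul, smul_eq_mul, gp, gq, hs] at h5
    have hsum := det3_sum p q r s
    rw [h] at hsum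
    have hsumR : ((det3 p q s : ℤ) : ℝ) + (det3 q r s : ℤ) + (det3 r p s : ℤ) = 1 := by
      exact_mod_cast hsum
    have : ((det3 p q s : ℤ) : ℝ) * (g (emb r) - u) = 0 := by
      have e : (det3 q r s : ℝ) = 1 - (det3 p q s : ℤ) - (det3 r p s : ℤ) := by linarith
      rw [e] at h5
      linear_combination (-1) * h5
    rcases mul_eq_zero.mp this with h6 | h6
    · exact_mod_cast h6
    · exact absurd (sub_eq_zero.mp h6) hgr
  -- `p' = p + k (q - p)`, `q' = p + l (q - p)`
  have param : ∀ s : Pt, g (emb s) = u → s = (p.1 + det3 r p s * (q.1 - p.1), p.2 + det3 r p s * (q.2 - p.2)) := by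
    intro s hs
    have h0 := key s hs
    simp only [det3] at h h0
    ext
    · simp only [det3]
      linear_combination (-(s.1 - p.1)) * h + (r.1 - p.1) * h0
    · simp only [det3]
      linear_combination (-(s.2 - p.2)) * h + (r.2 - p.2) * h0
  have hp' := param p' gp'
  have hq' := param q' gq'
  set k := det3 r p p' with hk
  set l := det3 r p q' with hl
  have hprim : (l - k) * ((q.1 - p.1) * (r'.2 - p'.2) - (q.2 - p.2) * (r'.1 - p'.1)) = 1 := by
    have e1 : q'.1 - p'.1 = (l - k) * (q.1 - p.1) := by rw [hp', hq']; ring
    have e2 : q'.2 - p'.2 = (l - k) * (q.2 - p.2) := by rw [hp', hq']; ring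
    have := h'
    simp only [det3] at this
    rw [e1, e2] at this
    linear_combination this
  have hlk : l - k = 1 ∨ l - k = -1 := Int.isUnit_iff.mp (IsUnit.of_mul_eq_one _ hprim)
  -- the parameter of `x`
  obtain ⟨s1, s2, hs1, hs2, hs12, hxs⟩ := hx
  obtain ⟨t1, t2, ht1, ht2, ht12, hxt⟩ := hx'
  have hR : ((q.1 : ℝ) - p.1) * ((r.2 : ℝ) - p.2) - ((q.2 : ℝ) - p.2) * ((r.1 : ℝ) - p.1) = 1 := by
    have : ((det3 p q r : ℤ) : ℝ) = 1 := by rw [h]; simp
    simp only [det3] at this; push_cast at this; exact this
  have ex : detR r p x = s2 := by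
    rw [← hxs, detR_comb r p _ _ hs12, detR_emb, detR_emb]
    have : det3 r p q = 1 := by rw [det3_rot']; exact h
    rw [this]; simp
  have ey : detR r p x = t1 * k + t2 * l := by
    rw [← hxt, detR_comb r p _ _ ht12, detR_emb, detR_emb]
  rw [ex] at ey
  rcases hlk with h1 | h1
  · have hlR : (l : ℝ) = k + 1 := by have : l = k + 1 := by omega
                                     rw [this]; push_cast; ring
    rw [hlR] at ey
    have e3 : s2 = k + t2 := by rw [ey]; linear_combination (k : ℝ) * ht12
    have k0 : k = 0 := by
      have a1 : (k : ℝ) < 1 := by linarith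
      have a2 : (-1 : ℝ) < k := by linarith
      have a1' : k < 1 := by exact_mod_cast a1
      have a2' : -1 < k := by exact_mod_cast a2
      omega
    have l1 : l = 1 := by omega
    rw [k0] at hp'
    rw [l1] at hq'
    have e1 : p' = p := by rw [hp']; ext <;> simp
    have e2 : q' = q := by rw [hq']; ext <;> simp
    rw [e1, e2]
  · have hlR : (l : ℝ) = k - 1 := by have : l = k - 1 := by omega
                                     rw [this]; push_cast; ring
    rw [hlR] at ey
    have e3 : s2 = k - t2 := by rw [ey]; linear_combination (k : ℝ) * ht12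
    have k0 : k = 1 := by
      have a1 : (k : ℝ) < 2 := by linarith
      have a2 : (0 : ℝ) < k := by linarith
      have a1' : k < 2 := by exact_mod_cast a1
      have a2' : 0 < k := by exact_mod_cast a2
      omega
    have l1 : l = 0 := by omega
    rw [k0] at hp'
    rw [l1] at hq'
    have e1 : p' = q := by rw [hp']; ext <;> simp
    have e2 : q' = p := by rw [hq']; ext <;> simp
    rw [e1, e2, Finset.pair_comm]

/-- two unimodular triangles with disjoint interiors meet face to face -/
theorem face_to_face {t t' : Finset Pt} (ht : IsUni t) (ht' : IsUni t')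
    (hd : Disjoint (interior (hull t)) (interior (hull t'))) :
    hull t ∩ hull t' = hull (t ∩ t') := by
  apply Set.Subset.antisymm
  · rintro x ⟨hx, hx'⟩
    obtain ⟨g, u, hg, h1, h2⟩ := exists_sep ht ht' hd
    have hxu : g x = u := le_antisymm (h1 x hx) (h2 x hx')
    obtain ⟨a, b, c, hta, hD⟩ := ht.orient
    obtain ⟨a', b', c', hta', hD'⟩ := ht'.orient
    have f1 := face_of_max (a := a) (b := b) (c := c) (by omega) hg
      (h1 _ (emb_mem_hull (by rw [hta]; simp))) (h1 _ (emb_mem_hull (by rw [hta]; simp)))
      (h1 _ (emb_mem_hull (by rw [hta]; simp))) (x := x) (by rw [← hta]; exact hx) hxu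
    have hg' : -g ≠ 0 := by simpa using hg
    have f2 := face_of_max (a := a') (b := b') (c := c') (u := -u) (by omega) hg'
      (by have := (h2 _ (emb_mem_hull (p := a') (by rw [hta']; simp))); simpa using this)
      (by have := (h2 _ (emb_mem_hull (p := b') (by rw [hta']; simp))); simpa using this)
      (by have := (h2 _ (emb_mem_hull (p := c') (by rw [hta']; simp))); simpa using this)
      (x := x) (by rw [← hta']; exact hx') (by simpa using hxu)
    rw [← hta] at f1
    rw [← hta'] at f2
    rcases f1 with ⟨p, hp, rfl⟩ | ⟨p, hp, q, hq, r, hr, hpqr, gp, gq, hxs⟩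
    · exact emb_mem_hull (Finset.mem_inter.mpr ⟨hp, ht'.mem_of_emb_mem hx'⟩)
    · rcases f2 with ⟨p', hp', rfl⟩ | ⟨p', hp', q', hq', r', hr', hpqr', gp', gq', hxs'⟩
      · exact emb_mem_hull (Finset.mem_inter.mpr ⟨ht.mem_of_emb_mem hx, hp'⟩)
      · have hpr : det3 p q r = 1 := by
          rw [hta] at hp hq hr
          simp only [Finset.mem_insert, Finset.mem_singleton] at hp hq hr
          have e1 := det3_rot a b c
          have e2 := det3_rot' a b c
          have e3 := det3_swap a b c
          have e4 := det3_swap b c a
          have e5 := det3_swap c a b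
          rcases hp with rfl | rfl | rfl <;> rcases hq with rfl | rfl | rfl <;>
            rcases hr with rfl | rfl | rfl <;>
            first
            | omega
            | (simp only [det3_left, det3_right, det3_same] at hpqr; omega)
        have hpr' : det3 p' q' r' = 1 := by
          rw [hta'] at hp' hq' hr'
          simp only [Finset.mem_insert, Finset.mem_singleton] at hp' hq' hr'
          have e1 := det3_rot a' b' c'
          have e2 := det3_rot' a' b' c'
          have e3 := det3_swap a' b' c'
          have e4 := det3_swap b' c' a'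
          have e5 := det3_swap c' a' b'
          rcases hp' with rfl | rfl | rfl <;> rcases hq' with rfl | rfl | rfl <;>
            rcases hr' with rfl | rfl | rfl <;>
            first
            | omega
            | (simp only [det3_left, det3_right, det3_same] at hpqr'; omega)
        have gp'' : g (emb p') = u := by simpa using gp'
        have gq'' : g (emb q') = u := by simpa using gq'
        have heq := seg_eq hpr hpr' hg gp gq gp'' gq'' hxs hxs'
        have hsub : ({p, q} : Finset Pt) ⊆ t ∩ t' := by
          intro z hz
          rw [Finset.mem_inter]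
          refine ⟨?_, ?_⟩
          · simp only [Finset.mem_insert, Finset.mem_singleton] at hz
            rcases hz with rfl | rfl <;> assumption
          · rw [heq] at hz
            simp only [Finset.mem_insert, Finset.mem_singleton] at hz
            rcases hz with rfl | rfl <;> assumption
        apply hull_mono hsub
        rw [hull_pair]
        exact openSegment_subset_segment ℝ _ _ hxs
  · exact Set.subset_inter (hull_mono Finset.inter_subset_left) (hull_mono Finset.inter_subset_right)

end MP01b126
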