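import Pool.Agent.Lib.MP_01b126_co.Apex

/-!
# MP_01b126_co: shared vocabulary in the edge encoding and the main interface statements

`IsTri m n E` (Basic.lean) is the edge encoding of a unimodular triangulation.
-/

namespace Pool.Agent.MP01b126

/-- the (finite) set of all unimodular triangulations, edge encoding -/
def TT (m n : ℕ) : Set (Pt → Pt → Prop) := {E | IsTri m n E}

/-- one move on directed edges: reverse the edge, next or previous edge of the face on its left -/
inductive Move (E : Pt → Pt → Prop) : Pt × Pt → Pt × Pt → Prop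
  | opp {a b : Pt} : E a b → Move E (a, b) (b, a)
  | next {a b c : Pt} : Tr E a b c → Move E (a, b) (b, c)
  | prev {a b c : Pt} : Tr E a b c → Move E (a, b) (c, a)

/-- `e'` is reached from `e` by at most `R` moves -/
def Reach (E : Pt → Pt → Prop) : ℕ → Pt × Pt → Pt × Pt → Prop
  | 0, e, e' => e = e'
  | R + 1, e, e' => Reach E R e e' ∨ ∃ e'', Reach E R e e'' ∧ Move E e'' e'

/-- the consequence of regularity that is used: heights for which every edge lies strictly below
every chord crossing it (both sides are multiplied by the same positive number) -/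
def Reg (m n : ℕ) (E : Pt → Pt → Prop) : Prop :=
  ∃ h : Pt → ℝ, ∀ a b c d, E a b → InR m n c → InR m n d → Cross a b c d →
    (|det (d - c) (b - c)| : ℝ) * h a + (|det (d - c) (a - c)| : ℝ) * h b <
      (|det (b - a) (d - a)| : ℝ) * h c + (|det (b - a) (c - a)| : ℝ) * h d

/-- the four segments of the certificate -/
def sg : Fin 4 → Pt × Pt :=
  ![((0, 0), (1, 2)), ((1, 1), (6, 3)), ((2, 2), (0, 3)), ((3, 2), (3, 3))]

/-- the affine map with frame `o, u, v` -/
def aff (o u v x : Pt) : Pt := o + x.1 • u + x.2 • v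

/-- a site of radius `R` at the vertex `p`: an affine unimodular image of the four segments inside
the rectangle such that every edge crossing one of them is reached from an edge at `p` by at most
`R` moves -/
def Site (m n : ℕ) (E : Pt → Pt → Prop) (R : ℕ) (p : Pt) : Prop :=
  ∃ q, E p q ∧ ∃ o u v : Pt, (det u v = 1 ∨ det u v = -1) ∧
    (∀ i, InR m n (aff o u v (sg i).1) ∧ InR m n (aff o u v (sg i).2)) ∧
    ∀ i x y, E x y → Cross x y (aff o u v (sg i).1) (aff o u v (sg i).2) → Reach E R (p, q) (x, y)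

/-- degree of a vertex -/
noncomputable def deg (E : Pt → Pt → Prop) (v : Pt) : ℕ := {w | E v w}.ncard

/-- `v` lies on a straight path with `L` edges -/
def OnRun (E : Pt → Pt → Prop) (L : ℕ) (v : Pt) : Prop :=
  ∃ x d : Pt, (∀ i : ℕ, i < L → E (x + (i : ℤ) • d) (x + ((i : ℤ) + 1) • d)) ∧
    ∃ i : ℕ, i ≤ L ∧ v = x + (i : ℤ) • d

/-- `v` is an outer endpoint of a fan with `L + 1` edges in arithmetic progression -/
def OnFan (E : Pt → Pt → Prop) (L : ℕ) (v : Pt) : Prop :=
  ∃ p x d : Pt, (∀ i : ℕ, i ≤ L → E p (x + (i : ℤ) • d)) ∧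
    (det d (x - p) = 1 ∨ det d (x - p) = -1) ∧ ∃ i : ℕ, i ≤ L ∧ v = x + (i : ℤ) • d

/-- the vertices which do not get a predicted edge for free -/
def Tame (E : Pt → Pt → Prop) (D L : ℕ) (v : Pt) : Prop :=
  deg E v ≤ D ∧ ¬ OnRun E L v ∧ ¬ OnFan E L v

/-- `v` is the centre of a window of length `2 B` on the middle row of a strip of width two with
direction `d` whose two boundary rows are long straight runs; `u` is any transversal vector -/
structure Good (E : Pt → Pt → Prop) (B W : ℕ) (v d u : Pt) : Prop where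
  det : det d u = 1
  /-- neighbours of middle vertices lie in the three rows -/
  row : ∀ x : ℤ, |x| ≤ B → ∀ q, E (v + x • d) q →
    MP01b126.det d (q - v) = -1 ∨ MP01b126.det d (q - v) = 0 ∨ MP01b126.det d (q - v) = 1
  /-- middle vertices have complete stars -/
  star : ∀ x : ℤ, |x| ≤ B → ∀ q, E (v + x • d) q → ∃ c, Tr E (v + x • d) q c
  /-- edges of the strip do not continue beyond the walls -/
  stop : ∀ x : ℤ, |x| ≤ B → ∀ q, E (v + x • d) q → MP01b126.det d (q - v) ≠ 0 →
    ¬ E q (q + (q - (v + x • d)))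
  /-- neither do the flipped middle edges -/
  stop' : ∀ x : ℤ, |x| ≤ B → ∀ p q, E p q → p + q = v + v + (2 * x + 1) • d →
    MP01b126.det d (q - v) ≠ 0 → ¬ E q (q + (q - p))
  /-- the walls are long straight runs -/
  wall : ∀ x : ℤ, |x| ≤ B → ∀ q, E (v + x • d) q → MP01b126.det d (q - v) ≠ 0 →
    ∀ j : ℤ, |j| ≤ W → E (q + j • d) (q + (j + 1) • d)

/-- STRUCTURE (helper51, ultralimit; helper36 + helper5: classification of limits) -/
def StructureThm : Prop :=
  ∀ (D L B W : ℕ) (ε : ℝ), 0 < ε → ∃ R N : ℕ, ∀ m n : ℕ, N ≤ m → N ≤ n → ∀ E, IsTri m n E →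
    (({v | InR m n v ∧ Tame E D L v ∧ (¬ ∃ d u, Good E B W v d u) ∧ ¬ Site m n E R v} :
      Set Pt).ncard : ℝ) ≤ ε * m * n

/-- COUNTING -/
def CodingThm : Prop :=
  ∃ D L B W : ℕ, ∃ δ : ℝ, 0 < δ ∧ ∃ N : ℕ, ∀ m n : ℕ, N ≤ m → N ≤ n →
    (({E | IsTri m n E ∧
      (({v | InR m n v ∧ Tame E D L v ∧ ¬ ∃ d u, Good E B W v d u} : Set Pt).ncard : ℝ)
        ≤ δ * m * n} : Set (Pt → Pt → Prop)).ncard : ℝ) ≤ (4.17 : ℝ) ^ (m * n)

/-- SURGERY -/
def SurgeryThm : Prop :=
  ∀ R : ℕ, ∃ C : ℕ, ∀ m n : ℕ,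
    ({x | IsTri m n x.1 ∧ Reg m n x.1 ∧ Site m n x.1 R x.2} :
      Set ((Pt → Pt → Prop) × Pt)).ncard ≤ C * (TT m n).ncard

/-- LOWER BOUND -/
def LowerThm : Prop :=
  ∃ N : ℕ, ∀ m n : ℕ, N ≤ m → N ≤ n → (4.175 : ℝ) ^ (m * n) ≤ (TT m n).ncard

/-- the goal in the edge encoding -/
def GoalE : Prop :=
  ∃ N : ℕ, ∀ m n : ℕ, N ≤ m → N ≤ n →
    2 * ({E | IsTri m n E ∧ Reg m n E} : Set (Pt → Pt → Prop)).ncard < (TT m n).ncard

end Pool.Agent.MP01b126
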