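import Pool.Agent.Lib.MP_01b126_co.BridgeE2
import Pool.Agent.Lib.MP_01b126_co.Model

/-!
# MP_01b126_co: from the edge encoding to the faithful statement
-/

open Pool.Agent.MP01b126 (IsTri InR Cross det Reg GoalE TT)

namespace MP01b126

variable {m n : ℕ} {T : Finset (Finset Pt)}

theorem finite_isTriangulation (m n : ℕ) : {T : Finset (Finset Pt) | IsTriangulation m n T}.Finite := by
  apply Set.Finite.subset (((grid m n).powerset.powerset).finite_toSet)
  intro T hT
  rw [Finset.mem_coe, Finset.mem_powerset]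
  intro t ht
  rw [Finset.mem_powerset]
  exact IsTriangulation.sub hT ht

theorem finite_isTri (hm : 0 < m) (hn : 0 < n) : {E : Pt → Pt → Prop | IsTri m n E}.Finite := by
  have : {E : Pt → Pt → Prop | IsTri m n E} ⊆ Ed '' {T : Finset (Finset Pt) | IsTriangulation m n T} := by
    intro E hE
    exact ⟨faces m n E, isTriangulation_faces hE hm hn, ed_faces_eq hE hm hn⟩
  exact ((finite_isTriangulation m n).image _).subset this

theorem IsRegular.reg (hT : IsRegular m n T) : Reg m n (Ed T) := by
  obtain ⟨h, hh⟩ := hT.heights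
  refine ⟨h, fun a b c d hab hc hd hcr => ?_⟩
  have := hh a b c d hab hc hd hcr
  push_cast at this
  exact this

/-- number of regular triangulations -/
theorem freg_le (hm : 0 < m) (hn : 0 < n) :
    freg m n ≤ {E : Pt → Pt → Prop | IsTri m n E ∧ Reg m n E}.ncard := by
  unfold freg
  refine Set.ncard_le_ncard_of_injOn Ed ?_ ?_ ((finite_isTri hm hn).subset (fun E hE => hE.1))
  · intro T hT
    exact ⟨hT.1.isTri, hT.reg⟩
  · intro T hT T' hT' heq
    rw [← faces_ed hT.1 hm hn, ← faces_ed hT'.1 hm hn, heq]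

theorem mostNonregular_of_goalE (h : GoalE) : MostNonregular := by
  obtain ⟨N, hN⟩ := h
  refine ⟨max N 1, fun m n hm hn => ?_⟩
  have hm1 : 0 < m := le_trans (le_max_right _ _) hm
  have hn1 : 0 < n := le_trans (le_max_right _ _) hn
  have h1 := hN m n (le_trans (le_max_left _ _) hm) (le_trans (le_max_left _ _) hn)
  have h2 := freg_le hm1 hn1
  rw [f_eq hm1 hn1]
  have h3 : 2 * {E : Pt → Pt → Prop | IsTri m n E ∧ Reg m n E}.ncard <
      {E : Pt → Pt → Prop | IsTri m n E}.ncard := h1
  exact lt_of_le_of_lt (Nat.mul_le_mul_left 2 h2) h3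

end MP01b126
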