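import Pool.Agent.Lib.MP_01b126_co.Cone
import Pool.Agent.Lib.MP_01b126_co.Cert

/-!
# Flips in the edge encoding

`flip E a b c d` replaces the edge `ab` by the edge `cd` (`ab` and `cd` have the same midpoint).
-/

namespace Pool.Agent.MP01b126

/-- replace the edge `ab` by `cd` -/
def flip (E : Pt → Pt → Prop) (a b c d : Pt) : Pt → Pt → Prop :=
  fun x y => (E x y ∧ x + y ≠ a + b) ∨ (x = c ∧ y = d) ∨ (x = d ∧ y = c)

theorem flip_of_ne {E : Pt → Pt → Prop} {a b c d x y : Pt} (hs : c + d = a + b)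
    (h : x + y ≠ a + b) : flip E a b c d x y ↔ E x y := by
  unfold flip
  constructor
  · rintro (h1 | ⟨rfl, rfl⟩ | ⟨rfl, rfl⟩)
    · exact h1.1
    · exact absurd hs h
    · exact absurd (by rw [add_comm]; exact hs) h
  · intro h1; exact Or.inl ⟨h1, h⟩

theorem flip_of_eq {E : Pt → Pt → Prop} {a b c d x y : Pt}
    (h : x + y = a + b) : flip E a b c d x y ↔ (x = c ∧ y = d) ∨ (x = d ∧ y = c) := by
  unfold flip
  constructor
  · rintro (h1 | h1)
    · exact absurd h h1.2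
    · exact h1
  · intro h1; exact Or.inr h1

/-- integer core of the quadrilateral lemma: vertices `a = 0`, `c = (1,0)`, `d = (0,1)`; a segment
from `{x₁+x₂ ≤ 0}` to `{x₁+x₂ ≥ 2}` separating `c` and `d` passes through `a` or crosses `ac` or
`ad` -/
theorem quad_core {X1 X2 Y1 Y2 : ℤ} (hX : X1 + X2 ≤ 0) (hY : 2 ≤ Y1 + Y2)
    (hc : (X1 * Y2 - X2 * Y1) - (Y2 - X2) < 0) (hd : 0 < (X1 * Y2 - X2 * Y1) + (Y1 - X1))
    (h1 : 0 < X1 * Y2 - X2 * Y1 → ¬ (X2 < 0 ∧ 0 < Y2))
    (h2 : X1 * Y2 - X2 * Y1 < 0 → ¬ (X1 < 0 ∧ 0 < Y1)) : X1 * Y2 - X2 * Y1 = 0 := by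
  rcases lt_trichotomy (X1 * Y2 - X2 * Y1) 0 with h | h | h
  · exfalso
    refine h2 h ⟨?_, ?_⟩
    · by_contra hc1
      push Not at hc1
      have h3 : 0 < Y1 := by linarith
      nlinarith [mul_nonneg hc1 h3.le, mul_nonneg hc1 (by linarith : (0 : ℤ) ≤ Y1 + Y2)]
    · by_contra hc1
      push Not at hc1
      have h3 : X1 < 0 := by linarith
      nlinarith [mul_nonneg (neg_nonneg.2 h3.le) (neg_nonneg.2 hc1),
        mul_nonneg (neg_nonneg.2 hX) (neg_nonneg.2 hc1)]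
  · exact h
  · exfalso
    refine h1 h ⟨?_, ?_⟩
    · by_contra hc1
      push Not at hc1
      have h3 : 0 < Y2 := by linarith
      nlinarith [mul_nonneg hc1 h3.le, mul_nonneg hc1 (by linarith : (0 : ℤ) ≤ Y1 + Y2)]
    · by_contra hc1
      push Not at hc1
      have h3 : X2 < 0 := by linarith
      nlinarith [mul_nonneg (neg_nonneg.2 h3.le) (neg_nonneg.2 hc1),
        mul_nonneg (neg_nonneg.2 hX) (neg_nonneg.2 hc1)]

/-! ### affine invariance -/

private theorem aff_sub (o u v x y : Pt) :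
    aff o u v y - aff o u v x = (y.1 - x.1) • u + (y.2 - x.2) • v := by
  unfold aff; rw [sub_smul, sub_smul]; abel

private theorem det_comb (u v : Pt) (p q r s : ℤ) :
    det (p • u + q • v) (r • u + s • v) = det u v * (p * s - q * r) := by
  simp only [det, Prod.fst_add, Prod.snd_add, Prod.smul_fst, Prod.smul_snd, smul_eq_mul]; ring

private theorem aff_surj {o u v : Pt} (h : det u v = 1 ∨ det u v = -1) (x : Pt) :
    ∃ X, aff o u v X = x := by
  rcases h with h | h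
  · refine ⟨(det (x - o) v, det u (x - o)), ?_⟩
    have := expand h (x - o)
    unfold aff
    simp only
    rw [add_assoc, ← this]; abel
  · have h' : det v u = 1 := by rw [det_swap, h]; norm_num
    refine ⟨(det v (x - o), det (x - o) u), ?_⟩
    have := expand h' (x - o)
    unfold aff
    simp only
    rw [add_assoc, add_comm (det v (x - o) • u), ← this]; abel

private theorem prim_aff_iff {o u v : Pt} (h : det u v = 1 ∨ det u v = -1) (x y : Pt) :
    Prim (aff o u v y - aff o u v x) ↔ Prim (y - x) := by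
  rw [aff_sub]
  constructor
  · rintro ⟨p, q, hpq⟩
    refine ⟨p * u.1 + q * u.2, p * v.1 + q * v.2, ?_⟩
    simp only [Prod.fst_add, Prod.snd_add, Prod.smul_fst, Prod.smul_snd, smul_eq_mul] at hpq
    simp only [Prod.fst_sub, Prod.snd_sub]
    linear_combination hpq
  · intro hp
    obtain ⟨e, he⟩ := hp.exists_det
    have h1 : det ((y.1 - x.1) • u + (y.2 - x.2) • v) (e.1 • u + e.2 • v) = det u v := by
      rw [det_comb]
      simp only [det, Prod.fst_sub, Prod.snd_sub] at he ⊢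
      rw [he, mul_one]
    rcases h with h | h
    · exact prim_of_det (h1.trans h)
    · have := (prim_of_det (u := -((y.1 - x.1) • u + (y.2 - x.2) • v))
        (v := e.1 • u + e.2 • v) (by rw [det_neg_left, h1, h]; norm_num)).neg
      rwa [neg_neg] at this

/-! ### the quadrilateral lemma -/

theorem quad_int {X1 X2 Y1 Y2 : ℤ} (hp : IsCoprime (Y1 - X1) (Y2 - X2)) {D : ℤ}
    (hD : D = X1 * Y2 - X2 * Y1) (hX : X1 + X2 ≤ 0) (hY : 2 ≤ Y1 + Y2)
    (hA : (D + (Y1 - X1)) * (D - (Y2 - X2)) < 0)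
    (n1 : D * (D + (Y1 - X1)) < 0 → 0 ≤ X1 * Y1) (n2 : D * (D - (Y2 - X2)) < 0 → 0 ≤ X2 * Y2)
    (n3 : (D + (Y1 - X1) - (Y2 - X2)) * (D + (Y1 - X1)) < 0 → 0 ≤ (X2 - 1) * (Y2 - 1))
    (n4 : (D + (Y1 - X1) - (Y2 - X2)) * (D - (Y2 - X2)) < 0 → 0 ≤ (X1 - 1) * (Y1 - 1)) :
    (X1 = 0 ∧ X2 = 0) ∧ Y1 = 1 ∧ Y2 = 1 := by
  have hc : D - (Y2 - X2) < 0 := by
    by_contra hc
    push Not at hc
    have : 0 ≤ (D + (Y1 - X1)) * (D - (Y2 - X2)) := mul_nonneg (by linarith) hc
    linarith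
  have hd : 0 < D + (Y1 - X1) := by
    by_contra hc'
    push Not at hc'
    have : 0 ≤ (-(D + (Y1 - X1))) * (-(D - (Y2 - X2))) := mul_nonneg (by linarith) (by linarith)
    linarith
  have hDz : X1 * Y2 - X2 * Y1 = 0 := by
    rw [hD] at hc hd n1 n2
    refine quad_core hX hY hc hd ?_ ?_
    · rintro h1 ⟨h2, h3⟩
      have := n2 (mul_neg_of_pos_of_neg h1 hc)
      have := mul_pos (neg_pos.2 h2) h3
      linarith
    · rintro h1 ⟨h2, h3⟩
      have := n1 (mul_neg_of_neg_of_pos h1 hd)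
      have := mul_pos (neg_pos.2 h2) h3
      linarith
  have f1 : (1 - Y1) * (1 - X2) - (1 - Y2) * (1 - X1) = - (D + (Y1 - X1) - (Y2 - X2)) := by
    rw [hD]; ring
  have hEz : (1 - Y1) * (1 - X2) - (1 - Y2) * (1 - X1) = 0 := by
    refine quad_core (by linarith) (by linarith) ?_ ?_ ?_ ?_
    · rw [f1]; linarith
    · rw [f1]; linarith
    · rintro h1 ⟨h2, h3⟩
      rw [f1] at h1
      have := n3 (mul_neg_of_neg_of_pos (by linarith) hd)
      have := mul_pos (neg_pos.2 h2) h3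
      linarith
    · rintro h1 ⟨h2, h3⟩
      rw [f1] at h1
      have := n4 (mul_neg_of_pos_of_neg (by linarith) hc)
      have := mul_pos (neg_pos.2 h2) h3
      linarith
  -- primitivity
  have hp' : Prim ((Y1 - X1, Y2 - X2) : Pt) := hp
  have g1 : det ((Y1 - X1, Y2 - X2) : Pt) (-X1, -X2) = 0 := by
    simp only [det]; linarith
  obtain ⟨k, hk⟩ := hp'.eq_smul g1
  have k1 := congrArg Prod.fst hk
  have k2 := congrArg Prod.snd hk
  simp only [Prod.smul_fst, Prod.smul_snd, smul_eq_mul] at k1 k2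
  have ks : -(X1 + X2) = k * ((Y1 + Y2) - (X1 + X2)) := by linear_combination k1 + k2
  have hk0 : k = 0 := by
    rcases lt_trichotomy k 0 with h | h | h
    · have := mul_neg_of_neg_of_pos h (by linarith : 0 < (Y1 + Y2) - (X1 + X2))
      linarith
    · exact h
    · have := mul_le_mul_of_nonneg_right (by omega : 1 ≤ k)
        (by linarith : 0 ≤ (Y1 + Y2) - (X1 + X2))
      linarith
  have g2 : det ((Y1 - X1, Y2 - X2) : Pt) (1 - Y1, 1 - Y2) = 0 := by
    simp only [det]; linarith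
  obtain ⟨l, hl⟩ := hp'.eq_smul g2
  have l1 := congrArg Prod.fst hl
  have l2 := congrArg Prod.snd hl
  simp only [Prod.smul_fst, Prod.smul_snd, smul_eq_mul] at l1 l2
  have ls : 2 - (Y1 + Y2) = l * ((Y1 + Y2) - (X1 + X2)) := by linear_combination l1 + l2
  have hl0 : l = 0 := by
    rcases lt_trichotomy l 0 with h | h | h
    · have := mul_le_mul_of_nonneg_right (by omega : l ≤ -1)
        (by linarith : 0 ≤ (Y1 + Y2) - (X1 + X2))
      linarith
    · exact h
    · have := mul_pos h (by linarith : 0 < (Y1 + Y2) - (X1 + X2))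
      linarith
  rw [hk0] at k1 k2
  rw [hl0] at l1 l2
  refine ⟨⟨by linarith, by linarith⟩, by linarith, by linarith⟩

theorem quad_std {x y : Pt} (hp : Prim (y - x)) (hx : Cross x y (0, 1) (1, 0))
    (n1 : ¬ Cross x y (0, 0) (0, 1)) (n2 : ¬ Cross x y (0, 0) (1, 0))
    (n3 : ¬ Cross x y (1, 1) (0, 1)) (n4 : ¬ Cross x y (1, 1) (1, 0)) :
    (x = (0, 0) ∧ y = (1, 1)) ∨ (x = (1, 1) ∧ y = (0, 0)) := by
  -- reduce to `x.1 + x.2 < y.1 + y.2`
  have key : ∀ {x y : Pt}, x.1 + x.2 < y.1 + y.2 → Prim (y - x) → Cross x y (0, 1) (1, 0) →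
      ¬ Cross x y (0, 0) (0, 1) → ¬ Cross x y (0, 0) (1, 0) → ¬ Cross x y (1, 1) (0, 1) →
      ¬ Cross x y (1, 1) (1, 0) → x = (0, 0) ∧ y = (1, 1) := by
    rintro ⟨X1, X2⟩ ⟨Y1, Y2⟩ hlt hp hx n1 n2 n3 n4
    simp only [Cross, det, Prod.fst_sub, Prod.snd_sub, not_and, not_lt] at hlt hx n1 n2 n3 n4
    obtain ⟨hA, hB⟩ := hx
    have hB' : (X1 + X2 - 1) * (Y1 + Y2 - 1) < 0 := by
      have : ((1 - 0) * (X2 - 1) - (0 - 1) * (X1 - 0)) * ((1 - 0) * (Y2 - 1) - (0 - 1) * (Y1 - 0)) =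
        (X1 + X2 - 1) * (Y1 + Y2 - 1) := by ring
      rw [← this]; exact hB
    have hX : X1 + X2 ≤ 0 := by
      by_contra hc
      push Not at hc
      have : 0 ≤ (X1 + X2 - 1) * (Y1 + Y2 - 1) := mul_nonneg (by omega) (by omega)
      omega
    have hY : 2 ≤ Y1 + Y2 := by
      by_contra hc
      push Not at hc
      have : 0 ≤ (1 - (X1 + X2)) * (1 - (Y1 + Y2)) := mul_nonneg (by omega) (by omega)
      linarith
    have := quad_int (D := X1 * Y2 - X2 * Y1) hp rfl hX hY ?_ ?_ ?_ ?_ ?_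
    · obtain ⟨⟨r1, r2⟩, r3, r4⟩ := this
      exact ⟨Prod.ext r1 r2, Prod.ext r3 r4⟩
    · refine lt_of_eq_of_lt ?_ hA; ring
    · intro h
      have := n1 (lt_of_eq_of_lt (by ring) h)
      linarith
    · intro h
      have := n2 (lt_of_eq_of_lt (by ring) h)
      linarith
    · intro h
      have := n3 (lt_of_eq_of_lt (by ring) h)
      linarith
    · intro h
      have := n4 (lt_of_eq_of_lt (by ring) h)
      linarith
  rcases lt_trichotomy (x.1 + x.2) (y.1 + y.2) with h | h | h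
  · exact Or.inl (key h hp hx n1 n2 n3 n4)
  · exfalso
    have h1 := hx.2
    simp only [det, Prod.fst_sub, Prod.snd_sub] at h1
    have e : ((1 - 0) * (x.2 - 1) - (0 - 1) * (x.1 - 0)) *
        ((1 - 0) * (y.2 - 1) - (0 - 1) * (y.1 - 0)) = (x.1 + x.2 - 1) * (y.1 + y.2 - 1) := by ring
    rw [e, ← h] at h1
    have := mul_self_nonneg (x.1 + x.2 - 1)
    linarith
  · have hp' : Prim (x - y) := by have := hp.neg; rwa [neg_sub] at this
    have := key h hp' hx.swap (fun h => n1 h.swap) (fun h => n2 h.swap) (fun h => n3 h.swap)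
      (fun h => n4 h.swap)
    exact Or.inr ⟨this.2, this.1⟩

/-- an edge which crosses the new diagonal but not the sides of the quadrilateral is the old
diagonal -/
theorem quad {a b c d x y : Pt} (hs : c + d = a + b) (h1 : det (b - a) (c - a) = 1)
    (hp : Prim (y - x)) (hx : Cross x y c d) (n1 : ¬ Cross x y a c) (n2 : ¬ Cross x y a d)
    (n3 : ¬ Cross x y b c) (n4 : ¬ Cross x y b d) : (x = a ∧ y = b) ∨ (x = b ∧ y = a) := by
  have hd : d = a + b - c := by rw [← hs]; abel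
  have hdet : det (d - a) (c - a) = 1 ∨ det (d - a) (c - a) = -1 := by
    left
    rw [hd, ← h1]; simp only [det, Prod.fst_sub, Prod.snd_sub, Prod.fst_add, Prod.snd_add]; ring
  obtain ⟨X, rfl⟩ := aff_surj (o := a) hdet x
  obtain ⟨Y, rfl⟩ := aff_surj (o := a) hdet y
  have ea : aff a (d - a) (c - a) (0, 0) = a := by simp [aff]
  have ec : aff a (d - a) (c - a) (0, 1) = c := by simp [aff]
  have ed : aff a (d - a) (c - a) (1, 0) = d := by simp [aff]
  have eb : aff a (d - a) (c - a) (1, 1) = b := by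
    simp only [aff, one_smul]; rw [hd]; abel
  have c1 : Cross X Y (0, 1) (1, 0) := by
    rw [← cross_aff (o := a) hdet, ec, ed]; exact hx
  have m1 : ¬ Cross X Y (0, 0) (0, 1) := by
    rw [← cross_aff (o := a) hdet, ea, ec]; exact n1
  have m2 : ¬ Cross X Y (0, 0) (1, 0) := by
    rw [← cross_aff (o := a) hdet, ea, ed]; exact n2
  have m3 : ¬ Cross X Y (1, 1) (0, 1) := by
    rw [← cross_aff (o := a) hdet, eb, ec]; exact n3
  have m4 : ¬ Cross X Y (1, 1) (1, 0) := by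
    rw [← cross_aff (o := a) hdet, eb, ed]; exact n4
  rw [prim_aff_iff hdet] at hp
  rcases quad_std hp c1 m1 m2 m3 m4 with ⟨rfl, rfl⟩ | ⟨rfl, rfl⟩
  · left; exact ⟨ea, eb⟩
  · right; exact ⟨eb, ea⟩


theorem not_cross_self (a b : Pt) : ¬ Cross a b a b := by
  rintro ⟨h, -⟩
  rw [sub_self, det_zero_right, zero_mul] at h
  exact lt_irrefl _ h

theorem not_cross_self' (a b : Pt) : ¬ Cross a b b a := fun h => not_cross_self a b h.swap'

/-- flips give triangulations -/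
theorem flip_isTri {m n : ℕ} {E : Pt → Pt → Prop} (h : IsTri m n E) {a b c d : Pt}
    (h1 : Tr E a b c) (h2 : Tr E b a d) (hs : c + d = a + b) : IsTri m n (flip E a b c d) := by
  have hcR : InR m n c := h.inR' h1.2.1
  have hdR : InR m n d := h.inR' h2.2.1
  have hcd : Prim (d - c) := by
    refine prim_of_det' (u := a - c) ?_
    have hd : d = a + b - c := by rw [← hs]; abel
    rw [← h1.2.2.2, hd]
    simp only [det, Prod.fst_sub, Prod.snd_sub, Prod.fst_add, Prod.snd_add]; ring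
  have hcd' : Prim (c - d) := by have := hcd.neg; rwa [neg_sub] at this
  -- an old edge does not cross the new one
  have key : ∀ x y, E x y → x + y ≠ a + b → ¬ Cross x y c d := by
    intro x y hxy hne hx
    rcases quad hs h1.2.2.2 (h.prim _ _ hxy) hx
      (fun hc => h.ncr _ _ _ _ hxy h1.2.2.1 hc.swap')
      (h.ncr _ _ _ _ hxy h2.2.1) (h.ncr _ _ _ _ hxy h1.2.1)
      (fun hc => h.ncr _ _ _ _ hxy h2.2.2.1 hc.swap') with ⟨rfl, rfl⟩ | ⟨rfl, rfl⟩
    · exact hne rfl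
    · exact hne (add_comm _ _)
  constructor
  · rintro x y (⟨h3, h4⟩ | ⟨rfl, rfl⟩ | ⟨rfl, rfl⟩)
    · exact Or.inl ⟨h.symm _ _ h3, by rwa [add_comm]⟩
    · exact Or.inr (Or.inr ⟨rfl, rfl⟩)
    · exact Or.inr (Or.inl ⟨rfl, rfl⟩)
  · rintro x y (⟨h3, h4⟩ | ⟨rfl, rfl⟩ | ⟨rfl, rfl⟩)
    · exact h.inR _ _ h3
    · exact hcR
    · exact hdR
  · rintro x y (⟨h3, h4⟩ | ⟨rfl, rfl⟩ | ⟨rfl, rfl⟩)
    · exact h.prim _ _ h3
    · exact hcd
    · exact hcd'
  · rintro x y z w (⟨h3, h4⟩ | ⟨rfl, rfl⟩ | ⟨rfl, rfl⟩) (⟨h5, h6⟩ | ⟨rfl, rfl⟩ | ⟨rfl, rfl⟩)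
    · exact h.ncr _ _ _ _ h3 h5
    · exact key _ _ h3 h4
    · exact fun hc => key _ _ h3 h4 hc.swap'
    · exact fun hc => key _ _ h5 h6 hc.symm
    · exact not_cross_self _ _
    · exact not_cross_self' _ _
    · exact fun hc => key _ _ h5 h6 hc.symm.swap'
    · exact not_cross_self' _ _
    · exact not_cross_self _ _
  · intro s s1 s2 s3 s4 s5
    by_cases hsab : s = a + b
    · exact ⟨c, d, Or.inr (Or.inl ⟨rfl, rfl⟩), by rw [hsab, hs]⟩
    · obtain ⟨x, y, hxy, hsum⟩ := h.full s s1 s2 s3 s4 s5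
      exact ⟨x, y, Or.inl ⟨hxy, by rw [hsum]; exact hsab⟩, hsum⟩

section faces

variable {m n : ℕ} {E : Pt → Pt → Prop} {a b c d : Pt}

/-- the first new face -/
theorem tr_flip_left (h : IsTri m n E) (h1 : Tr E a b c) (h2 : Tr E b a d) (hs : c + d = a + b) :
    Tr (flip E a b c d) a d c := by
  have hd : d = a + b - c := by rw [← hs]; abel
  refine ⟨?_, Or.inr (Or.inr ⟨rfl, rfl⟩), ?_, ?_⟩
  · rw [flip_of_ne hs]
    · exact h2.2.1
    · intro hc
      exact h.ne h2.2.2.1 (add_left_cancel hc)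
  · rw [flip_of_ne hs]
    · exact h1.2.2.1
    · intro hc
      rw [add_comm c a] at hc
      exact h.ne h1.2.1 (add_left_cancel hc).symm
  · rw [← h1.2.2.2, hd]
    simp only [det, Prod.fst_sub, Prod.snd_sub, Prod.fst_add, Prod.snd_add]; ring

/-- the second new face -/
theorem tr_flip_right (h : IsTri m n E) (h1 : Tr E a b c) (h2 : Tr E b a d) (hs : c + d = a + b) :
    Tr (flip E a b c d) b c d := by
  have hd : d = a + b - c := by rw [← hs]; abel
  refine ⟨?_, Or.inr (Or.inl ⟨rfl, rfl⟩), ?_, ?_⟩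
  · rw [flip_of_ne hs]
    · exact h1.2.1
    · intro hc
      rw [add_comm a b] at hc
      exact h.ne h1.2.2.1 (add_left_cancel hc)
  · rw [flip_of_ne hs]
    · exact h2.2.2.1
    · intro hc
      exact h.ne h2.2.1 (add_right_cancel hc).symm
  · rw [← h1.2.2.2, hd]
    simp only [det, Prod.fst_sub, Prod.snd_sub, Prod.fst_add, Prod.snd_add]; ring

theorem tr_flip_old (hs : c + d = a + b) {x y z : Pt} (h1 : x + y ≠ a + b) (h2 : y + z ≠ a + b)
    (h3 : z + x ≠ a + b) : Tr (flip E a b c d) x y z ↔ Tr E x y z := by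
  unfold Tr
  rw [flip_of_ne hs h1, flip_of_ne hs h2, flip_of_ne hs h3]

/-- a face with the side `ab` -/
theorem tr_of_sum (h : IsTri m n E) (h1 : Tr E a b c) (h2 : Tr E b a d) {x y z : Pt}
    (ht : Tr E x y z) (hs : x + y = a + b) :
    (x = a ∧ y = b ∧ z = c) ∨ (x = b ∧ y = a ∧ z = d) := by
  rcases h.mid_unique h1.1 ht.1 hs.symm with ⟨rfl, rfl⟩ | ⟨rfl, rfl⟩
  · exact Or.inl ⟨rfl, rfl, h.apex_unique ht h1⟩
  · exact Or.inr ⟨rfl, rfl, h.apex_unique ht h2⟩

end faces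

end Pool.Agent.MP01b126
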