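import Pool.Agent.Lib.MP_01b126_co.Area

/-!
# MP_01b126_co: elementary geometry of lattice triangles
-/

open MeasureTheory

namespace MP01b126

/-- real version of `det3 a b ·` -/
def detR (a b : Pt) (x : ℝ × ℝ) : ℝ :=
  ((b.1 : ℝ) - a.1) * (x.2 - a.2) - ((b.2 : ℝ) - a.2) * (x.1 - a.1)

lemma detR_emb (a b c : Pt) : detR a b (emb c) = det3 a b c := by
  simp only [detR, emb, det3]; push_cast; ring

lemma det3_rot (a b c : Pt) : det3 b c a = det3 a b c := by simp only [det3]; ring
lemma det3_rot' (a b c : Pt) : det3 c a b = det3 a b c := by simp only [det3]; ring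
lemma det3_swap (a b c : Pt) : det3 b a c = - det3 a b c := by simp only [det3]; ring
lemma det3_swap' (a b c : Pt) : det3 a c b = - det3 a b c := by simp only [det3]; ring
@[simp] lemma det3_left (a b : Pt) : det3 a b a = 0 := by simp only [det3]; ring
@[simp] lemma det3_right (a b : Pt) : det3 a b b = 0 := by simp only [det3]; ring
@[simp] lemma det3_same (a b : Pt) : det3 a a b = 0 := by simp only [det3]; ring
@[simp] lemma detR_left (a b : Pt) : detR a b (emb a) = 0 := by rw [detR_emb]; simp
@[simp] lemma detR_right (a b : Pt) : detR a b (emb b) = 0 := by rw [detR_emb]; simp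
lemma detR_swap (a b : Pt) (x : ℝ × ℝ) : detR b a x = - detR a b x := by
  simp only [detR]; ring

lemma detR_sum (a b c : Pt) (x : ℝ × ℝ) :
    detR a b x + detR b c x + detR c a x = det3 a b c := by
  simp only [detR, det3]; push_cast; ring

lemma det3_sum (a b c p : Pt) :
    det3 a b p + det3 b c p + det3 c a p = det3 a b c := by
  simp only [det3]; ring

lemma detR_comb (a b : Pt) (x y : ℝ × ℝ) {s t : ℝ} (h : s + t = 1) :
    detR a b (s • x + t • y) = s * detR a b x + t * detR a b y := by
  have hs : s = 1 - t := by linarith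
  subst hs
  simp only [detR, Prod.fst_add, Prod.snd_add, Prod.smul_fst, Prod.smul_snd, smul_eq_mul]
  ring

lemma continuous_detR (a b : Pt) : Continuous (detR a b) := by
  unfold detR; fun_prop

lemma convex_detR_nonneg (a b : Pt) : Convex ℝ {x | 0 ≤ detR a b x} := by
  intro x hx y hy s t hs ht hst
  show 0 ≤ detR a b (s • x + t • y)
  rw [detR_comb a b x y hst]
  exact add_nonneg (mul_nonneg hs hx) (mul_nonneg ht hy)

lemma convex_detR_nonpos (a b : Pt) : Convex ℝ {x | detR a b x ≤ 0} := by
  intro x hx y hy s t hs ht hst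
  show detR a b (s • x + t • y) ≤ 0
  rw [detR_comb a b x y hst]
  exact add_nonpos (mul_nonpos_of_nonneg_of_nonpos hs hx) (mul_nonpos_of_nonneg_of_nonpos ht hy)

lemma emb_mem_hull {t : Finset Pt} {p : Pt} (h : p ∈ t) : emb p ∈ hull t :=
  subset_convexHull ℝ _ ⟨p, h, rfl⟩

lemma hull_mono {s t : Finset Pt} (h : s ⊆ t) : hull s ⊆ hull t :=
  convexHull_mono (Set.image_mono h)

lemma convex_hull (t : Finset Pt) : Convex ℝ (hull t) := convex_convexHull ℝ _

lemma hull_subset {t : Finset Pt} {S : Set (ℝ × ℝ)} (hS : Convex ℝ S) (h : ∀ p ∈ t, emb p ∈ S) :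
    hull t ⊆ S := by
  apply convexHull_min _ hS
  rintro _ ⟨p, hp, rfl⟩
  exact h p hp

lemma isCompact_hull (t : Finset Pt) : IsCompact (hull t) :=
  (t.finite_toSet.image emb).isCompact_convexHull ℝ

lemma isClosed_hull (t : Finset Pt) : IsClosed (hull t) := (isCompact_hull t).isClosed

@[simp] lemma hull_empty : hull ∅ = ∅ := by simp [hull]

@[simp] lemma hull_singleton (p : Pt) : hull {p} = {emb p} := by simp [hull]

lemma hull_pair (p q : Pt) : hull {p, q} = segment ℝ (emb p) (emb q) := by
  classical
  simp [hull, Set.image_insert_eq, convexHull_pair]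

/-- barycentric coordinates -/
lemma bary (a b c : Pt) (x : ℝ × ℝ) :
    ((det3 a b c : ℤ) : ℝ) • x = detR b c x • emb a + detR c a x • emb b + detR a b x • emb c := by
  ext
  · simp only [detR, det3, emb, Prod.fst_add, Prod.smul_fst, smul_eq_mul]
    push_cast; ring
  · simp only [detR, det3, emb, Prod.snd_add, Prod.smul_snd, smul_eq_mul]
    push_cast; ring

/-- half plane description of a positively oriented triangle -/
lemma mem_hull_iff {a b c : Pt} (h : 0 < det3 a b c) (x : ℝ × ℝ) :
    x ∈ hull {a, b, c} ↔ 0 ≤ detR a b x ∧ 0 ≤ detR b c x ∧ 0 ≤ detR c a x := by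
  have hD : (0 : ℝ) < (det3 a b c : ℤ) := by exact_mod_cast h
  constructor
  · intro hx
    have h1 : hull {a, b, c} ⊆ {x | 0 ≤ detR a b x} := by
      apply hull_subset (convex_detR_nonneg a b)
      intro p hp
      simp only [Finset.mem_insert, Finset.mem_singleton] at hp
      rcases hp with rfl | rfl | rfl
      · simp
      · simp
      · show 0 ≤ detR _ _ _; rw [detR_emb]; exact_mod_cast h.le
    have h2 : hull {a, b, c} ⊆ {x | 0 ≤ detR b c x} := by
      apply hull_subset (convex_detR_nonneg b c)
      intro p hp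
      simp only [Finset.mem_insert, Finset.mem_singleton] at hp
      rcases hp with rfl | rfl | rfl
      · show 0 ≤ detR _ _ _; rw [detR_emb, det3_rot]; exact_mod_cast h.le
      · simp
      · simp
    have h3 : hull {a, b, c} ⊆ {x | 0 ≤ detR c a x} := by
      apply hull_subset (convex_detR_nonneg c a)
      intro p hp
      simp only [Finset.mem_insert, Finset.mem_singleton] at hp
      rcases hp with rfl | rfl | rfl
      · simp
      · show 0 ≤ detR _ _ _; rw [detR_emb, det3_rot']; exact_mod_cast h.le
      · simp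
    exact ⟨h1 hx, h2 hx, h3 hx⟩
  · rintro ⟨h1, h2, h3⟩
    have hsum := detR_sum a b c x
    have hb := bary a b c x
    set D : ℝ := ((det3 a b c : ℤ) : ℝ) with hDdef
    have hx : x = (detR b c x / D) • emb a + (detR c a x / D) • emb b + (detR a b x / D) • emb c := by
      have h0 : D⁻¹ • (D • x) = x := by rw [smul_smul, inv_mul_cancel₀ hD.ne', one_smul]
      have h1 := congrArg (fun z => D⁻¹ • z) hb
      simp only [h0, smul_add, smul_smul] at h1
      have e : ∀ y : ℝ, D⁻¹ * y = y / D := fun y => by rw [div_eq_inv_mul]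
      simp only [e] at h1
      exact h1
    rw [hx]
    have hc := convex_hull {a, b, c}
    have ha : emb a ∈ hull {a, b, c} := emb_mem_hull (by simp)
    have hb : emb b ∈ hull {a, b, c} := emb_mem_hull (by simp)
    have hcm : emb c ∈ hull {a, b, c} := emb_mem_hull (by simp)
    have key := hc.sum_mem (t := (Finset.univ : Finset (Fin 3)))
      (w := ![detR b c x / D, detR c a x / D, detR a b x / D]) (z := ![emb a, emb b, emb c])
      (by intro i _; fin_cases i <;> simp <;> positivity)
      (by simp only [Fin.sum_univ_three, Matrix.cons_val_zero, Matrix.cons_val_one, Matrix.cons_val_two,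
            Matrix.tail_cons, Matrix.head_cons, Matrix.cons_val]; field_simp; linarith)
      (by intro i _; fin_cases i <;> simp <;> assumption)
    simpa [Fin.sum_univ_three] using key

end MP01b126
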