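import Pool.Agent.Lib.MP_01b126_co.Geo

open MeasureTheory

namespace MP01b126

lemma detR_add_smul (a b : Pt) (x v : ℝ × ℝ) (ε : ℝ) :
    detR a b (x + ε • v) = detR a b x + ε * (((b.1 : ℝ) - a.1) * v.2 - ((b.2 : ℝ) - a.2) * v.1) := by
  simp only [detR, Prod.fst_add, Prod.snd_add, Prod.smul_fst, Prod.smul_snd, smul_eq_mul]
  ring

lemma exists_eps {S : Set (ℝ × ℝ)} {x : ℝ × ℝ} (hx : x ∈ interior S) (v : ℝ × ℝ) :
    ∃ ε : ℝ, 0 < ε ∧ x + ε • v ∈ interior S := by
  have hc : Continuous (fun ε : ℝ => x + ε • v) := by fun_prop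
  have h0 : (fun ε : ℝ => x + ε • v) ⁻¹' interior S ∈ nhds (0 : ℝ) := by
    apply hc.continuousAt.preimage_mem_nhds
    simp only [zero_smul, add_zero]
    exact isOpen_interior.mem_nhds hx
  rw [Metric.mem_nhds_iff] at h0
  obtain ⟨r, hr, h⟩ := h0
  refine ⟨r / 2, by positivity, ?_⟩
  have : r / 2 ∈ Metric.ball (0 : ℝ) r := by
    rw [Metric.mem_ball, dist_zero_right, Real.norm_eq_abs, abs_of_pos (by positivity)]
    linarith
  exact h this

/-- the open triangle -/
def openT (a b c : Pt) : Set (ℝ × ℝ) := {x | 0 < detR a b x ∧ 0 < detR b c x ∧ 0 < detR c a x}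

lemma isOpen_openT (a b c : Pt) : IsOpen (openT a b c) := by
  apply IsOpen.inter (isOpen_lt continuous_const (continuous_detR a b))
  exact IsOpen.inter (isOpen_lt continuous_const (continuous_detR b c))
    (isOpen_lt continuous_const (continuous_detR c a))

lemma pos_of_interior {a b c : Pt} (h : 0 < det3 a b c) {x : ℝ × ℝ}
    (hx : x ∈ interior (hull {a, b, c})) : 0 < detR a b x := by
  obtain ⟨ε, hε, h2⟩ := exists_eps hx (-(emb c - emb a))
  have h3 := ((mem_hull_iff h _).mp (interior_subset h2)).1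
  rw [detR_add_smul] at h3
  have h4 : ((b.1 : ℝ) - a.1) * (-(emb c - emb a)).2 - ((b.2 : ℝ) - a.2) * (-(emb c - emb a)).1
      = - ((det3 a b c : ℤ) : ℝ) := by
    simp only [emb, det3, Prod.snd_neg, Prod.fst_neg, Prod.snd_sub, Prod.fst_sub]
    push_cast; ring
  rw [h4] at h3
  have h5 : (0 : ℝ) < (det3 a b c : ℤ) := by exact_mod_cast h
  nlinarith

lemma perm1 (a b c : Pt) : ({b, c, a} : Finset Pt) = {a, b, c} := by
  ext p; simp only [Finset.mem_insert, Finset.mem_singleton]; tauto
lemma perm2 (a b c : Pt) : ({c, a, b} : Finset Pt) = {a, b, c} := by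
  ext p; simp only [Finset.mem_insert, Finset.mem_singleton]; tauto
lemma perm3 (a b c : Pt) : ({b, a, c} : Finset Pt) = {a, b, c} := by
  ext p; simp only [Finset.mem_insert, Finset.mem_singleton]; tauto

lemma interior_hull {a b c : Pt} (h : 0 < det3 a b c) :
    interior (hull {a, b, c}) = openT a b c := by
  apply Set.Subset.antisymm
  · intro x hx
    refine ⟨pos_of_interior h hx, ?_, ?_⟩
    · apply pos_of_interior (a := b) (b := c) (c := a) (by rw [det3_rot]; exact h)
      rw [perm1]; exact hx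
    · apply pos_of_interior (a := c) (b := a) (c := b) (by rw [det3_rot']; exact h)
      rw [perm2]; exact hx
  · apply interior_maximal _ (isOpen_openT a b c)
    intro x hx
    rw [mem_hull_iff h]
    exact ⟨hx.1.le, hx.2.1.le, hx.2.2.le⟩

lemma openT_nonempty {a b c : Pt} (h : 0 < det3 a b c) : (openT a b c).Nonempty := by
  have hD : (0 : ℝ) < (det3 a b c : ℤ) := by exact_mod_cast h
  refine ⟨((a.1 + b.1 + c.1 : ℝ) / 3, (a.2 + b.2 + c.2 : ℝ) / 3), ?_, ?_, ?_⟩
  · have : detR a b ((a.1 + b.1 + c.1 : ℝ) / 3, (a.2 + b.2 + c.2 : ℝ) / 3) = (det3 a b c : ℤ) / 3 := by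
      simp only [detR, det3]; push_cast; ring
    rw [this]; positivity
  · have : detR b c ((a.1 + b.1 + c.1 : ℝ) / 3, (a.2 + b.2 + c.2 : ℝ) / 3) = (det3 a b c : ℤ) / 3 := by
      simp only [detR, det3]; push_cast; ring
    rw [this]; positivity
  · have : detR c a ((a.1 + b.1 + c.1 : ℝ) / 3, (a.2 + b.2 + c.2 : ℝ) / 3) = (det3 a b c : ℤ) / 3 := by
      simp only [detR, det3]; push_cast; ring
    rw [this]; positivity

/-- orientation of a non-degenerate triangle -/
lemma orient {t : Finset Pt} (h : ∃ a b c : Pt, t = {a, b, c} ∧ det3 a b c ≠ 0) :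
    ∃ a b c : Pt, t = {a, b, c} ∧ 0 < det3 a b c := by
  obtain ⟨a, b, c, rfl, h⟩ := h
  rcases lt_or_gt_of_ne h with h1 | h1
  · exact ⟨b, a, c, (perm3 a b c).symm, by rw [det3_swap]; omega⟩
  · exact ⟨a, b, c, rfl, h1⟩

lemma IsUni.orient {t : Finset Pt} (h : IsUni t) : ∃ a b c : Pt, t = {a, b, c} ∧ det3 a b c = 1 := by
  obtain ⟨a, b, c, rfl, h⟩ := h
  rcases (abs_eq (by norm_num : (0 : ℤ) ≤ 1)).mp h with h1 | h1
  · exact ⟨a, b, c, rfl, h1⟩
  · exact ⟨b, a, c, (perm3 a b c).symm, by rw [det3_swap]; omega⟩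

lemma IsUni.nondeg {t : Finset Pt} (h : IsUni t) : ∃ a b c : Pt, t = {a, b, c} ∧ det3 a b c ≠ 0 := by
  obtain ⟨a, b, c, rfl, h⟩ := h.orient
  exact ⟨a, b, c, rfl, by omega⟩

lemma det3_ne {a b c : Pt} (h : det3 a b c ≠ 0) : a ≠ b ∧ b ≠ c ∧ c ≠ a := by
  refine ⟨?_, ?_, ?_⟩
  · rintro rfl; simp at h
  · rintro rfl; simp at h
  · rintro rfl; simp at h

lemma card_of_nondeg {t : Finset Pt} (h : ∃ a b c : Pt, t = {a, b, c} ∧ det3 a b c ≠ 0) :
    t.card = 3 := by
  obtain ⟨a, b, c, rfl, h⟩ := h
  obtain ⟨h1, h2, h3⟩ := det3_ne h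
  rw [Finset.card_insert_of_notMem, Finset.card_insert_of_notMem, Finset.card_singleton]
  · simpa using h2
  · simp only [Finset.mem_insert, Finset.mem_singleton, not_or]; exact ⟨h1, h3.symm⟩

lemma IsUni.card {t : Finset Pt} (h : IsUni t) : t.card = 3 := card_of_nondeg h.nondeg

/-- lattice points of a unimodular triangle are its vertices -/
lemma IsUni.mem_of_emb_mem {t : Finset Pt} (h : IsUni t) {p : Pt} (hp : emb p ∈ hull t) : p ∈ t := by
  obtain ⟨a, b, c, rfl, h1⟩ := h.orient
  clear h
  rename det3 _ _ _ = 1 => h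
  rw [mem_hull_iff (by omega)] at hp
  simp only [detR_emb] at hp
  obtain ⟨h1, h2, h3⟩ := hp
  have h1' : 0 ≤ det3 a b p := by exact_mod_cast h1
  have h2' : 0 ≤ det3 b c p := by exact_mod_cast h2
  have h3' : 0 ≤ det3 c a p := by exact_mod_cast h3
  have hs := det3_sum a b c p
  rw [h] at hs
  have hb := bary a b c (emb p)
  rw [h] at hb
  simp only [detR_emb, Int.cast_one, one_smul] at hb
  simp only [Finset.mem_insert, Finset.mem_singleton]
  have cases3 : (det3 b c p = 1 ∧ det3 c a p = 0 ∧ det3 a b p = 0) ∨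
      (det3 b c p = 0 ∧ det3 c a p = 1 ∧ det3 a b p = 0) ∨
      (det3 b c p = 0 ∧ det3 c a p = 0 ∧ det3 a b p = 1) := by omega
  rcases cases3 with ⟨e1, e2, e3⟩ | ⟨e1, e2, e3⟩ | ⟨e1, e2, e3⟩
  · left; apply emb_injective; rw [hb, e1, e2, e3]; simp
  · right; left; apply emb_injective; rw [hb, e1, e2, e3]; simp
  · right; right; apply emb_injective; rw [hb, e1, e2, e3]; simp

/-- vertices are extreme points -/
lemma mem_of_vertex {t s : Finset Pt} (ht : ∃ a b c : Pt, t = {a, b, c} ∧ det3 a b c ≠ 0)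
    (hs : s ⊆ t) {p : Pt} (hp : p ∈ t) (h : emb p ∈ hull s) : p ∈ s := by
  obtain ⟨a, b, c, rfl, hD⟩ := orient ht
  -- rotate so that `p = a`
  obtain ⟨b, c, ht, hD⟩ : ∃ b' c' : Pt, ({a, b, c} : Finset Pt) = {p, b', c'} ∧ 0 < det3 p b' c' := by
    simp only [Finset.mem_insert, Finset.mem_singleton] at hp
    rcases hp with rfl | rfl | rfl
    · exact ⟨b, c, rfl, hD⟩
    · exact ⟨c, a, (perm1 a p c).symm, by rw [det3_rot]; exact hD⟩
    · exact ⟨a, b, (perm2 a b p).symm, by rw [det3_rot']; exact hD⟩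
  rw [ht] at hs
  by_contra hps
  have h1 : hull s ⊆ {x | detR b c x ≤ 0} := by
    apply hull_subset (convex_detR_nonpos b c)
    intro q hq
    have := hs hq
    simp only [Finset.mem_insert, Finset.mem_singleton] at this
    rcases this with rfl | rfl | rfl
    · exact absurd hq hps
    · simp
    · simp
  have h2 : detR b c (emb p) ≤ 0 := h1 h
  rw [detR_emb, det3_rot] at h2
  have : (0 : ℝ) < (det3 p b c : ℤ) := by exact_mod_cast hD
  linarith

/-- an affine functional attaining its maximum over the triangle at `x`: `x` is a vertex or lies in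
an open side on which the functional is constant. -/
lemma face_of_max {a b c : Pt} (hD : 0 < det3 a b c) {g : ℝ × ℝ →L[ℝ] ℝ} {u : ℝ} (hg : g ≠ 0)
    (ha : g (emb a) ≤ u) (hb : g (emb b) ≤ u) (hc : g (emb c) ≤ u) {x : ℝ × ℝ}
    (hx : x ∈ hull {a, b, c}) (hxu : g x = u) :
    (∃ p ∈ ({a, b, c} : Finset Pt), x = emb p) ∨
    (∃ p ∈ ({a, b, c} : Finset Pt), ∃ q ∈ ({a, b, c} : Finset Pt), ∃ r ∈ ({a, b, c} : Finset Pt),
      0 < det3 p q r ∧ g (emb p) = u ∧ g (emb q) = u ∧ x ∈ openSegment ℝ (emb p) (emb q)) := by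
  have hDR : (0 : ℝ) < (det3 a b c : ℤ) := by exact_mod_cast hD
  obtain ⟨h1, h2, h3⟩ := (mem_hull_iff hD x).mp hx
  have hsum := detR_sum a b c x
  have hbx := bary a b c x
  set D : ℝ := ((det3 a b c : ℤ) : ℝ) with hDdef
  have hgx : D * g x = detR b c x * g (emb a) + detR c a x * g (emb b) + detR a b x * g (emb c) := by
    have := congrArg g hbx
    simpa using this
  have hz : detR b c x * (u - g (emb a)) + detR c a x * (u - g (emb b)) +
      detR a b x * (u - g (emb c)) = 0 := by
    rw [hxu] at hgx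
    rw [← hsum] at hgx
    linarith
  have z1 : detR b c x * (u - g (emb a)) = 0 := by
    have := mul_nonneg h2 (sub_nonneg.mpr ha)
    have := mul_nonneg h3 (sub_nonneg.mpr hb)
    have := mul_nonneg h1 (sub_nonneg.mpr hc)
    linarith
  have z2 : detR c a x * (u - g (emb b)) = 0 := by
    have := mul_nonneg h2 (sub_nonneg.mpr ha)
    have := mul_nonneg h3 (sub_nonneg.mpr hb)
    have := mul_nonneg h1 (sub_nonneg.mpr hc)
    linarith
  have z3 : detR a b x * (u - g (emb c)) = 0 := by
    have := mul_nonneg h2 (sub_nonneg.mpr ha)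
    have := mul_nonneg h3 (sub_nonneg.mpr hb)
    have := mul_nonneg h1 (sub_nonneg.mpr hc)
    linarith
  -- not all three values can be `u`
  have hnot : ¬ (g (emb a) = u ∧ g (emb b) = u ∧ g (emb c) = u) := by
    rintro ⟨e1, e2, e3⟩
    apply hg
    have f1 : g (emb b - emb a) = 0 := by rw [map_sub, e1, e2, sub_self]
    have f2 : g (emb c - emb a) = 0 := by rw [map_sub, e1, e3, sub_self]
    refine ContinuousLinearMap.ext fun z => ?_
    have hz' : D • z = (((c.2 : ℝ) - a.2) * z.1 - ((c.1 : ℝ) - a.1) * z.2) • (emb b - emb a) +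
      ((((b.1 : ℝ) - a.1) * z.2 - ((b.2 : ℝ) - a.2) * z.1)) • (emb c - emb a) := by
      rw [hDdef]
      ext
      · simp only [emb, det3, Prod.fst_add, Prod.smul_fst, Prod.fst_sub, smul_eq_mul]; push_cast; ring
      · simp only [emb, det3, Prod.snd_add, Prod.smul_snd, Prod.snd_sub, smul_eq_mul]; push_cast; ring
    have h5 := congrArg g hz'
    rw [map_smul, map_add, map_smul, map_smul, f1, f2] at h5
    simp only [smul_eq_mul, mul_zero, add_zero] at h5
    rcases mul_eq_zero.mp h5 with h6 | h6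
    · exact absurd h6 hDR.ne'
    · rw [h6]; rfl
  have hx' : x = (detR b c x / D) • emb a + (detR c a x / D) • emb b + (detR a b x / D) • emb c := by
    have h0 : D⁻¹ • (D • x) = x := by rw [smul_smul, inv_mul_cancel₀ hDR.ne', one_smul]
    have h1 := congrArg (fun z => D⁻¹ • z) hbx
    simp only [h0, smul_add, smul_smul] at h1
    have e : ∀ y : ℝ, D⁻¹ * y = y / D := fun y => by rw [div_eq_inv_mul]
    simp only [e] at h1
    exact h1
  -- which coordinates vanish
  by_cases ca : detR b c x = 0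
  · by_cases cb : detR c a x = 0
    · left
      refine ⟨c, by simp, ?_⟩
      have : detR a b x = D := by linarith
      rw [hx', ca, cb, this]; simp [hDR.ne']
    · by_cases cc : detR a b x = 0
      · left
        refine ⟨b, by simp, ?_⟩
        have : detR c a x = D := by linarith
        rw [hx', ca, cc, this]; simp [hDR.ne']
      · right
        refine ⟨b, by simp, c, by simp, a, by simp, by rw [det3_rot]; exact hD, ?_, ?_, ?_⟩
        · rcases mul_eq_zero.mp z2 with h | h
          · exact absurd h cb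
          · linarith
        · rcases mul_eq_zero.mp z3 with h | h
          · exact absurd h cc
          · linarith
        · refine ⟨detR c a x / D, detR a b x / D, ?_, ?_, ?_, ?_⟩
          · exact div_pos (lt_of_le_of_ne h3 (Ne.symm cb)) hDR
          · exact div_pos (lt_of_le_of_ne h1 (Ne.symm cc)) hDR
          · rw [← add_div, div_eq_one_iff_eq hDR.ne']; linarith
          · conv_rhs => rw [hx', ca]
            simp
  · have ga : g (emb a) = u := by
      rcases mul_eq_zero.mp z1 with h | h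
      · exact absurd h ca
      · linarith
    by_cases cb : detR c a x = 0
    · by_cases cc : detR a b x = 0
      · left
        refine ⟨a, by simp, ?_⟩
        have : detR b c x = D := by linarith
        rw [hx', cb, cc, this]; simp [hDR.ne']
      · right
        refine ⟨c, by simp, a, by simp, b, by simp, by rw [det3_rot']; exact hD, ?_, ga, ?_⟩
        · rcases mul_eq_zero.mp z3 with h | h
          · exact absurd h cc
          · linarith
        · refine ⟨detR a b x / D, detR b c x / D, ?_, ?_, ?_, ?_⟩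
          · exact div_pos (lt_of_le_of_ne h1 (Ne.symm cc)) hDR
          · exact div_pos (lt_of_le_of_ne h2 (Ne.symm ca)) hDR
          · rw [← add_div, div_eq_one_iff_eq hDR.ne']; linarith
          · conv_rhs => rw [hx', cb]
            simp [add_comm]
    · have gb : g (emb b) = u := by
        rcases mul_eq_zero.mp z2 with h | h
        · exact absurd h cb
        · linarith
      have cc : detR a b x = 0 := by
        by_contra cc
        apply hnot
        refine ⟨ga, gb, ?_⟩
        rcases mul_eq_zero.mp z3 with h | h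
        · exact absurd h cc
        · linarith
      right
      refine ⟨a, by simp, b, by simp, c, by simp, hD, ga, gb, ?_⟩
      refine ⟨detR b c x / D, detR c a x / D, ?_, ?_, ?_, ?_⟩
      · exact div_pos (lt_of_le_of_ne h2 (Ne.symm ca)) hDR
      · exact div_pos (lt_of_le_of_ne h3 (Ne.symm cb)) hDR
      · rw [← add_div, div_eq_one_iff_eq hDR.ne']; linarith
      · conv_rhs => rw [hx', cc]
        simp

end MP01b126
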