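import Pool.Agent.Lib.MP_01b126_co.Flip

/-!
# Inserting a primitive segment by flips

Among the edges crossing a primitive segment `pq` one with maximal `|det (b - a) (q - p)|` is
flippable, and the new edge has a smaller determinant.
-/

namespace Pool.Agent.MP01b126

variable {m n : ℕ} {E : Pt → Pt → Prop}

/-- the apex of a maximal crossing edge lies strictly between its endpoints in height -/
theorem apex_between (_h : IsTri m n E) {a b c p q : Pt} (hpq : Prim (q - p))
    (ha : 0 < det (q - p) (a - p)) (hb : det (q - p) (b - p) < 0)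
    (hq : 0 < det (b - a) (q - a)) (hp : det (b - a) (p - a) < 0)
    (hmax : ∀ x y, E x y → Cross x y p q → |det (y - x) (q - p)| ≤ det (b - a) (q - p))
    (ht : Tr E a b c) :
    det (q - p) (b - p) < det (q - p) (c - p) ∧ det (q - p) (c - p) < det (q - p) (a - p) := by
  obtain ⟨hab, hbc, hca, hdet⟩ := ht
  set A := det (q - p) (a - p) with hA
  set B := det (q - p) (b - p) with hB
  set C := det (q - p) (c - p) with hC
  set gq := det (b - a) (q - a) with hgq
  set gp := det (b - a) (p - a) with hgp
  have hH : det (b - a) (q - p) = A - B := by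
    rw [hA, hB]; simp only [det, Prod.fst_sub, Prod.snd_sub]; ring
  rw [hH] at hmax
  -- barycentric identities
  have i1 : det (c - b) (q - b) * (A - B) = -B - gq * (C - B) := by
    have : det (c - b) (q - b) * (A - B) = det (b - a) (c - a) * (-B) - gq * (C - B) := by
      rw [hA, hB, hC, hgq]; simp only [det, Prod.fst_sub, Prod.snd_sub]; ring
    rw [this, hdet]; ring
  have i2 : det (c - b) (p - b) * (A - B) = -B - gp * (C - B) := by
    have : det (c - b) (p - b) * (A - B) = det (b - a) (c - a) * (-B) - gp * (C - B) := by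
      rw [hA, hB, hC, hgp]; simp only [det, Prod.fst_sub, Prod.snd_sub]; ring
    rw [this, hdet]; ring
  have i3 : det (a - c) (q - c) * (A - B) = A + gq * (C - A) := by
    have : det (a - c) (q - c) * (A - B) = det (b - a) (c - a) * A + gq * (C - A) := by
      rw [hA, hB, hC, hgq]; simp only [det, Prod.fst_sub, Prod.snd_sub]; ring
    rw [this, hdet]; ring
  have i4 : det (a - c) (p - c) * (A - B) = A + gp * (C - A) := by
    have : det (a - c) (p - c) * (A - B) = det (b - a) (c - a) * A + gp * (C - A) := by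
      rw [hA, hB, hC, hgp]; simp only [det, Prod.fst_sub, Prod.snd_sub]; ring
    rw [this, hdet]; ring
  have hHpos : 0 < A - B := by linarith
  -- weak bounds
  have weak : B ≤ C ∧ C ≤ A := by
    rcases lt_trichotomy C 0 with h0 | h0 | h0
    · -- `ca` crosses
      have s1 : det (a - c) (q - c) < 0 := by
        by_contra hc
        push Not at hc
        have h1 := mul_nonneg hc hHpos.le
        rw [i3] at h1
        have h2 : gq * (C - A) ≤ 1 * (C - A) := mul_le_mul_of_nonpos_right (by omega) (by linarith)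
        linarith
      have s2 : 0 < det (a - c) (p - c) := by
        by_contra hc
        push Not at hc
        have h1 := mul_nonpos_of_nonpos_of_nonneg hc hHpos.le
        rw [i4] at h1
        have h2 : 0 < gp * (C - A) := mul_pos_of_neg_of_neg hp (by linarith)
        linarith
      have hcr : Cross c a p q := ⟨mul_neg_of_pos_of_neg s2 s1, mul_neg_of_neg_of_pos h0 ha⟩
      have h1 := hmax _ _ hca hcr
      have e1 : det (a - c) (q - p) = C - A := by
        rw [hC, hA]; simp only [det, Prod.fst_sub, Prod.snd_sub]; ring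
      rw [e1, abs_of_neg (by linarith)] at h1
      exact ⟨by linarith, by linarith⟩
    · exact ⟨by linarith, by linarith⟩
    · have s1 : det (c - b) (q - b) < 0 := by
        by_contra hc
        push Not at hc
        have h1 := mul_nonneg hc hHpos.le
        rw [i1] at h1
        have h2 : 1 * (C - B) ≤ gq * (C - B) :=
          mul_le_mul_of_nonneg_right (by omega) (by linarith)
        linarith
      have s2 : 0 < det (c - b) (p - b) := by
        by_contra hc
        push Not at hc
        have h1 := mul_nonpos_of_nonpos_of_nonneg hc hHpos.le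
        rw [i2] at h1
        have h2 : gp * (C - B) < 0 := mul_neg_of_neg_of_pos hp (by linarith)
        linarith
      have hcr : Cross b c p q := ⟨mul_neg_of_pos_of_neg s2 s1, mul_neg_of_neg_of_pos hb h0⟩
      have h1 := hmax _ _ hbc hcr
      have e1 : det (c - b) (q - p) = B - C := by
        rw [hC, hB]; simp only [det, Prod.fst_sub, Prod.snd_sub]; ring
      rw [e1, abs_of_neg (by linarith)] at h1
      exact ⟨by linarith, by linarith⟩
  -- strictness
  have hH2 : 2 ≤ A - B := by omega
  have strict : ∀ j : ℤ, j * (A - B) ≠ 1 := by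
    intro j hj
    have : IsUnit (A - B) := isUnit_of_dvd_one ⟨j, by linarith⟩
    rcases Int.isUnit_iff.mp this with h1 | h1 <;> omega
  refine ⟨lt_of_le_of_ne weak.1 ?_, lt_of_le_of_ne weak.2 ?_⟩
  · intro he
    have h1 : det (q - p) (c - b) = 0 := by
      have : det (q - p) (c - b) = C - B := by
        rw [hC, hB]; simp only [det, Prod.fst_sub, Prod.snd_sub]; ring
      rw [this, he]; ring
    obtain ⟨j, hj⟩ := hpq.eq_smul h1
    refine strict j ?_
    have h2 : det (b - a) (c - b) = 1 := by
      rw [← hdet]; simp only [det, Prod.fst_sub, Prod.snd_sub]; ring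
    rw [hj, det_smul_right, hH] at h2
    exact h2
  · intro he
    have h1 : det (q - p) (c - a) = 0 := by
      have : det (q - p) (c - a) = C - A := by
        rw [hC, hA]; simp only [det, Prod.fst_sub, Prod.snd_sub]; ring
      rw [this, he]; ring
    obtain ⟨j, hj⟩ := hpq.eq_smul h1
    refine strict j ?_
    rw [hj, det_smul_right, hH] at hdet
    exact hdet

theorem exists_flip_aux (h : IsTri m n E) {a b p q : Pt} (hpq : Prim (q - p))
    (hpR : InR m n p) (hqR : InR m n q) (hab : E a b)
    (ha : 0 < det (q - p) (a - p)) (hb : det (q - p) (b - p) < 0) (hx : Cross a b p q)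
    (hmax : ∀ x y, E x y → Cross x y p q → |det (y - x) (q - p)| ≤ |det (b - a) (q - p)|) :
    ∃ c d, Tr E a b c ∧ Tr E b a d ∧ c + d = a + b ∧
      |det (d - c) (q - p)| < |det (b - a) (q - p)| := by
  have hH : det (b - a) (q - p) = det (q - p) (a - p) - det (q - p) (b - p) := by
    simp only [det, Prod.fst_sub, Prod.snd_sub]; ring
  have hHpos : 0 < det (b - a) (q - p) := by rw [hH]; linarith
  rw [abs_of_pos hHpos] at hmax ⊢
  have hdiff : det (b - a) (q - a) - det (b - a) (p - a) = det (b - a) (q - p) := by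
    simp only [det, Prod.fst_sub, Prod.snd_sub]; ring
  have hq : 0 < det (b - a) (q - a) := by
    by_contra hc
    push Not at hc
    have := mul_nonneg_of_nonpos_of_nonpos (by linarith : det (b - a) (p - a) ≤ 0) hc
    linarith [hx.1]
  have hp : det (b - a) (p - a) < 0 := by
    by_contra hc
    push Not at hc
    have := mul_nonneg hc hq.le
    linarith [hx.1]
  obtain ⟨c, hc⟩ := h.apex_exists hab hqR hq
  have hba : E b a := h.symm _ _ hab
  have hp' : 0 < det (a - b) (p - b) := by
    have : det (a - b) (p - b) = - det (b - a) (p - a) := by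
      simp only [det, Prod.fst_sub, Prod.snd_sub]; ring
    rw [this]; linarith
  obtain ⟨d, hd⟩ := h.apex_exists hba hpR hp'
  have h1 := apex_between h hpq ha hb hq hp hmax hc
  -- the other side
  have hpq' : Prim (p - q) := by have := hpq.neg; rwa [neg_sub] at this
  have neg : ∀ z, det (p - q) (z - q) = - det (q - p) (z - p) := by
    intro z; simp only [det, Prod.fst_sub, Prod.snd_sub]; ring
  have h2 := apex_between (a := b) (b := a) (c := d) (p := q) (q := p) h hpq'
    (by rw [neg]; linarith) (by rw [neg]; linarith) hp'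
    (by
      have : det (a - b) (q - b) = - det (b - a) (q - a) := by
        simp only [det, Prod.fst_sub, Prod.snd_sub]; ring
      rw [this]; linarith)
    (by
      intro x y hxy hcr
      have e1 : det (y - x) (p - q) = - det (y - x) (q - p) := by
        simp only [det, Prod.fst_sub, Prod.snd_sub]; ring
      have e2 : det (a - b) (p - q) = det (b - a) (q - p) := by
        simp only [det, Prod.fst_sub, Prod.snd_sub]; ring
      rw [e1, e2, abs_neg]
      exact hmax x y hxy hcr.swap') hd
  rw [neg, neg, neg] at h2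
  obtain ⟨h3, h4⟩ := h1
  obtain ⟨h5, h6⟩ := h2
  set A := det (q - p) (a - p) with hA
  set B := det (q - p) (b - p) with hB
  set C := det (q - p) (c - p) with hC
  set D := det (q - p) (d - p) with hD
  refine ⟨c, d, hc, hd, ?_, ?_⟩
  · have e1 : det (b - a) (c + d - a - b) = 0 := by
      have e2 := hc.2.2.2
      have e3 := hd.2.2.2
      have : det (b - a) (c + d - a - b) = det (b - a) (c - a) - det (a - b) (d - b) := by
        simp only [det, Prod.fst_sub, Prod.snd_sub, Prod.fst_add, Prod.snd_add]; ring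
      rw [this, e2, e3]; ring
    obtain ⟨k, hk⟩ := (h.prim _ _ hab).eq_smul e1
    have e4 : det (q - p) (c + d - a - b) = C + D - A - B := by
      rw [hA, hB, hC, hD]
      simp only [det, Prod.fst_sub, Prod.snd_sub, Prod.fst_add, Prod.snd_add]; ring
    have e5 : det (q - p) (b - a) = B - A := by
      rw [hA, hB]; simp only [det, Prod.fst_sub, Prod.snd_sub]; ring
    rw [hk, det_smul_right, e5] at e4
    have hk0 : k = 0 := by
      rcases lt_trichotomy k 0 with h | h | h
      · exfalso
        have := mul_le_mul_of_nonneg_right (by omega : k ≤ -1) (by linarith : 0 ≤ A - B)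
        linarith
      · exact h
      · exfalso
        have := mul_le_mul_of_nonneg_right (by omega : 1 ≤ k) (by linarith : 0 ≤ A - B)
        linarith
    rw [hk0, zero_smul, sub_sub, sub_eq_zero] at hk
    exact hk
  · have e6 : det (d - c) (q - p) = C - D := by
      rw [hC, hD]; simp only [det, Prod.fst_sub, Prod.snd_sub]; ring
    rw [e6, hH, abs_lt]
    constructor <;> linarith

/-- **Flip lemma**: an edge of maximal `|det|` among those crossing the primitive segment `pq` is
flippable and its flip has a smaller `|det|` -/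
theorem exists_flip (h : IsTri m n E) {a b p q : Pt} (hpq : Prim (q - p))
    (hpR : InR m n p) (hqR : InR m n q) (hab : E a b) (hx : Cross a b p q)
    (hmax : ∀ x y, E x y → Cross x y p q → |det (y - x) (q - p)| ≤ |det (b - a) (q - p)|) :
    ∃ c d, Tr E a b c ∧ Tr E b a d ∧ c + d = a + b ∧
      |det (d - c) (q - p)| < |det (b - a) (q - p)| := by
  rcases lt_or_ge 0 (det (q - p) (a - p)) with ha | ha
  · have hb : det (q - p) (b - p) < 0 := by
      by_contra hc
      push Not at hc
      have := mul_nonneg ha.le hc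
      linarith [hx.2]
    exact exists_flip_aux h hpq hpR hqR hab ha hb hx hmax
  · have hb : 0 < det (q - p) (b - p) := by
      by_contra hc
      push Not at hc
      have := mul_nonneg_of_nonpos_of_nonpos ha hc
      linarith [hx.2]
    have ha' : det (q - p) (a - p) < 0 := by
      rcases lt_or_eq_of_le ha with h1 | h1
      · exact h1
      · exfalso
        have := hx.2
        rw [h1, zero_mul] at this
        exact lt_irrefl _ this
    have e1 : |det (a - b) (q - p)| = |det (b - a) (q - p)| := by
      have : det (a - b) (q - p) = - det (b - a) (q - p) := by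
        simp only [det, Prod.fst_sub, Prod.snd_sub]; ring
      rw [this, abs_neg]
    obtain ⟨c, d, h1, h2, h3, h4⟩ := exists_flip_aux h hpq hpR hqR (h.symm _ _ hab) hb ha' hx.swap
      (by rw [e1]; exact hmax)
    refine ⟨d, c, h2, h1, by rw [add_comm, h3, add_comm], ?_⟩
    rw [e1] at h4
    have : det (c - d) (q - p) = - det (d - c) (q - p) := by
      simp only [det, Prod.fst_sub, Prod.snd_sub]; ring
    rw [this, abs_neg]; exact h4


/-! ### the grid -/

/-- lattice points of the rectangle -/
noncomputable def gridF (m n : ℕ) : Finset Pt := Finset.Icc (0, 0) ((m : ℤ), (n : ℤ))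

theorem mem_gridF {m n : ℕ} {p : Pt} : p ∈ gridF m n ↔ InR m n p := by
  unfold gridF InR
  rw [Finset.mem_Icc, Prod.le_def, Prod.le_def]
  simp only
  tauto

/-- lattice points of the doubled rectangle -/
noncomputable def gridF2 (m n : ℕ) : Finset Pt := Finset.Icc (0, 0) (2 * (m : ℤ), 2 * (n : ℤ))

theorem mem_gridF2 {m n : ℕ} {p : Pt} : p ∈ gridF2 m n ↔ InR2 m n p := by
  unfold gridF2 InR2
  rw [Finset.mem_Icc, Prod.le_def, Prod.le_def]
  simp only
  tauto

theorem inR2_add {m n : ℕ} {p q : Pt} (hp : InR m n p) (hq : InR m n q) : InR2 m n (p + q) := by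
  obtain ⟨a1, a2, a3, a4⟩ := hp
  obtain ⟨b1, b2, b3, b4⟩ := hq
  refine ⟨?_, ?_, ?_, ?_⟩ <;> simp only [Prod.fst_add, Prod.snd_add] <;> linarith

/-! ### sequences of flips -/

/-- `FSeq Q E E'`: `E'` is obtained from `E` by flips at edges satisfying `Q` -/
inductive FSeq (Q : Pt → Pt → Prop) : (Pt → Pt → Prop) → (Pt → Pt → Prop) → Prop
  | refl (E : Pt → Pt → Prop) : FSeq Q E E
  | step {E E' : Pt → Pt → Prop} {a b c d : Pt} : FSeq Q E E' → Tr E' a b c → Tr E' b a d →
      c + d = a + b → Q a b → FSeq Q E (flip E' a b c d)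

theorem FSeq.trans {Q : Pt → Pt → Prop} {E E' E'' : Pt → Pt → Prop} (h : FSeq Q E E')
    (h' : FSeq Q E' E'') : FSeq Q E E'' := by
  induction h' with
  | refl => exact h
  | step _ h1 h2 h3 h4 ih => exact FSeq.step ih h1 h2 h3 h4

theorem FSeq.mono {Q Q' : Pt → Pt → Prop} (hQ : ∀ a b, Q a b → Q' a b)
    {E E' : Pt → Pt → Prop} (h : FSeq Q E E') : FSeq Q' E E' := by
  induction h with
  | refl => exact FSeq.refl _
  | step _ h1 h2 h3 h4 ih => exact FSeq.step ih h1 h2 h3 (hQ _ _ h4)

theorem FSeq.isTri {Q : Pt → Pt → Prop} {E E' : Pt → Pt → Prop} (h : IsTri m n E)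
    (hf : FSeq Q E E') : IsTri m n E' := by
  induction hf with
  | refl => exact h
  | step _ h1 h2 h3 h4 ih => exact flip_isTri ih h1 h2 h3

/-- edges not satisfying `Q` are kept -/
theorem FSeq.keep {Q : Pt → Pt → Prop} (hQ : ∀ a b, Q a b → Q b a) {E E' : Pt → Pt → Prop}
    (h : IsTri m n E) (hf : FSeq Q E E') {x y : Pt} (hxy : E x y) (hn : ¬ Q x y) : E' x y := by
  induction hf with
  | refl => exact hxy
  | step h0 h1 h2 h3 h4 ih =>
    have h5 := ih
    have h6 := h0.isTri h
    rw [flip_of_ne h3]
    · exact h5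
    · intro hc
      rcases h6.mid_unique h1.1 h5 hc.symm with ⟨rfl, rfl⟩ | ⟨rfl, rfl⟩
      · exact hn h4
      · exact hn (hQ _ _ h4)

/-! ### the potential -/

/-- `|det|` of the edge with midpoint `s/2` if it crosses `pq`, otherwise zero -/
noncomputable def crSpan (E : Pt → Pt → Prop) (p q s : Pt) : ℕ :=
  sSup {k | ∃ x y, E x y ∧ x + y = s ∧ Cross x y p q ∧ k = (det (y - x) (q - p)).natAbs}

theorem crSpan_eq (h : IsTri m n E) {p q x y : Pt} (hxy : E x y) (hx : Cross x y p q) :
    crSpan E p q (x + y) = (det (y - x) (q - p)).natAbs := by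
  unfold crSpan
  have : {k | ∃ x' y', E x' y' ∧ x' + y' = x + y ∧ Cross x' y' p q ∧
      k = (det (y' - x') (q - p)).natAbs} = {(det (y - x) (q - p)).natAbs} := by
    ext k
    rw [Set.mem_singleton_iff, Set.mem_ofPred_eq]
    constructor
    · rintro ⟨x', y', h1, h2, h3, h4⟩
      rcases h.mid_unique hxy h1 h2.symm with ⟨rfl, rfl⟩ | ⟨rfl, rfl⟩
      · exact h4
      · rw [h4]
        have : det (y' - x') (q - p) = - det (x' - y') (q - p) := by
          simp only [det, Prod.fst_sub, Prod.snd_sub]; ring
        rw [this, Int.natAbs_neg]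
    · intro hk; exact ⟨x, y, hxy, rfl, hx, hk⟩
  rw [this, csSup_singleton]

theorem crSpan_zero {p q s : Pt} (hn : ∀ x y, E x y → x + y = s → ¬ Cross x y p q) :
    crSpan E p q s = 0 := by
  unfold crSpan
  have : {k | ∃ x y, E x y ∧ x + y = s ∧ Cross x y p q ∧
      k = (det (y - x) (q - p)).natAbs} = ∅ := by
    ext k
    simp only [Set.mem_ofPred_eq, Set.mem_empty_iff_false, iff_false]
    rintro ⟨x, y, h1, h2, h3, -⟩
    exact hn x y h1 h2 h3
  rw [this, csSup_empty]; rfl

theorem crSpan_congr {E' : Pt → Pt → Prop} {p q s : Pt}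
    (hn : ∀ x y, x + y = s → (E' x y ↔ E x y)) : crSpan E' p q s = crSpan E p q s := by
  unfold crSpan
  congr 1
  ext k
  simp only [Set.mem_ofPred_eq]
  constructor
  · rintro ⟨x, y, h1, h2, h3, h4⟩; exact ⟨x, y, (hn x y h2).1 h1, h2, h3, h4⟩
  · rintro ⟨x, y, h1, h2, h3, h4⟩; exact ⟨x, y, (hn x y h2).2 h1, h2, h3, h4⟩

/-- total `|det|` of the edges crossing `pq` -/
noncomputable def crPot (m n : ℕ) (E : Pt → Pt → Prop) (p q : Pt) : ℕ :=
  ∑ s ∈ gridF2 m n, crSpan E p q s

theorem crPot_flip (h : IsTri m n E) {a b c d p q : Pt} (h1 : Tr E a b c) (h2 : Tr E b a d)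
    (hs : c + d = a + b) (hx : Cross a b p q)
    (hlt : |det (d - c) (q - p)| < |det (b - a) (q - p)|) :
    crPot m n (flip E a b c d) p q < crPot m n E p q := by
  have hT := flip_isTri h h1 h2 hs
  unfold crPot
  have hlt' : (det (d - c) (q - p)).natAbs < (det (b - a) (q - p)).natAbs := by
    rw [Int.abs_eq_natAbs, Int.abs_eq_natAbs] at hlt
    exact_mod_cast hlt
  have hlt2 : crSpan (flip E a b c d) p q (a + b) < crSpan E p q (a + b) := by
    rw [crSpan_eq h h1.1 hx]
    by_cases hc : Cross c d p q
    · rw [← hs, crSpan_eq hT (Or.inr (Or.inl ⟨rfl, rfl⟩)) hc]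
      exact hlt'
    · rw [crSpan_zero]
      · exact lt_of_le_of_lt (Nat.zero_le _) hlt'
      · intro x y hxy hsum
        rw [flip_of_eq hsum] at hxy
        rcases hxy with ⟨rfl, rfl⟩ | ⟨rfl, rfl⟩
        · exact hc
        · exact fun h => hc h.swap
  refine Finset.sum_lt_sum ?_ ⟨a + b, ?_, hlt2⟩
  · intro s _
    by_cases hs' : s = a + b
    · rw [hs']; exact hlt2.le
    · refine (crSpan_congr ?_).le
      intro x y hxy
      exact flip_of_ne hs (by rw [hxy]; exact hs')
  · rw [mem_gridF2]
    exact inR2_add (h.inR _ _ h1.1) (h.inR' h1.1)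

/-- a primitive segment which is not an edge is crossed by an edge -/
theorem exists_cross (h : IsTri m n E) {p q : Pt} (hpq : Prim (q - p)) (hpR : InR m n p)
    (hqR : InR m n q) : E p q ∨ ∃ a b, E a b ∧ Cross a b p q := by
  have ho : ¬ (Even (p + q).1 ∧ Even (p + q).2) := by
    rintro ⟨h1, h2⟩
    refine hpq.not_even ⟨?_, ?_⟩
    · simp only [Prod.fst_add, Prod.fst_sub] at h1 ⊢
      rw [Int.even_add] at h1; rw [Int.even_sub]; exact h1.symm
    · simp only [Prod.snd_add, Prod.snd_sub] at h2 ⊢
      rw [Int.even_add] at h2; rw [Int.even_sub]; exact h2.symm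
  obtain ⟨a, b, hab, hsum⟩ := h.full' (inR2_add hpR hqR) ho
  rcases same_mid (h.prim _ _ hab) hpq hsum with ⟨rfl, rfl⟩ | ⟨rfl, rfl⟩ | h1
  · exact Or.inl hab
  · exact Or.inl (h.symm _ _ hab)
  · exact Or.inr ⟨a, b, hab, h1⟩

theorem insert_aux {p q : Pt} (hpq : Prim (q - p)) (hpR : InR m n p) (hqR : InR m n q) :
    ∀ N : ℕ, ∀ E, IsTri m n E → crPot m n E p q = N →
      ∃ E', FSeq (fun a b => Cross a b p q) E E' ∧ IsTri m n E' ∧ E' p q := by
  intro N
  induction N using Nat.strong_induction_on with
  | _ N ih =>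
    intro E h hN
    rcases exists_cross h hpq hpR hqR with h1 | ⟨a, b, hab, hx⟩
    · exact ⟨E, FSeq.refl _, h, h1⟩
    · classical
      set S : Finset (Pt × Pt) := (gridF m n ×ˢ gridF m n).filter
        (fun z => E z.1 z.2 ∧ Cross z.1 z.2 p q) with hS
      have hSne : S.Nonempty := ⟨(a, b), by
        rw [hS, Finset.mem_filter, Finset.mem_product, mem_gridF, mem_gridF]
        exact ⟨⟨h.inR _ _ hab, h.inR' hab⟩, hab, hx⟩⟩
      obtain ⟨⟨a', b'⟩, hz, hmax⟩ := Finset.exists_max_image S
        (fun z => |det (z.2 - z.1) (q - p)|) hSne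
      rw [hS, Finset.mem_filter] at hz
      obtain ⟨-, hab', hx'⟩ := hz
      simp only at hab' hx' hmax
      obtain ⟨c, d, hc, hd, hs, hlt⟩ := exists_flip h hpq hpR hqR hab' hx' (by
        intro x y hxy hcr
        refine hmax (x, y) ?_
        rw [hS, Finset.mem_filter, Finset.mem_product, mem_gridF, mem_gridF]
        exact ⟨⟨h.inR _ _ hxy, h.inR' hxy⟩, hxy, hcr⟩)
      have hpot := crPot_flip h hc hd hs hx' hlt
      obtain ⟨E', h1, h2, h3⟩ := ih _ (by rw [← hN]; exact hpot) _ (flip_isTri h hc hd hs) rfl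
      exact ⟨E', (FSeq.step (FSeq.refl E) hc hd hs hx').trans h1, h2, h3⟩

/-- **Insertion**: a primitive segment can be inserted by flips of edges crossing it -/
theorem exists_insert (h : IsTri m n E) {p q : Pt} (hpq : Prim (q - p)) (hpR : InR m n p)
    (hqR : InR m n q) :
    ∃ E', FSeq (fun a b => Cross a b p q) E E' ∧ IsTri m n E' ∧ E' p q :=
  insert_aux hpq hpR hqR _ E h rfl

end Pool.Agent.MP01b126
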