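import Pool.Agent.Lib.MP_01b126_co.Insert

/-!
# Surgery: inserting the certificate at a site, and counting preimages
-/

namespace Pool.Agent.MP01b126

variable {m n : ℕ} {E E' : Pt → Pt → Prop}

/-! ### adjacency of midpoints -/

/-- `s` and `s'` are (twice) the midpoints of consecutive sides of a face -/
def Nb (E : Pt → Pt → Prop) (s s' : Pt) : Prop := ∃ a b c, Tr E a b c ∧ s = a + b ∧ s' = b + c

/-- connectedness of a set of midpoints through faces -/
def Conn (E : Pt → Pt → Prop) (S : Finset Pt) : Prop :=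
  ∀ A : Set Pt, A ⊆ (S : Set Pt) → A.Nonempty →
    (∀ s ∈ A, ∀ s' ∈ S, (Nb E s s' ∨ Nb E s' s) → s' ∈ A) → ∀ s ∈ S, s ∈ A

/-- two sides of a face are equal or adjacent -/
theorem sides_adj {a b c s s' : Pt} (ht : Tr E a b c) (hs : s = a + b ∨ s = b + c ∨ s = c + a)
    (hs' : s' = a + b ∨ s' = b + c ∨ s' = c + a) : s' = s ∨ Nb E s s' ∨ Nb E s' s := by
  rcases hs with rfl | rfl | rfl <;> rcases hs' with rfl | rfl | rfl
  · exact Or.inl rfl
  · exact Or.inr (Or.inl ⟨a, b, c, ht, rfl, rfl⟩)
  · exact Or.inr (Or.inr ⟨c, a, b, ht.rot', rfl, rfl⟩)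
  · exact Or.inr (Or.inr ⟨a, b, c, ht, rfl, rfl⟩)
  · exact Or.inl rfl
  · exact Or.inr (Or.inl ⟨b, c, a, ht.rot, rfl, rfl⟩)
  · exact Or.inr (Or.inl ⟨c, a, b, ht.rot', rfl, rfl⟩)
  · exact Or.inr (Or.inr ⟨b, c, a, ht.rot, rfl, rfl⟩)
  · exact Or.inl rfl

/-- the invariant of the surgery -/
structure Inv (m n : ℕ) (Q : Pt → Pt → Prop) (S : Finset Pt) (C : Set Pt)
    (E₀ E : Pt → Pt → Prop) : Prop where
  tri : IsTri m n E
  cross : ∀ x y, E x y → Q x y → x + y ∈ C
  same : ∀ x y, x + y ∉ C → (E x y ↔ E₀ x y)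
  nbr : ∀ a b c, Tr E a b c → a + b ∈ C → b + c ∈ S ∧ c + a ∈ S
  conn : Conn E S
  vert : ∀ x y, E₀ x y → x + y ∈ S → ∃ y', E x y' ∧ x + y' ∈ S

theorem Inv.step {Q : Pt → Pt → Prop} {S : Finset Pt} {C : Set Pt} {E₀ : Pt → Pt → Prop}
    (hCS : C ⊆ (S : Set Pt)) (hI : Inv m n Q S C E₀ E) {a b c d : Pt} (h1 : Tr E a b c)
    (h2 : Tr E b a d) (hs : c + d = a + b) (hQ : Q a b) : Inv m n Q S C E₀ (flip E a b c d) := by
  have h := hI.tri
  have hT := flip_isTri h h1 h2 hs
  have habC : a + b ∈ C := hI.cross _ _ h1.1 hQ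
  have habS : a + b ∈ S := hCS habC
  obtain ⟨hbc, hca⟩ := hI.nbr _ _ _ h1 habC
  obtain ⟨had, hdb⟩ := hI.nbr _ _ _ h2 (by rw [add_comm]; exact habC)
  have f1 := tr_flip_left h h1 h2 hs
  have f2 := tr_flip_right h h1 h2 hs
  -- new faces through the new edge
  have new : ∀ x y z, Tr (flip E a b c d) x y z → x + y = a + b →
      (x = c ∧ y = d ∧ z = b) ∨ (x = d ∧ y = c ∧ z = a) := by
    intro x y z ht hxy
    exact tr_of_sum hT (f2.rot) (f1.rot) ht (by rw [hxy, hs])
  refine ⟨hT, ?_, ?_, ?_, ?_, ?_⟩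
  · intro x y hxy hq
    by_cases he : x + y = a + b
    · rw [he]; exact habC
    · rw [flip_of_ne hs he] at hxy
      exact hI.cross _ _ hxy hq
  · intro x y hxy
    have he : x + y ≠ a + b := fun hc => hxy (by rw [hc]; exact habC)
    rw [flip_of_ne hs he]
    exact hI.same _ _ hxy
  · intro x y z ht hxy
    by_cases e1 : x + y = a + b
    · rcases new _ _ _ ht e1 with ⟨rfl, rfl, rfl⟩ | ⟨rfl, rfl, rfl⟩
      · exact ⟨hdb, hbc⟩
      · exact ⟨hca, had⟩
    · by_cases e2 : y + z = a + b
      · rw [e2]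
        refine ⟨habS, ?_⟩
        rcases new _ _ _ ht.rot e2 with ⟨rfl, rfl, rfl⟩ | ⟨rfl, rfl, rfl⟩
        · exact hdb
        · exact hca
      · by_cases e3 : z + x = a + b
        · rw [e3]
          refine ⟨?_, habS⟩
          rcases new _ _ _ ht.rot' e3 with ⟨rfl, rfl, rfl⟩ | ⟨rfl, rfl, rfl⟩
          · exact hbc
          · exact had
        · rw [tr_flip_old hs e1 e2 e3] at ht
          exact hI.nbr _ _ _ ht hxy
  · intro A hA hne hcl
    refine hI.conn A hA hne ?_
    -- old adjacency follows from new adjacency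
    have old : ∀ s s', Nb E s s' → ∀ t ∈ A, ∀ t' ∈ S, (t = s ∧ t' = s' ∨ t = s' ∧ t' = s) →
        t' ∈ A := by
      rintro s s' ⟨x, y, z, ht, rfl, rfl⟩ t htA t' ht' htt
      have key : ∀ {x y z : Pt} {s s' : Pt}, Tr (flip E a b c d) x y z →
          (s = x + y ∨ s = y + z ∨ s = z + x) → (s' = x + y ∨ s' = y + z ∨ s' = z + x) →
          s ∈ A → s' ∈ S → s' ∈ A := by
        intro x y z s s' ht hs1 hs2 hsA hs'S
        rcases sides_adj ht hs1 hs2 with h3 | h3
        · rw [h3]; exact hsA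
        · exact hcl s hsA s' hs'S h3
      -- reduce to: is one of the sums `a + b`?
      by_cases e : x + y = a + b ∨ y + z = a + b ∨ z + x = a + b
      · -- the face is `abc` or `bad`; all its sides are joined to `a + b` in the flip
        have hside : ∀ r, (r = x + y ∨ r = y + z ∨ r = z + x) →
            r = a + b ∨ r = b + c ∨ r = c + a ∨ r = a + d ∨ r = d + b := by
          intro r hr
          rcases e with e | e | e
          · rcases tr_of_sum h h1 h2 ht e with ⟨rfl, rfl, rfl⟩ | ⟨rfl, rfl, rfl⟩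
            · rcases hr with hr | hr | hr <;> rw [hr] <;> simp
            · rcases hr with hr | hr | hr <;> rw [hr] <;> simp [add_comm]
          · rcases tr_of_sum h h1 h2 ht.rot e with ⟨rfl, rfl, rfl⟩ | ⟨rfl, rfl, rfl⟩
            · rcases hr with hr | hr | hr <;> rw [hr] <;> simp [add_comm]
            · rcases hr with hr | hr | hr <;> rw [hr] <;> simp [add_comm]
          · rcases tr_of_sum h h1 h2 ht.rot' e with ⟨rfl, rfl, rfl⟩ | ⟨rfl, rfl, rfl⟩
            · rcases hr with hr | hr | hr <;> rw [hr] <;> simp [add_comm]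
            · rcases hr with hr | hr | hr <;> rw [hr] <;> simp [add_comm]
        have up : ∀ r, (r = a + b ∨ r = b + c ∨ r = c + a ∨ r = a + d ∨ r = d + b) → r ∈ A →
            a + b ∈ A := by
          intro r hr hrA
          rcases hr with rfl | rfl | rfl | rfl | rfl
          · exact hrA
          · exact key f2 (Or.inl rfl) (Or.inr (Or.inl hs.symm)) hrA habS
          · exact key f1 (Or.inr (Or.inr rfl)) (Or.inr (Or.inl (by rw [← hs, add_comm]))) hrA habS
          · exact key f1 (Or.inl rfl) (Or.inr (Or.inl (by rw [← hs, add_comm]))) hrA habS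
          · exact key f2 (Or.inr (Or.inr rfl)) (Or.inr (Or.inl hs.symm)) hrA habS
        have down : ∀ r, (r = a + b ∨ r = b + c ∨ r = c + a ∨ r = a + d ∨ r = d + b) →
            a + b ∈ A → r ∈ A := by
          intro r hr hrA
          rcases hr with rfl | rfl | rfl | rfl | rfl
          · exact hrA
          · exact key f2 (Or.inr (Or.inl hs.symm)) (Or.inl rfl) hrA hbc
          · exact key f1 (Or.inr (Or.inl (by rw [← hs, add_comm]))) (Or.inr (Or.inr rfl)) hrA hca
          · exact key f1 (Or.inr (Or.inl (by rw [← hs, add_comm]))) (Or.inl rfl) hrA had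
          · exact key f2 (Or.inr (Or.inl hs.symm)) (Or.inr (Or.inr rfl)) hrA hdb
        have ht1 : t = x + y ∨ t = y + z ∨ t = z + x := by
          rcases htt with ⟨h3, -⟩ | ⟨h3, -⟩ <;> rw [h3] <;> simp
        have ht2 : t' = x + y ∨ t' = y + z ∨ t' = z + x := by
          rcases htt with ⟨-, h3⟩ | ⟨-, h3⟩ <;> rw [h3] <;> simp
        exact down _ (hside _ ht2) (up _ (hside _ ht1) htA)
      · push Not at e
        have ht' : Tr (flip E a b c d) x y z := (tr_flip_old hs e.1 e.2.1 e.2.2).2 ht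
        have ht1 : t = x + y ∨ t = y + z ∨ t = z + x := by
          rcases htt with ⟨h3, -⟩ | ⟨h3, -⟩ <;> rw [h3] <;> simp
        have ht2 : t' = x + y ∨ t' = y + z ∨ t' = z + x := by
          rcases htt with ⟨-, h3⟩ | ⟨-, h3⟩ <;> rw [h3] <;> simp
        exact key ht' ht1 ht2 htA (by assumption)
    intro s hsA s' hs' hadj
    rcases hadj with h3 | h3
    · exact old _ _ h3 s hsA s' hs' (Or.inl ⟨rfl, rfl⟩)
    · exact old _ _ h3 s hsA s' hs' (Or.inr ⟨rfl, rfl⟩)
  · intro x y hxy hS
    obtain ⟨y', h3, h4⟩ := hI.vert x y hxy hS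
    by_cases he : x + y' = a + b
    · rcases h.mid_unique h1.1 h3 he.symm with ⟨rfl, rfl⟩ | ⟨rfl, rfl⟩
      · exact ⟨d, f1.1, had⟩
      · exact ⟨c, f2.1, hbc⟩
    · exact ⟨y', (flip_of_ne hs he).2 h3, h4⟩

theorem Inv.of_fseq {Q : Pt → Pt → Prop} {S : Finset Pt} {C : Set Pt} {E₀ : Pt → Pt → Prop}
    (hCS : C ⊆ (S : Set Pt)) (hI : Inv m n Q S C E₀ E) (hf : FSeq Q E E') :
    Inv m n Q S C E₀ E' := by
  induction hf with
  | refl => exact hI
  | step _ h1 h2 h3 h4 ih => exact Inv.step hCS ih h1 h2 h3 h4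


/-! ### bounded neighbourhoods -/

open Classical in
/-- the darts reached by one move -/
noncomputable def movF (E : Pt → Pt → Prop) (e : Pt × Pt) : Finset (Pt × Pt) :=
  {(e.2, e.1)} ∪ (if h : ∃ c, Tr E e.1 e.2 c then {(e.2, h.choose), (h.choose, e.1)} else ∅)

theorem card_movF (E : Pt → Pt → Prop) (e : Pt × Pt) : (movF E e).card ≤ 3 := by
  classical
  unfold movF
  refine (Finset.card_union_le _ _).trans ?_
  rw [Finset.card_singleton]
  split_ifs with h
  · have := Finset.card_le_two (a := (e.2, h.choose)) (b := (h.choose, e.1))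
    omega
  · simp

theorem mem_movF (h : IsTri m n E) {e e' : Pt × Pt} (hm : Move E e e') : e' ∈ movF E e := by
  classical
  unfold movF
  rw [Finset.mem_union]
  rcases hm with h1 | h1 | h1
  · left; simp
  · right
    rename_i a b c
    have hex : ∃ c, Tr E (a, b).1 (a, b).2 c := ⟨c, h1⟩
    rw [dif_pos hex]
    have := h.apex_unique h1 hex.choose_spec
    rw [Finset.mem_insert]; left
    exact Prod.ext rfl this
  · right
    rename_i a b c
    have hex : ∃ c, Tr E (a, b).1 (a, b).2 c := ⟨c, h1⟩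
    rw [dif_pos hex]
    have := h.apex_unique h1 hex.choose_spec
    rw [Finset.mem_insert, Finset.mem_singleton]; right
    exact Prod.ext this rfl

open Classical in
/-- the darts reached by at most `R` moves -/
noncomputable def reachF (E : Pt → Pt → Prop) : ℕ → Pt × Pt → Finset (Pt × Pt)
  | 0, e => {e}
  | R + 1, e => reachF E R e ∪ (reachF E R e).biUnion (movF E)

theorem card_reachF (E : Pt → Pt → Prop) (e : Pt × Pt) (R : ℕ) :
    (reachF E R e).card ≤ 4 ^ R := by
  classical
  induction R with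
  | zero => simp [reachF]
  | succ R ih =>
    unfold reachF
    refine (Finset.card_union_le _ _).trans ?_
    have h1 : ((reachF E R e).biUnion (movF E)).card ≤ (reachF E R e).card * 3 :=
      Finset.card_biUnion_le_card_mul _ _ _ (fun x _ => card_movF E x)
    rw [pow_succ]
    omega

theorem mem_reachF (h : IsTri m n E) {e : Pt × Pt} : ∀ (R : ℕ) (e' : Pt × Pt),
    Reach E R e e' → e' ∈ reachF E R e := by
  classical
  intro R
  induction R with
  | zero => intro e' h1; unfold Reach at h1; unfold reachF; simp [h1]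
  | succ R ih =>
    intro e' h1
    unfold Reach at h1
    unfold reachF
    rw [Finset.mem_union, Finset.mem_biUnion]
    rcases h1 with h1 | ⟨e'', h1, h2⟩
    · exact Or.inl (ih _ h1)
    · exact Or.inr ⟨e'', ih _ h1, mem_movF h h2⟩

theorem Reach.mono {e e' : Pt × Pt} {R R' : ℕ} (hR : R ≤ R') (h : Reach E R e e') :
    Reach E R' e e' := by
  induction R' with
  | zero => rwa [Nat.le_zero.1 hR] at h
  | succ R' ih =>
    rcases Nat.lt_or_ge R (R' + 1) with h1 | h1
    · unfold Reach; exact Or.inl (ih (by omega))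
    · have : R = R' + 1 := by omega
      rwa [this] at h

/-- (twice) the midpoint -/
def sm (e : Pt × Pt) : Pt := e.1 + e.2

theorem move_sm {e e' : Pt × Pt} (hm : Move E e e') :
    sm e' = sm e ∨ Nb E (sm e) (sm e') ∨ Nb E (sm e') (sm e) := by
  rcases hm with h1 | h1 | h1
  · left; unfold sm; rw [add_comm]
  · right; left; exact ⟨_, _, _, h1, rfl, rfl⟩
  · right; right; exact ⟨_, _, _, h1.rot', rfl, rfl⟩

open Classical in
/-- the edge with a given midpoint, in both orientations -/
noncomputable def edF (E : Pt → Pt → Prop) (s : Pt) : Finset (Pt × Pt) :=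
  if h : ∃ e : Pt × Pt, E e.1 e.2 ∧ e.1 + e.2 = s then {h.choose, h.choose.swap} else ∅

theorem card_edF (E : Pt → Pt → Prop) (s : Pt) : (edF E s).card ≤ 2 := by
  classical
  unfold edF
  split_ifs
  · exact Finset.card_le_two
  · simp

theorem mem_edF (h : IsTri m n E) {x y : Pt} (hxy : E x y) : (x, y) ∈ edF E (x + y) := by
  classical
  unfold edF
  have hex : ∃ e : Pt × Pt, E e.1 e.2 ∧ e.1 + e.2 = x + y := ⟨(x, y), hxy, rfl⟩
  rw [dif_pos hex, Finset.mem_insert, Finset.mem_singleton]
  obtain ⟨h1, h2⟩ := hex.choose_spec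
  rcases h.mid_unique h1 hxy h2 with ⟨h3, h4⟩ | ⟨h3, h4⟩
  · left; exact Prod.ext h3 h4
  · right; exact Prod.ext h3 h4

open Classical in
/-- the neighbours of a midpoint -/
noncomputable def nbF (E : Pt → Pt → Prop) (s : Pt) : Finset Pt :=
  ((edF E s).biUnion (movF E)).image sm

theorem card_nbF (E : Pt → Pt → Prop) (s : Pt) : (nbF E s).card ≤ 6 := by
  classical
  unfold nbF
  refine Finset.card_image_le.trans ?_
  have h1 : ((edF E s).biUnion (movF E)).card ≤ (edF E s).card * 3 :=
    Finset.card_biUnion_le_card_mul _ _ _ (fun x _ => card_movF E x)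
  have h2 := card_edF E s
  omega

theorem mem_nbF (h : IsTri m n E) {s s' : Pt} (hs : Nb E s s' ∨ Nb E s' s) : s' ∈ nbF E s := by
  classical
  unfold nbF
  rw [Finset.mem_image]
  rcases hs with ⟨a, b, c, ht, rfl, rfl⟩ | ⟨a, b, c, ht, rfl, rfl⟩
  · refine ⟨(b, c), ?_, rfl⟩
    rw [Finset.mem_biUnion]
    exact ⟨(a, b), mem_edF h ht.1, mem_movF h (Move.next ht)⟩
  · refine ⟨(a, b), ?_, rfl⟩
    rw [Finset.mem_biUnion]
    exact ⟨(b, c), mem_edF h ht.2.1, mem_movF h (Move.prev ht.rot)⟩

open Classical in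
/-- balls around a midpoint -/
noncomputable def ballF (E : Pt → Pt → Prop) (s : Pt) : ℕ → Finset Pt
  | 0 => {s}
  | j + 1 => ballF E s j ∪ (ballF E s j).biUnion (nbF E)

theorem card_ballF (E : Pt → Pt → Prop) (s : Pt) (j : ℕ) : (ballF E s j).card ≤ 7 ^ j := by
  classical
  induction j with
  | zero => simp [ballF]
  | succ j ih =>
    unfold ballF
    refine (Finset.card_union_le _ _).trans ?_
    have h1 : ((ballF E s j).biUnion (nbF E)).card ≤ (ballF E s j).card * 6 :=
      Finset.card_biUnion_le_card_mul _ _ _ (fun x _ => card_nbF E x)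
    rw [pow_succ]
    omega

theorem ballF_mono (E : Pt → Pt → Prop) (s : Pt) {i j : ℕ} (hij : i ≤ j) :
    ballF E s i ⊆ ballF E s j := by
  classical
  induction j with
  | zero => rw [Nat.le_zero.1 hij]
  | succ j ih =>
    rcases Nat.lt_or_ge i (j + 1) with h1 | h1
    · refine (ih (by omega)).trans ?_
      conv_rhs => unfold ballF
      exact Finset.subset_union_left
    · have : i = j + 1 := by omega
      rw [this]

/-- a connected set of midpoints is contained in a ball around each of its elements -/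
theorem Conn.subset_ball (h : IsTri m n E) {S : Finset Pt} (hS : Conn E S) {s : Pt} (hs : s ∈ S) :
    S ⊆ ballF E s S.card := by
  classical
  have key : ∀ j : ℕ, S ⊆ ballF E s j ∨ j + 1 ≤ (ballF E s j ∩ S).card := by
    intro j
    induction j with
    | zero =>
      right
      have : ballF E s 0 ∩ S = {s} := by
        unfold ballF; exact Finset.singleton_inter_of_mem hs
      rw [this, Finset.card_singleton]
    | succ j ih =>
      rcases ih with ih | ih
      · exact Or.inl (ih.trans (ballF_mono E s (Nat.le_succ j)))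
      · by_cases hcl : ∀ t ∈ ballF E s j ∩ S, ∀ t' ∈ S, (Nb E t t' ∨ Nb E t' t) →
          t' ∈ ballF E s j ∩ S
        · left
          have h1 := hS ((ballF E s j ∩ S : Finset Pt) : Set Pt)
            (by intro t ht; exact (Finset.mem_inter.1 (Finset.mem_coe.1 ht)).2)
            (by
              have : 0 < (ballF E s j ∩ S).card := by omega
              obtain ⟨t, ht⟩ := Finset.card_pos.1 this
              exact ⟨t, Finset.mem_coe.2 ht⟩)
            (by
              intro t ht t' ht' hn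
              exact Finset.mem_coe.2 (hcl t (Finset.mem_coe.1 ht) t' ht' hn))
          intro t ht
          have h2 := Finset.mem_coe.1 (h1 t ht)
          exact ballF_mono E s (Nat.le_succ j) (Finset.mem_inter.1 h2).1
        · right
          push Not at hcl
          obtain ⟨t, ht, t', ht', hn, hnot⟩ := hcl
          have h1 : t' ∈ ballF E s (j + 1) ∩ S := by
            rw [Finset.mem_inter]
            refine ⟨?_, ht'⟩
            unfold ballF
            rw [Finset.mem_union, Finset.mem_biUnion]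
            exact Or.inr ⟨t, (Finset.mem_inter.1 ht).1, mem_nbF h hn⟩
          have h2 : insert t' (ballF E s j ∩ S) ⊆ ballF E s (j + 1) ∩ S := by
            intro r hr
            rcases Finset.mem_insert.1 hr with rfl | hr
            · exact h1
            · exact Finset.mem_inter.2 ⟨ballF_mono E s (Nat.le_succ j) (Finset.mem_inter.1 hr).1,
                (Finset.mem_inter.1 hr).2⟩
          have h3 := Finset.card_le_card h2
          rw [Finset.card_insert_of_notMem hnot] at h3
          omega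
  rcases key S.card with h1 | h1
  · exact h1
  · exfalso
    have := Finset.card_le_card (Finset.inter_subset_right (s₁ := ballF E s S.card) (s₂ := S))
    omega

/-! ### the site -/

/-- crossing one of the four segments of the certificate -/
def Q4 (o u v : Pt) (x y : Pt) : Prop :=
  ∃ i, Cross x y (aff o u v (sg i).1) (aff o u v (sg i).2)

theorem Q4.symm {o u v x y : Pt} (h : Q4 o u v x y) : Q4 o u v y x := by
  obtain ⟨i, hi⟩ := h; exact ⟨i, hi.swap⟩

theorem sg_prim (i : Fin 4) : Prim ((sg i).2 - (sg i).1) := by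
  fin_cases i
  · exact ⟨1, 0, by norm_num [sg]⟩
  · exact ⟨1, -2, by norm_num [sg]⟩
  · exact ⟨0, 1, by norm_num [sg]⟩
  · exact ⟨0, 1, by norm_num [sg]⟩

instance (a b c d : Pt) : Decidable (Cross a b c d) := by
  unfold Cross det; infer_instance

theorem sg_cross (i j : Fin 4) : ¬ Cross (sg i).1 (sg i).2 (sg j).1 (sg j).2 := by
  fin_cases i <;> fin_cases j <;> decide

theorem reach_edge {e : Pt × Pt} (he : E e.1 e.2) (h : IsTri m n E) :
    ∀ (R : ℕ) (e' : Pt × Pt), Reach E R e e' → E e'.1 e'.2 := by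
  intro R
  induction R with
  | zero => intro e' h1; unfold Reach at h1; rw [← h1]; exact he
  | succ R ih =>
    intro e' h1
    unfold Reach at h1
    rcases h1 with h1 | ⟨e'', h1, h2⟩
    · exact ih _ h1
    · have h3 := ih _ h1
      rcases h2 with h4 | h4 | h4
      · exact h.symm _ _ h4
      · exact h4.2.1
      · exact h4.2.2.1

/-- the result of the surgery at a site -/
theorem surgery_exists (h : IsTri m n E) {R : ℕ} {p : Pt} (hs : Site m n E R p) :
    ∃ (E' : Pt → Pt → Prop) (o u v : Pt) (S : Finset Pt), IsTri m n E' ∧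
      (det u v = 1 ∨ det u v = -1) ∧ (∀ i, E' (aff o u v (sg i).1) (aff o u v (sg i).2)) ∧
      S.card ≤ 4 ^ (R + 1) ∧ Conn E' S ∧ (∀ x y, x + y ∉ S → (E' x y ↔ E x y)) ∧
      (∀ x y, E x y → x + y ∈ S → ∃ y', E' x y' ∧ x + y' ∈ S) ∧ (∃ q, E' p q ∧ p + q ∈ S) := by
  classical
  obtain ⟨q, hpq, o, u, v, huv, hin, hreach⟩ := hs
  -- the set of midpoints
  set S : Finset Pt := ((reachF E (R + 1) (p, q)).filter
    (fun e => Reach E (R + 1) (p, q) e)).image sm with hS
  have memS : ∀ s, s ∈ S ↔ ∃ e, Reach E (R + 1) (p, q) e ∧ sm e = s := by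
    intro s
    rw [hS, Finset.mem_image]
    constructor
    · rintro ⟨e, he, hs⟩
      exact ⟨e, (Finset.mem_filter.1 he).2, hs⟩
    · rintro ⟨e, he, hs⟩
      exact ⟨e, Finset.mem_filter.2 ⟨mem_reachF h _ _ he, he⟩, hs⟩
  have hScard : S.card ≤ 4 ^ (R + 1) := by
    rw [hS]
    exact Finset.card_image_le.trans ((Finset.card_le_card (Finset.filter_subset _ _)).trans
      (card_reachF E _ _))
  set C : Set Pt := {s | ∃ x y, E x y ∧ Q4 o u v x y ∧ x + y = s} with hC
  have hCS : C ⊆ (S : Set Pt) := by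
    rintro s ⟨x, y, hxy, ⟨i, hi⟩, rfl⟩
    rw [Finset.mem_coe, memS]
    exact ⟨(x, y), (hreach i x y hxy hi).mono (Nat.le_succ R), rfl⟩
  have hInv : Inv m n (Q4 o u v) S C E E := by
    refine ⟨h, ?_, fun _ _ _ => Iff.rfl, ?_, ?_, ?_⟩
    · intro x y hxy hq
      exact ⟨x, y, hxy, hq, rfl⟩
    · rintro a b c ht ⟨x, y, hxy, ⟨i, hi⟩, hsum⟩
      have hab : Reach E R (p, q) (a, b) := by
        rcases h.mid_unique hxy ht.1 hsum with ⟨rfl, rfl⟩ | ⟨rfl, rfl⟩
        · exact hreach i _ _ hxy hi
        · exact hreach i _ _ (h.symm _ _ hxy) hi.swap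
      rw [memS, memS]
      constructor
      · refine ⟨(b, c), ?_, rfl⟩
        unfold Reach; exact Or.inr ⟨_, hab, Move.next ht⟩
      · refine ⟨(c, a), ?_, rfl⟩
        unfold Reach; exact Or.inr ⟨_, hab, Move.prev ht⟩
    · -- connectedness
      intro A hA hne hcl
      have hback : ∀ (r : ℕ), r ≤ R + 1 → ∀ e, Reach E r (p, q) e → sm e ∈ A →
          sm (p, q) ∈ A := by
        intro r
        induction r with
        | zero => intro _ e he h1; unfold Reach at he; rw [he]; exact h1
        | succ r ih =>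
          intro hr e he h1
          unfold Reach at he
          rcases he with he | ⟨e'', he, hm⟩
          · exact ih (by omega) e he h1
          · refine ih (by omega) e'' he ?_
            have h2 : sm e'' ∈ S := (memS _).2 ⟨e'', he.mono (by omega), rfl⟩
            rcases move_sm hm with h3 | h3 | h3
            · rw [← h3]; exact h1
            · exact hcl _ h1 _ h2 (Or.inr h3)
            · exact hcl _ h1 _ h2 (Or.inl h3)
      have hforw : ∀ (r : ℕ), r ≤ R + 1 → sm (p, q) ∈ A → ∀ e, Reach E r (p, q) e →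
          sm e ∈ A := by
        intro r
        induction r with
        | zero => intro _ h1 e he; unfold Reach at he; rw [← he]; exact h1
        | succ r ih =>
          intro hr h1 e he
          have h2 : sm e ∈ S := (memS _).2 ⟨e, he.mono hr, rfl⟩
          unfold Reach at he
          rcases he with he | ⟨e'', he, hm⟩
          · exact ih (by omega) h1 e he
          · have h4 := ih (by omega) h1 e'' he
            rcases move_sm hm with h3 | h3 | h3
            · rw [h3]; exact h4
            · exact hcl _ h4 _ h2 (Or.inl h3)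
            · exact hcl _ h4 _ h2 (Or.inr h3)
      obtain ⟨s₀, hs₀⟩ := hne
      obtain ⟨e₀, he₀, hsm⟩ := (memS s₀).1 (Finset.mem_coe.1 (hA hs₀))
      have h1 := hback (R + 1) le_rfl e₀ he₀ (by rw [hsm]; exact hs₀)
      intro s hs
      obtain ⟨e, he, rfl⟩ := (memS s).1 hs
      exact hforw (R + 1) le_rfl h1 e he
    · intro x y hxy hxS; exact ⟨y, hxy, hxS⟩
  -- insert the four segments one after the other
  have hins : ∀ k : ℕ, k ≤ 4 → ∃ E', FSeq (Q4 o u v) E E' ∧ IsTri m n E' ∧
      ∀ i : Fin 4, i.val < k → E' (aff o u v (sg i).1) (aff o u v (sg i).2) := by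
    intro k
    induction k with
    | zero => intro _; exact ⟨E, FSeq.refl _, h, fun i hi => absurd hi (Nat.not_lt_zero _)⟩
    | succ k ih =>
      intro hk
      obtain ⟨E₁, hf, ht, he⟩ := ih (by omega)
      set j : Fin 4 := ⟨k, by omega⟩ with hj
      obtain ⟨E₂, hf2, ht2, he2⟩ := exists_insert ht (p := aff o u v (sg j).1)
        (q := aff o u v (sg j).2) (prim_aff huv (sg_prim j)) (hin j).1 (hin j).2
      refine ⟨E₂, hf.trans (hf2.mono (fun a b hab => ⟨j, hab⟩)), ht2, ?_⟩
      intro i hi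
      rcases Nat.lt_or_ge i.val k with h1 | h1
      · refine hf2.keep (fun a b hab => hab.swap) ht (he i h1) ?_
        rw [cross_aff huv]
        exact sg_cross i j
      · have : i = j := Fin.ext (by simp only [hj]; omega)
        rw [this]; exact he2
  obtain ⟨E', hf, ht, he⟩ := hins 4 le_rfl
  have hI := hInv.of_fseq hCS hf
  refine ⟨E', o, u, v, S, ht, huv, fun i => he i i.isLt, hScard, hI.conn, ?_, hI.vert, ?_⟩
  · intro x y hxy
    exact hI.same x y (fun hc => hxy (hCS hc))
  · exact hI.vert p q hpq ((memS _).2 ⟨(p, q), Reach.mono (Nat.zero_le _) rfl, rfl⟩)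


/-! ### counting preimages -/

open Classical in
/-- endpoints of the edges with midpoints in `W` -/
noncomputable def vF (E : Pt → Pt → Prop) (W : Finset Pt) : Finset Pt :=
  (W.biUnion (edF E)).image Prod.fst

theorem card_vF (E : Pt → Pt → Prop) (W : Finset Pt) : (vF E W).card ≤ 2 * W.card := by
  classical
  unfold vF
  refine Finset.card_image_le.trans ?_
  have h1 : (W.biUnion (edF E)).card ≤ W.card * 2 :=
    Finset.card_biUnion_le_card_mul _ _ _ (fun x _ => card_edF E x)
  omega

theorem mem_vF (h : IsTri m n E) {W : Finset Pt} {x y : Pt} (hxy : E x y) (hs : x + y ∈ W) :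
    x ∈ vF E W := by
  classical
  unfold vF
  rw [Finset.mem_image]
  exact ⟨(x, y), Finset.mem_biUnion.2 ⟨x + y, hs, mem_edF h hxy⟩, rfl⟩

/-- relation between a triangulation with a site and the result of the surgery -/
def Sur (m n R : ℕ) (x : (Pt → Pt → Prop) × Pt) (E' : Pt → Pt → Prop) : Prop :=
  ∃ (o u v : Pt) (S : Finset Pt), IsTri m n E' ∧
      (det u v = 1 ∨ det u v = -1) ∧ (∀ i, E' (aff o u v (sg i).1) (aff o u v (sg i).2)) ∧
      S.card ≤ 4 ^ (R + 1) ∧ Conn E' S ∧ (∀ a b, a + b ∉ S → (E' a b ↔ x.1 a b)) ∧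
      (∀ a b, x.1 a b → a + b ∈ S → ∃ y', E' a y' ∧ a + y' ∈ S) ∧ (∃ q, E' x.2 q ∧ x.2 + q ∈ S)

/-- the multiplicity bound -/
def mulC (R : ℕ) : ℕ :=
  2 ^ ((8 * 7 ^ 4 ^ (R + 1)) * (8 * 7 ^ 4 ^ (R + 1))) * (8 * 7 ^ 4 ^ (R + 1))

theorem fibre_bound (hcert : ∀ (m n : ℕ) (E : Pt → Pt → Prop) (o u v : Pt), IsTri m n E →
      (det u v = 1 ∨ det u v = -1) → (∀ i, E (aff o u v (sg i).1) (aff o u v (sg i).2)) →
      ¬ Reg m n E) (m n R : ℕ) (E' : Pt → Pt → Prop) :
    ({x | IsTri m n x.1 ∧ Reg m n x.1 ∧ Sur m n R x E'} :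
      Set ((Pt → Pt → Prop) × Pt)).ncard ≤ mulC R := by
  classical
  set X : Set ((Pt → Pt → Prop) × Pt) := {x | IsTri m n x.1 ∧ Reg m n x.1 ∧ Sur m n R x E'}
    with hX
  rcases Set.eq_empty_or_nonempty X with he | ⟨x₀, hx₀⟩
  · rw [he, Set.ncard_empty]; exact Nat.zero_le _
  obtain ⟨-, -, o, u, v, -, hE', huv, hcop, -, -, -, -, -⟩ := hx₀
  set K := 4 ^ (R + 1) with hK
  set W : Finset Pt := (Finset.univ : Finset (Fin 4)).biUnion
    (fun i => ballF E' (aff o u v (sg i).1 + aff o u v (sg i).2) K) with hW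
  have hWc : W.card ≤ 4 * 7 ^ K := by
    have := Finset.card_biUnion_le_card_mul (Finset.univ : Finset (Fin 4))
      (fun i => ballF E' (aff o u v (sg i).1 + aff o u v (sg i).2) K) (7 ^ K)
      (fun i _ => card_ballF _ _ _)
    rw [Finset.card_univ, Fintype.card_fin] at this
    exact this
  set V := vF E' W with hV
  have hVc : V.card ≤ 8 * 7 ^ K := by
    have : V.card ≤ 2 * W.card := card_vF E' W
    omega
  -- facts about elements of the fibre
  have fact : ∀ x ∈ X, ∃ S : Finset Pt, S ⊆ W ∧ (∀ a b, a + b ∉ S → (E' a b ↔ x.1 a b)) ∧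
      (∀ a b, x.1 a b → a + b ∈ S → ∃ y', E' a y' ∧ a + y' ∈ S) ∧
      (∃ q, E' x.2 q ∧ x.2 + q ∈ S) := by
    rintro x ⟨hx1, hx2, o', u', v', S, -, -, -, hSc, hconn, hsame, hvert, hp⟩
    refine ⟨S, ?_, hsame, hvert, hp⟩
    have h1 : ∃ i, ¬ x.1 (aff o u v (sg i).1) (aff o u v (sg i).2) := by
      by_contra hc
      push Not at hc
      exact hcert m n x.1 o u v hx1 huv hc hx2
    obtain ⟨i, hi⟩ := h1
    have h2 : aff o u v (sg i).1 + aff o u v (sg i).2 ∈ S := by
      by_contra hc
      exact hi ((hsame _ _ hc).1 (hcop i))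
    refine (hconn.subset_ball hE' h2).trans ((ballF_mono E' _ hSc).trans ?_)
    rw [hW]
    exact Finset.subset_biUnion_of_mem
      (fun i => ballF E' (aff o u v (sg i).1 + aff o u v (sg i).2) K) (Finset.mem_univ i)
  have hends : ∀ x ∈ X, ∀ a b, x.1 a b → a + b ∈ W → a ∈ V := by
    intro x hx a b hab hW'
    obtain ⟨S, hS1, hS2, hS3, -⟩ := fact x hx
    by_cases hs : a + b ∈ S
    · obtain ⟨y', h1, h2⟩ := hS3 a b hab hs
      exact mem_vF hE' h1 (hS1 h2)
    · exact mem_vF hE' ((hS2 a b hs).2 hab) hW'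
  -- the injection
  set T : Finset (Finset (Pt × Pt) × Pt) := (V ×ˢ V).powerset ×ˢ V with hT
  have hTc : T.card ≤ mulC R := by
    rw [hT, Finset.card_product, Finset.card_powerset, Finset.card_product]
    unfold mulC
    refine Nat.mul_le_mul (Nat.pow_le_pow_right (by norm_num) (Nat.mul_le_mul hVc hVc)) hVc
  refine le_trans ?_ hTc
  rw [← Set.ncard_coe_finset]
  refine Set.ncard_le_ncard_of_injOn
    (fun x => ((V ×ˢ V).filter (fun z => x.1 z.1 z.2), x.2)) ?_ ?_ (Finset.finite_toSet T)
  · intro x hx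
    rw [Finset.mem_coe, hT, Finset.mem_product, Finset.mem_powerset]
    refine ⟨Finset.filter_subset _ _, ?_⟩
    obtain ⟨S, hS1, -, -, q, h1, h2⟩ := fact x hx
    exact mem_vF hE' h1 (hS1 h2)
  · have key : ∀ x ∈ X, ∀ x' ∈ X, (V ×ˢ V).filter (fun z => x.1 z.1 z.2) =
        (V ×ˢ V).filter (fun z => x'.1 z.1 z.2) → ∀ a b, x.1 a b → x'.1 a b := by
      intro x hx x' hx' heq a b hab
      by_cases hW' : a + b ∈ W
      · have ha := hends x hx a b hab hW'
        have hb := hends x hx b a (hx.1.symm _ _ hab) (by rw [add_comm]; exact hW')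
        have h1 : (a, b) ∈ (V ×ˢ V).filter (fun z => x.1 z.1 z.2) := by
          rw [Finset.mem_filter, Finset.mem_product]; exact ⟨⟨ha, hb⟩, hab⟩
        rw [heq, Finset.mem_filter] at h1
        exact h1.2
      · obtain ⟨S, hS1, hS2, -, -⟩ := fact x hx
        obtain ⟨S', hS1', hS2', -, -⟩ := fact x' hx'
        exact (hS2' a b (fun hc => hW' (hS1' hc))).1
          ((hS2 a b (fun hc => hW' (hS1 hc))).2 hab)
    intro x hx x' hx' heq
    have h1 := congrArg Prod.fst heq
    have h2 := congrArg Prod.snd heq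
    simp only at h1 h2
    refine Prod.ext ?_ h2
    funext a b
    exact propext ⟨key x hx x' hx' h1 a b, key x' hx' x hx h1.symm a b⟩

/-- there are finitely many triangulations -/
theorem finite_TT (m n : ℕ) : (TT m n).Finite := by
  classical
  refine Set.Finite.of_injOn (f := fun E : Pt → Pt → Prop =>
      (gridF m n ×ˢ gridF m n).filter (fun z => E z.1 z.2))
    (t := ((gridF m n ×ˢ gridF m n).powerset : Set (Finset (Pt × Pt)))) ?_ ?_
    (Finset.finite_toSet _)
  · intro E _
    rw [Finset.mem_coe, Finset.mem_powerset]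
    exact Finset.filter_subset _ _
  · have key : ∀ E ∈ TT m n, ∀ E' ∈ TT m n, (gridF m n ×ˢ gridF m n).filter (fun z => E z.1 z.2) =
        (gridF m n ×ˢ gridF m n).filter (fun z => E' z.1 z.2) → ∀ a b, E a b → E' a b := by
      intro E hE E' _ heq a b hab
      have h1 : (a, b) ∈ (gridF m n ×ˢ gridF m n).filter (fun z => E z.1 z.2) := by
        rw [Finset.mem_filter, Finset.mem_product, mem_gridF, mem_gridF]
        exact ⟨⟨hE.inR _ _ hab, hE.inR' hab⟩, hab⟩
      rw [heq, Finset.mem_filter] at h1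
      exact h1.2
    intro E hE E' hE' heq
    funext a b
    exact propext ⟨key E hE E' hE' heq a b, key E' hE' E hE heq.symm a b⟩

/-- **Surgery**, from the certificate -/
theorem surgery_of_cert (hcert : ∀ (m n : ℕ) (E : Pt → Pt → Prop) (o u v : Pt), IsTri m n E →
      (det u v = 1 ∨ det u v = -1) → (∀ i, E (aff o u v (sg i).1) (aff o u v (sg i).2)) →
      ¬ Reg m n E) : SurgeryThm := by
  classical
  intro R
  refine ⟨mulC R, fun m n => ?_⟩
  set X : Set ((Pt → Pt → Prop) × Pt) :=
    {x | IsTri m n x.1 ∧ Reg m n x.1 ∧ Site m n x.1 R x.2} with hX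
  have hfin : X.Finite := by
    refine Set.Finite.subset ((finite_TT m n).prod (Finset.finite_toSet (gridF m n))) ?_
    rintro x ⟨h1, -, q, h2, -⟩
    exact ⟨h1, Finset.mem_coe.2 (mem_gridF.2 (h1.inR _ _ h2))⟩
  have hex : ∀ x ∈ X, ∃ E', Sur m n R x E' := by
    rintro x ⟨h1, -, h3⟩
    obtain ⟨E', o, u, v, S, g1, g2, g3, g4, g5, g6, g7, g8⟩ := surgery_exists h1 h3
    exact ⟨E', o, u, v, S, g1, g2, g3, g4, g5, g6, g7, g8⟩
  choose! φ hφ using hex
  rw [Set.ncard_eq_toFinset_card X hfin, Set.ncard_eq_toFinset_card _ (finite_TT m n)]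
  refine Finset.card_le_mul_card_image_of_maps_to (f := φ) ?_ (mulC R) ?_
  · intro x hx
    rw [Set.Finite.mem_toFinset] at hx ⊢
    obtain ⟨o, u, v, S, h1, -⟩ := hφ x hx
    exact h1
  · intro E' _
    refine le_trans ?_ (fibre_bound hcert m n R E')
    rw [← Set.ncard_coe_finset]
    refine Set.ncard_le_ncard ?_ ?_
    · intro x hx
      rw [Finset.mem_coe, Finset.mem_filter, Set.Finite.mem_toFinset] at hx
      obtain ⟨hx1, rfl⟩ := hx
      exact ⟨hx1.1, hx1.2.1, hφ x hx1⟩
    · refine Set.Finite.subset ((finite_TT m n).prod (Finset.finite_toSet (gridF m n))) ?_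
      rintro x ⟨h1, -, o, u, v, S, g1, -, -, -, -, -, -, q, g8, -⟩
      exact ⟨h1, Finset.mem_coe.2 (mem_gridF.2 (g1.inR _ _ g8))⟩

/-- **Surgery** -/
theorem surgery : SurgeryThm :=
  surgery_of_cert (fun _ _ _ _ _ _ h hd hE => cert h hd hE)

end Pool.Agent.MP01b126
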