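import Pool.Agent.Lib.MP_01b126_co.Structure
import Pool.Agent.Lib.MP_01b126_co.Surgery
import Pool.Agent.Lib.MP_01b126_co.Final
import Pool.Agent.Lib.MP_01b126_co.LB.Inj
import Pool.Agent.Lib.MP_01b126_co.St.Final
import Pool.Agent.Lib.MP_01b126_co.Assembly
import Pool.Agent.Lib.MP_01b126_co.Cnt.Coding

/-!
# MP_01b126_co: the proportion of regular triangulations tends to zero
-/

namespace MP01b126

open Pool.Agent.MP01b126 (IsTri Reg CodingThm)

/-- main theorem, given the counting theorem -/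
theorem ratio_of_coding (hC : CodingThm) {ε : ℝ} (hε : 0 < ε) :
    ∃ N : ℕ, ∀ m n : ℕ, N ≤ m → N ≤ n → (freg m n : ℝ) < ε * (f m n : ℝ) := by
  obtain ⟨N, hN⟩ := Pool.Agent.MP01b126.goal_eps
    (Pool.Agent.MP01b126.structureThm MP01b126.limClassify) hC
    Pool.Agent.MP01b126.surgery Pool.Agent.MP01b126.lowerThm hε
  refine ⟨max N 1, fun m n hm hn => ?_⟩
  have hm1 : 0 < m := lt_of_lt_of_le Nat.one_pos (le_trans (le_max_right _ _) hm)
  have hn1 : 0 < n := lt_of_lt_of_le Nat.one_pos (le_trans (le_max_right _ _) hn)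
  have h1 := hN m n (le_trans (le_max_left _ _) hm) (le_trans (le_max_left _ _) hn)
  have h2 := freg_le hm1 hn1
  have h3 : (freg m n : ℝ) ≤
      (({E | IsTri m n E ∧ Reg m n E} : Set (Pt → Pt → Prop)).ncard : ℝ) := by exact_mod_cast h2
  rw [f_eq hm1 hn1]
  exact lt_of_le_of_lt h3 h1

/-- the number of regular triangulations is eventually less than `ε` times the number of all
triangulations -/
theorem ratio {ε : ℝ} (hε : 0 < ε) :
    ∃ N : ℕ, ∀ m n : ℕ, N ≤ m → N ≤ n → (freg m n : ℝ) < ε * (f m n : ℝ) :=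
  ratio_of_coding Pool.Agent.MP01b126.codingThm hε

end MP01b126
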