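import Pool.Agent.Lib.MP_01b126_co.Model

/-!
# MP_01b126_co: definitions for the rare events
-/

namespace Pool.Agent.MP01b126

/-- the set of directed edges -/
def DE (E : Pt → Pt → Prop) : Set (Pt × Pt) := {e | E e.1 e.2}

/-- the directed edge continues straight for `A` edges (counting the edge itself) -/
def Fwd (E : Pt → Pt → Prop) (A : ℕ) (e : Pt × Pt) : Prop :=
  ∀ j : ℕ, j < A → E (e.1 + (j : ℤ) • (e.2 - e.1)) (e.1 + ((j : ℤ) + 1) • (e.2 - e.1))

/-- there are `A` straight edges behind the directed edge -/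
def Bwd (E : Pt → Pt → Prop) (A : ℕ) (e : Pt × Pt) : Prop :=
  ∀ j : ℕ, j < A → E (e.1 - ((j : ℤ) + 1) • (e.2 - e.1)) (e.1 - (j : ℤ) • (e.2 - e.1))

/-- straight continuation of length `A` on both sides -/
def Full (E : Pt → Pt → Prop) (A : ℕ) (e : Pt × Pt) : Prop := Fwd E A e ∧ Bwd E A e

/-- rotation around `y` from the neighbour `x` to the next neighbour `x'`
(counterclockwise for `ccw = true`, clockwise for `ccw = false`) -/
def Rt (E : Pt → Pt → Prop) (ccw : Bool) (y x x' : Pt) : Prop :=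
  if ccw then Tr E y x x' else Tr E y x' x

/-- `f 0, f 1, …, f K` are successive neighbours of `y` -/
def RotSeq (E : Pt → Pt → Prop) (ccw : Bool) (y : Pt) (K : ℕ) (f : ℕ → Pt) : Prop :=
  ∀ i : ℕ, i < K → Rt E ccw y (f i) (f (i + 1))

/-- ends of long runs -/
def evN (E : Pt → Pt → Prop) (A B : ℕ) : Set (Pt × Pt) :=
  {e | E e.1 e.2 ∧ Fwd E A e ∧ ¬ Bwd E B e}

/-- full edges which are not followed by a full edge in the next `K` rotations -/
def evS (E : Pt → Pt → Prop) (ccw : Bool) (A K : ℕ) : Set (Pt × Pt) :=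
  {e | E e.1 e.2 ∧ Full E A e ∧ ∃ f : ℕ → Pt, f 0 = e.2 ∧ RotSeq E ccw e.1 K f ∧
    ∀ i, 1 ≤ i → i ≤ K → ¬ Full E A (e.1, f i)}

/-- edges with many partners at the same vertex -/
def evP (E : Pt → Pt → Prop) (S : ℕ) : Set (Pt × Pt) :=
  {e | E e.1 e.2 ∧ S ≤ {x | E e.1 x ∧ |det (e.2 - e.1) (x - e.1)| = 1}.ncard}

/-- at a vertex of large degree few rotations turn by at least `π` -/
def evA (E : Pt → Pt → Prop) (D W : ℕ) : Set (Pt × Pt) :=
  {e | E e.1 e.2 ∧ D ≤ deg E e.1 ∧ ∃ f : ℕ → Pt, f 0 = e.2 ∧ RotSeq E true e.1 W f ∧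
    ∃ j, 1 ≤ j ∧ j ≤ W ∧ det (e.2 - e.1) (f j - e.1) ≤ 0}

/-- edges without a face on the left -/
def evB (E : Pt → Pt → Prop) : Set (Pt × Pt) := {e | E e.1 e.2 ∧ ¬ ∃ c, Tr E e.1 e.2 c}

/-- directed edges which see an element of `X` within `R` moves -/
def Sees (E : Pt → Pt → Prop) (R : ℕ) (X : Set (Pt × Pt)) : Set (Pt × Pt) :=
  {e | E e.1 e.2 ∧ ∃ e' ∈ X, Reach E R e e'}

end Pool.Agent.MP01b126
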