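import Pool.Agent.Lib.MP_01b126_co.Cone
import Pool.Agent.Lib.MP_01b126_co.RareDefs

/-!
# MP_01b126_co: angles at hubs
-/

namespace Pool.Agent.MP01b126

variable {m n : ℕ} {E : Pt → Pt → Prop}

namespace RareA

theorem plucker (a b c v : Pt) :
    det a c * det b v = det a b * det c v + det b c * det a v := by
  unfold det; ring

/-- the face on the right of an edge is unique -/
theorem prev_unique (h : IsTri m n E) {y x x' z : Pt} (h1 : Tr E y x z) (h2 : Tr E y x' z) :
    x = x' := by
  have key : ∀ {x : Pt}, Tr E y x z → Tr E z y x := by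
    rintro x ⟨e1, e2, e3, e4⟩
    refine ⟨e3, e1, e2, ?_⟩
    rw [← e4]
    simp only [det, Prod.fst_sub, Prod.snd_sub]; ring
  exact h.apex_unique (key h1) (key h2)

theorem rt_true {y x x' : Pt} (h : Rt E true y x x') : Tr E y x x' := by
  simpa [Rt] using h

/-- two rotation sequences which meet at the same time have the same start -/
theorem start_unique (h : IsTri m n E) {y : Pt} {W : ℕ} {f g : ℕ → Pt}
    (hf : RotSeq E true y W f) (hg : RotSeq E true y W g) :
    ∀ i, i ≤ W → f i = g i → f 0 = g 0 := by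
  intro i
  induction i with
  | zero => intro _ hi; exact hi
  | succ i ih =>
    intro hi he
    refine ih (by omega) ?_
    have h1 := rt_true (hf i (by omega))
    have h2 := rt_true (hg i (by omega))
    rw [← he] at h2
    exact prev_unique h h1 h2

/-- a rotation sequence which turns by at least `π` passes every neighbour on its way -/
theorem passes (h : IsTri m n E) {y x' : Pt} {W : ℕ} {f : ℕ → Pt}
    (hf : RotSeq E true y W f) {j : ℕ} (hj1 : 1 ≤ j) (hj : j ≤ W)
    (hd : det (f 0 - y) (f j - y) ≤ 0) (hx' : E y x') (hpos : 0 < det (f 0 - y) (x' - y)) :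
    ∃ i, 1 ≤ i ∧ i ≤ W ∧ f i = x' := by
  by_contra hc
  push Not at hc
  have hpos' : ∀ i, i ≤ W → 0 < det (f i - y) (x' - y) := by
    intro i
    induction i with
    | zero => intro _; exact hpos
    | succ i ih =>
      intro hi
      have h1 := rt_true (hf i (by omega))
      have h2 := ih (by omega)
      have h3 := h.not_inside h1 hx' h2
      have h4 : det (x' - y) (f (i + 1) - y) = - det (f (i + 1) - y) (x' - y) := det_swap _ _
      rw [h4] at h3
      rcases lt_or_eq_of_le (not_lt.1 h3) with h5 | h5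
      · linarith
      · exfalso
        have h6 : det (f (i + 1) - y) (x' - y) = 0 := by linarith
        have hp1 : Prim (f (i + 1) - y) := h.prim _ _ (h.symm _ _ h1.2.2.1)
        rcases hp1.eq_or_neg (h.prim _ _ hx') h6 with h7 | h7
        · exact hc (i + 1) (by omega) hi (sub_left_injective h7).symm
        · rw [h7, det_neg_right, h1.2.2.2] at h2
          omega
  have hall : ∀ i, 1 ≤ i → i ≤ W → 0 < det (f 0 - y) (f i - y) := by
    intro i
    induction i with
    | zero => intro hi; omega
    | succ i ih =>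
      intro _ hi
      have h1 := rt_true (hf i (by omega))
      rcases Nat.eq_zero_or_pos i with h0 | h0
      · subst h0
        rw [h1.2.2.2]; norm_num
      · have h2 := ih h0 (by omega)
        have h3 := plucker (f 0 - y) (f i - y) (f (i + 1) - y) (x' - y)
        rw [h1.2.2.2] at h3
        have h4 := hpos' i (by omega)
        have h5 := hpos' (i + 1) hi
        have h6 := hpos' 0 (by omega)
        have h7 : 0 < det (f 0 - y) (f (i + 1) - y) * det (f i - y) (x' - y) := by
          rw [h3]
          have := mul_pos h2 h5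
          linarith
        exact (pos_iff_pos_of_mul_pos h7).2 h4
  have := hall j hj1 hj
  omega

/-- the neighbours of `y` which turn quickly -/
def A (E : Pt → Pt → Prop) (y : Pt) (W : ℕ) : Set Pt :=
  {x | E y x ∧ ∃ f : ℕ → Pt, f 0 = x ∧ RotSeq E true y W f ∧
    ∃ j, 1 ≤ j ∧ j ≤ W ∧ det (x - y) (f j - y) ≤ 0}

theorem A_sub (h : IsTri m n E) (y : Pt) (W : ℕ) :
    ∃ s : Finset Pt, A E y W ⊆ s ∧ s.card ≤ 2 * W + 2 := by
  classical
  rcases (A E y W).eq_empty_or_nonempty with h0 | ⟨x, hx⟩
  · exact ⟨∅, by rw [h0]; exact Set.empty_subset _, by simp⟩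
  obtain ⟨hyx, f, hf0, hf, j, hj1, hj, hd⟩ := hx
  let P : ℕ → Pt → Prop := fun i x' => ∃ g : ℕ → Pt, g 0 = x' ∧ RotSeq E true y W g ∧ g i = x
  let g : ℕ → Pt := fun i => if hi : ∃ x', P i x' then hi.choose else x
  have hg : ∀ i, i ≤ W → ∀ x', P i x' → x' = g i := by
    intro i hi x' hx'
    have hex : ∃ x', P i x' := ⟨x', hx'⟩
    have e1 : g i = hex.choose := dif_pos hex
    obtain ⟨g1, h1, h2, h3⟩ := hx'
    obtain ⟨g2, k1, k2, k3⟩ := hex.choose_spec
    rw [e1, ← h1, ← k1]
    exact start_unique h h2 k2 i hi (h3.trans k3.symm)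
  refine ⟨insert x (insert (y + y - x)
    ((Finset.Icc 1 W).image f ∪ (Finset.Icc 1 W).image g)), ?_, ?_⟩
  · intro x' hx'
    obtain ⟨hyx', f', hf0', hf', j', hj1', hj', hd'⟩ := hx'
    rw [Finset.mem_coe, Finset.mem_insert, Finset.mem_insert, Finset.mem_union,
      Finset.mem_image, Finset.mem_image]
    rcases lt_trichotomy (det (x - y) (x' - y)) 0 with h1 | h1 | h1
    · right; right; right
      have h2 : 0 < det (f' 0 - y) (x - y) := by
        rw [hf0', det_swap]; linarith
      obtain ⟨i, hi1, hi, hfi⟩ := passes h hf' hj1' hj' (by rw [hf0']; exact hd') hyx h2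
      exact ⟨i, Finset.mem_Icc.2 ⟨hi1, hi⟩, (hg i hi x' ⟨f', hf0', hf', hfi⟩).symm⟩
    · rcases (h.prim _ _ hyx).eq_or_neg (h.prim _ _ hyx') h1 with h2 | h2
      · left; exact sub_left_injective h2
      · right; left
        have : x' = y + (x' - y) := by abel
        rw [this, h2]; abel
    · right; right; left
      obtain ⟨i, hi1, hi, hfi⟩ := passes h hf hj1 hj (by rw [hf0]; exact hd) hyx'
        (by rw [hf0]; exact h1)
      exact ⟨i, Finset.mem_Icc.2 ⟨hi1, hi⟩, hfi⟩
  · have h1 : ((Finset.Icc 1 W).image f).card ≤ W := by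
      refine Finset.card_image_le.trans ?_
      simp
    have h2 : ((Finset.Icc 1 W).image g).card ≤ W := by
      refine Finset.card_image_le.trans ?_
      simp
    have h3 := Finset.card_union_le ((Finset.Icc 1 W).image f) ((Finset.Icc 1 W).image g)
    have h4 := Finset.card_insert_le (y + y - x)
      ((Finset.Icc 1 W).image f ∪ (Finset.Icc 1 W).image g)
    have h5 := Finset.card_insert_le x (insert (y + y - x)
      ((Finset.Icc 1 W).image f ∪ (Finset.Icc 1 W).image g))
    omega

theorem DE_fin (h : IsTri m n E) : (DE E).Finite := by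
  have h1 : {p : Pt | InR m n p}.Finite := by
    refine ((Set.finite_Icc (0 : ℤ) m).prod (Set.finite_Icc (0 : ℤ) n)).subset ?_
    rintro ⟨a, b⟩ ⟨h1, h2, h3, h4⟩
    exact ⟨⟨h1, h2⟩, ⟨h3, h4⟩⟩
  refine (h1.prod h1).subset ?_
  rintro ⟨a, b⟩ hab
  exact ⟨h.inR _ _ hab, h.inR' hab⟩

end RareA

open RareA in
/-- few edges at vertices of large degree turn by `π` within few rotations -/
theorem rareA (h : IsTri m n E) (D W : ℕ) :
    D * (evA E D W).ncard ≤ (2 * W + 2) * (DE E).ncard := by
  classical
  have hfin := DE_fin h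
  have hsub : evA E D W ⊆ DE E := fun e he => he.1
  have hfin' := hfin.subset hsub
  set F : Finset (Pt × Pt) := hfin.toFinset with hF
  set P : Finset (Pt × Pt) := hfin'.toFinset with hP
  rw [Set.ncard_eq_toFinset_card _ hfin, Set.ncard_eq_toFinset_card _ hfin']
  have hPF : P ⊆ F := by
    intro e he
    rw [hP, Set.Finite.mem_toFinset] at he
    rw [hF, Set.Finite.mem_toFinset]
    exact hsub he
  set Y : Finset Pt := P.image Prod.fst with hY
  have hPc : P.card = ∑ y ∈ Y, (P.filter fun e => e.1 = y).card :=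
    Finset.card_eq_sum_card_image Prod.fst P
  have hFc : ∑ y ∈ Y, (F.filter fun e => e.1 = y).card ≤ F.card := by
    rw [← Finset.card_biUnion]
    · exact Finset.card_le_card (Finset.biUnion_subset.2 fun y _ => Finset.filter_subset _ _)
    · intro y _ y' _ hyy
      refine Finset.disjoint_left.2 fun e h1 h2 => hyy ?_
      rw [← (Finset.mem_filter.1 h1).2, ← (Finset.mem_filter.1 h2).2]
  rw [hPc, Finset.mul_sum]
  refine le_trans ?_ (Nat.mul_le_mul_left _ hFc)
  rw [Finset.mul_sum]
  refine Finset.sum_le_sum fun y hy => ?_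
  obtain ⟨e, he, rfl⟩ := Finset.mem_image.1 hy
  rw [hP, Set.Finite.mem_toFinset] at he
  have hdeg : D ≤ (F.filter fun e' => e'.1 = e.1).card := by
    refine he.2.1.trans ?_
    unfold deg
    have h1 : {w | E e.1 w} ⊆ ((F.filter fun e' => e'.1 = e.1).image Prod.snd : Finset Pt) := by
      intro w hw
      rw [Finset.mem_coe, Finset.mem_image]
      refine ⟨(e.1, w), Finset.mem_filter.2 ⟨?_, rfl⟩, rfl⟩
      rw [hF, Set.Finite.mem_toFinset]
      exact hw
    refine (Set.ncard_le_ncard h1 (Finset.finite_toSet _)).trans ?_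
    rw [Set.ncard_coe_finset]
    exact Finset.card_image_le
  obtain ⟨s, hs, hsc⟩ := A_sub h e.1 W
  have hcard : (P.filter fun e' => e'.1 = e.1).card ≤ 2 * W + 2 := by
    refine le_trans ?_ hsc
    refine Finset.card_le_card_of_injOn Prod.snd ?_ ?_
    · intro e' he'
      obtain ⟨h1, h2⟩ := Finset.mem_filter.1 he'
      rw [hP, Set.Finite.mem_toFinset] at h1
      obtain ⟨k1, _, k3⟩ := h1
      rw [h2] at k1 k3
      exact hs ⟨k1, k3⟩
    · intro e1 h1 e2 h2 h12
      exact Prod.ext ((Finset.mem_filter.1 h1).2.trans (Finset.mem_filter.1 h2).2.symm) h12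
  calc D * (P.filter fun e' => e'.1 = e.1).card ≤ D * (2 * W + 2) :=
        Nat.mul_le_mul_left _ hcard
    _ ≤ (F.filter fun e' => e'.1 = e.1).card * (2 * W + 2) := Nat.mul_le_mul_right _ hdeg
    _ = _ := Nat.mul_comm _ _

end Pool.Agent.MP01b126
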