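import Pool.Agent.Lib.MP_01b126_co.RareDefs

/-!
# MP_01b126_co, E1 + E2: ends of long runs and lonely full edges are rare
-/

namespace Pool.Agent.MP01b126

variable {m n : ℕ} {E : Pt → Pt → Prop}

namespace RareN

theorem DE_finite' (h : IsTri m n E) : (DE E).Finite := by
  have h1 : (Set.Icc (0 : ℤ) m ×ˢ Set.Icc (0 : ℤ) n).Finite :=
    (Set.finite_Icc _ _).prod (Set.finite_Icc _ _)
  refine (h1.prod h1).subset ?_
  rintro ⟨a, b⟩ (hab : E a b)
  obtain ⟨a1, a2, a3, a4⟩ := h.inR a b hab
  obtain ⟨b1, b2, b3, b4⟩ := h.inR b a (h.symm a b hab)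
  exact ⟨⟨⟨a1, a2⟩, ⟨a3, a4⟩⟩, ⟨⟨b1, b2⟩, ⟨b3, b4⟩⟩⟩

/-- two apexes over the same edge: the parallel translate by a positive multiple is impossible -/
theorem apex_aux (h : IsTri m n E) {a b c : Pt} {k : ℤ} (h1 : Tr E a b c)
    (h2 : Tr E a b (c + k • (b - a))) : ¬ 1 ≤ k := by
  intro hk
  obtain ⟨_, hbc, _, hd⟩ := h1
  obtain ⟨_, _, hda, _⟩ := h2
  refine h.ncr b c a (c + k • (b - a)) hbc (h.symm _ _ hda) ?_
  have e1 : det (c - b) (a - b) = 1 := by
    rw [← hd]; simp only [det, Prod.fst_sub, Prod.snd_sub]; ring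
  have e2 : det (c - b) (c + k • (b - a) - b) = - k := by
    have : det (c - b) (c + k • (b - a) - b) = - k * det (b - a) (c - a) := by
      simp only [det, Prod.fst_sub, Prod.snd_sub, Prod.fst_add, Prod.snd_add, Prod.smul_fst,
        Prod.smul_snd, smul_eq_mul]; ring
    rw [this, hd]; ring
  have e3 : det (c + k • (b - a) - a) (b - a) = - 1 := by
    have : det (c + k • (b - a) - a) (b - a) = - det (b - a) (c - a) := by
      simp only [det, Prod.fst_sub, Prod.snd_sub, Prod.fst_add, Prod.snd_add, Prod.smul_fst,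
        Prod.smul_snd, smul_eq_mul]; ring
    rw [this, hd]
  have e4 : det (c + k • (b - a) - a) (c - a) = k := by
    have : det (c + k • (b - a) - a) (c - a) = k * det (b - a) (c - a) := by
      simp only [det, Prod.fst_sub, Prod.snd_sub, Prod.fst_add, Prod.snd_add, Prod.smul_fst,
        Prod.smul_snd, smul_eq_mul]; ring
    rw [this, hd, mul_one]
  refine ⟨?_, ?_⟩
  · rw [e1, e2]; linarith
  · rw [e3, e4]; linarith

theorem apex_unique' (h : IsTri m n E) {a b c d : Pt} (h1 : Tr E a b c) (h2 : Tr E a b d) :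
    c = d := by
  have hdd : det (b - a) (d - c) = 0 := by
    have : det (b - a) (d - c) = det (b - a) (d - a) - det (b - a) (c - a) := by
      simp only [det, Prod.fst_sub, Prod.snd_sub]; ring
    rw [this, h1.2.2.2, h2.2.2.2]; ring
  obtain ⟨k, hk⟩ := (h.prim a b h1.1).eq_smul hdd
  have hd : d = c + k • (b - a) := by rw [← hk]; abel
  have hc : c = d + (-k) • (b - a) := by rw [neg_smul, hd]; abel
  have k1 : ¬ 1 ≤ k := apex_aux h h1 (by rw [← hd]; exact h2)
  have k2 : ¬ 1 ≤ -k := apex_aux h h2 (by rw [← hc]; exact h1)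
  have k0 : k = 0 := by omega
  rw [hd, k0, zero_smul, add_zero]

theorem Tr_rot {a b c : Pt} (h : Tr E a b c) : Tr E b c a := by
  obtain ⟨h1, h2, h3, h4⟩ := h
  refine ⟨h2, h3, h1, ?_⟩
  rw [← h4]; simp only [det, Prod.fst_sub, Prod.snd_sub]; ring

/-- the previous element of a rotation is unique -/
theorem Rt_inj (h : IsTri m n E) {ccw : Bool} {y x₁ x₂ x' : Pt} (h1 : Rt E ccw y x₁ x')
    (h2 : Rt E ccw y x₂ x') : x₁ = x₂ := by
  unfold Rt at h1 h2
  cases ccw with
  | true =>
    simp only [if_true] at h1 h2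
    exact apex_unique' h (Tr_rot (Tr_rot h1)) (Tr_rot (Tr_rot h2))
  | false =>
    simp only [Bool.false_eq_true, if_false] at h1 h2
    exact apex_unique' h h1 h2

theorem Rt_edge (h : IsTri m n E) {ccw : Bool} {y x x' : Pt} (h1 : Rt E ccw y x x') : E y x' := by
  unfold Rt at h1
  cases ccw with
  | true =>
    simp only [if_true] at h1
    exact h.symm _ _ h1.2.2.1
  | false =>
    simp only [Bool.false_eq_true, if_false] at h1
    exact h1.1

theorem fibre_le {S : Finset ℕ} {B : ℕ} (hS : ∀ i ∈ S, ∀ j ∈ S, i ≤ j → j - i < B) :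
    S.card ≤ B := by
  rcases S.eq_empty_or_nonempty with rfl | hne
  · simp
  · have hsub : S ⊆ Finset.Ioc (S.max' hne) (S.max' hne) ∪
        (Finset.range B).image (fun t => S.max' hne - t) := by
      intro i hi
      have h1 : i ≤ S.max' hne := S.le_max' i hi
      have h2 := hS i hi _ (S.max'_mem hne) h1
      refine Finset.mem_union_right _ (Finset.mem_image.2 ⟨S.max' hne - i, Finset.mem_range.2 h2, ?_⟩)
      omega
    refine (Finset.card_le_card hsub).trans ?_
    simp only [Finset.Ioc_self, Finset.empty_union]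
    exact Finset.card_image_le.trans (by simp)

end RareN

open RareN

/-! ## E1: ends of long runs are rare -/
theorem rareN (h : IsTri m n E) (A B : ℕ) :
    A * (evN E A B).ncard ≤ B * (DE E).ncard := by
  classical
  have hfin := DE_finite' h
  have hev : (evN E A B).Finite := hfin.subset (fun e he => he.1)
  rw [Set.ncard_eq_toFinset_card _ hev, Set.ncard_eq_toFinset_card _ hfin]
  -- the counting map
  set φ : (Pt × Pt) × ℕ → Pt × Pt := fun q =>
    (q.1.1 + (q.2 : ℤ) • (q.1.2 - q.1.1), q.1.1 + ((q.2 : ℤ) + 1) • (q.1.2 - q.1.1)) with hφ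
  have hdir : ∀ q, (φ q).2 - (φ q).1 = q.1.2 - q.1.1 := by
    intro q
    simp only [hφ, add_smul, one_smul]
    abel
  have hrec : ∀ q, q.1 = ((φ q).1 - (q.2 : ℤ) • ((φ q).2 - (φ q).1),
      (φ q).1 - (q.2 : ℤ) • ((φ q).2 - (φ q).1) + ((φ q).2 - (φ q).1)) := by
    intro q
    rw [hdir q]
    refine Prod.ext ?_ ?_
    · simp only [hφ]; abel
    · simp only [hφ]; abel
  have key := Finset.card_le_mul_card_image_of_maps_to (s := hev.toFinset ×ˢ Finset.range A)
    (t := hfin.toFinset) (f := φ) ?_ B ?_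
  · rw [Finset.card_product, Finset.card_range] at key
    rw [mul_comm A]
    exact key
  · rintro ⟨e, j⟩ hq
    rw [Finset.mem_product, Set.Finite.mem_toFinset, Finset.mem_range] at hq
    rw [Set.Finite.mem_toFinset]
    exact hq.1.2.1 j hq.2
  · intro x hx
    rw [← Finset.card_image_of_injOn (f := Prod.snd)]
    · apply fibre_le
      intro i hi j hj hij
      rw [Finset.mem_image] at hi hj
      obtain ⟨⟨e, i'⟩, hq, rfl⟩ := hi
      obtain ⟨⟨e', j'⟩, hq', rfl⟩ := hj
      rw [Finset.mem_filter, Finset.mem_product, Set.Finite.mem_toFinset, Finset.mem_range] at hq hq'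
      obtain ⟨⟨he, hi⟩, hφe⟩ := hq
      obtain ⟨⟨he', hj⟩, hφe'⟩ := hq'
      simp only at hij hi hj he he' ⊢
      by_contra hlt
      push Not at hlt
      apply he.2.2
      -- `e` has `B` straight edges behind it, because of the run of `e'`
      have r1 := hrec (e, i')
      have r2 := hrec (e', j')
      rw [hφe] at r1
      rw [hφe'] at r2
      simp only at r1 r2
      intro t ht
      have hf := he'.2.1 (j' - i' - 1 - t) (by omega)
      have d1 : e.2 - e.1 = x.2 - x.1 := by rw [← hφe, hdir]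
      have d2 : e'.2 - e'.1 = x.2 - x.1 := by rw [← hφe', hdir]
      have c1 : e.1 = x.1 - (i' : ℤ) • (x.2 - x.1) := by rw [r1]
      have c2 : e'.1 = x.1 - (j' : ℤ) • (x.2 - x.1) := by rw [r2]
      rw [d2, c2] at hf
      rw [d1, c1]
      have z1 : ((j' - i' - 1 - t : ℕ) : ℤ) = (j' : ℤ) - i' - 1 - t := by omega
      rw [z1] at hf
      convert hf using 1
      · module
      · module
    · rintro ⟨e, i⟩ hq ⟨e', j⟩ hq' hij
      simp only [Finset.coe_filter, Set.mem_ofPred_eq] at hq hq' hij
      subst hij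
      have r1 := hrec (e, i)
      have r2 := hrec (e', i)
      rw [hq.2] at r1
      rw [hq'.2] at r2
      simp only at r1 r2
      rw [r1, r2]

/-! ## E2: rotations between full edges -/
theorem rareS (h : IsTri m n E) (ccw : Bool) (A K : ℕ) :
    K * (evS E ccw A K).ncard ≤ (DE E).ncard := by
  classical
  have hfin := DE_finite' h
  have hev : (evS E ccw A K).Finite := hfin.subset (fun e he => he.1)
  rw [Set.ncard_eq_toFinset_card _ hev, Set.ncard_eq_toFinset_card _ hfin]
  have hch : ∀ e : Pt × Pt, ∃ f : ℕ → Pt, e ∈ evS E ccw A K → f 0 = e.2 ∧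
      RotSeq E ccw e.1 K f ∧ ∀ i, 1 ≤ i → i ≤ K → ¬ Full E A (e.1, f i) := by
    intro e
    by_cases he : e ∈ evS E ccw A K
    · obtain ⟨f, hf⟩ := he.2.2
      exact ⟨f, fun _ => hf⟩
    · exact ⟨fun _ => 0, fun h => absurd h he⟩
  choose f hf using hch
  have hcard : K * hev.toFinset.card = (hev.toFinset ×ˢ Finset.Icc 1 K).card := by
    rw [Finset.card_product, Nat.card_Icc, Nat.add_sub_cancel, mul_comm]
  rw [hcard]
  refine Finset.card_le_card_of_injOn (fun q => (q.1.1, f q.1 q.2)) ?_ ?_
  · rintro ⟨e, i⟩ hq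
    simp only [Finset.coe_product, Set.mem_prod, Finset.mem_coe, Set.Finite.mem_toFinset,
      Finset.mem_Icc] at hq ⊢
    obtain ⟨he, hi1, hi2⟩ := hq
    have := (hf e he).2.1 (i - 1) (by omega)
    have := Rt_edge h this
    rw [Nat.sub_add_cancel hi1] at this
    exact this
  · have main : ∀ e e' : Pt × Pt, e ∈ evS E ccw A K → e' ∈ evS E ccw A K → ∀ i j, 1 ≤ i → i ≤ j →
        j ≤ K → e.1 = e'.1 → f e i = f e' j → e = e' ∧ i = j := by
      intro e e' he he' i j hi hij hj hy hx
      have back : ∀ t, t ≤ i → f e (i - t) = f e' (j - t) := by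
        intro t
        induction t with
        | zero => intro _; simpa using hx
        | succ t ih =>
          intro ht
          have ih' := ih (by omega)
          have s1 := (hf e he).2.1 (i - (t + 1)) (by omega)
          have s2 := (hf e' he').2.1 (j - (t + 1)) (by omega)
          rw [show i - (t + 1) + 1 = i - t by omega, ih'] at s1
          rw [show j - (t + 1) + 1 = j - t by omega, ← hy] at s2
          exact Rt_inj h s1 s2
      have h0 := back i le_rfl
      rw [Nat.sub_self, (hf e he).1] at h0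
      by_cases hlt : i < j
      · exfalso
        apply (hf e' he').2.2 (j - i) (by omega) (by omega)
        rw [← h0, ← hy]
        exact he.2.1
      · have hij' : i = j := by omega
        subst hij'
        rw [Nat.sub_self, (hf e' he').1] at h0
        exact ⟨Prod.ext hy h0, rfl⟩
    rintro ⟨e, i⟩ hq ⟨e', j⟩ hq' hqq
    simp only [Finset.coe_product, Set.mem_prod, Finset.mem_coe, Set.Finite.mem_toFinset,
      Finset.mem_Icc] at hq hq'
    simp only [Prod.mk.injEq] at hqq
    rcases le_total i j with hij | hij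
    · obtain ⟨h1, h2⟩ := main e e' hq.1 hq'.1 i j hq.2.1 hij hq'.2.2 hqq.1 hqq.2
      rw [h1, h2]
    · obtain ⟨h1, h2⟩ := main e' e hq'.1 hq.1 j i hq'.2.1 hij hq.2.2 hqq.1.symm hqq.2.symm
      rw [h1, h2]

end Pool.Agent.MP01b126
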