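import Pool.Agent.Lib.MP_01b126_co.Cover

/-!
# MP_01b126_co: basic structure of a triangulation with vertex set `P_{m,n}`
-/

open MeasureTheory

namespace MP01b126

variable {m n : ℕ} {T : Finset (Finset Pt)}

lemma IsTriangulation.sub (hT : IsTriangulation m n T) {t : Finset Pt} (ht : t ∈ T) : t ⊆ grid m n := by
  intro p hp
  rw [← hT.verts]
  exact Finset.mem_biUnion.mpr ⟨t, ht, hp⟩

lemma IsTriangulation.hull_sub (hT : IsTriangulation m n T) {t : Finset Pt} (ht : t ∈ T) :
    hull t ⊆ rect m n := hull_subset_rect (hT.sub ht)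

lemma IsTriangulation.exists_mem (hT : IsTriangulation m n T) {x : ℝ × ℝ} (hx : x ∈ rect m n) :
    ∃ t ∈ T, x ∈ hull t := by
  rw [← hT.cover] at hx
  obtain ⟨t, ht, hxt⟩ := Set.mem_iUnion₂.mp hx
  exact ⟨t, ht, hxt⟩

/-- a lattice point of the hull is a vertex -/
lemma IsTriangulation.mem_of_emb_mem (hT : IsTriangulation m n T) {t : Finset Pt} (ht : t ∈ T) {p : Pt}
    (hp : emb p ∈ hull t) : p ∈ t := by
  have h1 : p ∈ grid m n := emb_mem_rect.mp (hT.hull_sub ht hp)
  rw [← hT.verts] at h1
  obtain ⟨t', ht', hpt'⟩ := Finset.mem_biUnion.mp h1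
  have h2 : emb p ∈ hull (t ∩ t') := by
    rw [← hT.face t ht t' ht']
    exact ⟨hp, emb_mem_hull hpt'⟩
  exact (Finset.mem_inter.mp (mem_of_vertex (hT.tri t' ht') Finset.inter_subset_right hpt' h2)).1

/-- all triangles are unimodular -/
theorem IsTriangulation.uni (hT : IsTriangulation m n T) {t : Finset Pt} (ht : t ∈ T) : IsUni t := by
  obtain ⟨a, b, c, rfl, hD⟩ := orient (hT.tri t ht)
  refine ⟨a, b, c, rfl, ?_⟩
  rw [abs_of_pos hD]
  by_contra hne
  obtain ⟨p, hp, hpn⟩ := exists_lattice_point (a := a) (b := b) (c := c) (by omega)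
  exact hpn (hT.mem_of_emb_mem ht hp)

lemma interior_disj_of_missing {a b c : Pt} (h : 0 < det3 a b c) {s : Finset Pt} (hs : s ⊆ {b, c}) :
    Disjoint (interior (hull {a, b, c})) (hull s) := by
  rw [Set.disjoint_left]
  intro x hx hxs
  rw [interior_hull h] at hx
  have h1 : hull s ⊆ {x | detR b c x ≤ 0} := by
    apply hull_subset (convex_detR_nonpos b c)
    intro p hp
    have := hs hp
    simp only [Finset.mem_insert, Finset.mem_singleton] at this
    rcases this with rfl | rfl <;> simp
  have h2 : detR b c x ≤ 0 := h1 hxs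
  linarith [hx.2.1]

/-- if `s` is a proper subset of the vertices, its hull misses the open triangle -/
lemma interior_disj_of_ssubset {t s : Finset Pt} (ht : ∃ a b c : Pt, t = {a, b, c} ∧ det3 a b c ≠ 0)
    (hs : s ⊆ t) (hne : s ≠ t) : Disjoint (interior (hull t)) (hull s) := by
  obtain ⟨a, b, c, rfl, hD⟩ := orient ht
  obtain ⟨p, hp, hps⟩ : ∃ p ∈ ({a, b, c} : Finset Pt), p ∉ s := by
    by_contra hcon
    push Not at hcon
    exact hne (Finset.Subset.antisymm hs hcon)
  simp only [Finset.mem_insert, Finset.mem_singleton] at hp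
  have hs' : ∀ q ∈ s, q = a ∨ q = b ∨ q = c := by
    intro q hq
    have := hs hq
    simpa only [Finset.mem_insert, Finset.mem_singleton] using this
  rcases hp with rfl | rfl | rfl
  · apply interior_disj_of_missing hD
    intro q hq
    simp only [Finset.mem_insert, Finset.mem_singleton]
    rcases hs' q hq with rfl | h | h
    · exact absurd hq hps
    · exact Or.inl h
    · exact Or.inr h
  · rw [← perm1 a p c]
    apply interior_disj_of_missing (by rw [det3_rot]; exact hD)
    intro q hq
    simp only [Finset.mem_insert, Finset.mem_singleton]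
    rcases hs' q hq with h | rfl | h
    · exact Or.inr h
    · exact absurd hq hps
    · exact Or.inl h
  · rw [← perm2 a b p]
    apply interior_disj_of_missing (by rw [det3_rot']; exact hD)
    intro q hq
    simp only [Finset.mem_insert, Finset.mem_singleton]
    rcases hs' q hq with h | h | rfl
    · exact Or.inl h
    · exact Or.inr h
    · exact absurd hq hps

/-- interiors are pairwise disjoint -/
theorem IsTriangulation.disj (hT : IsTriangulation m n T) {t t' : Finset Pt} (ht : t ∈ T) (ht' : t' ∈ T)
    (hne : t ≠ t') : Disjoint (interior (hull t)) (interior (hull t')) := by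
  have h3 := (hT.uni ht).card
  have h3' := (hT.uni ht').card
  have hss : t ∩ t' ≠ t := by
    intro h
    have hsub : t ⊆ t' := by rw [← h]; exact Finset.inter_subset_right
    exact hne (Finset.eq_of_subset_of_card_le hsub (by omega))
  have hd := interior_disj_of_ssubset (hT.tri t ht) Finset.inter_subset_left hss
  rw [Set.disjoint_left] at hd ⊢
  intro x hx hx'
  apply hd hx
  rw [← hT.face t ht t' ht']
  exact ⟨interior_subset hx, interior_subset hx'⟩

lemma vol_interior {t : Finset Pt} (ht : IsUni t) : volume (interior (hull t)) = volume (hull t) := by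
  apply le_antisymm (measure_mono interior_subset)
  have h1 : hull t ⊆ interior (hull t) ∪ frontier (hull t) := by
    intro x hx
    by_cases h : x ∈ interior (hull t)
    · exact Or.inl h
    · exact Or.inr ⟨subset_closure hx, h⟩
  refine (measure_mono h1).trans ((measure_union_le _ _).trans ?_)
  rw [(convex_hull t).addHaar_frontier (volume : Measure (ℝ × ℝ))]
  simp

/-- disjoint unimodular triangles inside the rectangle: at most `2mn` -/
lemma card_le_of_disj (huni : ∀ t ∈ T, IsUni t) (hsub : ∀ t ∈ T, t ⊆ grid m n)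
    (hdisj : ∀ t ∈ T, ∀ t' ∈ T, t ≠ t' → Disjoint (interior (hull t)) (interior (hull t'))) :
    volume.real (⋃ t ∈ T, interior (hull t)) = T.card / 2 ∧ T.card ≤ 2 * m * n := by
  have hpd : Set.PairwiseDisjoint (↑T : Set (Finset Pt)) (fun t => interior (hull t)) :=
    fun t ht t' ht' hne => hdisj t ht t' ht' hne
  have h1 : volume (⋃ t ∈ T, interior (hull t)) = ∑ t ∈ T, volume (interior (hull t)) :=
    measure_biUnion_finset hpd (fun t _ => isOpen_interior.measurableSet)
  have h2 : volume.real (⋃ t ∈ T, interior (hull t)) = T.card / 2 := by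
    rw [Measure.real, h1, ENNReal.toReal_sum]
    · have : ∀ t ∈ T, (volume (interior (hull t))).toReal = 1 / 2 := by
        intro t ht
        rw [vol_interior (huni t ht)]; exact (huni t ht).vol
      rw [Finset.sum_congr rfl this, Finset.sum_const, nsmul_eq_mul]; ring
    · intro t ht
      rw [vol_interior (huni t ht)]; exact hull_ne_top t
  refine ⟨h2, ?_⟩
  have h3 : volume.real (⋃ t ∈ T, interior (hull t)) ≤ volume.real (rect m n) := by
    apply measureReal_mono
    · exact Set.iUnion₂_subset (fun t ht => interior_subset.trans (hull_subset_rect (hsub t ht)))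
    · exact (isCompact_rect m n).measure_lt_top.ne
  rw [h2, volume_rect] at h3
  have h4 : (T.card : ℝ) ≤ ((2 * m * n : ℕ) : ℝ) := by push_cast; linarith
  exact_mod_cast h4

/-- a triangulation has exactly `2mn` triangles -/
theorem IsTriangulation.card (hT : IsTriangulation m n T) : T.card = 2 * m * n := by
  apply le_antisymm
  · exact (card_le_of_disj (fun t ht => hT.uni ht) (fun t ht => hT.sub ht)
      (fun t ht t' ht' hne => hT.disj ht ht' hne)).2
  · have h1 : volume.real (rect m n) ≤ T.card * (1 / 2) := by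
      rw [← hT.cover]
      refine (measureReal_biUnion_finset_le T _).trans ?_
      rw [← nsmul_eq_mul]
      apply Finset.sum_le_card_nsmul
      intro s hs
      exact (hT.uni hs).vol.le
    rw [volume_rect] at h1
    have h4 : ((2 * m * n : ℕ) : ℝ) ≤ (T.card : ℝ) := by push_cast; linarith
    exact_mod_cast h4

lemma interior_rect (m n : ℕ) : interior (rect m n) = Set.Ioo 0 (m : ℝ) ×ˢ Set.Ioo 0 (n : ℝ) := by
  rw [rect, interior_prod_eq, interior_Icc, interior_Icc]

lemma rect_subset_closure (hm : 0 < m) (hn : 0 < n) : rect m n ⊆ closure (interior (rect m n)) := by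
  rw [interior_rect, closure_prod_eq, closure_Ioo, closure_Ioo]
  · exact subset_rfl
  · exact_mod_cast hn.ne
  · exact_mod_cast hm.ne

/-- **Disjointness criterion** -/
theorem isTriangulation_of_disj (hm : 0 < m) (hn : 0 < n)
    (huni : ∀ t ∈ T, IsUni t) (hsub : ∀ t ∈ T, t ⊆ grid m n)
    (hdisj : ∀ t ∈ T, ∀ t' ∈ T, t ≠ t' → Disjoint (interior (hull t)) (interior (hull t')))
    (hcard : 2 * m * n ≤ T.card) : IsTriangulation m n T := by
  obtain ⟨h1, h2⟩ := card_le_of_disj huni hsub hdisj
  apply isTriangulation_of_cover huni hsub _ h2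
  have hclosed : IsClosed (⋃ t ∈ T, hull t) :=
    T.finite_toSet.isClosed_biUnion (fun t _ => isClosed_hull t)
  -- the interior of the rectangle is covered
  have h3 : interior (rect m n) ⊆ ⋃ t ∈ T, hull t := by
    by_contra hcon
    rw [Set.not_subset] at hcon
    obtain ⟨x, hx, hxn⟩ := hcon
    set O := interior (rect m n) \ ⋃ t ∈ T, hull t with hO
    have hOo : IsOpen O := isOpen_interior.sdiff hclosed
    have hpos : 0 < volume O := (hOo.measure_pos_iff _).mpr ⟨x, hx, hxn⟩
    have hfin : volume O ≠ ⊤ :=
      ((measure_mono (Set.sdiff_subset.trans interior_subset)).trans_lt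
        (isCompact_rect m n).measure_lt_top).ne
    have hposR : 0 < volume.real O := ENNReal.toReal_pos hpos.ne' hfin
    have hd : Disjoint O (⋃ t ∈ T, interior (hull t)) := by
      rw [Set.disjoint_left]
      rintro y ⟨_, hy⟩ hy'
      obtain ⟨t, ht, hyt⟩ := Set.mem_iUnion₂.mp hy'
      exact hy (Set.mem_iUnion₂.mpr ⟨t, ht, interior_subset hyt⟩)
    have hU : O ∪ (⋃ t ∈ T, interior (hull t)) ⊆ rect m n := by
      apply Set.union_subset (Set.sdiff_subset.trans interior_subset)
      exact Set.iUnion₂_subset (fun t ht => interior_subset.trans (hull_subset_rect (hsub t ht)))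
    have hfin2 : volume (⋃ t ∈ T, interior (hull t)) ≠ ⊤ :=
      ((measure_mono (Set.subset_union_right.trans hU)).trans_lt
        (isCompact_rect m n).measure_lt_top).ne
    have h5 := measureReal_mono hU (isCompact_rect m n).measure_lt_top.ne
      (μ := (volume : Measure (ℝ × ℝ)))
    rw [measureReal_union hd (isOpen_biUnion (fun t _ => isOpen_interior)).measurableSet hfin hfin2,
      h1, volume_rect] at h5
    have h6 : ((2 * m * n : ℕ) : ℝ) ≤ (T.card : ℝ) := by exact_mod_cast hcard
    push_cast at h6
    linarith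
  calc rect m n ⊆ closure (interior (rect m n)) := rect_subset_closure hm hn
    _ ⊆ ⋃ t ∈ T, hull t := closure_minimal h3 hclosed

lemma interior_side {t : Finset Pt} {a b : Pt} (hab : a ≠ b) (h : ∀ p ∈ t, 0 ≤ det3 a b p)
    {x : ℝ × ℝ} (hx : x ∈ interior (hull t)) : 0 < detR a b x := by
  have hsub : hull t ⊆ {x | 0 ≤ detR a b x} := by
    apply hull_subset (convex_detR_nonneg a b)
    intro p hp
    show 0 ≤ detR a b (emb p)
    rw [detR_emb]; exact_mod_cast h p hp
  obtain ⟨ε, hε, h2⟩ := exists_eps hx (((b.2 : ℝ) - a.2), -((b.1 : ℝ) - a.1))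
  have h3 : 0 ≤ detR a b _ := hsub (interior_subset h2)
  rw [detR_add_smul] at h3
  have h4 : 0 < ((b.1 : ℝ) - a.1) * ((b.1 : ℝ) - a.1) + ((b.2 : ℝ) - a.2) * ((b.2 : ℝ) - a.2) := by
    rcases eq_or_ne a.1 b.1 with h5 | h5
    · have h6 : a.2 ≠ b.2 := fun h6 => hab (Prod.ext h5 h6)
      have h7 : (b.2 : ℝ) - a.2 ≠ 0 := by
        intro h8; apply h6
        have : (b.2 : ℝ) = a.2 := by linarith
        exact_mod_cast this.symm
      have := mul_self_nonneg ((b.1 : ℝ) - a.1)
      have := mul_self_pos.mpr h7
      linarith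
    · have h7 : (b.1 : ℝ) - a.1 ≠ 0 := by
        intro h8; apply h5
        have : (b.1 : ℝ) = a.1 := by linarith
        exact_mod_cast this.symm
      have := mul_self_nonneg ((b.2 : ℝ) - a.2)
      have := mul_self_pos.mpr h7
      linarith
  simp only at h3
  nlinarith

lemma SideSep.disj {t t' : Finset Pt} (h : SideSep t t') :
    Disjoint (interior (hull t)) (interior (hull t')) := by
  obtain ⟨a, _, b, _, hab, h1, h2⟩ := h
  rw [Set.disjoint_left]
  intro x hx hx'
  have h3 := interior_side hab h1 hx
  have h4 := interior_side hab.symm (t := t') (by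
    intro p hp; rw [det3_swap]; have := h2 p hp; omega) hx'
  rw [detR_swap] at h4
  linarith

lemma Sep.disj {t t' : Finset Pt} (h : Sep t t') :
    Disjoint (interior (hull t)) (interior (hull t')) := by
  rcases h with h | h
  · exact h.disj
  · exact h.disj.symm

/-- a combinatorial triangulation is a triangulation -/
theorem CombTri.isTriangulation (hm : 0 < m) (hn : 0 < n) (h : CombTri m n T) : IsTriangulation m n T :=
  isTriangulation_of_disj hm hn h.uni h.sub (fun t ht t' ht' hne => (h.sep t ht t' ht' hne).disj)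
    h.card.ge

end MP01b126
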