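import Mathlib

/-!
# MP_01b126_co, piece E7: thresholds along an ultrafilter
-/

namespace Pool.Agent.MP01b126

open Filter in
/-- `M k R a b` = (weighted) number of edges of the `k`-th triangulation which are `Full a` but not
`Full b`; chain sums are bounded. Then there are `a R` and `A k → ∞` with `M k R (a R) (A k)` small. -/
theorem thresholds (U : Ultrafilter ℕ) (hU : (U : Filter ℕ) ≤ Filter.atTop)
    (M : ℕ → ℕ → ℕ → ℕ → ℝ) (C ε : ℕ → ℝ) (hε : ∀ R, 0 < ε R)
    (hmono : ∀ k R a b b', b ≤ b' → M k R a b ≤ M k R a b')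
    (hchain : ∀ k R (r : ℕ) (s : ℕ → ℕ), StrictMono s →
      ∑ i ∈ Finset.range r, M k R (s i) (s (i + 1)) ≤ C R) :
    ∃ (a : ℕ → ℕ) (A : ℕ → ℕ), Tendsto A (U : Filter ℕ) atTop ∧
      ∀ᶠ k in (U : Filter ℕ), ∀ R, R ≤ A k → M k R (a R) (A k) ≤ ε R := by
  classical
  -- for every `R` there is a threshold `a`
  have key : ∀ R, ∃ a, ∀ b, ∀ᶠ k in (U : Filter ℕ), M k R a b ≤ ε R := by
    intro R
    by_contra hcon
    push Not at hcon
    have h1 : ∀ a, ∃ b, a < b ∧ ∀ᶠ k in (U : Filter ℕ), ε R < M k R a b := by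
      intro a
      obtain ⟨b, hb⟩ := hcon a
      refine ⟨max b (a + 1), by omega, ?_⟩
      filter_upwards [hb] with k hk
      exact lt_of_lt_of_le hk (hmono k R a b _ (le_max_left _ _))
    choose g hg1 hg2 using h1
    set s : ℕ → ℕ := fun i => g^[i] 0 with hs
    have hs1 : ∀ i, s (i + 1) = g (s i) := fun i => Function.iterate_succ_apply' g i 0
    have hsm : StrictMono s := strictMono_nat_of_lt_succ fun i => by rw [hs1]; exact hg1 _
    obtain ⟨r, hr⟩ := exists_nat_gt (C R / ε R)
    have h3 : ∀ᶠ k in (U : Filter ℕ), ∀ i ∈ Finset.range r, ε R < M k R (s i) (s (i + 1)) := by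
      rw [Filter.eventually_all_finset]
      intro i _
      rw [hs1]
      exact hg2 _
    obtain ⟨k, hk⟩ := h3.exists
    have h4 := hchain k R r s hsm
    have h5 : (r : ℝ) * ε R ≤ ∑ i ∈ Finset.range r, M k R (s i) (s (i + 1)) := by
      have := Finset.sum_le_sum fun i hi => (hk i hi).le
      simpa using this
    rw [div_lt_iff₀ (hε R)] at hr
    linarith
  choose a ha using key
  let Q : ℕ → ℕ → Prop := fun k B => ∀ R, R ≤ B → M k R (a R) B ≤ ε R
  refine ⟨a, fun k => Nat.findGreatest (Q k) k, ?_, ?_⟩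
  · rw [Filter.tendsto_atTop]
    intro B
    have h1 : ∀ᶠ k in (U : Filter ℕ), Q k B := by
      have : ∀ᶠ k in (U : Filter ℕ), ∀ R ∈ Finset.range (B + 1), M k R (a R) B ≤ ε R := by
        rw [Filter.eventually_all_finset]
        intro R _
        exact ha R B
      filter_upwards [this] with k hk R hR
      exact hk R (Finset.mem_range.mpr (by omega))
    have h2 : ∀ᶠ k in (U : Filter ℕ), B ≤ k := hU (Filter.eventually_ge_atTop B)
    filter_upwards [h1, h2] with k hk hk2
    exact Nat.le_findGreatest hk2 hk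
  · have h1 : ∀ᶠ k in (U : Filter ℕ), Q k 0 := by
      filter_upwards [ha 0 0] with k hk R hR
      have : R = 0 := by omega
      rw [this]
      exact hk
    filter_upwards [h1] with k hk
    exact Nat.findGreatest_spec (P := Q k) (Nat.zero_le k) hk

end Pool.Agent.MP01b126
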