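import Pool.Agent.Lib.MP_01b126_co.Ul.Strip
import Pool.Agent.Lib.MP_01b126_co.Ul.Room
import Pool.Agent.Lib.MP_01b126_co.Ul.Pull
import Pool.Agent.Lib.MP_01b126_co.Ul.Select
import Pool.Agent.Lib.MP_01b126_co.Ul.LimThm

/-!
# MP_01b126_co: the structure theorem
-/

namespace Pool.Agent.MP01b126

open Filter

namespace U5

theorem aff_add_smul (o u v x d : Pt) (j : ℤ) :
    aff o u v (x + j • d) = aff o u v x + j • (d.1 • u + d.2 • v) := by
  unfold aff
  ext
  · simp only [Prod.fst_add, Prod.snd_add, Prod.smul_fst, Prod.smul_snd, smul_eq_mul]; ring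
  · simp only [Prod.fst_add, Prod.snd_add, Prod.smul_fst, Prod.smul_snd, smul_eq_mul]; ring

theorem aff_aff (o u v o' u' v' x : Pt) : aff o u v (aff o' u' v' x) =
    aff (aff o u v o') (u'.1 • u + u'.2 • v) (v'.1 • u + v'.2 • v) x := by
  unfold aff
  ext
  · simp only [Prod.fst_add, Prod.snd_add, Prod.smul_fst, Prod.smul_snd, smul_eq_mul]; ring
  · simp only [Prod.fst_add, Prod.snd_add, Prod.smul_fst, Prod.smul_snd, smul_eq_mul]; ring

theorem det_lin5 (u v x y : Pt) :
    det (x.1 • u + x.2 • v) (y.1 • u + y.2 • v) = det u v * det x y := by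
  simp only [det, Prod.fst_add, Prod.snd_add, Prod.smul_fst, Prod.smul_snd, smul_eq_mul]; ring

theorem aff_sub_aff (o u v x y : Pt) :
    aff o u v x - aff o u v y = (x - y).1 • u + (x - y).2 • v := by
  unfold aff
  ext
  · simp only [Prod.fst_add, Prod.snd_add, Prod.smul_fst, Prod.smul_snd, smul_eq_mul,
      Prod.fst_sub, Prod.snd_sub]; ring
  · simp only [Prod.fst_add, Prod.snd_add, Prod.smul_fst, Prod.smul_snd, smul_eq_mul,
      Prod.fst_sub, Prod.snd_sub]; ring

theorem aff_zero (o u v : Pt) : aff o u v (0, 0) = o := by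
  unfold aff; simp

theorem cross_aff' {o u v : Pt} (hd : det u v = 1) {a b c d : Pt} :
    Cross (aff o u v a) (aff o u v b) (aff o u v c) (aff o u v d) ↔ Cross a b c d := by
  unfold Cross
  simp only [aff_sub_aff, det_lin5, hd, one_mul]

/-- a preimage under a unimodular affine map -/
theorem aff_pre {o u v : Pt} (hd : det u v = 1) (y : Pt) : ∃ x, aff o u v x = y := by
  refine ⟨(det (y - o) v, det u (y - o)), ?_⟩
  unfold aff
  have := expand hd (y - o)
  simp only
  rw [add_assoc, ← this]; abel

end U5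

open U5

/-- the root vertex of the limit is closed -/
theorem LSeq.root_closed (X : LSeq) {Y : MP01b126.Lim} (hV : Y.V = X.Vis) (hW : Y.W = X.Wl)
    {D L : ℕ} (hdeg : ∀ᶠ k in (X.U : Filter ℕ), deg (X.F k) (0, 0) ≤ D)
    (hrun : ∀ᶠ k in (X.U : Filter ℕ), ¬ OnRun (X.F k) L (0, 0)) : Y.ClosedAt (0, 0) := by
  have hroot : Y.V (0, 0) (1, 0) (0, 1) := by rw [hV]; exact LSeq.Vis.root
  have edge : ∀ {a b : Pt}, X.WL a b → ∀ᶠ k in (X.U : Filter ℕ), X.F k a b := by
    intro a b hab
    obtain ⟨⟨c, hc⟩, -⟩ := hab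
    filter_upwards [(X.vis_tr hc).1] with k hk
    exact (X.pt k).symm hk
  rcases Y.corner hroot with h | ⟨n, w, h0, -, -, -⟩ | ⟨w, -, -, h3, h4⟩
  · exact h
  · exfalso
    rw [hW] at h0
    -- a long run through the root
    have hline : ∃ x d : Pt, x = (0, 0) ∧ ∀ j : ℤ, ∀ᶠ k in (X.U : Filter ℕ),
        X.F k (x + j • d) (x + (j + 1) • d) := by
      rcases h0 with h0 | h0
      · refine ⟨(0, 0), w 0 - (0, 0), rfl, fun j => edge (X.WL_line h0 j)⟩
      · refine ⟨(0, 0), (0, 0) - w 0, rfl, fun j => ?_⟩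
        have := edge (X.WL_line h0 (j + 1))
        filter_upwards [this] with k hk
        convert hk using 1
        · simp only [add_smul, one_smul]; abel
        · simp only [add_smul, one_smul]; abel
    obtain ⟨x, d, hx, hj⟩ := hline
    have hL : ∀ᶠ k in (X.U : Filter ℕ), ∀ i ∈ Finset.range L,
        X.F k (x + (i : ℤ) • d) (x + ((i : ℤ) + 1) • d) := by
      rw [Filter.eventually_all_finset]
      exact fun i _ => hj i
    obtain ⟨k, hk1, hk2⟩ := (hL.and hrun).exists
    apply hk2
    exact ⟨x, d, fun i hi => hk1 i (Finset.mem_range.mpr hi), 0, Nat.zero_le _, by simp [hx]⟩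
  · exfalso
    have hinj : ∀ i j : ℤ, w i = w j → i = j := by
      intro i j hij
      by_contra hne
      rcases lt_or_gt_of_ne hne with h | h
      · have := h4 i j h
        rw [hij] at this
        have e : MP01b126.det3 (0, 0) (w j) (w j) = 0 := by unfold MP01b126.det3; ring
        omega
      · have := h4 j i h
        rw [hij] at this
        have e : MP01b126.det3 (0, 0) (w j) (w j) = 0 := by unfold MP01b126.det3; ring
        omega
    have hall : ∀ᶠ k in (X.U : Filter ℕ), ∀ i ∈ Finset.range (D + 1), X.F k (0, 0) (w (i : ℕ)) := by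
      rw [Filter.eventually_all_finset]
      intro i _
      have := h3 i
      rw [hV] at this
      exact (X.vis_tr this).1
    obtain ⟨k, hk1, hk2⟩ := (hall.and hdeg).exists
    have hsub : (((Finset.range (D + 1)).image (fun i : ℕ => w (i : ℤ)) : Finset Pt) : Set Pt) ⊆
        {x | X.F k (0, 0) x} := by
      intro x hx
      simp only [Finset.coe_image, Set.mem_image, Finset.mem_coe] at hx
      obtain ⟨i, hi, rfl⟩ := hx
      exact hk1 i hi
    have hcard := Set.ncard_le_ncard hsub ((X.pt k).fin _)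
    rw [Set.ncard_coe_finset, Finset.card_image_of_injective, Finset.card_range] at hcard
    · unfold deg at hk2
      omega
    · intro i j hij
      exact_mod_cast hinj _ _ hij

theorem structureThm (hcl : MP01b126.LimClassify) : StructureThm := by
  by_contra hne
  obtain ⟨D, L, B, W, X, m, n, E, o, u, v, hU, hT, hdet, hF, hRg, hev⟩ := selectThm hne
  obtain ⟨Y, hV, hW⟩ := X.lim
  have hdeg : ∀ᶠ k in (X.U : Filter ℕ), deg (X.F k) (0, 0) ≤ D := by
    filter_upwards [hev] with k hk
    rw [hF k, pull_deg (hdet k), aff_zero]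
    exact hk.1.1
  have hrun : ∀ᶠ k in (X.U : Filter ℕ), ¬ OnRun (X.F k) L (0, 0) := by
    filter_upwards [hev] with k hk
    rintro ⟨x, d, h1, i, hi, h2⟩
    apply hk.1.2.1
    refine ⟨aff (o k) (u k) (v k) x, d.1 • u k + d.2 • v k, ?_, i, hi, ?_⟩
    · intro i hi
      have := h1 i hi
      rw [hF k] at this
      unfold pull at this
      rwa [aff_add_smul, aff_add_smul] at this
    · rw [← aff_add_smul, ← h2, aff_zero]
  have hclosed := X.root_closed hV hW hdeg hrun
  rcases hcl Y (0, 0) hclosed with hR | hR | hR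
  · obtain ⟨R, hR⟩ := X.room_site hV hR
    obtain ⟨k, ⟨h1, h2⟩, h3⟩ := ((hR.and hev).and (hU (eventually_ge_atTop R))).exists
    apply h2.2.2
    obtain ⟨o', u', v', hd', hreg, hreach⟩ := h1
    have hroot := (X.root k).1
    rw [hF k] at hroot
    unfold pull at hroot
    rw [aff_zero] at hroot
    refine ⟨aff (o k) (u k) (v k) (1, 0), hroot, aff (o k) (u k) (v k) o',
      u'.1 • u k + u'.2 • v k, v'.1 • u k + v'.2 • v k, ?_, ?_, ?_⟩
    · rw [det_lin5, hdet k, one_mul]; exact hd'
    · intro i
      rw [← aff_aff, ← aff_aff]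
      have := hreg i
      rw [hRg k] at this
      exact this
    · intro i x y hxy hc
      obtain ⟨x, rfl⟩ := aff_pre (o := o k) (hdet k) x
      obtain ⟨y, rfl⟩ := aff_pre (o := o k) (hdet k) y
      rw [← aff_aff, ← aff_aff, cross_aff' (hdet k)] at hc
      have h4 : X.F k x y := by rw [hF k]; exact hxy
      have h5 := hreach i x y h4 hc
      rw [hF k, pull_reach (hdet k)] at h5
      have h6 : Reach (E k) R (o k, aff (o k) (u k) (v k) (1, 0))
          (aff (o k) (u k) (v k) x, aff (o k) (u k) (v k) y) := by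
        unfold rt at h5
        simp only at h5
        rwa [aff_zero] at h5
      exact reach_mono h3 h6
  · -- fans
    obtain ⟨A, d, hd, hfan⟩ := hR
    have hall : ∀ᶠ k in (X.U : Filter ℕ), ∀ i ∈ Finset.range (L + 1),
        X.F k A ((0, 0) + ((i : ℕ) : ℤ) • d) := by
      rw [Filter.eventually_all_finset]
      intro i _
      exact X.ev_of_VE hV (hfan i)
    obtain ⟨k, h1, h2⟩ := (hall.and hev).exists
    apply h2.1.2.2
    refine ⟨aff (o k) (u k) (v k) A, o k, d.1 • u k + d.2 • v k, ?_, ?_, 0, Nat.zero_le _, by simp⟩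
    · intro i hi
      have := h1 i (Finset.mem_range.mpr (by omega))
      rw [hF k] at this
      unfold pull at this
      rwa [aff_add_smul, aff_zero] at this
    · have e : o k - aff (o k) (u k) (v k) A =
          ((0, 0) - A).1 • u k + ((0, 0) - A).2 • v k := by
        rw [← aff_sub_aff (o k), aff_zero]
      rw [e, det_lin5, hdet k, one_mul]
      exact eq_or_eq_neg_of_abs_eq hd
  · -- strips
    obtain ⟨k, ⟨d, w, h1⟩, h2⟩ := ((X.strip_good hV hW hR B W).and hev).exists
    apply h2.2.1
    rw [hF k] at h1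
    have := pull_good (hdet k) h1
    rw [aff_zero] at this
    exact ⟨_, _, this⟩

end Pool.Agent.MP01b126
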